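import Pool.Agent.Lib.MP_3eb465_an.Defs

/-!
Functions all of whose derivatives up to a given order are bounded by an explicit constant.
-/

namespace Pool.Agent.Lib.MP_3eb465_an

open Set Filter Topology
open scoped ContDiff Nat

section BD

variable {V W : Type*} [NormedAddCommGroup V] [NormedSpace ℝ V]
  [NormedAddCommGroup W] [NormedSpace ℝ W]

/-- all derivatives of `f` of order at most `n` are bounded by `C` -/
def BD (n : ℕ) (C : ℝ) (f : V → W) : Prop := ∀ i ≤ n, ∀ x, ‖iteratedFDeriv ℝ i f x‖ ≤ C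

theorem BD.mono {n m : ℕ} {C D : ℝ} {f : V → W} (h : BD n C f) (hm : m ≤ n) (hC : C ≤ D) :
    BD m D f := fun i hi x => (h i (hi.trans hm) x).trans hC

theorem BD.nonneg {n : ℕ} {C : ℝ} {f : V → W} (h : BD n C f) : 0 ≤ C :=
  (norm_nonneg _).trans (h 0 (Nat.zero_le _) 0)

theorem BD.norm_le {n : ℕ} {C : ℝ} {f : V → W} (h : BD n C f) (x : V) : ‖f x‖ ≤ C := by
  have := h 0 (Nat.zero_le _) x
  rwa [norm_iteratedFDeriv_zero] at this

theorem BD.of_succ {n : ℕ} {C : ℝ} {f : V → W} (h0 : ∀ x, ‖f x‖ ≤ C) (h : BD n C (fderiv ℝ f)) :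
    BD (n + 1) C f := by
  intro i hi x
  rcases Nat.eq_zero_or_pos i with rfl | h1
  · rw [norm_iteratedFDeriv_zero]; exact h0 x
  · obtain ⟨j, rfl⟩ : ∃ j, i = j + 1 := ⟨i - 1, by omega⟩
    rw [← norm_iteratedFDeriv_fderiv]
    exact h j (by omega) x

theorem BD.fderiv {n : ℕ} {C : ℝ} {f : V → W} (h : ∀ i, 1 ≤ i → i ≤ n + 1 → ∀ x,
    ‖iteratedFDeriv ℝ i f x‖ ≤ C) : BD n C (fderiv ℝ f) := by
  intro i hi x
  rw [norm_iteratedFDeriv_fderiv]
  exact h (i + 1) (by omega) (by omega) x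

theorem BD.of_fderiv {n : ℕ} {C : ℝ} {f : V → W} (h : BD n C (_root_.fderiv ℝ f)) :
    ∀ i, 1 ≤ i → i ≤ n + 1 → ∀ x, ‖iteratedFDeriv ℝ i f x‖ ≤ C := by
  intro i h1 hi x
  obtain ⟨j, rfl⟩ : ∃ j, i = j + 1 := ⟨i - 1, by omega⟩
  rw [← norm_iteratedFDeriv_fderiv]
  exact h j (by omega) x

theorem BD.smul {n : ℕ} {A B : ℝ} {f : V → ℝ} {g : V → W} (hf : ContDiff ℝ n f)
    (hg : ContDiff ℝ n g) (hA : BD n A f) (hB : BD n B g) :
    BD n (2 ^ n * (A * B)) (fun x => f x • g x) := by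
  intro i hi x
  have hA0 := hA.nonneg
  have hB0 := hB.nonneg
  refine (norm_iteratedFDeriv_smul_le hf hg x (by exact_mod_cast hi)).trans ?_
  calc ∑ j ∈ Finset.range (i + 1), (i.choose j : ℝ) * ‖iteratedFDeriv ℝ j f x‖ *
        ‖iteratedFDeriv ℝ (i - j) g x‖
      ≤ ∑ j ∈ Finset.range (i + 1), (i.choose j : ℝ) * (A * B) := by
        refine Finset.sum_le_sum fun j hj => ?_
        rw [mul_assoc]
        refine mul_le_mul_of_nonneg_left ?_ (by positivity)
        have hj' : j ≤ i := Nat.lt_succ_iff.1 (Finset.mem_range.1 hj)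
        exact mul_le_mul (hA j (hj'.trans hi) x) (hB (i - j) ((Nat.sub_le _ _).trans hi) x)
          (norm_nonneg _) hA0
    _ = 2 ^ i * (A * B) := by
        rw [← Finset.sum_mul]
        congr 1
        exact_mod_cast Nat.sum_range_choose i
    _ ≤ 2 ^ n * (A * B) := by
        refine mul_le_mul_of_nonneg_right ?_ (mul_nonneg hA0 hB0)
        exact pow_le_pow_right₀ (by norm_num) hi

theorem BD.clm {n : ℕ} {A : ℝ} {X : Type*} [NormedAddCommGroup X] [NormedSpace ℝ X]
    {f : V → W} (hf : ContDiff ℝ n f) (hA : BD n A f)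
    (L : W →L[ℝ] X) : BD n (‖L‖ * A) (fun x => L (f x)) := by
  intro i hi x
  refine (L.norm_iteratedFDeriv_comp_left hf.contDiffAt (n := i) (by exact_mod_cast hi)).trans ?_
  exact mul_le_mul_of_nonneg_left (hA i hi x) (norm_nonneg _)

theorem BD.neg {n : ℕ} {A : ℝ} {f : V → W} (hA : BD n A f) : BD n A (fun x => - f x) := by
  intro i hi x
  have : (fun x => - f x) = -f := rfl
  rw [this, iteratedFDeriv_neg_apply, norm_neg]
  exact hA i hi x

theorem BD.add {n : ℕ} {A B : ℝ} {f g : V → W} (hf : ContDiff ℝ n f) (hg : ContDiff ℝ n g)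
    (hA : BD n A f) (hB : BD n B g) : BD n (A + B) (fun x => f x + g x) := by
  intro i hi x
  have h1 : ContDiffAt ℝ i f x := (hf.of_le (by exact_mod_cast hi)).contDiffAt
  have h2 : ContDiffAt ℝ i g x := (hg.of_le (by exact_mod_cast hi)).contDiffAt
  have := iteratedFDeriv_add_apply h1 h2
  have e : (fun x => f x + g x) = f + g := rfl
  rw [e, this]
  exact (norm_add_le _ _).trans (add_le_add (hA i hi x) (hB i hi x))

/-- the inverse of a function bounded below -/
theorem BD.inv_exists (n : ℕ) {A c : ℝ} (hc : 0 < c) : ∃ R : ℝ, ∀ g : V → ℝ, ContDiff ℝ n g →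
    BD n A g → (∀ x, c ≤ g x) → BD n R (fun x => (g x)⁻¹) := by
  induction n with
  | zero =>
    refine ⟨c⁻¹, fun g _ _ hg i hi x => ?_⟩
    obtain rfl : i = 0 := by omega
    rw [norm_iteratedFDeriv_zero, norm_inv, Real.norm_eq_abs]
    exact inv_anti₀ hc ((hg x).trans (le_abs_self _))
  | succ n ih =>
    obtain ⟨R, hR⟩ := ih
    refine ⟨max c⁻¹ (2 ^ n * ((2 ^ n * (R * R)) * A)), fun g hg hgA hgc => ?_⟩
    have hgn : ContDiff ℝ n g := hg.of_le (by exact_mod_cast Nat.le_succ n)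
    have hr := hR g hgn (hgA.mono (Nat.le_succ n) le_rfl) hgc
    have hg0 : ∀ x, g x ≠ 0 := fun x => (hc.trans_le (hgc x)).ne'
    have hrc : ContDiff ℝ n (fun x => (g x)⁻¹) := hgn.inv hg0
    refine BD.of_succ ?_ ?_
    · intro x
      refine le_trans ?_ (le_max_left _ _)
      rw [norm_inv, Real.norm_eq_abs]
      exact inv_anti₀ hc ((hgc x).trans (le_abs_self _))
    · have hd : _root_.fderiv ℝ (fun x => (g x)⁻¹) =
          fun x => (-((g x)⁻¹ • (g x)⁻¹)) • _root_.fderiv ℝ g x := by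
        ext1 x
        have h1 : HasFDerivAt g (_root_.fderiv ℝ g x) x :=
          (hg.differentiable (by simp)).differentiableAt.hasFDerivAt
        have h2 := (hasDerivAt_inv (hg0 x)).comp_hasFDerivAt x h1
        have h3 := h2.fderiv
        have e : (Inv.inv ∘ g) = fun x => (g x)⁻¹ := rfl
        rw [← e]
        refine h3.trans ?_
        congr 1
        simp only [smul_eq_mul]
        rw [pow_two, mul_inv]
      rw [hd]
      refine BD.mono ?_ le_rfl (le_max_right _ _)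
      refine BD.smul (hrc.smul hrc).neg (hg.fderiv_right (by exact_mod_cast le_rfl)) ?_ ?_
      · exact (BD.smul hrc hrc hr hr).neg
      · exact BD.fderiv fun i _ hi x => hgA i hi x

theorem BD.comp_exists {X : Type*} [NormedAddCommGroup X] [NormedSpace ℝ X] (n : ℕ) {A D : ℝ} :
    ∃ C : ℝ, ∀ (g : W → X) (f : V → W), ContDiff ℝ n g → ContDiff ℝ n f →
    BD n A g → (∀ i, 1 ≤ i → i ≤ n → ∀ x, ‖iteratedFDeriv ℝ i f x‖ ≤ D) →
    BD n C (fun x => g (f x)) := by
  refine ⟨n ! * A * (max 1 D) ^ n, fun g f hg hf hA hD i hi x => ?_⟩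
  have hA0 := hA.nonneg
  have h1 : (1 : ℝ) ≤ max 1 D := le_max_left _ _
  refine (norm_iteratedFDeriv_comp_le hg hf (n := i) (by exact_mod_cast hi) x
    (fun j hj => hA j (hj.trans hi) (f x)) (D := max 1 D) (fun j h1j hj => ?_)).trans ?_
  · refine ((hD j h1j (hj.trans hi) x).trans (le_max_right 1 D)).trans ?_
    exact le_self_pow₀ h1 (by omega)
  · have e1 : ((i ! : ℕ) : ℝ) ≤ (n ! : ℕ) := by exact_mod_cast Nat.factorial_le hi
    have e2 : (max 1 D) ^ i ≤ (max 1 D) ^ n := pow_le_pow_right₀ h1 hi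
    have e3 : 0 ≤ (max 1 D) ^ i := by positivity
    gcongr

end BD

end Pool.Agent.Lib.MP_3eb465_an
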