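import Pool.Agent.Lib.MP_3eb465_an.ExplicitLap

/-!
The barrier `b = 200 (arctan (L D + 1) - π / 4)` and the connectedness of the domain.
-/

namespace Pool.Agent.Lib.MP_3eb465_an

open MeasureTheory InnerProductSpace Laplacian Set Filter Topology
open scoped ContDiff RealInnerProductSpace

section Explicit

/-! ### gradient and Laplacian of `D` -/

/-- `ΔN = kap N` -/
noncomputable def kap (x : E5) : ℝ := 4 - 4 / RR x ^ 2 - 4 / RR x - 2 / RR x ^ 3

theorem hasLap_expR2 (x : E5) :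
    HasLap (fun y => Real.exp (-2 * RR y)) x
      ((-1 / RR x * Real.exp (-2 * RR x)) • YY x)
      (kap x * Real.exp (-2 * RR x)) := by
  have h := hasLap_of_sy x (φ := fun t => Real.exp (-2 * √t))
    (ψ := fun t => -1 / √t * Real.exp (-2 * √t))
    (b := (1 / 2 / √(sy x) ^ 3 + 1 / √(sy x) ^ 2) * Real.exp (-2 * √(sy x))) ?_ ?_ ?_
  · refine h.of_eq rfl ?_
    have h1 : √(sy x) = RR x := rfl
    simp only [h1]
    rw [← RR_sq x, kap]
    have := RR_pos x
    field_simp
    ring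
  · exact (contDiffAt_const.mul (Real.contDiffAt_sqrt (sy_pos x).ne')).exp
  · intro t ht
    have hs : 0 < √t := Real.sqrt_pos.2 ht
    refine HasDerivAt.congr_deriv (((Real.hasDerivAt_sqrt ht.ne').const_mul (-2 : ℝ)).exp) ?_
    field_simp
    try ring
  · have ht := sy_pos x
    have hs : 0 < √(sy x) := Real.sqrt_pos.2 ht
    refine HasDerivAt.congr_deriv (((hasDerivAt_const (sy x) (-1 : ℝ)).div
      (Real.hasDerivAt_sqrt ht.ne') hs.ne').mul
      (((Real.hasDerivAt_sqrt ht.ne').const_mul (-2 : ℝ)).exp)) ?_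
    simp only [Pi.div_apply]
    field_simp
    try ring

/-- the square of the gradient of `D` -/
noncomputable def GG (x : E5) : ℝ :=
  Real.sin (x 0) ^ 2 + 4 * NN x ^ 2 * (1 - 1 / RR x ^ 2) + Real.exp (-2 * RR x) ^ 2

theorem hasLap_DD (x : E5) : ∃ g : E5, HasLap DD x g (-Real.cos (x 0) + kap x * NN x) ∧
    ‖g‖ ^ 2 = GG x := by
  have h := ((hasLap_x 4 x).mul (hasLap_expR2 x)).add (hasLap_c0 x)
  have h2 : (fun y : E5 => y 4 * Real.exp (-2 * RR y) + Real.cos (y 0)) = DD := rfl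
  rw [h2] at h
  refine ⟨_, h.of_eq rfl ?_, ?_⟩
  · rw [inner_smul_right, real_inner_comm, inner_YY_ee4, NN]
    ring
  · rw [← real_inner_self_eq_norm_sq]
    have hY : ⟪YY x, YY x⟫ = 4 * (RR x ^ 2 - 1) := by
      rw [real_inner_self_eq_norm_sq, norm_sq_YY, RR_sq]
    have h4 : ⟪ee 4, YY x⟫ = 0 := by rw [real_inner_comm, inner_YY_ee4]
    have h0 : ⟪ee 0, YY x⟫ = 0 := by rw [real_inner_comm, inner_YY_ee0]
    simp only [inner_add_left, inner_add_right, inner_smul_left, inner_smul_right, inner_ee,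
      inner_YY_ee0, inner_YY_ee4, hY, h4, h0, conj_trivial]
    have hR := RR_pos x
    simp only [GG, NN]
    simp
    field_simp
    ring

theorem inv_RR_le (x : E5) : 0 < 1 / RR x ∧ 1 / RR x ≤ 1 := by
  have h := one_le_RR x
  have h0 := RR_pos x
  exact ⟨by positivity, by rw [div_le_one h0]; exact h⟩

theorem kap_eq (x : E5) : kap x = 4 - 4 * (1 / RR x) ^ 2 - 4 * (1 / RR x) - 2 * (1 / RR x) ^ 3 := by
  unfold kap
  have h0 := RR_pos x
  field_simp

theorem abs_kap_le (x : E5) : |kap x| ≤ 6 := by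
  obtain ⟨h0, h1⟩ := inv_RR_le x
  rw [kap_eq, abs_le]
  set ρ := 1 / RR x
  have h2 : ρ ^ 2 ≤ 1 := pow_le_one₀ h0.le h1
  have h3 : ρ ^ 3 ≤ 1 := pow_le_one₀ h0.le h1
  constructor
  · nlinarith
  · have : 0 < ρ ^ 2 := by positivity
    have : 0 < ρ ^ 3 := by positivity
    linarith

theorem abs_NN_le_of_DD (x : E5) : |NN x| ≤ |DD x| + 1 := by
  have h : NN x = DD x - Real.cos (x 0) := by unfold DD; ring
  rw [h]
  exact (abs_sub _ _).trans (by gcongr; exact Real.abs_cos_le_one _)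

theorem GG_nonneg (x : E5) : 0 ≤ GG x := by
  obtain ⟨g, _, hg⟩ := hasLap_DD x
  rw [← hg]; positivity

theorem GG_le (x : E5) : GG x ≤ 2 + 4 * NN x ^ 2 := by
  obtain ⟨h0, h1⟩ := inv_RR_le x
  have h2 : 1 / RR x ^ 2 = (1 / RR x) ^ 2 := by rw [div_pow, one_pow]
  unfold GG
  rw [h2]
  have h3 : Real.sin (x 0) ^ 2 ≤ 1 := Real.sin_sq_le_one _
  have h4 : Real.exp (-2 * RR x) ≤ 1 := by
    rw [Real.exp_le_one_iff]; linarith [RR_pos x]
  have h5 : Real.exp (-2 * RR x) ^ 2 ≤ 1 := pow_le_one₀ (Real.exp_pos _).le h4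
  have h6 : 4 * NN x ^ 2 * (1 - (1 / RR x) ^ 2) ≤ 4 * NN x ^ 2 * 1 := by
    gcongr
    have : 0 < (1 / RR x) ^ 2 := by positivity
    linarith
  linarith

theorem GG_lower (x : E5) (h : |DD x| ≤ 1 / 8) : Real.exp (-6) ≤ GG x := by
  have he : Real.exp (-6) ≤ 1 / 2 := by
    have h1 : Real.exp (-6) ≤ Real.exp (-1) := Real.exp_le_exp.2 (by norm_num)
    have h2 : Real.exp (-1) < 0.3678794412 := Real.exp_neg_one_lt_d9
    linarith
  by_cases hR : RR x ^ 2 ≤ 2
  · have h1 : RR x ≤ 3 / 2 := by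
      have := RR_pos x
      nlinarith
    unfold GG
    have h2 : Real.exp (-6) ≤ Real.exp (-2 * RR x) ^ 2 := by
      rw [← Real.exp_nat_mul]
      apply Real.exp_le_exp.2
      push_cast
      linarith
    have h3 : 0 ≤ 1 - 1 / RR x ^ 2 := by
      have h4 : 1 ≤ RR x ^ 2 := by rw [RR_sq]; exact one_le_sy x
      rw [sub_nonneg, div_le_one (by positivity)]
      exact h4
    have h4 : 0 ≤ 4 * NN x ^ 2 * (1 - 1 / RR x ^ 2) := by positivity
    have h5 : 0 ≤ Real.sin (x 0) ^ 2 := sq_nonneg _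
    linarith
  · push Not at hR
    refine he.trans ?_
    unfold GG
    have h1 : 1 / RR x ^ 2 ≤ 1 / 2 := by
      apply one_div_le_one_div_of_le (by norm_num) hR.le
    have h2 : 4 * NN x ^ 2 * (1 / 2) ≤ 4 * NN x ^ 2 * (1 - 1 / RR x ^ 2) := by
      gcongr
      linarith
    have h3 : Real.sin (x 0) ^ 2 + Real.cos (x 0) ^ 2 = 1 := Real.sin_sq_add_cos_sq _
    have h4 : NN x = DD x - Real.cos (x 0) := by unfold DD; ring
    have h5 : 0 ≤ Real.exp (-2 * RR x) ^ 2 := sq_nonneg _
    have h6 : DD x ^ 2 ≤ 1 / 64 := by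
      rw [abs_le] at h
      nlinarith
    have h7 : 4 * NN x ^ 2 * (1 / 2) = 2 * (DD x - Real.cos (x 0)) ^ 2 := by rw [h4]; ring
    have h8 := sq_nonneg (Real.cos (x 0) - 2 * DD x)
    rw [h7] at h2
    linarith [h2, h3, h5, h6, h8]

/-! ### the function of one variable -/

/-- `L = (140 e^6)^2` -/
noncomputable def LL : ℝ := (140 * Real.exp 6) ^ 2

/-- the one variable function -/
noncomputable def sig (s : ℝ) : ℝ := Real.arctan (LL * s + 1) - Real.pi / 4

theorem LL_pos : 0 < LL := by unfold LL; positivity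

theorem hasDerivAt_sig (s : ℝ) : HasDerivAt sig (LL / (1 + (LL * s + 1) ^ 2)) s := by
  have h1 : HasDerivAt (fun s => LL * s + 1) LL s := by
    simpa using ((hasDerivAt_id s).const_mul LL).add_const 1
  refine HasDerivAt.congr_deriv (h1.arctan.sub_const (Real.pi / 4)) ?_
  ring

theorem hasDerivAt_sig' (s : ℝ) : HasDerivAt (fun s => LL / (1 + (LL * s + 1) ^ 2))
    (-(2 * LL ^ 2 * (LL * s + 1)) / (1 + (LL * s + 1) ^ 2) ^ 2) s := by
  have h1 : HasDerivAt (fun s => LL * s + 1) LL s := by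
    simpa using ((hasDerivAt_id s).const_mul LL).add_const 1
  have h2 : 1 + (LL * s + 1) ^ 2 ≠ 0 := by positivity
  refine HasDerivAt.congr_deriv ((hasDerivAt_const s LL).div ((h1.pow 2).const_add 1) h2) ?_
  field_simp
  try ring

theorem contDiff_sig : ContDiff ℝ 2 sig := by
  unfold sig
  exact (Real.contDiff_arctan.comp ((contDiff_const.mul contDiff_id).add contDiff_const)).sub
    contDiff_const

/-- the barrier -/
noncomputable def bar (x : E5) : ℝ := 200 * sig (DD x)

theorem hasLap_bar (x : E5) : ∃ g : E5, HasLap bar x g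
    (200 * (-(2 * LL ^ 2 * (LL * DD x + 1)) / (1 + (LL * DD x + 1) ^ 2) ^ 2 * GG x +
      LL / (1 + (LL * DD x + 1) ^ 2) * (-Real.cos (x 0) + kap x * NN x))) ∧
    ‖g‖ = 200 * (LL / (1 + (LL * DD x + 1) ^ 2)) * √(GG x) := by
  obtain ⟨g, hg, hG⟩ := hasLap_DD x
  have h := (hg.comp' (φ := sig) contDiff_sig.contDiffAt
    (Eventually.of_forall hasDerivAt_sig) (hasDerivAt_sig' _)).const_mul 200
  refine ⟨_, h.of_eq rfl ?_, ?_⟩
  · rw [hG]
  · have h1 : ‖g‖ = √(GG x) := by rw [← hG, Real.sqrt_sq (norm_nonneg _)]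
    have h2 : 0 ≤ LL / (1 + (LL * DD x + 1) ^ 2) := by
      have := LL_pos
      positivity
    rw [norm_smul, norm_smul, h1, Real.norm_of_nonneg h2, Real.norm_of_nonneg (by norm_num)]
    ring

theorem l_ge : 140 ≤ 140 * Real.exp 6 := by
  have : 1 ≤ Real.exp 6 := Real.one_le_exp (by norm_num)
  linarith

theorem LL_ge : 140 ^ 2 ≤ LL := by
  unfold LL
  exact pow_le_pow_left₀ (by norm_num) l_ge 2

theorem abs_lapDD_le (x : E5) : |-Real.cos (x 0) + kap x * NN x| ≤ 7 + 6 * |DD x| := by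
  have h1 := abs_kap_le x
  have h2 := abs_NN_le_of_DD x
  have h3 := Real.abs_cos_le_one (x 0)
  calc |-Real.cos (x 0) + kap x * NN x| ≤ |-Real.cos (x 0)| + |kap x * NN x| := abs_add_le _ _
    _ ≤ 1 + 6 * (|DD x| + 1) := by
        rw [abs_neg, abs_mul]
        gcongr
    _ = _ := by ring

/-- the supersolution inequality in terms of `X = L D + 1` -/
theorem super_sig (x : E5) (hX : 1 / 2 ≤ LL * DD x + 1) :
    1 / 200 ≤ -(-(2 * LL ^ 2 * (LL * DD x + 1)) / (1 + (LL * DD x + 1) ^ 2) ^ 2 * GG x +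
      LL / (1 + (LL * DD x + 1) ^ 2) * (-Real.cos (x 0) + kap x * NN x)) + 4 * sig (DD x) := by
  have hL := LL_pos
  have hl := l_ge
  set l : ℝ := 140 * Real.exp 6 with hldef
  have hLl : LL = l ^ 2 := rfl
  set Λ := -Real.cos (x 0) + kap x * NN x with hΛ
  have hΛ1 : |Λ| ≤ 7 + 6 * |DD x| := abs_lapDD_le x
  have hG := GG_nonneg x
  set X := LL * DD x + 1 with hXdef
  have hsig : sig (DD x) = Real.arctan X - Real.pi / 4 := rfl
  have hq : 0 < 1 + X ^ 2 := by positivity
  rw [hsig]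
  have hDX : DD x = (X - 1) / LL := by
    rw [hXdef]; field_simp; ring
  by_cases hA : X ≤ 10 * l
  · -- case A
    have hD : |DD x| ≤ 1 / 8 := by
      rw [hDX, abs_div, abs_of_pos hL, div_le_iff₀ hL, abs_le, hLl]
      constructor
      · nlinarith
      · nlinarith
    have hG2 := GG_lower x hD
    have hΛ2 : Λ ≤ 8 := by
      have := le_abs_self Λ
      linarith
    have h1 : l ^ 2 * Real.exp (-6) / (10 * l) = 14 := by
      have h2 : Real.exp (-6) = 1 / Real.exp 6 := by rw [Real.exp_neg, one_div]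
      rw [h2, hldef]
      have := Real.exp_pos 6
      field_simp
      norm_num
    have h3 : 1 / (20 * l) ≤ X / (1 + X ^ 2) := by
      rw [div_le_div_iff₀ (by positivity) hq]
      nlinarith
    have h4 : 14 ≤ 2 * LL * (X / (1 + X ^ 2)) * GG x := by
      calc (14 : ℝ) = 2 * (l ^ 2) * (1 / (20 * l)) * Real.exp (-6) := by
            rw [← h1]; field_simp; norm_num
        _ ≤ 2 * LL * (X / (1 + X ^ 2)) * GG x := by
            rw [hLl]
            gcongr
    have h5 : -(-(2 * LL ^ 2 * X) / (1 + X ^ 2) ^ 2 * GG x + LL / (1 + X ^ 2) * Λ)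
        = LL / (1 + X ^ 2) * (2 * LL * (X / (1 + X ^ 2)) * GG x - Λ) := by
      field_simp
      ring
    have h6 : LL / (1 + X ^ 2) * 6 ≤
        -(-(2 * LL ^ 2 * X) / (1 + X ^ 2) ^ 2 * GG x + LL / (1 + X ^ 2) * Λ) := by
      rw [h5]
      gcongr
      linarith
    by_cases hX1 : 1 ≤ X
    · have h7 : Real.pi / 4 ≤ Real.arctan X := by
        rw [← Real.arctan_one]
        exact Real.arctan_strictMono.monotone hX1
      have h8 : 1 / 200 ≤ LL / (1 + X ^ 2) * 6 := by
        rw [div_mul_eq_mul_div, div_le_div_iff₀ (by norm_num) hq, hLl]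
        nlinarith
      linarith
    · push Not at hX1
      have h7 : 0 ≤ Real.arctan X := Real.arctan_nonneg.2 (by linarith)
      have h8 : 3 * LL ≤ LL / (1 + X ^ 2) * 6 := by
        rw [div_mul_eq_mul_div, le_div_iff₀ hq]
        have hX2 : X ^ 2 ≤ 1 := by nlinarith
        calc 3 * LL * (1 + X ^ 2) ≤ 3 * LL * (1 + 1) := by gcongr
          _ = LL * 6 := by ring
      have h9 := LL_ge
      have h10 := Real.pi_lt_four
      linarith
  · -- case B
    push Not at hA
    have hXbig : 1400 ≤ X := by linarith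
    have hD0 : 0 ≤ DD x := by
      rw [hDX]; apply div_nonneg _ hL.le; linarith
    have h1 : 0 ≤ 2 * LL ^ 2 * X / (1 + X ^ 2) ^ 2 * GG x := by positivity
    have h2 : LL * (6 * DD x) ≤ 6 * X := by
      have : LL * DD x = X - 1 := by rw [hXdef]; ring
      nlinarith
    have h3 : LL / (1 + X ^ 2) * Λ ≤ 1 / 2 := by
      rw [div_mul_eq_mul_div, div_le_iff₀ hq]
      have h4 : Λ ≤ 7 + 6 * DD x := by
        rw [abs_of_nonneg hD0] at hΛ1
        exact (le_abs_self _).trans hΛ1
      have h5 : LL * Λ ≤ LL * (7 + 6 * DD x) := by gcongr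
      have h6 : LL * 100 ≤ X ^ 2 := by
        rw [hLl]; nlinarith
      nlinarith
    have h4 : Real.pi / 3 ≤ Real.arctan X := by
      have h5 : Real.arctan √3 = Real.pi / 3 := Real.arctan_sqrt_three
      rw [← h5]
      apply Real.arctan_strictMono.monotone
      have : √3 ≤ 2 := by
        rw [Real.sqrt_le_left (by norm_num)]; norm_num
      linarith
    have h5 := Real.pi_gt_three
    have h6 : -(-(2 * LL ^ 2 * X) / (1 + X ^ 2) ^ 2 * GG x + LL / (1 + X ^ 2) * Λ)
        = 2 * LL ^ 2 * X / (1 + X ^ 2) ^ 2 * GG x - LL / (1 + X ^ 2) * Λ := by ring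
    rw [h6]
    linarith

/-- bound of the gradient -/
theorem grad_bd (x : E5) :
    200 * (LL / (1 + (LL * DD x + 1) ^ 2)) * √(GG x) ≤ 200 * (LL * 8) := by
  have hL := LL_pos
  have hL1 : 1 ≤ LL := by have := LL_ge; linarith
  have hG := GG_nonneg x
  set X := LL * DD x + 1 with hXdef
  have hDX : |DD x| ≤ |X| + 1 := by
    have h1 : LL * |DD x| = |X - 1| := by
      rw [hXdef, add_sub_cancel_right, abs_mul, abs_of_pos hL]
    have h2 : |X - 1| ≤ |X| + 1 := by
      have := abs_sub X 1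
      rwa [abs_one] at this
    have h3 : |DD x| ≤ LL * |DD x| := le_mul_of_one_le_left (abs_nonneg _) hL1
    linarith
  have hN := abs_NN_le_of_DD x
  have h1 : √(GG x) ≤ 8 * (1 + X ^ 2) := by
    rw [Real.sqrt_le_left (by positivity)]
    have h2 := GG_le x
    have h3 : NN x ^ 2 ≤ (|X| + 2) ^ 2 := by
      rw [← sq_abs (NN x)]
      have : |NN x| ≤ |X| + 2 := by linarith
      exact pow_le_pow_left₀ (abs_nonneg _) this 2
    have h4 : |X| ^ 2 = X ^ 2 := sq_abs X
    nlinarith [sq_nonneg (|X| - 1), sq_nonneg X, sq_nonneg (X ^ 2), abs_nonneg X]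
  have h5 : LL / (1 + X ^ 2) * √(GG x) ≤ LL * 8 := by
    rw [div_mul_eq_mul_div, div_le_iff₀ (by positivity)]
    calc LL * √(GG x) ≤ LL * (8 * (1 + X ^ 2)) := by gcongr
      _ = _ := by ring
  calc 200 * (LL / (1 + X ^ 2)) * √(GG x) = 200 * (LL / (1 + X ^ 2) * √(GG x)) := by ring
    _ ≤ _ := by gcongr

/-- bound of the Laplacian -/
theorem lap_bd (x : E5) :
    |200 * (-(2 * LL ^ 2 * (LL * DD x + 1)) / (1 + (LL * DD x + 1) ^ 2) ^ 2 * GG x +
      LL / (1 + (LL * DD x + 1) ^ 2) * (-Real.cos (x 0) + kap x * NN x))| ≤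
      200 * (68 * LL ^ 2 + 40 * LL) := by
  have hL := LL_pos
  have hL1 : 1 ≤ LL := by have := LL_ge; linarith
  have hG := GG_nonneg x
  have hΛ := abs_lapDD_le x
  set X := LL * DD x + 1 with hXdef
  set Λ := -Real.cos (x 0) + kap x * NN x
  have hDX : |DD x| ≤ |X| + 1 := by
    have h1 : LL * |DD x| = |X - 1| := by
      rw [hXdef, add_sub_cancel_right, abs_mul, abs_of_pos hL]
    have h2 : |X - 1| ≤ |X| + 1 := by
      have := abs_sub X 1
      rwa [abs_one] at this
    have h3 : |DD x| ≤ LL * |DD x| := le_mul_of_one_le_left (abs_nonneg _) hL1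
    linarith
  have hN := abs_NN_le_of_DD x
  have hX0 := abs_nonneg X
  have h4 : |X| ^ 2 = X ^ 2 := sq_abs X
  have hGX : GG x ≤ 34 * (1 + X ^ 2) := by
    have h2 := GG_le x
    have h3 : NN x ^ 2 ≤ (|X| + 2) ^ 2 := by
      rw [← sq_abs (NN x)]
      have : |NN x| ≤ |X| + 2 := by linarith
      exact pow_le_pow_left₀ (abs_nonneg _) this 2
    nlinarith [sq_nonneg (|X| - 1)]
  have hq : 0 < 1 + X ^ 2 := by positivity
  rw [abs_mul, abs_of_pos (by norm_num : (0 : ℝ) < 200)]
  gcongr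
  refine (abs_add_le _ _).trans (add_le_add ?_ ?_)
  · rw [abs_mul, abs_div, abs_neg, abs_mul, abs_of_nonneg (by positivity : 0 ≤ 2 * LL ^ 2),
      abs_of_nonneg (by positivity : 0 ≤ (1 + X ^ 2) ^ 2), abs_of_nonneg hG, div_mul_eq_mul_div,
      div_le_iff₀ (by positivity)]
    have h5 : |X| ≤ 1 + X ^ 2 := by nlinarith [sq_nonneg (|X| - 1)]
    calc 2 * LL ^ 2 * |X| * GG x ≤ 2 * LL ^ 2 * (1 + X ^ 2) * (34 * (1 + X ^ 2)) := by gcongr
      _ = _ := by ring
  · rw [abs_mul, abs_of_nonneg (by positivity : 0 ≤ LL / (1 + X ^ 2)), div_mul_eq_mul_div,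
      div_le_iff₀ hq]
    have h5 : |Λ| ≤ 40 * (1 + X ^ 2) := by nlinarith [sq_nonneg (|X| - 1)]
    calc LL * |Λ| ≤ LL * (40 * (1 + X ^ 2)) := by gcongr
      _ = _ := by ring

theorem sig_pos_iff (s : ℝ) : 0 < sig s ↔ 0 < s := by
  have hL := LL_pos
  have h : sig s = Real.arctan (LL * s + 1) - Real.arctan 1 := by rw [Real.arctan_one]; rfl
  rw [h, sub_pos, Real.arctan_lt_arctan_iff, lt_add_iff_pos_left, mul_pos_iff_of_pos_left hL]

theorem sig_eq_zero_iff (s : ℝ) : sig s = 0 ↔ s = 0 := by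
  have hL := LL_pos
  have h : sig s = Real.arctan (LL * s + 1) - Real.arctan 1 := by rw [Real.arctan_one]; rfl
  rw [h, sub_eq_zero, Real.arctan_inj, add_eq_right, mul_eq_zero]
  simp [hL.ne']

theorem isBarrier_bar : IsBarrier 4 bar where
  smooth := by
    unfold bar
    exact contDiff_const.mul (contDiff_sig.comp (by exact_mod_cast contDiff_infty.1 contDiff_DD 2))
  bdd := by
    refine ⟨200 * 4, fun x => ?_⟩
    have h1 := Real.neg_pi_div_two_lt_arctan (LL * DD x + 1)
    have h2 := Real.arctan_lt_pi_div_two (LL * DD x + 1)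
    have h3 := Real.pi_lt_four
    have h4 := Real.pi_pos
    unfold bar sig
    rw [abs_mul, abs_of_pos (by norm_num : (0 : ℝ) < 200)]
    gcongr
    rw [abs_le]
    constructor <;> linarith
  grad := by
    refine ⟨200 * (LL * 8), fun x => ?_⟩
    obtain ⟨g, hg, hn⟩ := hasLap_bar x
    have h1 : ‖fderiv ℝ bar x‖ = ‖g‖ := by
      rw [hg.hasFDerivAt.fderiv]
      simp
    rw [h1, hn]
    exact grad_bd x
  lap := by
    refine ⟨200 * (68 * LL ^ 2 + 40 * LL), fun x => ?_⟩
    obtain ⟨g, hg, _⟩ := hasLap_bar x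
    rw [hg.lap]
    exact lap_bd x
  super := by
    have h0 : 0 < 200 * (Real.arctan 1 - Real.arctan (1 / 2)) := by
      have : Real.arctan (1 / 2) < Real.arctan 1 := Real.arctan_strictMono (by norm_num)
      linarith
    refine ⟨_, h0, fun x hx => ?_⟩
    obtain ⟨g, hg, _⟩ := hasLap_bar x
    have h1 : 1 / 2 ≤ LL * DD x + 1 := by
      unfold bar sig at hx
      rw [← Real.arctan_one] at hx
      have h2 : Real.arctan (1 / 2) ≤ Real.arctan (LL * DD x + 1) := by linarith
      exact Real.arctan_strictMono.le_iff_le.1 h2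
    have h2 := super_sig x h1
    rw [hg.lap]
    have h3 : bar x = 200 * sig (DD x) := rfl
    rw [h3]
    linarith

theorem barrier_ok : ∃ b : E5 → ℝ, IsBarrier 4 b ∧ (∀ x, 0 < b x ↔ 0 < DD x) ∧
    (∀ x, b x = 0 ↔ DD x = 0) := by
  refine ⟨bar, isBarrier_bar, fun x => ?_, fun x => ?_⟩
  · unfold bar
    rw [mul_pos_iff_of_pos_left (by norm_num), sig_pos_iff]
  · unfold bar
    rw [mul_eq_zero, sig_eq_zero_iff]
    simp

/-! ### connectedness -/

theorem isPreconnected_domain : IsPreconnected {x : E5 | 0 < DD x} := by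
  have h1 : IsPreconnected {x : E5 | 0 < x 4} := by
    apply Convex.isPreconnected
    intro x hx y hy a b ha hb hab
    simp only [mem_ofPred_eq, PiLp.add_apply, PiLp.smul_apply, smul_eq_mul] at hx hy ⊢
    rcases ha.eq_or_lt with rfl | ha
    · rw [zero_add] at hab
      subst hab
      linarith
    · have := mul_pos ha hx
      have := mul_nonneg hb hy.le
      linarith
  have hsy : ∀ (x : E5) (t : ℝ), sy (x + t • ee 4) = sy x := by
    intro x t
    simp [sy, ee]
  have hRR : ∀ (x : E5) (t : ℝ), RR (x + t • ee 4) = RR x := by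
    intro x t
    unfold RR
    rw [hsy]
  let Φ : E5 → E5 := fun x => x + (-(Real.exp (2 * RR x) * Real.cos (x 0))) • ee 4
  have hΦ : Continuous Φ := by
    have h2 := contDiff_RR.continuous
    have h3 : Continuous fun x : E5 => Real.cos (x 0) := contDiff_c0.continuous
    exact continuous_id.add
      (((Real.continuous_exp.comp (continuous_const.mul h2)).mul h3).neg.smul continuous_const)
  have h4 : {x : E5 | 0 < DD x} = Φ '' {x : E5 | 0 < x 4} := by
    have hexp : ∀ r : ℝ, Real.exp (2 * r) * Real.exp (-2 * r) = 1 := by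
      intro r
      rw [← Real.exp_add]
      simp
    ext x
    simp only [mem_ofPred_eq, mem_image]
    constructor
    · intro hx
      refine ⟨x + (Real.exp (2 * RR x) * Real.cos (x 0)) • ee 4, ?_, ?_⟩
      · have h5 : (x + (Real.exp (2 * RR x) * Real.cos (x 0)) • ee 4) 4
            = Real.exp (2 * RR x) * DD x := by
          simp only [PiLp.add_apply, PiLp.smul_apply, smul_eq_mul, ee, DD, NN]
          have := hexp (RR x)
          have e1 : Real.exp (-(2 * RR x)) = Real.exp (-2 * RR x) := by rw [neg_mul]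
          simp
          rw [e1]
          linear_combination (-(x 4)) * this
        rw [h5]
        exact mul_pos (Real.exp_pos _) hx
      · simp only [Φ]
        rw [hRR, add_assoc, ← add_smul]
        have h6 : (x + (Real.exp (2 * RR x) * Real.cos (x 0)) • ee 4) 0 = x 0 := by
          simp [ee]
        rw [h6]
        simp
    · rintro ⟨y, hy, rfl⟩
      have h5 : DD (Φ y) = y 4 * Real.exp (-2 * RR y) := by
        simp only [DD, NN, Φ]
        rw [hRR]
        have h6 : (y + (-(Real.exp (2 * RR y) * Real.cos (y 0))) • ee 4) 0 = y 0 := by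
          simp [ee]
        have h7 : (y + (-(Real.exp (2 * RR y) * Real.cos (y 0))) • ee 4) 4
            = y 4 - Real.exp (2 * RR y) * Real.cos (y 0) := by
          simp [ee, sub_eq_add_neg]
        rw [h6, h7]
        have := hexp (RR y)
        linear_combination (-Real.cos (y 0)) * this
      rw [h5]
      exact mul_pos hy (Real.exp_pos _)
  rw [h4]
  exact h1.image Φ hΦ.continuousOn

end Explicit

end Pool.Agent.Lib.MP_3eb465_an
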