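import Pool.Agent.Lib.MP_3eb465_an.Defs

/-!
Calculus of the predicate `HasLap`, second derivative test, continuity of the Laplacian.
-/

namespace Pool.Agent.Lib.MP_3eb465_an

open MeasureTheory InnerProductSpace Laplacian Set Filter Topology
open scoped ContDiff RealInnerProductSpace

section General

variable {E : Type*} [NormedAddCommGroup E] [InnerProductSpace ℝ E] [FiniteDimensional ℝ E]

theorem lap_eq_sum (f : E → ℝ) (x : E) :
    Δ f x = ∑ i, fderiv ℝ (fderiv ℝ f) x (stdOrthonormalBasis ℝ E i)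
      (stdOrthonormalBasis ℝ E i) := by
  rw [laplacian_eq_iteratedFDeriv_stdOrthonormalBasis]
  refine Finset.sum_congr rfl fun i _ => ?_
  rw [iteratedFDeriv_two_apply]
  rfl

theorem sum_inner_mul (g₁ g₂ : E) :
    ∑ i, ⟪g₁, stdOrthonormalBasis ℝ E i⟫ * ⟪g₂, stdOrthonormalBasis ℝ E i⟫ = ⟪g₁, g₂⟫ := by
  rw [← OrthonormalBasis.sum_inner_mul_inner (stdOrthonormalBasis ℝ E) g₁ g₂]
  refine Finset.sum_congr rfl fun i _ => ?_
  rw [real_inner_comm g₂]

theorem HasLap.congr {f f' : E → ℝ} {x g : E} {l : ℝ} (h : HasLap f x g l) (hf : f' =ᶠ[𝓝 x] f) :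
    HasLap f' x g l where
  cd := h.cd.congr_of_eventuallyEq hf
  grad := h.grad.congr_of_eventuallyEq hf
  lap := by rw [(laplacian_congr_nhds hf).eq_of_nhds]; exact h.lap

theorem HasLap.hasFDerivAt {f : E → ℝ} {x g : E} {l : ℝ} (h : HasLap f x g l) :
    HasFDerivAt f (toDual ℝ E g) x := h.grad

theorem HasLap.fderiv_apply {f : E → ℝ} {x g : E} {l : ℝ} (h : HasLap f x g l) (v : E) :
    fderiv ℝ f x v = ⟪g, v⟫ := by
  rw [h.hasFDerivAt.fderiv, toDual_apply_apply]

theorem hasLap_const (c : ℝ) (x : E) : HasLap (fun _ => c) x 0 0 where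
  cd := contDiffAt_const
  grad := hasGradientAt_const x c
  lap := by simp

theorem HasLap.add {f₁ f₂ : E → ℝ} {x g₁ g₂ : E} {l₁ l₂ : ℝ} (h₁ : HasLap f₁ x g₁ l₁)
    (h₂ : HasLap f₂ x g₂ l₂) : HasLap (fun y => f₁ y + f₂ y) x (g₁ + g₂) (l₁ + l₂) where
  cd := h₁.cd.add h₂.cd
  grad := by
    have := h₁.hasFDerivAt.add h₂.hasFDerivAt
    rw [hasGradientAt_iff_hasFDerivAt, map_add]
    exact this
  lap := by
    have := h₁.cd.laplacian_add h₂.cd
    rw [h₁.lap, h₂.lap] at this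
    exact this

theorem HasLap.sub {f₁ f₂ : E → ℝ} {x g₁ g₂ : E} {l₁ l₂ : ℝ} (h₁ : HasLap f₁ x g₁ l₁)
    (h₂ : HasLap f₂ x g₂ l₂) : HasLap (fun y => f₁ y - f₂ y) x (g₁ - g₂) (l₁ - l₂) where
  cd := h₁.cd.sub h₂.cd
  grad := by
    have := h₁.hasFDerivAt.sub h₂.hasFDerivAt
    rw [hasGradientAt_iff_hasFDerivAt, map_sub]
    exact this
  lap := by
    have := h₁.cd.laplacian_sub h₂.cd
    rw [h₁.lap, h₂.lap] at this
    exact this

theorem HasLap.neg {f : E → ℝ} {x g : E} {l : ℝ} (h : HasLap f x g l) :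
    HasLap (fun y => - f y) x (-g) (-l) := by
  have := (hasLap_const 0 x).sub h
  simpa using this

omit [FiniteDimensional ℝ E] in
/-- derivative of the derivative at a point where the function is `C²` -/
theorem hasFDerivAt_fderiv {f : E → ℝ} {x : E} (h : ContDiffAt ℝ 2 f x) :
    HasFDerivAt (fderiv ℝ f) (fderiv ℝ (fderiv ℝ f) x) x := by
  have h1 : ContDiffAt ℝ 1 (fderiv ℝ f) x := h.fderiv_right (m := 1) (by norm_num)
  exact (h1.differentiableAt (by norm_num)).hasFDerivAt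

omit [FiniteDimensional ℝ E] in
theorem eventually_differentiableAt {f : E → ℝ} {x : E} (h : ContDiffAt ℝ 2 f x) :
    ∀ᶠ y in 𝓝 x, DifferentiableAt ℝ f y := by
  filter_upwards [h.eventually (by simp)] with y hy
  exact hy.differentiableAt (by norm_num)

theorem HasLap.mul {f₁ f₂ : E → ℝ} {x g₁ g₂ : E} {l₁ l₂ : ℝ} (h₁ : HasLap f₁ x g₁ l₁)
    (h₂ : HasLap f₂ x g₂ l₂) : HasLap (fun y => f₁ y * f₂ y) x (f₁ x • g₂ + f₂ x • g₁)
      (f₁ x * l₂ + 2 * ⟪g₁, g₂⟫ + f₂ x * l₁) where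
  cd := h₁.cd.mul h₂.cd
  grad := by
    have := h₁.hasFDerivAt.mul h₂.hasFDerivAt
    rw [hasGradientAt_iff_hasFDerivAt, map_add, map_smul, map_smul]
    exact this
  lap := by
    have hev : fderiv ℝ (fun y => f₁ y * f₂ y) =ᶠ[𝓝 x]
        fun y => f₁ y • fderiv ℝ f₂ y + f₂ y • fderiv ℝ f₁ y := by
      filter_upwards [eventually_differentiableAt h₁.cd, eventually_differentiableAt h₂.cd]
        with y hy₁ hy₂
      exact fderiv_fun_mul hy₁ hy₂
    have hd : HasFDerivAt (fun y => f₁ y • fderiv ℝ f₂ y + f₂ y • fderiv ℝ f₁ y)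
        ((f₁ x • fderiv ℝ (fderiv ℝ f₂) x + (toDual ℝ E g₁ : E →L[ℝ] ℝ).smulRight (fderiv ℝ f₂ x))
        + (f₂ x • fderiv ℝ (fderiv ℝ f₁) x
          + (toDual ℝ E g₂ : E →L[ℝ] ℝ).smulRight (fderiv ℝ f₁ x))) x :=
      (h₁.hasFDerivAt.smul (hasFDerivAt_fderiv h₂.cd)).add
        (h₂.hasFDerivAt.smul (hasFDerivAt_fderiv h₁.cd))
    rw [lap_eq_sum, hev.fderiv_eq, hd.fderiv]
    have e1 : ∀ v : E, ((f₁ x • fderiv ℝ (fderiv ℝ f₂) x
        + (toDual ℝ E g₁ : E →L[ℝ] ℝ).smulRight (fderiv ℝ f₂ x))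
        + (f₂ x • fderiv ℝ (fderiv ℝ f₁) x
          + (toDual ℝ E g₂ : E →L[ℝ] ℝ).smulRight (fderiv ℝ f₁ x))) v v =
        f₁ x * (fderiv ℝ (fderiv ℝ f₂) x v v) + 2 * (⟪g₁, v⟫ * ⟪g₂, v⟫)
          + f₂ x * (fderiv ℝ (fderiv ℝ f₁) x v v) := by
      intro v
      have a1 := h₁.fderiv_apply v
      have a2 := h₂.fderiv_apply v
      simp only [add_apply, smul_apply, ContinuousLinearMap.smulRight_apply, toDual_apply_apply, smul_eq_mul, a1, a2]
      ring
    simp only [e1]
    rw [Finset.sum_add_distrib, Finset.sum_add_distrib, ← Finset.mul_sum, ← Finset.mul_sum,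
      ← Finset.mul_sum, ← lap_eq_sum, ← lap_eq_sum, sum_inner_mul, h₁.lap, h₂.lap]

theorem HasLap.const_mul {f : E → ℝ} {x g : E} {l : ℝ} (h : HasLap f x g l) (c : ℝ) :
    HasLap (fun y => c * f y) x (c • g) (c * l) := by
  have := (hasLap_const c x).mul h
  simpa using this

/-- chain rule with a real function of one variable; `a = φ'(f x)`, `b = φ''(f x)`. -/
theorem HasLap.comp {f : E → ℝ} {x g : E} {l : ℝ} (h : HasLap f x g l) {φ : ℝ → ℝ}
    (hφ : ContDiffAt ℝ 2 φ (f x)) {a b : ℝ} (ha : deriv φ (f x) = a)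
    (hb : deriv (deriv φ) (f x) = b) :
    HasLap (fun y => φ (f y)) x (a • g) (b * ‖g‖ ^ 2 + a * l) where
  cd := hφ.comp x h.cd
  grad := by
    have h1 : HasDerivAt φ a (f x) := by
      rw [← ha]; exact (hφ.differentiableAt (by norm_num)).hasDerivAt
    have := h1.comp_hasFDerivAt x h.hasFDerivAt
    rw [hasGradientAt_iff_hasFDerivAt, map_smul]
    exact this
  lap := by
    have hφe : ∀ᶠ t in 𝓝 (f x), DifferentiableAt ℝ φ t := by
      filter_upwards [hφ.eventually (by simp)] with t ht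
      exact ht.differentiableAt (by norm_num)
    have hcont : ContinuousAt f x := h.cd.continuousAt
    have hev : fderiv ℝ (fun y => φ (f y)) =ᶠ[𝓝 x] fun y => deriv φ (f y) • fderiv ℝ f y := by
      filter_upwards [eventually_differentiableAt h.cd, hcont.eventually hφe] with y hy₁ hy₂
      exact (hy₂.hasDerivAt.comp_hasFDerivAt y hy₁.hasFDerivAt).fderiv
    have hd2 : HasDerivAt (deriv φ) b (f x) := by
      rw [← hb]
      have : ContDiffAt ℝ 1 (deriv φ) (f x) := by
        have h2 := (hφ.fderiv_right (m := 1) (by norm_num)).clm_apply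
          (contDiffAt_const (c := (1 : ℝ)))
        exact h2
      exact (this.differentiableAt (by norm_num)).hasDerivAt
    have hd3 : HasFDerivAt (fun y => deriv φ (f y)) (b • (toDual ℝ E g : E →L[ℝ] ℝ)) x :=
      hd2.comp_hasFDerivAt x h.hasFDerivAt
    have hd : HasFDerivAt (fun y => deriv φ (f y) • fderiv ℝ f y)
        (deriv φ (f x) • fderiv ℝ (fderiv ℝ f) x
          + (b • (toDual ℝ E g : E →L[ℝ] ℝ)).smulRight (fderiv ℝ f x)) x :=
      hd3.smul (hasFDerivAt_fderiv h.cd)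
    rw [lap_eq_sum, hev.fderiv_eq, hd.fderiv]
    have e1 : ∀ v : E, (deriv φ (f x) • fderiv ℝ (fderiv ℝ f) x
          + (b • (toDual ℝ E g : E →L[ℝ] ℝ)).smulRight (fderiv ℝ f x)) v v =
        b * (⟪g, v⟫ * ⟪g, v⟫) + a * (fderiv ℝ (fderiv ℝ f) x v v) := by
      intro v
      have a1 := h.fderiv_apply v
      simp only [add_apply, smul_apply, ContinuousLinearMap.smulRight_apply, toDual_apply_apply, smul_eq_mul, a1, ha]
      ring
    simp only [e1]
    rw [Finset.sum_add_distrib, ← Finset.mul_sum, ← Finset.mul_sum, ← lap_eq_sum, sum_inner_mul,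
      h.lap, real_inner_self_eq_norm_sq]

theorem hasLap_inner (v x : E) : HasLap (fun y => ⟪v, y⟫) x v 0 where
  cd := contDiffAt_const.inner ℝ contDiffAt_id
  grad := by
    rw [hasGradientAt_iff_hasFDerivAt]
    exact (toDual ℝ E v : E →L[ℝ] ℝ).hasFDerivAt
  lap := by
    have h1 : fderiv ℝ (fun y => ⟪v, y⟫) = fun _ => (toDual ℝ E v : E →L[ℝ] ℝ) := by
      funext y
      exact ((toDual ℝ E v : E →L[ℝ] ℝ).hasFDerivAt (x := y)).fderiv
    rw [lap_eq_sum, h1]
    simp

theorem hasLap_normSq (p x : E) :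
    HasLap (fun y => ‖y - p‖ ^ 2) x ((2 : ℝ) • (x - p)) (2 * Module.finrank ℝ E) := by
  have hf : ∀ y : E, HasFDerivAt (fun y => ‖y - p‖ ^ 2)
      (toDual ℝ E ((2 : ℝ) • (y - p)) : E →L[ℝ] ℝ) y := by
    intro y
    have h1 : HasFDerivAt (fun y => y - p) (ContinuousLinearMap.id ℝ E) y :=
      (hasFDerivAt_id y).sub_const p
    have h2 := h1.norm_sq
    convert h2 using 1
    ext v
    simp
  refine ⟨(contDiffAt_id.sub contDiffAt_const).norm_sq ℝ, hf x, ?_⟩
  have h1 : fderiv ℝ (fun y => ‖y - p‖ ^ 2) =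
      fun y => (toDual ℝ E ((2 : ℝ) • (y - p)) : E →L[ℝ] ℝ) := by
    funext y
    exact (hf y).fderiv
  let L : E →L[ℝ] (E →L[ℝ] ℝ) := LinearMap.toContinuousLinearMap
    { toFun := fun v => (toDual ℝ E v : E →L[ℝ] ℝ)
      map_add' := fun v w => map_add _ v w
      map_smul' := fun r v => by simp }
  have hL : ∀ v w : E, L v w = ⟪v, w⟫ := fun v w => toDual_apply_apply
  have h2 : HasFDerivAt (fun y => (toDual ℝ E ((2 : ℝ) • (y - p)) : E →L[ℝ] ℝ))
      (L.comp ((2 : ℝ) • ContinuousLinearMap.id ℝ E)) x := by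
    have h3 : HasFDerivAt (fun y : E => (2 : ℝ) • (y - p)) ((2 : ℝ) • ContinuousLinearMap.id ℝ E) x :=
      ((hasFDerivAt_id x).sub_const p).const_smul 2
    exact L.hasFDerivAt.comp x h3
  rw [lap_eq_sum, h1, h2.fderiv]
  have e1 : ∀ i, (L.comp ((2 : ℝ) • ContinuousLinearMap.id ℝ E))
      (stdOrthonormalBasis ℝ E i) (stdOrthonormalBasis ℝ E i) = 2 := by
    intro i
    have h3 : (L.comp ((2 : ℝ) • ContinuousLinearMap.id ℝ E)) (stdOrthonormalBasis ℝ E i)
        (stdOrthonormalBasis ℝ E i) = L ((2 : ℝ) • stdOrthonormalBasis ℝ E i)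
          (stdOrthonormalBasis ℝ E i) := rfl
    rw [h3, hL, inner_smul_left, real_inner_self_eq_norm_sq]
    simp
  simp only [e1]
  simp [mul_comm]

theorem hasLap_coord {n : ℕ} (i : Fin n) (x : EuclideanSpace ℝ (Fin n)) :
    HasLap (fun y : EuclideanSpace ℝ (Fin n) => y i) x (EuclideanSpace.single i 1) 0 := by
  have h1 := hasLap_inner (EuclideanSpace.single i (1 : ℝ)) x
  have h2 : (fun y : EuclideanSpace ℝ (Fin n) => ⟪EuclideanSpace.single i (1 : ℝ), y⟫)
      = fun y => y i := by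
    funext y
    rw [EuclideanSpace.inner_single_left]
    simp
  rw [h2] at h1
  exact h1

/-- at a local maximum the Laplacian is nonpositive -/
theorem laplacian_nonpos_of_isLocalMax {f : E → ℝ} {x : E} (hf : ContDiffAt ℝ 2 f x)
    (h : IsLocalMax f x) : Δ f x ≤ 0 := by
  rw [lap_eq_sum]
  refine Finset.sum_nonpos fun i _ => ?_
  set e := stdOrthonormalBasis ℝ E i with he
  by_contra hcon
  rw [not_le] at hcon
  -- the one variable function
  let c : ℝ → E := fun t => x + t • e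
  have hc : ∀ t, HasDerivAt c e t := by
    intro t
    have := ((hasDerivAt_id t).smul_const e).const_add x
    simpa [c] using this
  have hc0 : c 0 = x := by simp [c]
  have hcc : ContinuousAt c 0 := (hc 0).continuousAt
  have hev : ∀ᶠ t in 𝓝 (0 : ℝ), DifferentiableAt ℝ f (c t) := by
    have := eventually_differentiableAt hf
    rw [← hc0] at this
    exact hcc.eventually this
  have hder : deriv (fun t => f (c t)) =ᶠ[𝓝 0] fun t => fderiv ℝ f (c t) e := by
    filter_upwards [hev] with t ht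
    exact (ht.hasFDerivAt.comp_hasDerivAt t (hc t)).deriv
  have hd2 : HasDerivAt (fun t => fderiv ℝ f (c t) e) (fderiv ℝ (fderiv ℝ f) x e e) 0 := by
    have h1 : HasFDerivAt (fderiv ℝ f) (fderiv ℝ (fderiv ℝ f) x) (c 0) := by
      rw [hc0]; exact hasFDerivAt_fderiv hf
    have h2 := h1.comp_hasDerivAt 0 (hc 0)
    have h3 := h2.clm_apply (hasDerivAt_const (0 : ℝ) e)
    simpa using h3
  have hdd : deriv (deriv fun t => f (c t)) 0 = fderiv ℝ (fderiv ℝ f) x e e := by
    rw [hder.deriv_eq]; exact hd2.deriv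
  have hmax : IsLocalMax (fun t => f (c t)) 0 := by
    have : IsLocalMax f (c 0) := by rw [hc0]; exact h
    exact this.comp_continuous hcc
  have hd0 : deriv (fun t => f (c t)) 0 = 0 := hmax.deriv_eq_zero
  -- the derivative is positive on the right of 0
  have hpos : ∀ᶠ t in 𝓝[>] (0 : ℝ), 0 < deriv (fun t => f (c t)) t := by
    have h1 : HasDerivAt (deriv fun t => f (c t)) (fderiv ℝ (fderiv ℝ f) x e e) 0 :=
      hd2.congr_of_eventuallyEq hder
    have h2 : Tendsto (slope (deriv fun t => f (c t)) 0) (𝓝[≠] 0)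
        (𝓝 (fderiv ℝ (fderiv ℝ f) x e e)) := h1.tendsto_slope
    have h3 : ∀ᶠ t in 𝓝[>] (0 : ℝ), 0 < slope (deriv fun t => f (c t)) 0 t :=
      (h2.eventually (lt_mem_nhds hcon)).filter_mono
        (nhdsWithin_mono _ fun t ht => ne_of_gt ht)
    filter_upwards [h3, self_mem_nhdsWithin] with t ht ht0
    rw [slope_def_field, hd0, sub_zero, sub_zero] at ht
    have ht0' : (0 : ℝ) < t := ht0
    exact (div_pos_iff_of_pos_right ht0').1 ht
  rw [eventually_nhdsWithin_iff, Metric.eventually_nhds_iff] at hpos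
  obtain ⟨δ, hδ, hpos⟩ := hpos
  obtain ⟨δ', hδ', hev'⟩ := Metric.eventually_nhds_iff.1 hev
  obtain ⟨δ'', hδ'', hmax'⟩ := Metric.eventually_nhds_iff.1 hmax
  set r := min δ (min δ' δ'') / 2 with hr
  have hrpos : 0 < r := by positivity
  have hr1 : r < δ := by
    have : min δ (min δ' δ'') ≤ δ := min_le_left _ _
    linarith
  have hr2 : r < δ' := by
    have : min δ (min δ' δ'') ≤ δ' := (min_le_right _ _).trans (min_le_left _ _)
    linarith
  have hr3 : r < δ'' := by
    have : min δ (min δ' δ'') ≤ δ'' := (min_le_right _ _).trans (min_le_right _ _)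
    linarith
  have hdiff : ∀ t ∈ Icc (0 : ℝ) r, DifferentiableAt ℝ (fun t => f (c t)) t := by
    intro t ht
    have h1 : DifferentiableAt ℝ f (c t) := hev' (by
      rw [Real.dist_eq, sub_zero, abs_of_nonneg ht.1]; exact ht.2.trans_lt hr2)
    exact (h1.hasFDerivAt.comp_hasDerivAt t (hc t)).differentiableAt
  have hmono : StrictMonoOn (fun t => f (c t)) (Icc 0 r) := by
    refine strictMonoOn_of_deriv_pos (convex_Icc 0 r)
      (fun t ht => (hdiff t ht).continuousAt.continuousWithinAt) ?_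
    intro t ht
    rw [interior_Icc] at ht
    exact hpos (by rw [Real.dist_eq, sub_zero, abs_of_pos ht.1]; exact ht.2.trans hr1) ht.1
  have h1 := hmono (left_mem_Icc.2 hrpos.le) (right_mem_Icc.2 hrpos.le) hrpos
  have h2 := hmax' (y := r) (by rw [Real.dist_eq, sub_zero, abs_of_pos hrpos]; exact hr3)
  exact absurd h2 (not_le.2 h1)

/-- the Laplacian of a `C²` function is continuous -/
theorem continuousOn_laplacian {f : E → ℝ} {s : Set E} (hs : IsOpen s)
    (hf : ContDiffOn ℝ 2 f s) : ContinuousOn (Δ f) s := by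
  have h1 : ContinuousOn (fderiv ℝ (fderiv ℝ f)) s := by
    have h2 : ContDiffOn ℝ 1 (fderiv ℝ f) s := hf.fderiv_of_isOpen hs (by norm_num)
    exact h2.continuousOn_fderiv_of_isOpen hs (by norm_num)
  have h3 : Δ f = fun x => ∑ i, fderiv ℝ (fderiv ℝ f) x (stdOrthonormalBasis ℝ E i)
      (stdOrthonormalBasis ℝ E i) := by
    funext x; exact lap_eq_sum f x
  rw [h3]
  refine continuousOn_finsetSum _ fun i _ => ?_
  exact (h1.clm_apply continuousOn_const).clm_apply continuousOn_const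

end General

end Pool.Agent.Lib.MP_3eb465_an
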