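import Pool.Agent.Lib.MP_3eb465_an.BD

/-!
Job J11: the zero set of a function with a positive derivative in the last direction is a graph,
with quantitative bounds on the derivatives of order at most three.
-/

namespace Pool.Agent.Lib.MP_3eb465_an

open Set Filter Topology
open scoped ContDiff RealInnerProductSpace

namespace ChartPriv

/-- the embedding `q ↦ (q, 0)` -/
noncomputable def inj (m : ℕ) : EuclideanSpace ℝ (Fin m) →L[ℝ] EuclideanSpace ℝ (Fin (m + 1)) :=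
  LinearMap.toContinuousLinearMap
    { toFun := fun q => WithLp.toLp 2 (Fin.snoc (α := fun _ => ℝ) (fun i => q i) 0)
      map_add' := fun a b => by
        ext i
        refine Fin.lastCases ?_ (fun j => ?_) i
        · simp
        · simp
      map_smul' := fun r a => by
        ext i
        refine Fin.lastCases ?_ (fun j => ?_) i
        · simp
        · simp }

theorem inj_castSucc {m : ℕ} (q : EuclideanSpace ℝ (Fin m)) (i : Fin m) :
    inj m q i.castSucc = q i := by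
  simp [inj]

theorem inj_last {m : ℕ} (q : EuclideanSpace ℝ (Fin m)) : inj m q (Fin.last m) = 0 := by
  simp [inj]

/-- the last basis vector -/
noncomputable def eL (m : ℕ) : EuclideanSpace ℝ (Fin (m + 1)) :=
  EuclideanSpace.single (Fin.last m) 1

/-- the point `(q, t)` -/
noncomputable def pt {m : ℕ} (q : EuclideanSpace ℝ (Fin m)) (t : ℝ) :
    EuclideanSpace ℝ (Fin (m + 1)) := inj m q + t • eL m

theorem pt_last {m : ℕ} (q : EuclideanSpace ℝ (Fin m)) (t : ℝ) : pt q t (Fin.last m) = t := by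
  simp [pt, inj_last, eL]

theorem pt_castSucc {m : ℕ} (q : EuclideanSpace ℝ (Fin m)) (t : ℝ) (i : Fin m) :
    pt q t i.castSucc = q i := by
  simp [pt, inj_castSucc, eL, Fin.castSucc_ne_last]

theorem pt_front {m : ℕ} (x : EuclideanSpace ℝ (Fin (m + 1))) :
    pt (front x) (x (Fin.last m)) = x := by
  ext i
  refine Fin.lastCases ?_ (fun j => ?_) i
  · rw [pt_last]
  · rw [pt_castSucc]; rfl

section one

variable {m : ℕ} {F : EuclideanSpace ℝ (Fin (m + 1)) → ℝ} {c M : ℝ}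

theorem hasDerivAt_line (hF : ContDiff ℝ 3 F) (q : EuclideanSpace ℝ (Fin m)) (t : ℝ) :
    HasDerivAt (fun t => F (pt q t)) (fderiv ℝ F (pt q t) (eL m)) t := by
  have h1 : HasDerivAt (fun t : ℝ => pt q t) (eL m) t := by
    have := ((hasDerivAt_id t).smul_const (eL m)).const_add (inj m q)
    simpa [pt] using this
  exact ((hF.differentiable (by norm_num)).differentiableAt.hasFDerivAt).comp_hasDerivAt t h1

theorem strictMono_line (hF : ContDiff ℝ 3 F) (hc : 0 < c)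
    (hg : ∀ x, c ≤ fderiv ℝ F x (eL m)) (q : EuclideanSpace ℝ (Fin m)) :
    StrictMono (fun t => F (pt q t)) := by
  refine strictMono_of_deriv_pos fun t => ?_
  rw [(hasDerivAt_line hF q t).deriv]
  exact hc.trans_le (hg _)

theorem mono_line (hF : ContDiff ℝ 3 F)
    (hg : ∀ x, c ≤ fderiv ℝ F x (eL m)) (q : EuclideanSpace ℝ (Fin m)) :
    Monotone (fun t => F (pt q t) - c * t) := by
  have hd : ∀ t, HasDerivAt (fun t => F (pt q t) - c * t) (fderiv ℝ F (pt q t) (eL m) - c) t := by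
    intro t
    have := (hasDerivAt_line hF q t).sub ((hasDerivAt_id t).const_mul c)
    rw [mul_one] at this
    exact this
  refine monotone_of_deriv_nonneg (fun t => (hd t).differentiableAt) fun t => ?_
  rw [(hd t).deriv]
  exact sub_nonneg.2 (hg _)

theorem exists_zero (hF : ContDiff ℝ 3 F) (hc : 0 < c)
    (hg : ∀ x, c ≤ fderiv ℝ F x (eL m)) (h0 : ∀ x, x (Fin.last m) = 0 → |F x| ≤ M)
    (q : EuclideanSpace ℝ (Fin m)) : ∃ t, F (pt q t) = 0 ∧ |t| ≤ M / c := by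
  have hM : 0 ≤ M := (abs_nonneg _).trans (h0 (pt q 0) (pt_last q 0))
  have hb := abs_le.1 (h0 (pt q 0) (pt_last q 0))
  have hmono := mono_line hF hg q
  have hMc : 0 ≤ M / c := div_nonneg hM hc.le
  have h1 : 0 ≤ F (pt q (M / c)) := by
    have := hmono hMc
    simp only [mul_zero, sub_zero] at this
    rw [mul_div_cancel₀ _ hc.ne'] at this
    linarith
  have h2 : F (pt q (-(M / c))) ≤ 0 := by
    have := hmono (neg_nonpos.2 hMc)
    simp only [mul_zero, sub_zero, mul_neg] at this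
    rw [mul_div_cancel₀ _ hc.ne'] at this
    linarith
  have hcont : Continuous fun t => F (pt q t) :=
    continuous_iff_continuousAt.2 fun t => (hasDerivAt_line hF q t).continuousAt
  have := intermediate_value_Icc (a := -(M / c)) (b := M / c) (by linarith) hcont.continuousOn
  obtain ⟨t, ht, hFt⟩ := this ⟨h2, h1⟩
  exact ⟨t, hFt, abs_le.2 ht⟩

/-- smoothness of the graph function -/
theorem contDiff_graph (hF : ContDiff ℝ 3 F) (hc : 0 < c)
    (hg : ∀ x, c ≤ fderiv ℝ F x (eL m)) {ψ : EuclideanSpace ℝ (Fin m) → ℝ}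
    (hψ : ∀ q, F (pt q (ψ q)) = 0) : ContDiff ℝ 3 ψ := by
  rw [contDiff_iff_contDiffAt]
  intro q
  set H : EuclideanSpace ℝ (Fin m) × ℝ → ℝ := fun u => F (pt u.1 u.2) with hH
  have hptc : ContDiff ℝ 3 (fun u : EuclideanSpace ℝ (Fin m) × ℝ => pt u.1 u.2) := by
    unfold pt
    exact ((inj m).contDiff.comp contDiff_fst).add (contDiff_snd.smul contDiff_const)
  have hHc : ContDiff ℝ 3 H := hF.comp hptc
  have hHa : ContDiffAt ℝ 3 H (q, ψ q) := hHc.contDiffAt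
  have hder : ∀ t : ℝ, (fderiv ℝ H (q, ψ q) ∘L .inr ℝ (EuclideanSpace ℝ (Fin m)) ℝ) t =
      t * fderiv ℝ F (pt q (ψ q)) (eL m) := by
    have h1 : HasFDerivAt H (fderiv ℝ H (q, ψ q)) (q, ψ q) :=
      (hHc.differentiable (by norm_num)).differentiableAt.hasFDerivAt
    have h2 : HasDerivAt (fun t : ℝ => (q, t)) ((0 : EuclideanSpace ℝ (Fin m)), (1 : ℝ)) (ψ q) :=
      (hasDerivAt_const (ψ q) q).prodMk (hasDerivAt_id (ψ q))
    have h3 : HasDerivAt (fun t : ℝ => H (q, t)) (fderiv ℝ H (q, ψ q) (0, 1)) (ψ q) :=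
      HasFDerivAt.comp_hasDerivAt (ψ q) h1 h2
    have h4 := hasDerivAt_line hF q (ψ q)
    have h5 := h3.unique h4
    intro t
    have : (fderiv ℝ H (q, ψ q) ∘L .inr ℝ (EuclideanSpace ℝ (Fin m)) ℝ) t =
        t • (fderiv ℝ H (q, ψ q) ∘L .inr ℝ (EuclideanSpace ℝ (Fin m)) ℝ) 1 := by
      rw [← map_smul]; simp
    rw [this]
    simp only [ContinuousLinearMap.comp_apply, ContinuousLinearMap.inr_apply, smul_eq_mul]
    rw [h5]
  have hne : fderiv ℝ F (pt q (ψ q)) (eL m) ≠ 0 := (hc.trans_le (hg _)).ne'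
  have hinv : (fderiv ℝ H (q, ψ q) ∘L .inr ℝ (EuclideanSpace ℝ (Fin m)) ℝ).IsInvertible := by
    refine ContinuousLinearMap.IsInvertible.of_inverse
      (g := ContinuousLinearMap.toSpanSingleton ℝ (fderiv ℝ F (pt q (ψ q)) (eL m))⁻¹) ?_ ?_
    · ext
      simp only [ContinuousLinearMap.comp_apply] at hder ⊢
      rw [hder]
      simp [hne]
    · ext
      have := hder 1
      simp only [ContinuousLinearMap.comp_apply] at this ⊢
      rw [this]
      simp [hne]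
  have e1 := hHa.eventually_apply_implicitFunction (by norm_num) hinv
  have e2 := hHa.contDiffAt_implicitFunction (by norm_num) hinv
  refine e2.congr_of_eventuallyEq ?_
  filter_upwards [e1] with p hp
  have h6 : F (pt p (hHa.implicitFunction (by norm_num) hinv p)) = F (pt p (ψ p)) := by
    rw [hψ p]
    have : H (q, ψ q) = 0 := hψ q
    rw [this] at hp
    exact hp
  exact ((strictMono_line hF hc hg p).injective h6).symm

/-- the derivative of the graph function as a function on the big space -/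
noncomputable def Phi (F : EuclideanSpace ℝ (Fin (m + 1)) → ℝ) (x : EuclideanSpace ℝ (Fin (m + 1))) :
    EuclideanSpace ℝ (Fin m) →L[ℝ] ℝ :=
  -((fderiv ℝ F x (eL m))⁻¹ • ((ContinuousLinearMap.compL ℝ _ _ _).flip (inj m) (fderiv ℝ F x)))

theorem fderiv_graph (hF : ContDiff ℝ 3 F) (hc : 0 < c)
    (hg : ∀ x, c ≤ fderiv ℝ F x (eL m)) {ψ : EuclideanSpace ℝ (Fin m) → ℝ}
    (hψ : ∀ q, F (pt q (ψ q)) = 0) (q : EuclideanSpace ℝ (Fin m)) :
    fderiv ℝ ψ q = Phi F (pt q (ψ q)) := by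
  have hψc := contDiff_graph hF hc hg hψ
  have h1 : HasFDerivAt ψ (fderiv ℝ ψ q) q :=
    (hψc.differentiable (by norm_num)).differentiableAt.hasFDerivAt
  have h2 : HasFDerivAt (fun q => pt q (ψ q)) (inj m + (fderiv ℝ ψ q).smulRight (eL m)) q := by
    unfold pt
    exact (inj m).hasFDerivAt.add (h1.smul_const (eL m))
  have h3 : HasFDerivAt F (fderiv ℝ F (pt q (ψ q))) (pt q (ψ q)) :=
    (hF.differentiable (by norm_num)).differentiableAt.hasFDerivAt
  have h4 := h3.comp q h2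
  have h5 : (F ∘ fun q => pt q (ψ q)) = fun _ => 0 := funext hψ
  rw [h5] at h4
  have h6 := h4.unique (hasFDerivAt_const (0 : ℝ) q)
  have hne : fderiv ℝ F (pt q (ψ q)) (eL m) ≠ 0 := (hc.trans_le (hg _)).ne'
  ext v
  have h7 := congrArg (fun L : EuclideanSpace ℝ (Fin m) →L[ℝ] ℝ => L v) h6
  simp only [ContinuousLinearMap.comp_apply, _root_.add_apply,
    ContinuousLinearMap.smulRight_apply, map_add, map_smul, smul_eq_mul,
    _root_.zero_apply] at h7
  simp only [Phi, _root_.neg_apply, _root_.smul_apply,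
    ContinuousLinearMap.flip_apply, ContinuousLinearMap.compL_apply,
    ContinuousLinearMap.comp_apply, smul_eq_mul]
  field_simp
  linarith

end one

theorem Phi_bound (m : ℕ) {c : ℝ} (M : ℝ) (hc : 0 < c) : ∃ P : ℝ,
    ∀ F : EuclideanSpace ℝ (Fin (m + 1)) → ℝ, ContDiff ℝ 3 F →
      (∀ i : ℕ, 1 ≤ i → i ≤ 3 → ∀ x, ‖iteratedFDeriv ℝ i F x‖ ≤ M) →
      (∀ x, c ≤ fderiv ℝ F x (eL m)) → ContDiff ℝ 2 (Phi F) ∧ BD 2 P (Phi F) := by
  obtain ⟨R, hR⟩ := BD.inv_exists (V := EuclideanSpace ℝ (Fin (m + 1))) 2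
    (A := ‖ContinuousLinearMap.apply ℝ ℝ (eL m)‖ * M) hc
  set L := ((ContinuousLinearMap.compL ℝ (EuclideanSpace ℝ (Fin m))
    (EuclideanSpace ℝ (Fin (m + 1))) ℝ).flip (inj m)) with hL
  refine ⟨2 ^ 2 * (R * (‖L‖ * M)), fun F hF hb hg => ?_⟩
  have hD : ContDiff ℝ 2 (fderiv ℝ F) := hF.fderiv_right (by norm_num)
  have hDb : BD 2 M (fderiv ℝ F) := BD.fderiv fun i h1 hi x => hb i h1 hi x
  have hgc : ContDiff ℝ 2 (fun x => fderiv ℝ F x (eL m)) := hD.clm_apply contDiff_const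
  have hgb : BD 2 (‖ContinuousLinearMap.apply ℝ ℝ (eL m)‖ * M) (fun x => fderiv ℝ F x (eL m)) :=
    BD.clm hD hDb (ContinuousLinearMap.apply ℝ ℝ (eL m))
  have hr := hR _ hgc hgb hg
  have hrc : ContDiff ℝ 2 (fun x => (fderiv ℝ F x (eL m))⁻¹) :=
    hgc.inv fun x => (hc.trans_le (hg x)).ne'
  have hLc : ContDiff ℝ 2 (fun x => L (fderiv ℝ F x)) := L.contDiff.comp hD
  have hLb : BD 2 (‖L‖ * M) (fun x => L (fderiv ℝ F x)) := BD.clm hD hDb L
  exact ⟨(hrc.smul hLc).neg, (BD.smul hrc hLc hr hLb).neg⟩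

theorem iterated_inj (m : ℕ) (i : ℕ) (hi : 1 ≤ i) (q : EuclideanSpace ℝ (Fin m)) :
    ‖iteratedFDeriv ℝ i (inj m) q‖ ≤ ‖inj m‖ := by
  obtain ⟨j, rfl⟩ : ∃ j, i = j + 1 := ⟨i - 1, by omega⟩
  rw [← norm_iteratedFDeriv_fderiv]
  have : fderiv ℝ (inj m) = fun _ => inj m := by
    ext1 x
    exact (inj m).fderiv
  rw [this]
  rcases Nat.eq_zero_or_pos j with rfl | h
  · rw [norm_iteratedFDeriv_zero]
  · rw [iteratedFDeriv_const_of_ne (by omega)]
    simp

theorem iterated_pt {m : ℕ} {n : ℕ} {P : ℝ} {ψ : EuclideanSpace ℝ (Fin m) → ℝ}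
    (hψ : ContDiff ℝ 3 ψ) (hn : n ≤ 3)
    (hP : ∀ i, 1 ≤ i → i ≤ n → ∀ q, ‖iteratedFDeriv ℝ i ψ q‖ ≤ P) :
    ∀ i, 1 ≤ i → i ≤ n → ∀ q, ‖iteratedFDeriv ℝ i (fun q => pt q (ψ q)) q‖ ≤
      ‖inj m‖ + ‖ContinuousLinearMap.toSpanSingleton ℝ (eL m)‖ * P := by
  intro i h1 hi q
  have e : (fun q => pt q (ψ q)) = (inj m : EuclideanSpace ℝ (Fin m) → _) +
      fun q => ContinuousLinearMap.toSpanSingleton ℝ (eL m) (ψ q) := by
    ext1 q
    simp [pt]
  have hψi : ContDiff ℝ i ψ := hψ.of_le (by exact_mod_cast hi.trans hn)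
  have c1 : ContDiffAt ℝ i (inj m : EuclideanSpace ℝ (Fin m) → _) q := (inj m).contDiff.contDiffAt
  have c2 : ContDiffAt ℝ i (fun q => ContinuousLinearMap.toSpanSingleton ℝ (eL m) (ψ q)) q :=
    ((ContinuousLinearMap.toSpanSingleton ℝ (eL m)).contDiff.comp hψi).contDiffAt
  rw [e, iteratedFDeriv_add_apply c1 c2]
  refine (norm_add_le _ _).trans (add_le_add (iterated_inj m i h1 q) ?_)
  refine ((ContinuousLinearMap.toSpanSingleton ℝ (eL m)).norm_iteratedFDeriv_comp_left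
    hψi.contDiffAt le_rfl).trans ?_
  exact mul_le_mul_of_nonneg_left (hP i h1 hi q) (norm_nonneg _)

end ChartPriv

open ChartPriv

theorem chart_exists {m : ℕ} {c M : ℝ} (hc : 0 < c) :
    ∃ M' : ℝ, ∀ F : EuclideanSpace ℝ (Fin (m + 1)) → ℝ, ContDiff ℝ 3 F →
      (∀ i : ℕ, 1 ≤ i → i ≤ 3 → ∀ x, ‖iteratedFDeriv ℝ i F x‖ ≤ M) →
      (∀ x, c ≤ fderiv ℝ F x (EuclideanSpace.single (Fin.last m) 1)) →
      (∀ x, x (Fin.last m) = 0 → |F x| ≤ M) →
      ∃ ψ : EuclideanSpace ℝ (Fin m) → ℝ, ContDiff ℝ 3 ψ ∧ (∀ q, |ψ q| ≤ M') ∧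
        (∀ i : ℕ, 1 ≤ i → i ≤ 3 → ∀ q, ‖iteratedFDeriv ℝ i ψ q‖ ≤ M') ∧
        ∀ x, (0 < F x ↔ ψ (front x) < x (Fin.last m)) := by
  obtain ⟨P, hP⟩ := Phi_bound m M hc
  obtain ⟨C1, hC1⟩ := BD.comp_exists (V := EuclideanSpace ℝ (Fin m))
    (W := EuclideanSpace ℝ (Fin (m + 1))) (X := EuclideanSpace ℝ (Fin m) →L[ℝ] ℝ) 1
    (A := P) (D := ‖inj m‖ + ‖ContinuousLinearMap.toSpanSingleton ℝ (eL m)‖ * P)
  obtain ⟨C2, hC2⟩ := BD.comp_exists (V := EuclideanSpace ℝ (Fin m))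
    (W := EuclideanSpace ℝ (Fin (m + 1))) (X := EuclideanSpace ℝ (Fin m) →L[ℝ] ℝ) 2
    (A := P) (D := ‖inj m‖ + ‖ContinuousLinearMap.toSpanSingleton ℝ (eL m)‖ * C1)
  refine ⟨max (M / c) C2, fun F hF hb hg h0 => ?_⟩
  choose ψ hψ hψb using exists_zero hF hc hg h0
  have hψc := contDiff_graph hF hc hg hψ
  obtain ⟨hΦc, hΦ⟩ := hP F hF hb hg
  have hd : fderiv ℝ ψ = fun q => Phi F (pt q (ψ q)) := funext (fderiv_graph hF hc hg hψ)
  have hX3 : ContDiff ℝ 3 (fun q => pt q (ψ q)) := by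
    unfold pt
    exact (inj m).contDiff.add (hψc.smul contDiff_const)
  have b1 : ∀ i, 1 ≤ i → i ≤ 1 → ∀ q, ‖iteratedFDeriv ℝ i ψ q‖ ≤ P := by
    refine BD.of_fderiv (n := 0) ?_
    rw [hd]
    intro i hi q
    obtain rfl : i = 0 := by omega
    rw [norm_iteratedFDeriv_zero]
    exact hΦ.norm_le _
  have b2 : ∀ i, 1 ≤ i → i ≤ 2 → ∀ q, ‖iteratedFDeriv ℝ i ψ q‖ ≤ C1 := by
    refine BD.of_fderiv (n := 1) ?_
    rw [hd]
    exact hC1 (Phi F) (fun q => pt q (ψ q)) (hΦc.of_le (by norm_num)) (hX3.of_le (by norm_num))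
      (hΦ.mono (by norm_num) le_rfl) (iterated_pt hψc (by norm_num) b1)
  have b3 : ∀ i, 1 ≤ i → i ≤ 3 → ∀ q, ‖iteratedFDeriv ℝ i ψ q‖ ≤ C2 := by
    refine BD.of_fderiv (n := 2) ?_
    rw [hd]
    exact hC2 (Phi F) (fun q => pt q (ψ q)) hΦc (hX3.of_le (by norm_num))
      hΦ (iterated_pt hψc (by norm_num) b2)
  refine ⟨ψ, hψc, fun q => (hψb q).trans (le_max_left _ _), fun i h1 hi q =>
    (b3 i h1 hi q).trans (le_max_right _ _), fun x => ?_⟩
  have hs := strictMono_line hF hc hg (front x)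
  have e1 := hψ (front x)
  have e2 : F x = F (pt (front x) (x (Fin.last m))) := by rw [pt_front]
  have h7 : F (pt (front x) (ψ (front x))) < F (pt (front x) (x (Fin.last m))) ↔
      ψ (front x) < x (Fin.last m) := hs.lt_iff_lt
  rw [e1, ← e2] at h7
  exact h7

end Pool.Agent.Lib.MP_3eb465_an
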