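import Pool.Agent.Lib.MP_3eb465_an.Defs
import Pool.Agent.Lib.MP_3eb465_an.ChartExists

/-!
J13: uniform charts for a regular level set of a function with bounded derivatives.
-/

set_option linter.unusedSectionVars false
set_option linter.unusedVariables false

namespace Pool.Agent.Lib.MP_3eb465_an

open MeasureTheory InnerProductSpace Laplacian Set Filter Topology
open scoped ContDiff RealInnerProductSpace

namespace Charts

variable {E : Type*} [NormedAddCommGroup E] [InnerProductSpace ℝ E] [FiniteDimensional ℝ E]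

theorem exists_isometry {n e : E} (hn : ‖n‖ = 1) (he : ‖e‖ = 1) :
    ∃ L : E ≃ₗᵢ[ℝ] E, L n = e :=
  ⟨Submodule.reflection (ℝ ∙ (n - e))ᗮ, Submodule.reflection_sub (by rw [hn, he])⟩

/-- Taylor bounds at a critical zero -/
theorem taylor_bounds {η : E → ℝ} {M r : ℝ} (hη : ContDiff ℝ 2 η) (h0 : η 0 = 0)
    (h1 : fderiv ℝ η 0 = 0) (h2 : ∀ p, ‖p‖ ≤ r → ‖iteratedFDeriv ℝ 2 η p‖ ≤ M) {p : E}
    (hp : ‖p‖ ≤ r) : ‖fderiv ℝ η p‖ ≤ M * ‖p‖ ∧ |η p| ≤ M * ‖p‖ ^ 2 := by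
  have hd1 : Differentiable ℝ η := hη.differentiable (by norm_num)
  have hd2 : ContDiff ℝ 1 (fderiv ℝ η) := hη.fderiv_right (by norm_num)
  have hd3 : Differentiable ℝ (fderiv ℝ η) := hd2.differentiable (by norm_num)
  have hM0 : 0 ≤ M := (norm_nonneg _).trans (h2 p hp)
  have key : ∀ q, ‖q‖ ≤ r → ‖fderiv ℝ η q‖ ≤ M * ‖q‖ := by
    intro q hq
    have h := (convex_closedBall (0 : E) r).norm_image_sub_le_of_norm_fderiv_le (𝕜 := ℝ)
      (f := fderiv ℝ η) (C := M) (x := 0) (y := q) (fun x _ => hd3 x) (fun x hx => ?_)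
      (by simpa using (norm_nonneg q).trans hq) (by simpa using hq)
    · rw [h1, sub_zero, sub_zero] at h; exact h
    · rw [← norm_iteratedFDeriv_one, norm_iteratedFDeriv_fderiv]
      exact h2 x (by simpa using hx)
  refine ⟨key p hp, ?_⟩
  have h := (convex_closedBall (0 : E) ‖p‖).norm_image_sub_le_of_norm_fderiv_le (𝕜 := ℝ)
      (f := η) (C := M * ‖p‖) (x := 0) (y := p) (fun x _ => hd1 x) (fun x hx => ?_)
      (by simp) (by simp)
  · rw [h0, sub_zero, sub_zero, Real.norm_eq_abs] at h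
    linarith [h]
  · have hx' : ‖x‖ ≤ ‖p‖ := by simpa using hx
    exact (key x (hx'.trans hp)).trans (by gcongr)

theorem exists_cutoff (E : Type*) [NormedAddCommGroup E] [InnerProductSpace ℝ E]
    [FiniteDimensional ℝ E] : ∃ (χ : E → ℝ) (C : ℝ), ContDiff ℝ 3 χ ∧ 1 ≤ C ∧
    (∀ p, ‖p‖ < 1 → χ p = 1) ∧ (∀ p, 2 < ‖p‖ → χ =ᶠ[𝓝 p] fun _ => 0) ∧
      (∀ p, |χ p| ≤ 1) ∧ ∀ i : ℕ, i ≤ 3 → ∀ p, ‖iteratedFDeriv ℝ i χ p‖ ≤ C := by
  let b : ContDiffBump (0 : E) := ⟨1, 2, one_pos, one_lt_two⟩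
  have hb : ContDiff ℝ 3 b := b.contDiff
  have hbound : ∀ i : ℕ, i ≤ 3 → ∃ C : ℝ, ∀ p, ‖iteratedFDeriv ℝ i b p‖ ≤ C := by
    intro i hi
    have hc : Continuous (iteratedFDeriv ℝ i b) :=
      hb.continuous_iteratedFDeriv (by exact_mod_cast hi)
    exact hc.bounded_above_of_compact_support (b.hasCompactSupport.iteratedFDeriv i)
  choose! C hC using hbound
  refine ⟨b, 1 + |C 0| + |C 1| + |C 2| + |C 3|, hb, ?_, ?_, ?_, ?_, ?_⟩
  · have := abs_nonneg (C 0); have := abs_nonneg (C 1); have := abs_nonneg (C 2)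
    have := abs_nonneg (C 3); linarith
  · intro p hp
    exact b.one_of_mem_closedBall (by simpa [b] using hp.le)
  · intro p hp
    have : p ∈ {q : E | 2 < ‖q‖} := hp
    filter_upwards [(isOpen_lt continuous_const continuous_norm).mem_nhds this] with q hq
    exact b.zero_of_le_dist (by simpa [b] using (le_of_lt hq))
  · intro p
    rw [abs_of_nonneg b.nonneg]; exact b.le_one
  · intro i hi p
    have h0 := abs_nonneg (C 0); have h1 := abs_nonneg (C 1); have h2 := abs_nonneg (C 2)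
    have h3 := abs_nonneg (C 3)
    refine (hC i hi p).trans ((le_abs_self _).trans ?_)
    interval_cases i <;> linarith

theorem scaled_cutoff {χ : E → ℝ} {C : ℝ} (hχ : ContDiff ℝ 3 χ) (hC1 : 1 ≤ C)
    (hC : ∀ i : ℕ, i ≤ 3 → ∀ p, ‖iteratedFDeriv ℝ i χ p‖ ≤ C) {r₁ : ℝ} (hr : 0 < r₁)
    (i : ℕ) (hi : i ≤ 3) (p : E) :
    ‖iteratedFDeriv ℝ i (fun p => χ (r₁⁻¹ • p)) p‖ ≤ C * r₁⁻¹ ^ i := by
  have h := iteratedFDeriv_comp_const_smul (𝕜 := ℝ) (i := i) (f := χ) (r₁⁻¹)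
    (hχ.of_le (by exact_mod_cast hi))
  rw [h, norm_smul, norm_pow, Real.norm_of_nonneg (by positivity), mul_comm]
  gcongr
  exact hC i hi _

theorem norm_iteratedFDeriv_sub_linear {G : E → ℝ} (hG : ContDiff ℝ 3 G) (l : E →L[ℝ] ℝ) {i : ℕ}
    (hi : 2 ≤ i) (hi3 : i ≤ 3) (p : E) :
    ‖iteratedFDeriv ℝ i (fun p => G p - l p) p‖ = ‖iteratedFDeriv ℝ i G p‖ := by
  obtain ⟨j, rfl⟩ : ∃ j, i = j + 1 := ⟨i - 1, by omega⟩
  rw [← norm_iteratedFDeriv_fderiv, ← norm_iteratedFDeriv_fderiv]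
  have e : fderiv ℝ (fun p => G p - l p) = fun p => fderiv ℝ G p - l := by
    ext1 p
    have := fderiv_fun_sub (hG.differentiable (by norm_num) p) (l.differentiableAt (x := p))
    rw [this, l.fderiv]
  rw [e]
  have hGf : ContDiff ℝ j (fderiv ℝ G) := hG.fderiv_right (by
    have : (j : ℕ∞ω) + 1 ≤ 3 := by exact_mod_cast hi3
    exact this)
  have h2 : iteratedFDeriv ℝ j (fun p => fderiv ℝ G p - l) p =
      iteratedFDeriv ℝ j (fderiv ℝ G) p - iteratedFDeriv ℝ j (fun _ : E => l) p :=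
    fun_iteratedFDeriv_sub_apply hGf.contDiffAt contDiff_const.contDiffAt
  rw [h2, iteratedFDeriv_const_of_ne (by omega)]
  simp


/-- replace a function near a critical point of `G - a⟨e,·⟩` by a global one -/
theorem cutoff_core (E : Type*) [NormedAddCommGroup E] [InnerProductSpace ℝ E]
    [FiniteDimensional ℝ E] {c M r : ℝ} (hc : 0 < c) (hr : 0 < r) :
    ∃ r₁ M₂ : ℝ, 0 < r₁ ∧ ∀ (G : E → ℝ) (e : E) (a : ℝ), ‖e‖ = 1 → c ≤ a → a ≤ M →
      ContDiff ℝ 3 G → G 0 = 0 → fderiv ℝ G 0 = a • innerSL ℝ e →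
      (∀ i : ℕ, 1 ≤ i → i ≤ 3 → ∀ p, ‖p‖ ≤ r → ‖iteratedFDeriv ℝ i G p‖ ≤ M) →
      ∃ Gt : E → ℝ, ContDiff ℝ 3 Gt ∧
        (∀ i : ℕ, 1 ≤ i → i ≤ 3 → ∀ p, ‖iteratedFDeriv ℝ i Gt p‖ ≤ M₂) ∧
        (∀ p, c / 2 ≤ fderiv ℝ Gt p e) ∧ (∀ p, ⟪e, p⟫ = 0 → |Gt p| ≤ M₂) ∧
        ∀ p, ‖p‖ < r₁ → Gt p = G p := by
  rcases le_or_gt M 0 with hM | hM
  · refine ⟨1, 0, one_pos, fun G e a he h1 h2 => ?_⟩
    linarith
  obtain ⟨χ, C, hχ, hC1, χ1, χ0, χb, χC⟩ := exists_cutoff E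
  have hC0 : 0 < C := by linarith
  set r₁ : ℝ := min (min (r / 2) 1) (c / (4 * M + 8 * C * M)) with hr₁
  have hden : 0 < 4 * M + 8 * C * M := by positivity
  have hr1 : 0 < r₁ := by
    rw [hr₁]; exact lt_min (lt_min (by positivity) one_pos) (by positivity)
  have hr1a : r₁ ≤ r / 2 := (min_le_left _ _).trans (min_le_left _ _)
  have hr1b : r₁ ≤ 1 := (min_le_left _ _).trans (min_le_right _ _)
  have hr1c : r₁ * (4 * M + 8 * C * M) ≤ c := by
    have := min_le_right (min (r / 2) 1) (c / (4 * M + 8 * C * M))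
    rw [← hr₁, le_div_iff₀ hden] at this
    exact this
  set M₃ : ℝ := M * (1 + r) ^ 2 with hM₃
  set M₄ : ℝ := 8 * (C * r₁⁻¹ ^ 3) * M₃ with hM₄
  have hM₃0 : 0 < M₃ := by positivity
  have hM₄0 : 0 < M₄ := by positivity
  refine ⟨r₁, M + M₄, hr1, ?_⟩
  intro G e a he hca haM hG hG0 hG1 hGb
  set l : E →L[ℝ] ℝ := a • innerSL ℝ e with hl
  have hln : ‖l‖ ≤ M := by
    rw [hl, norm_smul, innerSL_apply_norm, he, mul_one, Real.norm_of_nonneg (hc.le.trans hca)]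
    exact haM
  set η : E → ℝ := fun p => G p - l p with hη
  have hηd : ContDiff ℝ 3 η := hG.sub l.contDiff
  have hη0 : η 0 = 0 := by simp [hη, hG0]
  have hηf : ∀ p, fderiv ℝ η p = fderiv ℝ G p - l := by
    intro p
    have := fderiv_fun_sub (hG.differentiable (by norm_num) p) (l.differentiableAt (x := p))
    rw [hη, this, l.fderiv]
  have hη1 : fderiv ℝ η 0 = 0 := by rw [hηf, hG1, hl, sub_self]
  have hη2 : ∀ i : ℕ, 2 ≤ i → i ≤ 3 → ∀ p, ‖p‖ ≤ r → ‖iteratedFDeriv ℝ i η p‖ ≤ M := by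
    intro i hi hi3 p hp
    rw [hη, norm_iteratedFDeriv_sub_linear hG l hi hi3]
    exact hGb i (by omega) hi3 p hp
  have hT : ∀ p, ‖p‖ ≤ r → ‖fderiv ℝ η p‖ ≤ M * ‖p‖ ∧ |η p| ≤ M * ‖p‖ ^ 2 := fun p hp =>
    taylor_bounds (hηd.of_le (by norm_num)) hη0 hη1 (hη2 2 le_rfl (by norm_num)) hp
  have hηall : ∀ i : ℕ, i ≤ 3 → ∀ p, ‖p‖ ≤ r → ‖iteratedFDeriv ℝ i η p‖ ≤ M₃ := by
    intro i hi p hp
    have hpn := norm_nonneg p
    have h1r : (1 : ℝ) ≤ (1 + r) ^ 2 := by nlinarith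
    interval_cases i
    · rw [norm_iteratedFDeriv_zero, Real.norm_eq_abs]
      refine (hT p hp).2.trans ?_
      rw [hM₃]
      gcongr
      linarith
    · rw [norm_iteratedFDeriv_one]
      refine (hT p hp).1.trans ?_
      rw [hM₃]
      gcongr
      nlinarith
    · refine (hη2 2 le_rfl (by norm_num) p hp).trans ?_
      rw [hM₃]; nlinarith
    · refine (hη2 3 (by norm_num) le_rfl p hp).trans ?_
      rw [hM₃]; nlinarith
  set χs : E → ℝ := fun p => χ (r₁⁻¹ • p) with hχs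
  have hχsd : ContDiff ℝ 3 χs := hχ.comp (contDiff_const_smul _)
  have hχsb : ∀ i : ℕ, i ≤ 3 → ∀ p, ‖iteratedFDeriv ℝ i χs p‖ ≤ C * r₁⁻¹ ^ i :=
    fun i hi p => scaled_cutoff hχ hC1 χC hr1 i hi p
  have hinv : 1 ≤ r₁⁻¹ := (one_le_inv₀ hr1).2 hr1b
  have hprodd : ContDiff ℝ 3 (fun p => χs p * η p) := hχsd.mul hηd
  have hfar : ∀ p, 2 * r₁ < ‖p‖ → (fun p => χs p * η p) =ᶠ[𝓝 p] fun _ => 0 := by
    intro p hp
    have h1 : 2 < ‖r₁⁻¹ • p‖ := by
      rw [norm_smul, Real.norm_of_nonneg (by positivity)]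
      rw [inv_mul_eq_div, lt_div_iff₀ hr1]; exact hp
    have h2 := (continuous_const_smul (r₁⁻¹)).continuousAt (x := p) |>.eventually (χ0 _ h1)
    filter_upwards [h2] with q hq
    simp only [hχs]
    rw [show χ (r₁⁻¹ • q) = 0 from hq, zero_mul]
  have hprod : ∀ i : ℕ, i ≤ 3 → ∀ p, ‖iteratedFDeriv ℝ i (fun p => χs p * η p) p‖ ≤ M₄ := by
    intro i hi p
    rcases lt_or_ge (2 * r₁) ‖p‖ with hp | hp
    · rw [((hfar p hp).iteratedFDeriv ℝ i).self_of_nhds]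
      have : iteratedFDeriv ℝ i (fun _ : E => (0 : ℝ)) p = 0 := by
        rcases Nat.eq_zero_or_pos i with h | h
        · subst h; ext; simp
        · rw [iteratedFDeriv_const_of_ne (by omega)]; rfl
      rw [this, norm_zero]; exact hM₄0.le
    · have hpr : ‖p‖ ≤ r := by linarith
      refine (norm_iteratedFDeriv_mul_le hχsd hηd p (by exact_mod_cast hi)).trans ?_
      have hterm : ∀ j ∈ Finset.range (i + 1), (i.choose j : ℝ) * ‖iteratedFDeriv ℝ j χs p‖ *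
          ‖iteratedFDeriv ℝ (i - j) η p‖ ≤ (i.choose j : ℝ) * ((C * r₁⁻¹ ^ 3) * M₃) := by
        intro j hj
        have hj' : j ≤ i := Nat.lt_succ_iff.1 (Finset.mem_range.1 hj)
        have h1 := hχsb j (by omega) p
        have h2 := hηall (i - j) (by omega) p hpr
        have h3 : C * r₁⁻¹ ^ j ≤ C * r₁⁻¹ ^ 3 := by
          have : j ≤ 3 := by omega
          gcongr
        rw [mul_assoc]
        gcongr
        exact h1.trans h3
      refine (Finset.sum_le_sum hterm).trans ?_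
      rw [← Finset.sum_mul]
      have h4 : (∑ j ∈ Finset.range (i + 1), (i.choose j : ℝ)) = 2 ^ i := by
        exact_mod_cast Nat.sum_range_choose i
      rw [h4, hM₄]
      have h5 : (2 : ℝ) ^ i ≤ 8 := by
        calc (2 : ℝ) ^ i ≤ 2 ^ 3 := pow_le_pow_right₀ (by norm_num) hi
          _ = 8 := by norm_num
      have h6 : 0 ≤ (C * r₁⁻¹ ^ 3) * M₃ := by positivity
      nlinarith
  have hproddiff : Differentiable ℝ (fun p => χs p * η p) := hprodd.differentiable (by norm_num)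
  have hfd : ∀ p, ‖fderiv ℝ (fun p => χs p * η p) p‖ ≤ c / 2 := by
    intro p
    rcases lt_or_ge (2 * r₁) ‖p‖ with hp | hp
    · rw [(hfar p hp).fderiv_eq]
      simp; positivity
    · have hpr : ‖p‖ ≤ r := by linarith
      have e1 := fderiv_fun_mul (hχsd.differentiable (by norm_num) p)
        (hηd.differentiable (by norm_num) p)
      rw [e1]
      obtain ⟨t1, t2⟩ := hT p hpr
      have hb1 := hχsb 1 (by norm_num) p
      rw [norm_iteratedFDeriv_one, pow_one] at hb1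
      have hb0 : |χs p| ≤ 1 := χb _
      calc ‖χs p • fderiv ℝ η p + η p • fderiv ℝ χs p‖
          ≤ ‖χs p • fderiv ℝ η p‖ + ‖η p • fderiv ℝ χs p‖ := norm_add_le _ _
        _ = |χs p| * ‖fderiv ℝ η p‖ + |η p| * ‖fderiv ℝ χs p‖ := by
            rw [norm_smul, norm_smul, Real.norm_eq_abs, Real.norm_eq_abs]
        _ ≤ 1 * (M * ‖p‖) + (M * ‖p‖ ^ 2) * (C * r₁⁻¹) := by gcongr
        _ ≤ 1 * (M * (2 * r₁)) + (M * (2 * r₁) ^ 2) * (C * r₁⁻¹) := by gcongr
        _ = (r₁ * (4 * M + 8 * C * M)) / 2 := by field_simp; ring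
        _ ≤ c / 2 := by linarith
  refine ⟨fun p => l p + χs p * η p, l.contDiff.add hprodd, ?_, ?_, ?_, ?_⟩
  · intro i hi hi3 p
    have e1 : iteratedFDeriv ℝ i (fun p => l p + χs p * η p) p =
        iteratedFDeriv ℝ i (fun p => l p) p + iteratedFDeriv ℝ i (fun p => χs p * η p) p :=
      fun_iteratedFDeriv_add_apply l.contDiff.contDiffAt
        ((hprodd.of_le (by exact_mod_cast hi3)).contDiffAt)
    rw [e1]
    refine (norm_add_le _ _).trans (add_le_add ?_ (hprod i hi3 p))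
    obtain ⟨j, rfl⟩ : ∃ j, i = j + 1 := ⟨i - 1, by omega⟩
    rw [← norm_iteratedFDeriv_fderiv]
    have e2 : fderiv ℝ (fun p => l p) = fun _ => l := by ext1 p; exact l.fderiv
    rw [e2]
    rcases Nat.eq_zero_or_pos j with h | h
    · subst h; rw [norm_iteratedFDeriv_zero]; exact hln
    · rw [iteratedFDeriv_const_of_ne (by omega)]; simpa using hM.le
  · intro p
    have e1 : fderiv ℝ (fun p => l p + χs p * η p) p = l + fderiv ℝ (fun p => χs p * η p) p := by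
      have := fderiv_fun_add (l.differentiableAt (x := p)) (hproddiff p)
      rw [this, l.fderiv]
    rw [e1, add_apply]
    have h1 : l e = a := by
      simp [hl, he]
    have h2 : |fderiv ℝ (fun p => χs p * η p) p e| ≤ c / 2 := by
      have := (fderiv ℝ (fun p => χs p * η p) p).le_opNorm e
      rw [he, mul_one, Real.norm_eq_abs] at this
      exact this.trans (hfd p)
    have h3 := neg_abs_le (fderiv ℝ (fun p => χs p * η p) p e)
    rw [h1]; linarith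
  · intro p hp
    have h1 : l p = 0 := by simp [hl, hp]
    simp only [h1, zero_add]
    have := hprod 0 (by norm_num) p
    rw [norm_iteratedFDeriv_zero, Real.norm_eq_abs] at this
    linarith
  · intro p hp
    have h1 : χs p = 1 := by
      apply χ1
      rw [norm_smul, Real.norm_of_nonneg (by positivity), inv_mul_eq_div, div_lt_one hr1]
      exact hp
    simp only [h1, hη]; ring


theorem holder_of_bounds {m : ℕ} {ψ : EuclideanSpace ℝ (Fin m) → ℝ} {M : ℝ}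
    (hψ : ContDiff ℝ 3 ψ) (h0 : ∀ q, |ψ q| ≤ M)
    (hi : ∀ i : ℕ, 1 ≤ i → i ≤ 3 → ∀ q, ‖iteratedFDeriv ℝ i ψ q‖ ≤ M) {γ : ℝ} (hγ0 : 0 < γ)
    (hγ1 : γ ≤ 1) : C2HolderBound γ (2 * M) ψ := by
  have hM : 0 ≤ M := (abs_nonneg _).trans (h0 0)
  refine ⟨hψ.of_le (by norm_num), fun x => (h0 x).trans (by linarith),
    fun x => (hi 1 le_rfl (by norm_num) x).trans (by linarith),
    fun x => (hi 2 (by norm_num) (by norm_num) x).trans (by linarith), ?_⟩
  intro x y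
  have hd : Differentiable ℝ (iteratedFDeriv ℝ 2 ψ) :=
    hψ.differentiable_iteratedFDeriv (by norm_cast)
  have hlip : ‖iteratedFDeriv ℝ 2 ψ x - iteratedFDeriv ℝ 2 ψ y‖ ≤ M * ‖x - y‖ := by
    refine convex_univ.norm_image_sub_le_of_norm_fderiv_le (𝕜 := ℝ) (f := iteratedFDeriv ℝ 2 ψ)
      (C := M) (fun z _ => hd z) (fun z _ => ?_) (mem_univ y) (mem_univ x)
    rw [norm_fderiv_iteratedFDeriv]
    exact hi 3 (by norm_num) le_rfl z
  have h2 : ‖iteratedFDeriv ℝ 2 ψ x - iteratedFDeriv ℝ 2 ψ y‖ ≤ 2 * M := by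
    refine (norm_sub_le _ _).trans ?_
    have h3 := hi 2 (by norm_num) (by norm_num) x
    have h4 := hi 2 (by norm_num) (by norm_num) y
    linarith
  rcases le_or_gt ‖x - y‖ 1 with h | h
  · refine hlip.trans ?_
    have h5 : ‖x - y‖ ≤ ‖x - y‖ ^ γ := by
      rcases eq_or_lt_of_le (norm_nonneg (x - y)) with h6 | h6
      · rw [← h6, Real.zero_rpow hγ0.ne']
      · calc ‖x - y‖ = ‖x - y‖ ^ (1 : ℝ) := (Real.rpow_one _).symm
          _ ≤ ‖x - y‖ ^ γ := Real.rpow_le_rpow_of_exponent_ge h6 h hγ1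
    have h7 : 0 ≤ ‖x - y‖ ^ γ := by positivity
    nlinarith
  · refine h2.trans ?_
    have h5 : (1 : ℝ) ≤ ‖x - y‖ ^ γ := Real.one_le_rpow h.le hγ0.le
    nlinarith

end Charts

open Charts in
theorem uniformlySmooth_of_bounds {m : ℕ} {F : EuclideanSpace ℝ (Fin (m + 1)) → ℝ} {c M r : ℝ}
    (hF : ContDiff ℝ 3 F) (hc : 0 < c) (hr : 0 < r)
    (hgrad : ∀ x, F x = 0 → c ≤ ‖fderiv ℝ F x‖)
    (hbd : ∀ i : ℕ, 1 ≤ i → i ≤ 3 → ∀ x y, F x = 0 → dist x y ≤ r →
      ‖iteratedFDeriv ℝ i F y‖ ≤ M) {γ : ℝ} (hγ0 : 0 < γ) (hγ1 : γ ≤ 1) :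
    UniformlySmooth γ {x | 0 < F x} := by
  obtain ⟨r₁, M₂, hr1, hcore⟩ := cutoff_core (EuclideanSpace ℝ (Fin (m + 1))) (M := M) hc hr
  obtain ⟨M', hchart⟩ := chart_exists (m := m) (c := c / 2) (M := M₂) (by positivity)
  refine ⟨r₁, 2 * M', hr1, ?_⟩
  intro x₀ hx₀
  have hF0 : F x₀ = 0 := by
    have h1 : frontier {x | 0 < F x} ⊆ {x | 0 = F x} :=
      frontier_lt_subset_eq continuous_const hF.continuous
    exact (h1 hx₀).symm
  set ν : EuclideanSpace ℝ (Fin (m + 1)) := (InnerProductSpace.toDual ℝ _).symm (fderiv ℝ F x₀)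
    with hν
  have hνe : fderiv ℝ F x₀ = innerSL ℝ ν := by
    ext v
    rw [innerSL_apply_apply, hν, InnerProductSpace.toDual_symm_apply]
  have hνn : ‖ν‖ = ‖fderiv ℝ F x₀‖ := by rw [hν, LinearIsometryEquiv.norm_map]
  set a : ℝ := ‖ν‖ with ha
  have hca : c ≤ a := by rw [hνn]; exact hgrad x₀ hF0
  have haM : a ≤ M := by
    rw [hνn, ← norm_iteratedFDeriv_one]
    exact hbd 1 le_rfl (by norm_num) x₀ x₀ hF0 (by simpa using hr.le)
  have ha0 : 0 < a := hc.trans_le hca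
  set e : EuclideanSpace ℝ (Fin (m + 1)) := EuclideanSpace.single (Fin.last m) 1 with he
  have hen : ‖e‖ = 1 := by simp [he]
  have hnn : ‖a⁻¹ • ν‖ = 1 := by
    rw [norm_smul, Real.norm_of_nonneg (by positivity), ← ha]
    field_simp
  obtain ⟨L, hL⟩ := exists_isometry hnn hen
  have hLν : L ν = a • e := by
    rw [← hL, map_smul, smul_smul, mul_inv_cancel₀ ha0.ne', one_smul]
  set G : EuclideanSpace ℝ (Fin (m + 1)) → ℝ := fun p => F (x₀ + L.symm p) with hG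
  have hGe : G = (fun w => F (x₀ + w)) ∘ L.symm := rfl
  have hGd : ContDiff ℝ 3 G :=
    hF.comp (contDiff_const.add L.symm.toContinuousLinearEquiv.contDiff)
  have hG0 : G 0 = 0 := by simp [hG, hF0]
  have hG1 : fderiv ℝ G 0 = a • innerSL ℝ e := by
    have h1 : HasFDerivAt (fun p => x₀ + L.symm p)
        (L.symm.toContinuousLinearEquiv : EuclideanSpace ℝ (Fin (m + 1)) →L[ℝ] _) 0 :=
      (L.symm.toContinuousLinearEquiv.hasFDerivAt (x := 0)).const_add x₀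
    have h2 : HasFDerivAt F (innerSL ℝ ν) (x₀ + L.symm 0) := by
      rw [map_zero, add_zero, ← hνe]
      exact (hF.differentiable (by norm_num) x₀).hasFDerivAt
    have h3 := h2.comp (0 : EuclideanSpace ℝ (Fin (m + 1))) h1
    have h4 : HasFDerivAt G _ 0 := h3
    rw [h4.fderiv]
    ext v
    simp only [ContinuousLinearMap.comp_apply, innerSL_apply_apply, smul_apply,
      smul_eq_mul]
    have h5 : ⟪ν, L.symm v⟫ = ⟪L ν, v⟫ := by
      rw [← L.inner_map_map ν (L.symm v), L.apply_symm_apply]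
    have h6 : ((L.symm.toContinuousLinearEquiv : EuclideanSpace ℝ (Fin (m + 1)) →L[ℝ]
        EuclideanSpace ℝ (Fin (m + 1))) v) = L.symm v := rfl
    rw [h6, h5, hLν, inner_smul_left]
    simp
  have hGb : ∀ i : ℕ, 1 ≤ i → i ≤ 3 → ∀ p, ‖p‖ ≤ r → ‖iteratedFDeriv ℝ i G p‖ ≤ M := by
    intro i hi hi3 p hp
    rw [hGe, L.symm.norm_iteratedFDeriv_comp_right, iteratedFDeriv_comp_add_left]
    refine hbd i hi hi3 x₀ _ hF0 ?_
    rw [dist_eq_norm]
    simpa using hp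
  obtain ⟨Gt, hGt1, hGt2, hGt3, hGt4, hGt5⟩ := hcore G e a hen hca haM hGd hG0 hG1 hGb
  obtain ⟨ψ, hψ1, hψ2, hψ3, hψ4⟩ := hchart Gt hGt1 hGt2 hGt3 (fun p hp => hGt4 p (by
    rw [he, EuclideanSpace.inner_single_left]; simpa using hp))
  let T : EuclideanSpace ℝ (Fin (m + 1)) ≃ᵃⁱ[ℝ] EuclideanSpace ℝ (Fin (m + 1)) :=
    (AffineIsometryEquiv.vaddConst ℝ x₀).symm.trans L.toAffineIsometryEquiv
  have hT : ∀ x, T x = L (x - x₀) := fun x => rfl
  refine ⟨T, ψ, holder_of_bounds hψ1 hψ2 hψ3 hγ0 hγ1, ?_⟩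
  intro x hx
  rw [← hψ4 (T x), hT, hGt5 _ (by rw [LinearIsometryEquiv.norm_map, ← dist_eq_norm]; exact hx)]
  have : G (L (x - x₀)) = F x := by
    simp [hG]
  rw [this]
  rfl

end Pool.Agent.Lib.MP_3eb465_an
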