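import Pool.Agent.Lib.MP_3eb465_an.Problem

/-!
Basic definitions shared by all modules of the disproof of MP_3eb465_an.
-/

namespace Pool.Agent.Lib.MP_3eb465_an

open MeasureTheory InnerProductSpace Laplacian Set Filter Topology
open scoped ContDiff RealInnerProductSpace

section General

variable {E : Type*} [NormedAddCommGroup E] [InnerProductSpace ℝ E] [FiniteDimensional ℝ E]

/-- `f` is of class `C²` at `x`, with gradient `g` and Laplacian `l` at `x`. -/
structure HasLap (f : E → ℝ) (x g : E) (l : ℝ) : Prop where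
  cd : ContDiffAt ℝ 2 f x
  grad : HasGradientAt f g x
  lap : Δ f x = l

/-- `b` is a (two sided, smooth, bounded) defining function of the domain `{0 < b}` which is a
strict supersolution of `-Δ + K` in a neighbourhood `{-δ ≤ b}` of the closed domain. -/
structure IsBarrier (K : ℝ) (b : E → ℝ) : Prop where
  smooth : ContDiff ℝ 2 b
  bdd : ∃ M : ℝ, ∀ x, |b x| ≤ M
  grad : ∃ M : ℝ, ∀ x, ‖fderiv ℝ b x‖ ≤ M
  lap : ∃ M : ℝ, ∀ x, |Δ b x| ≤ M
  super : ∃ δ : ℝ, 0 < δ ∧ ∀ x, -δ ≤ b x → 1 ≤ -(Δ b x) + K * b x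

variable [MeasurableSpace E] [BorelSpace E]

/-- The weak (distributional) formulation of `-Δ u = h` in the open set `Ω`. -/
def WeakEq (Ω : Set E) (u h : E → ℝ) : Prop :=
  ∀ φ : E → ℝ, ContDiff ℝ ∞ φ → HasCompactSupport φ → tsupport φ ⊆ Ω →
    ∫ x, u x * (-(Δ φ x)) = ∫ x, h x * φ x

/-- `(k, ψ)` is a compactly supported parametrix of `-Δ`: `-Δ k = δ - ψ`. -/
structure IsParametrix (ρ : ℝ) (k ψ : E → ℝ) : Prop where
  k_int : Integrable k
  k_supp : ∀ x, ρ ≤ ‖x‖ → k x = 0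
  k_even : ∀ x, k (-x) = k x
  ψ_smooth : ContDiff ℝ ∞ ψ
  ψ_supp : ∀ x, ρ ≤ ‖x‖ → ψ x = 0
  ψ_even : ∀ x, ψ (-x) = ψ x
  repr : ∀ φ : E → ℝ, ContDiff ℝ ∞ φ → HasCompactSupport φ → ∀ x,
    φ x = (∫ y, ψ y * φ (x - y)) + ∫ y, k y * (-(Δ φ (x - y)))
  smoothing : ∀ h : E → ℝ, AEStronglyMeasurable h volume → (∃ M : ℝ, ∀ x, |h x| ≤ M) →
    ContDiff ℝ 1 (fun x => ∫ y, k y * h (x - y))

end General

section Explicit

/-- five dimensional Euclidean space; coordinates `x 0` (slab variable), `(x 1, x 2, x 3) = y`,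
`x 4 = z`. -/
abbrev E5 : Type := EuclideanSpace ℝ (Fin 5)

/-- `1 + |y|²` -/
noncomputable def sy (x : E5) : ℝ := 1 + x 1 ^ 2 + x 2 ^ 2 + x 3 ^ 2

/-- `R = √(1 + |y|²)` -/
noncomputable def RR (x : E5) : ℝ := √(sy x)

/-- `N = z e^{-2R}` -/
noncomputable def NN (x : E5) : ℝ := x 4 * Real.exp (-2 * RR x)

/-- the domain is `{0 < D}`, `D = N + cos x₀` -/
noncomputable def DD (x : E5) : ℝ := NN x + Real.cos (x 0)

/-- the superharmonic function `B = (12 + log (1 + |y|² + z²)) / R` -/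
noncomputable def BB (x : E5) : ℝ := (12 + Real.log (sy x + x 4 ^ 2)) / RR x

/-- `E = √(4 + z²) e^{6 - 3R/2}` -/
noncomputable def EE (x : E5) : ℝ := √(4 + x 4 ^ 2) * Real.exp (6 - 3 / 2 * RR x)

/-- the function `P` of the supersolution -/
noncomputable def PP (x : E5) : ℝ :=
  8 * BB x * Real.cos (x 0) - EE x * (2 * Real.cos (x 0) + 2 * Real.cos (x 0) ^ 2 - 1)

/-- the function `Q` of the subsolution -/
noncomputable def QQ (x : E5) : ℝ :=
  (1 - 8 * BB x) * Real.cos (x 0) + EE x * (3 * Real.cos (x 0) + 2 * Real.cos (x 0) ^ 2 - 1)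

/-- concave cut off of the supersolution -/
noncomputable def mm (s : ℝ) : ℝ := if s < 5 / 4 then s - 16 / 27 * (max (s - 1 / 2) 0) ^ 3 else 1

/-- the reaction -/
noncomputable def ff (u : ℝ) : ℝ := u - 4 * (max (u - 1 / 2) 0) ^ 2 + 4 * (max (u - 1) 0) ^ 2

open Classical in
/-- the supersolution -/
noncomputable def wbar (x : E5) : ℝ := if EE x < 2 then mm (PP x) else 1

open Classical in
/-- the subsolution in the slot -/
noncomputable def vlow (x : E5) : ℝ :=
  if EE x < 2 ∧ |x 0| < Real.pi / 2 then 1 / 2 * max 0 (QQ x) else 0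

/-- the centre of the seed ball -/
noncomputable def pseed : E5 := EuclideanSpace.single 4 (Real.exp 12)

/-- a small compactly supported subsolution below `wbar` -/
noncomputable def vseed (x : E5) : ℝ := 1 / 2 * (max 0 (1 - ‖x - pseed‖ ^ 2 / 25)) ^ 2

end Explicit


end Pool.Agent.Lib.MP_3eb465_an
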