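import Pool.Agent.Lib.MP_3eb465_an.ExplicitLap

/-!
Bounds for the derivatives of `DD` up to order three near its zero set; lower bound of its gradient.
-/

namespace Pool.Agent.Lib.MP_3eb465_an

open MeasureTheory InnerProductSpace Laplacian Set Filter Topology
open scoped ContDiff RealInnerProductSpace

section DerivBounds

/-- symbols of order `m`: the `i`-th derivative is `O(R ^ (m - i))`, `i ≤ 3` -/
def Sym (m : ℕ) (f : E5 → ℝ) : Prop :=
  ContDiff ℝ ∞ f ∧ ∃ C : ℝ, 0 ≤ C ∧ ∀ i : ℕ, i ≤ 3 → ∀ x,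
    ‖iteratedFDeriv ℝ i f x‖ * RR x ^ i ≤ C * RR x ^ m

theorem norm_iteratedFDeriv_x_one (j : Fin 5) (x : E5) :
    ‖iteratedFDeriv ℝ 1 (fun x : E5 => x j) x‖ ≤ 1 := by
  rw [← norm_iteratedFDeriv_fderiv, norm_iteratedFDeriv_zero]
  have h : fderiv ℝ (fun x : E5 => x j) x = (EuclideanSpace.proj (𝕜 := ℝ) j : E5 →L[ℝ] ℝ) :=
    ((EuclideanSpace.proj (𝕜 := ℝ) j : E5 →L[ℝ] ℝ).hasFDerivAt (x := x)).fderiv
  rw [h]
  refine ContinuousLinearMap.opNorm_le_bound _ zero_le_one fun y => ?_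
  rw [one_mul]
  exact PiLp.norm_apply_le y j

theorem norm_iteratedFDeriv_x_two (j : Fin 5) (i : ℕ) (x : E5) :
    ‖iteratedFDeriv ℝ (i + 2) (fun x : E5 => x j) x‖ = 0 := by
  rw [← norm_iteratedFDeriv_fderiv]
  have h : fderiv ℝ (fun x : E5 => x j) = fun _ => (EuclideanSpace.proj (𝕜 := ℝ) j : E5 →L[ℝ] ℝ) := by
    funext x
    exact ((EuclideanSpace.proj (𝕜 := ℝ) j : E5 →L[ℝ] ℝ).hasFDerivAt (x := x)).fderiv
  rw [h, iteratedFDeriv_succ_const]
  simp

theorem Sym.add {m : ℕ} {f g : E5 → ℝ} (hf : Sym m f) (hg : Sym m g) :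
    Sym m (fun x => f x + g x) := by
  obtain ⟨hf1, C, hC0, hC⟩ := hf
  obtain ⟨hg1, C', hC0', hC'⟩ := hg
  refine ⟨hf1.add hg1, C + C', by positivity, fun i hi x => ?_⟩
  have h1 : iteratedFDeriv ℝ i (fun x => f x + g x) x
      = iteratedFDeriv ℝ i f x + iteratedFDeriv ℝ i g x :=
    iteratedFDeriv_add_apply ((contDiff_infty.1 hf1 i).contDiffAt)
      ((contDiff_infty.1 hg1 i).contDiffAt)
  rw [h1]
  have h2 := norm_add_le (iteratedFDeriv ℝ i f x) (iteratedFDeriv ℝ i g x)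
  have h3 : 0 ≤ RR x ^ i := (pow_pos (RR_pos x) i).le
  have h4 := hC i hi x
  have h5 := hC' i hi x
  calc ‖iteratedFDeriv ℝ i f x + iteratedFDeriv ℝ i g x‖ * RR x ^ i
      ≤ (‖iteratedFDeriv ℝ i f x‖ + ‖iteratedFDeriv ℝ i g x‖) * RR x ^ i :=
        mul_le_mul_of_nonneg_right h2 h3
    _ ≤ (C + C') * RR x ^ m := by linarith

theorem Sym.mul {m m' : ℕ} {f g : E5 → ℝ} (hf : Sym m f) (hg : Sym m' g) :
    Sym (m + m') (fun x => f x * g x) := by
  obtain ⟨hf1, C, hC0, hC⟩ := hf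
  obtain ⟨hg1, C', hC0', hC'⟩ := hg
  refine ⟨hf1.mul hg1, 8 * (C * C'), by positivity, fun i hi x => ?_⟩
  have h1 := norm_iteratedFDeriv_mul_le (N := ∞) hf1 hg1 x (n := i)
    (by exact_mod_cast (le_top : (i : ℕ∞) ≤ ⊤))
  have hR : 0 < RR x := RR_pos x
  have h3 : 0 ≤ RR x ^ i := (pow_pos hR i).le
  calc ‖iteratedFDeriv ℝ i (fun x => f x * g x) x‖ * RR x ^ i
      ≤ (∑ j ∈ Finset.range (i + 1),
      (i.choose j : ℝ) * ‖iteratedFDeriv ℝ j f x‖ * ‖iteratedFDeriv ℝ (i - j) g x‖) * RR x ^ i :=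
        mul_le_mul_of_nonneg_right h1 h3
    _ ≤ ∑ j ∈ Finset.range (i + 1), (i.choose j : ℝ) * (C * C' * RR x ^ (m + m')) := by
        rw [Finset.sum_mul]
        refine Finset.sum_le_sum fun j hj => ?_
        have hj' : j ≤ i := Nat.lt_succ_iff.1 (Finset.mem_range.1 hj)
        have e1 := hC j (hj'.trans hi) x
        have e2 := hC' (i - j) ((Nat.sub_le _ _).trans hi) x
        have e3 : RR x ^ i = RR x ^ j * RR x ^ (i - j) := by
          rw [← pow_add, Nat.add_sub_cancel' hj']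
        have e4 : ‖iteratedFDeriv ℝ j f x‖ * RR x ^ j *
            (‖iteratedFDeriv ℝ (i - j) g x‖ * RR x ^ (i - j)) ≤
            (C * RR x ^ m) * (C' * RR x ^ m') :=
          mul_le_mul e1 e2 (by positivity) (by positivity)
        rw [e3, pow_add]
        calc (i.choose j : ℝ) * ‖iteratedFDeriv ℝ j f x‖ * ‖iteratedFDeriv ℝ (i - j) g x‖ *
              (RR x ^ j * RR x ^ (i - j))
            = (i.choose j : ℝ) * (‖iteratedFDeriv ℝ j f x‖ * RR x ^ j *
            (‖iteratedFDeriv ℝ (i - j) g x‖ * RR x ^ (i - j))) := by ring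
          _ ≤ (i.choose j : ℝ) * ((C * RR x ^ m) * (C' * RR x ^ m')) :=
              mul_le_mul_of_nonneg_left e4 (by positivity)
          _ = _ := by ring
    _ = 2 ^ i * (C * C' * RR x ^ (m + m')) := by
        rw [← Finset.sum_mul]
        congr 1
        have := Nat.sum_range_choose i
        exact_mod_cast this
    _ ≤ 8 * (C * C') * RR x ^ (m + m') := by
        have : (2 : ℝ) ^ i ≤ 8 := by
          calc (2 : ℝ) ^ i ≤ 2 ^ 3 := pow_le_pow_right₀ (by norm_num) hi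
            _ = 8 := by norm_num
        have h4 : 0 ≤ C * C' * RR x ^ (m + m') := by positivity
        nlinarith

theorem Sym.of_bound {m : ℕ} {f : E5 → ℝ} (hf : ContDiff ℝ ∞ f)
    (h0 : ∀ x, |f x| ≤ RR x ^ m) (h1 : ∀ x, ‖iteratedFDeriv ℝ 1 f x‖ * RR x ≤ RR x ^ m)
    (h2 : ∀ i x, ‖iteratedFDeriv ℝ (i + 2) f x‖ = 0) : Sym m f := by
  refine ⟨hf, 1, zero_le_one, fun i _ x => ?_⟩
  rw [one_mul]
  match i with
  | 0 => rw [norm_iteratedFDeriv_zero, pow_zero, mul_one]; exact h0 x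
  | 1 => rw [pow_one]; exact h1 x
  | (i + 2) => rw [h2, zero_mul]; exact (pow_pos (RR_pos x) m).le

theorem sym_one : Sym 0 (fun _ => (1 : ℝ)) := by
  refine Sym.of_bound contDiff_const (fun x => by simp) (fun x => ?_) (fun i x => ?_)
  · rw [show (1 : ℕ) = 0 + 1 from rfl, iteratedFDeriv_succ_const]
    simp
  · rw [show i + 2 = (i + 1) + 1 from rfl, iteratedFDeriv_succ_const]
    simp

theorem Sym.le {m m' : ℕ} (h : m ≤ m') {f : E5 → ℝ} (hf : Sym m f) : Sym m' f := by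
  obtain ⟨hf1, C, hC0, hC⟩ := hf
  refine ⟨hf1, C, hC0, fun i hi x => (hC i hi x).trans ?_⟩
  exact mul_le_mul_of_nonneg_left (pow_le_pow_right₀ (one_le_RR x) h) hC0

theorem sym_x {j : Fin 5} (hj : ∀ x : E5, x j ^ 2 ≤ sy x) : Sym 1 (fun x => x j) := by
  refine Sym.of_bound (contDiff_x j) (fun x => ?_) (fun x => ?_)
    (fun i x => norm_iteratedFDeriv_x_two j i x)
  · rw [pow_one]
    refine abs_le_of_sq_le_sq ?_ (RR_pos x).le
    rw [RR_sq]
    exact hj x
  · rw [pow_one]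
    have h1 := norm_iteratedFDeriv_x_one j x
    have h2 := RR_pos x
    nlinarith

theorem sym_sy : Sym 2 sy := by
  have h1 : Sym 1 (fun x : E5 => x 1) := sym_x fun x => by
    unfold sy; nlinarith [sq_nonneg (x 1), sq_nonneg (x 2), sq_nonneg (x 3)]
  have h2 : Sym 1 (fun x : E5 => x 2) := sym_x fun x => by
    unfold sy; nlinarith [sq_nonneg (x 1), sq_nonneg (x 2), sq_nonneg (x 3)]
  have h3 : Sym 1 (fun x : E5 => x 3) := sym_x fun x => by
    unfold sy; nlinarith [sq_nonneg (x 1), sq_nonneg (x 2), sq_nonneg (x 3)]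
  have h0 : Sym 2 (fun _ : E5 => (1 : ℝ)) := sym_one.le (by norm_num)
  have h := ((h0.add (h1.mul h1)).add (h2.mul h2)).add (h3.mul h3)
  have e : sy = fun x : E5 => 1 + x 1 * x 1 + x 2 * x 2 + x 3 * x 3 := by
    funext x; unfold sy; ring
  rw [e]
  exact h

theorem RR_deriv_bounds : ∃ C : ℝ, 1 ≤ C ∧ ∀ i : ℕ, 1 ≤ i → i ≤ 3 → ∀ x : E5,
    ‖iteratedFDeriv ℝ i RR x‖ ≤ C := by
  obtain ⟨-, C2, hC20, hC2⟩ := sym_sy
  set A := max 1 C2 with hA
  have hA1 : 1 ≤ A := le_max_left _ _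
  have hA0 : 0 ≤ A := zero_le_one.trans hA1
  set Cg := ∑ i ∈ Finset.range 4, ‖iteratedFDerivWithin ℝ i Real.sqrt (Ioi 0) 1‖ with hCg
  have hCg0 : 0 ≤ Cg := Finset.sum_nonneg fun i _ => norm_nonneg _
  refine ⟨6 * Cg * A ^ 3 + 1, by
    have : 0 ≤ 6 * Cg * A ^ 3 := by positivity
    linarith, fun n hn1 hn3 x0 => ?_⟩
  set R0 := RR x0 with hR0
  have hR0pos : 0 < R0 := RR_pos x0
  have hR01 : 1 ≤ R0 := one_le_RR x0
  let F : E5 → ℝ := fun y => (R0 ^ 2)⁻¹ • sy y
  have hFc : ContDiff ℝ ∞ F := contDiff_sy.const_smul ((R0 ^ 2)⁻¹)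
  have hRR : RR = R0 • (Real.sqrt ∘ F) := by
    funext y
    simp only [F, Pi.smul_apply, Function.comp_apply, smul_eq_mul]
    have e1 : sy y = R0 ^ 2 * ((R0 ^ 2)⁻¹ * sy y) := by field_simp
    unfold RR
    conv_lhs => rw [e1]
    rw [Real.sqrt_mul (by positivity), Real.sqrt_sq hR0pos.le]
  have hFx0 : F x0 = 1 := by
    simp only [F, smul_eq_mul]
    rw [← RR_sq, ← hR0]
    field_simp
  have hFd : ∀ i : ℕ, 1 ≤ i → i ≤ n → ‖iteratedFDeriv ℝ i F x0‖ ≤ (A / R0) ^ i := by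
    intro i hi1 hin
    have h1 : iteratedFDeriv ℝ i F x0 = (R0 ^ 2)⁻¹ • iteratedFDeriv ℝ i sy x0 :=
      iteratedFDeriv_const_smul_apply' ((contDiff_infty.1 contDiff_sy i).contDiffAt)
    rw [h1, norm_smul, Real.norm_of_nonneg (by positivity), div_pow, le_div_iff₀ (by positivity)]
    have h2 := hC2 i (hin.trans hn3) x0
    rw [← hR0] at h2
    calc (R0 ^ 2)⁻¹ * ‖iteratedFDeriv ℝ i sy x0‖ * R0 ^ i
        = (R0 ^ 2)⁻¹ * (‖iteratedFDeriv ℝ i sy x0‖ * R0 ^ i) := by ring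
      _ ≤ (R0 ^ 2)⁻¹ * (C2 * R0 ^ 2) := mul_le_mul_of_nonneg_left h2 (by positivity)
      _ = C2 := by field_simp
      _ ≤ A := le_max_right _ _
      _ ≤ A ^ i := le_self_pow₀ hA1 (by omega)
  have hsqrt : ContDiffOn ℝ ∞ Real.sqrt (Ioi 0) := fun t ht =>
    (Real.contDiffAt_sqrt (ne_of_gt ht)).contDiffWithinAt
  have hcomp := norm_iteratedFDeriv_comp_le' (g := Real.sqrt) (f := F) (n := n) (N := ∞)
    (t := Ioi (0 : ℝ)) (by
      rintro _ ⟨y, rfl⟩
      simp only [F, smul_eq_mul]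
      exact mul_pos (by positivity) (sy_pos y)) (uniqueDiffOn_Ioi 0) hsqrt hFc
      (by exact_mod_cast (le_top : (n : ℕ∞) ≤ ⊤)) x0 (C := Cg) (D := A / R0)
    (fun i hi => by
      rw [hFx0]
      exact Finset.single_le_sum (f := fun i => ‖iteratedFDerivWithin ℝ i Real.sqrt (Ioi 0) 1‖)
        (fun i _ => norm_nonneg _) (Finset.mem_range.2 (by omega)))
    hFd
  have hcd : ContDiffAt ℝ n (Real.sqrt ∘ F) x0 := by
    have h1 : ContDiffAt ℝ n Real.sqrt (F x0) := by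
      rw [hFx0]; exact Real.contDiffAt_sqrt one_ne_zero
    exact h1.comp x0 ((contDiff_infty.1 hFc n).contDiffAt)
  rw [hRR, iteratedFDeriv_const_smul_apply hcd, norm_smul, Real.norm_of_nonneg hR0pos.le]
  calc R0 * ‖iteratedFDeriv ℝ n (Real.sqrt ∘ F) x0‖
      ≤ R0 * (n.factorial * Cg * (A / R0) ^ n) := mul_le_mul_of_nonneg_left hcomp hR0pos.le
    _ = (n.factorial * Cg * A ^ n) * (R0 / R0 ^ n) := by rw [div_pow]; ring
    _ ≤ (n.factorial * Cg * A ^ n) * 1 := by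
        refine mul_le_mul_of_nonneg_left ?_ (by positivity)
        rw [div_le_one (by positivity)]
        exact le_self_pow₀ hR01 (by omega)
    _ ≤ (6 * Cg * A ^ 3) * 1 := by
        have e1 : (n.factorial : ℝ) ≤ 6 := by
          have : n.factorial ≤ Nat.factorial 3 := Nat.factorial_le hn3
          have e : Nat.factorial 3 = 6 := rfl
          rw [e] at this
          exact_mod_cast this
        have e2 : A ^ n ≤ A ^ 3 := pow_le_pow_right₀ hA1 hn3
        gcongr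
    _ ≤ 6 * Cg * A ^ 3 + 1 := by linarith

theorem expR_deriv_bounds : ∃ C : ℝ, 0 ≤ C ∧ ∀ i : ℕ, i ≤ 3 → ∀ x : E5,
    ‖iteratedFDeriv ℝ i (fun y => Real.exp (-2 * RR y)) x‖ ≤ C * Real.exp (-2 * RR x) := by
  obtain ⟨D, hD1, hD⟩ := RR_deriv_bounds
  have hD0 : 0 ≤ D := zero_le_one.trans hD1
  refine ⟨48 * D ^ 3, by positivity, fun n hn x => ?_⟩
  have hg : ContDiff ℝ ∞ (fun t : ℝ => Real.exp (-2 * t)) :=
    (contDiff_const.mul contDiff_id).exp
  have h := norm_iteratedFDeriv_comp_le (g := fun t : ℝ => Real.exp (-2 * t)) (f := RR) (n := n)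
    (N := ∞) hg contDiff_RR (by exact_mod_cast (le_top : (n : ℕ∞) ≤ ⊤)) x
    (C := 8 * Real.exp (-2 * RR x)) (D := D)
    (fun i hi => by
      rw [norm_iteratedFDeriv_eq_norm_iteratedDeriv, iteratedDeriv_exp_const_mul]
      rw [norm_mul, norm_pow, Real.norm_of_nonneg (Real.exp_pos _).le]
      have : ‖(-2 : ℝ)‖ ^ i ≤ 8 := by
        rw [norm_neg, Real.norm_of_nonneg (by norm_num)]
        calc (2 : ℝ) ^ i ≤ 2 ^ 3 := pow_le_pow_right₀ (by norm_num) (hi.trans hn)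
          _ = 8 := by norm_num
      exact mul_le_mul_of_nonneg_right this (Real.exp_pos _).le)
    (fun i hi1 hi => (hD i hi1 (hi.trans hn) x).trans (le_self_pow₀ hD1 (by omega)))
  have e0 : ((fun t : ℝ => Real.exp (-2 * t)) ∘ RR) = fun y => Real.exp (-2 * RR y) := rfl
  rw [e0] at h
  refine h.trans ?_
  have e1 : (n.factorial : ℝ) ≤ 6 := by
    have : n.factorial ≤ Nat.factorial 3 := Nat.factorial_le hn
    have e : Nat.factorial 3 = 6 := rfl
    rw [e] at this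
    exact_mod_cast this
  have e2 : D ^ n ≤ D ^ 3 := pow_le_pow_right₀ hD1 hn
  have e3 := (Real.exp_pos (-2 * RR x)).le
  calc (n.factorial : ℝ) * (8 * Real.exp (-2 * RR x)) * D ^ n
      ≤ 6 * (8 * Real.exp (-2 * RR x)) * D ^ 3 := by gcongr
    _ = _ := by ring

theorem NN_deriv_bounds : ∃ C : ℝ, 0 ≤ C ∧ ∀ i : ℕ, i ≤ 3 → ∀ x : E5,
    ‖iteratedFDeriv ℝ i NN x‖ ≤ C * (|NN x| + 1) := by
  obtain ⟨C, hC0, hC⟩ := expR_deriv_bounds
  refine ⟨8 * C, by positivity, fun n hn x => ?_⟩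
  have hx4 : ∀ i : ℕ, ‖iteratedFDeriv ℝ i (fun x : E5 => x 4) x‖ ≤ |x 4| + 1 := by
    intro i
    match i with
    | 0 => rw [norm_iteratedFDeriv_zero, Real.norm_eq_abs]; linarith
    | 1 => have := norm_iteratedFDeriv_x_one 4 x; have := abs_nonneg (x 4); linarith
    | (i + 2) => rw [norm_iteratedFDeriv_x_two]; have := abs_nonneg (x 4); linarith
  have hexpc : ContDiff ℝ ∞ (fun y : E5 => Real.exp (-2 * RR y)) :=
    (contDiff_const.mul contDiff_RR).exp
  have h1 := norm_iteratedFDeriv_mul_le (N := ∞) (contDiff_x 4) hexpc x (n := n)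
    (by exact_mod_cast (le_top : (n : ℕ∞) ≤ ⊤))
  have e0 : (fun y : E5 => y 4 * Real.exp (-2 * RR y)) = NN := rfl
  rw [e0] at h1
  have he := (Real.exp_pos (-2 * RR x)).le
  have habs : |NN x| = |x 4| * Real.exp (-2 * RR x) := by
    unfold NN; rw [abs_mul, abs_of_pos (Real.exp_pos _)]
  have he1 : Real.exp (-2 * RR x) ≤ 1 := by
    rw [Real.exp_le_one_iff]; have := RR_pos x; linarith
  calc ‖iteratedFDeriv ℝ n NN x‖
      ≤ ∑ i ∈ Finset.range (n + 1), (n.choose i : ℝ) *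
        ‖iteratedFDeriv ℝ i (fun x : E5 => x 4) x‖ *
        ‖iteratedFDeriv ℝ (n - i) (fun y : E5 => Real.exp (-2 * RR y)) x‖ := h1
    _ ≤ ∑ i ∈ Finset.range (n + 1), (n.choose i : ℝ) *
        ((|x 4| + 1) * (C * Real.exp (-2 * RR x))) := by
        refine Finset.sum_le_sum fun i hi => ?_
        rw [mul_assoc]
        refine mul_le_mul_of_nonneg_left ?_ (by positivity)
        exact mul_le_mul (hx4 i) (hC (n - i) ((Nat.sub_le _ _).trans hn) x) (norm_nonneg _)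
          (by positivity)
    _ = 2 ^ n * ((|x 4| + 1) * (C * Real.exp (-2 * RR x))) := by
        rw [← Finset.sum_mul]
        congr 1
        have := Nat.sum_range_choose n
        exact_mod_cast this
    _ = 2 ^ n * C * (|NN x| + Real.exp (-2 * RR x)) := by rw [habs]; ring
    _ ≤ 8 * C * (|NN x| + 1) := by
        have : (2 : ℝ) ^ n ≤ 8 := by
          calc (2 : ℝ) ^ n ≤ 2 ^ 3 := pow_le_pow_right₀ (by norm_num) hn
            _ = 8 := by norm_num
        gcongr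

theorem c0_deriv_bounds (i : ℕ) (hi : i ≤ 3) (x : E5) :
    ‖iteratedFDeriv ℝ i (fun y : E5 => Real.cos (y 0)) x‖ ≤ 6 := by
  have h := norm_iteratedFDeriv_comp_le (g := Real.cos) (f := fun y : E5 => y 0) (n := i)
    (N := ∞) Real.contDiff_cos (contDiff_x 0) (by exact_mod_cast (le_top : (i : ℕ∞) ≤ ⊤)) x
    (C := 1) (D := 1)
    (fun j _ => by
      rw [norm_iteratedFDeriv_eq_norm_iteratedDeriv, Real.norm_eq_abs]
      exact Real.abs_iteratedDeriv_cos_le_one j _)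
    (fun j hj1 _ => by
      rw [one_pow]
      match j, hj1 with
      | 1, _ => exact norm_iteratedFDeriv_x_one 0 x
      | (j + 2), _ => rw [norm_iteratedFDeriv_x_two]; exact zero_le_one)
  have e0 : (Real.cos ∘ fun y : E5 => y 0) = fun y : E5 => Real.cos (y 0) := rfl
  rw [e0, mul_one, one_pow, mul_one] at h
  refine h.trans ?_
  have : i.factorial ≤ Nat.factorial 3 := Nat.factorial_le hi
  have e : Nat.factorial 3 = 6 := rfl
  rw [e] at this
  exact_mod_cast this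

theorem DD_deriv_bounds : ∃ M : ℝ, ∀ i : ℕ, 1 ≤ i → i ≤ 3 → ∀ x : E5, |NN x| ≤ 2 →
    ‖iteratedFDeriv ℝ i DD x‖ ≤ M := by
  obtain ⟨C, hC0, hC⟩ := NN_deriv_bounds
  refine ⟨C * 3 + 6, fun i _ hi x hx => ?_⟩
  have h1 : iteratedFDeriv ℝ i DD x
      = iteratedFDeriv ℝ i NN x + iteratedFDeriv ℝ i (fun y : E5 => Real.cos (y 0)) x :=
    iteratedFDeriv_add_apply ((contDiff_infty.1 contDiff_NN i).contDiffAt)
      ((contDiff_infty.1 contDiff_c0 i).contDiffAt)
  rw [h1]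
  refine (norm_add_le _ _).trans (add_le_add ((hC i hi x).trans ?_) (c0_deriv_bounds i hi x))
  exact mul_le_mul_of_nonneg_left (by linarith) hC0

theorem NN_tube : ∃ r : ℝ, 0 < r ∧ ∀ x y : E5, |NN x| ≤ 1 → dist x y ≤ r → |NN y| ≤ 2 := by
  obtain ⟨D, hD1, hD⟩ := RR_deriv_bounds
  have hD0 : 0 ≤ D := zero_le_one.trans hD1
  have hlog : 0 < Real.log 2 := Real.log_pos (by norm_num)
  refine ⟨Real.log 2 / (1 + 2 * D), by positivity, fun x y hx hxy => ?_⟩
  have hlip : |RR x - RR y| ≤ D * dist x y := by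
    have h1 := (convex_univ (𝕜 := ℝ) (E := E5)).norm_image_sub_le_of_norm_fderiv_le (f := RR)
      (C := D) (x := y) (y := x) (fun z _ => (contDiff_RR.differentiable (by simp)) z)
      (fun z _ => by
        have := hD 1 le_rfl (by norm_num) z
        rw [← norm_iteratedFDeriv_fderiv, norm_iteratedFDeriv_zero] at this
        exact this) (mem_univ _) (mem_univ _)
    rw [← dist_eq_norm x y] at h1
    exact h1
  have h4 : |x 4 - y 4| ≤ dist x y := by
    have := PiLp.norm_apply_le (x - y) 4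
    rw [dist_eq_norm]
    exact this
  set r := dist x y with hr
  have hr0 : 0 ≤ r := dist_nonneg
  have hN : ∀ z : E5, |NN z| = |z 4| * Real.exp (-2 * RR z) := fun z => by
    unfold NN; rw [abs_mul, abs_of_pos (Real.exp_pos _)]
  rw [hN] at hx ⊢
  have h5 : |y 4| ≤ |x 4| + r := by
    have := abs_sub_abs_le_abs_sub (y 4) (x 4)
    rw [abs_sub_comm] at this
    linarith
  have h6 : Real.exp (-2 * RR y) ≤ Real.exp (-2 * RR x) * Real.exp (2 * D * r) := by
    rw [← Real.exp_add]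
    refine Real.exp_le_exp.2 ?_
    have := (abs_le.1 hlip).2
    nlinarith
  have h7 : Real.exp (-2 * RR x) ≤ 1 := by
    rw [Real.exp_le_one_iff]; have := RR_pos x; linarith
  have h8 : |y 4| * Real.exp (-2 * RR y) ≤ (1 + r) * Real.exp (2 * D * r) := by
    calc |y 4| * Real.exp (-2 * RR y)
        ≤ (|x 4| + r) * (Real.exp (-2 * RR x) * Real.exp (2 * D * r)) :=
          mul_le_mul h5 h6 (Real.exp_pos _).le (by positivity)
      _ = (|x 4| * Real.exp (-2 * RR x) + r * Real.exp (-2 * RR x)) * Real.exp (2 * D * r) := by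
          ring
      _ ≤ (1 + r * 1) * Real.exp (2 * D * r) := by
          have := (Real.exp_pos (-2 * RR x)).le
          gcongr
      _ = _ := by rw [mul_one]
  refine h8.trans ?_
  calc (1 + r) * Real.exp (2 * D * r) ≤ Real.exp r * Real.exp (2 * D * r) := by
        have := Real.add_one_le_exp r
        gcongr
        linarith
    _ = Real.exp ((1 + 2 * D) * r) := by rw [← Real.exp_add]; ring_nf
    _ ≤ Real.exp (Real.log 2) := by
        refine Real.exp_le_exp.2 ?_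
        rw [le_div_iff₀ (by positivity)] at hxy
        linarith
    _ = 2 := Real.exp_log (by norm_num)

/-- the gradient of `DD` -/
theorem DD_hasGradient (x : E5) :
    HasGradientAt DD (NN x • ((-1 / RR x) • YY x) + Real.exp (-2 * RR x) • ee 4
      - Real.sin (x 0) • ee 0) x := by
  have hR := RR_pos x
  have hx : ∀ i : Fin 5, HasFDerivAt (fun y : E5 => y i) (toDual ℝ E5 (ee i)) x :=
    fun i => (hasLap_x i x).hasFDerivAt
  have hs : HasFDerivAt sy (toDual ℝ E5 (YY x)) x := (hasLap_sy x).hasFDerivAt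
  have hRd : HasFDerivAt RR ((1 / (2 * RR x)) • (toDual ℝ E5 (YY x) : E5 →L[ℝ] ℝ)) x :=
    (Real.hasDerivAt_sqrt (sy_pos x).ne').comp_hasFDerivAt x hs
  have he : HasFDerivAt (fun y => Real.exp (-2 * RR y))
      (Real.exp (-2 * RR x) • ((-2 : ℝ) • ((1 / (2 * RR x)) • (toDual ℝ E5 (YY x) : E5 →L[ℝ] ℝ)))) x :=
    (hRd.const_mul (-2)).exp
  have hN := (hx 4).mul he
  have hc : HasFDerivAt (fun y : E5 => Real.cos (y 0))
      (-Real.sin (x 0) • (toDual ℝ E5 (ee 0) : E5 →L[ℝ] ℝ)) x := (hx 0).cos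
  have h := hN.add hc
  rw [hasGradientAt_iff_hasFDerivAt]
  refine HasFDerivAt.congr_fderiv h ?_
  ext v
  simp only [map_sub, map_add, map_smul, add_apply, smul_apply, sub_apply, smul_eq_mul, NN]
  field_simp
  ring

theorem DD_grad_lower : ∃ c : ℝ, 0 < c ∧ ∀ x : E5, DD x = 0 → c ≤ ‖fderiv ℝ DD x‖ := by
  refine ⟨Real.exp (-3), Real.exp_pos _, fun x hx => ?_⟩
  have hg := DD_hasGradient x
  set g := NN x • ((-1 / RR x) • YY x) + Real.exp (-2 * RR x) • ee 4 - Real.sin (x 0) • ee 0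
    with hgdef
  have hnorm : ‖fderiv ℝ DD x‖ = ‖g‖ := by
    rw [(hasGradientAt_iff_hasFDerivAt.1 hg).fderiv]
    exact (toDual ℝ E5).norm_map g
  rw [hnorm]
  have hR := RR_pos x
  have h40 : ⟪ee 4, ee 0⟫ = (0 : ℝ) := by rw [inner_ee]; simp
  have h00 : ⟪ee 0, ee 0⟫ = (1 : ℝ) := by rw [inner_ee]; simp
  have h44 : ⟪ee 4, ee 4⟫ = (1 : ℝ) := by rw [inner_ee]; simp
  have h04 : ⟪ee 0, ee 4⟫ = (0 : ℝ) := by rw [inner_ee]; simp
  have i0 : ⟪g, ee 0⟫ = -Real.sin (x 0) := by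
    rw [hgdef, inner_sub_left, inner_add_left, inner_smul_left, inner_smul_left, inner_smul_left,
      inner_smul_left, inner_YY_ee0, h40, h00]
    simp
  have i4 : ⟪g, ee 4⟫ = Real.exp (-2 * RR x) := by
    rw [hgdef, inner_sub_left, inner_add_left, inner_smul_left, inner_smul_left, inner_smul_left,
      inner_smul_left, inner_YY_ee4, h44, h04]
    simp
  have iY : ⟪g, YY x⟫ = -(NN x / RR x * ‖YY x‖ ^ 2) := by
    rw [hgdef, inner_sub_left, inner_add_left, inner_smul_left, inner_smul_left, inner_smul_left,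
      inner_smul_left, real_inner_comm, real_inner_comm (YY x) (ee 4),
      real_inner_comm (YY x) (ee 0), inner_YY_ee4, inner_YY_ee0, real_inner_self_eq_norm_sq]
    simp only [conj_trivial]
    ring
  have b0 : |Real.sin (x 0)| ≤ ‖g‖ := by
    have := abs_real_inner_le_norm g (ee 0)
    rwa [i0, norm_ee, mul_one, abs_neg] at this
  have b4 : Real.exp (-2 * RR x) ≤ ‖g‖ := by
    have := abs_real_inner_le_norm g (ee 4)
    rwa [i4, norm_ee, mul_one, abs_of_pos (Real.exp_pos _)] at this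
  have hexp3 : Real.exp (-3) ≤ 1 / 2 := by
    have h1 : (2 : ℝ) ≤ Real.exp 3 := by
      have := Real.add_one_le_exp (3 : ℝ); linarith
    rw [Real.exp_neg, one_div]
    exact inv_anti₀ (by norm_num) h1
  rcases le_or_gt (1 / 2) (|Real.sin (x 0)|) with hs | hs
  · linarith
  have hcos : 3 / 4 ≤ Real.cos (x 0) ^ 2 := by
    have h1 := Real.sin_sq_add_cos_sq (x 0)
    have h2 : Real.sin (x 0) ^ 2 ≤ 1 / 4 := by
      rw [← sq_abs]
      have := abs_nonneg (Real.sin (x 0))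
      nlinarith
    linarith
  have hN : NN x = -Real.cos (x 0) := by
    have : DD x = NN x + Real.cos (x 0) := rfl
    linarith
  have hN2 : 3 / 4 ≤ NN x ^ 2 := by rw [hN]; nlinarith
  rcases le_or_gt 2 (sy x) with hy | hy
  · -- far from the axis
    have hYn : ‖YY x‖ ^ 2 = 4 * (sy x - 1) := norm_sq_YY x
    have hYpos : 0 < ‖YY x‖ := by
      by_contra hcon
      have : ‖YY x‖ = 0 := le_antisymm (not_lt.1 hcon) (norm_nonneg _)
      rw [this] at hYn
      nlinarith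
    have h1 : |NN x| / RR x * ‖YY x‖ ≤ ‖g‖ := by
      have := abs_real_inner_le_norm g (YY x)
      rw [iY, abs_neg, abs_mul, abs_div, abs_of_pos hR, abs_of_nonneg (sq_nonneg ‖YY x‖)] at this
      have h2 : |NN x| / RR x * ‖YY x‖ * ‖YY x‖ ≤ ‖g‖ * ‖YY x‖ := by
        rw [pow_two] at this
        linarith
      exact le_of_mul_le_mul_right h2 hYpos
    have h2 : (1 / 2 : ℝ) ≤ |NN x| / RR x * ‖YY x‖ := by
      refine le_of_sq_le_sq ?_ (by positivity) |>.trans le_rfl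
      rw [mul_pow, div_pow |NN x|, sq_abs, hYn, RR_sq]
      have hs0 := sy_pos x
      rw [div_mul_eq_mul_div, le_div_iff₀ hs0]
      nlinarith
    linarith
  · have h1 : RR x ≤ 3 / 2 := by
      have h2 := RR_sq x
      nlinarith
    refine le_trans (Real.exp_le_exp.2 ?_) b4
    linarith

end DerivBounds

end Pool.Agent.Lib.MP_3eb465_an
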