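import Mathlib

/-!
The truncated powers `(max t 0)^n`.
-/

namespace Pool.Agent.Lib.MP_3eb465_an

open Set Filter Topology
open scoped ContDiff

theorem hasDerivAt_maxPow (n : ℕ) (t : ℝ) :
    HasDerivAt (fun t : ℝ => (max t 0) ^ (n + 2)) ((n + 2) * (max t 0) ^ (n + 1)) t := by
  rcases lt_trichotomy t 0 with h | h | h
  · have h1 : (fun t : ℝ => (max t 0) ^ (n + 2)) =ᶠ[𝓝 t] fun _ => 0 := by
      filter_upwards [eventually_lt_nhds h] with s hs
      rw [max_eq_right hs.le]; simp
    rw [max_eq_right h.le]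
    refine HasDerivAt.congr_of_eventuallyEq ?_ h1
    simpa using hasDerivAt_const t (0 : ℝ)
  · subst h
    simp only [max_self]
    rw [zero_pow (by omega), mul_zero]
    rw [hasDerivAt_iff_isLittleO_nhds_zero]
    simp only [zero_add, max_self, smul_zero, sub_zero]
    rw [zero_pow (by omega)]
    simp only [sub_zero]
    have h2 : (fun h : ℝ => (max h 0) ^ (n + 2)) =O[𝓝 0] fun h : ℝ => h ^ (n + 2) := by
      refine Asymptotics.IsBigO.of_bound 1 (Eventually.of_forall fun s => ?_)
      rw [one_mul, norm_pow, norm_pow]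
      refine pow_le_pow_left₀ (norm_nonneg _) ?_ _
      rw [Real.norm_eq_abs, Real.norm_eq_abs, abs_of_nonneg (le_max_right _ _)]
      exact max_le (le_abs_self s) (abs_nonneg s)
    refine h2.trans_isLittleO ?_
    have h3 := Asymptotics.isLittleO_pow_pow (𝕜 := ℝ) (m := 1) (n := n + 2) (by omega)
    simpa using h3
  · have h1 : (fun t : ℝ => (max t 0) ^ (n + 2)) =ᶠ[𝓝 t] fun t => t ^ (n + 2) := by
      filter_upwards [eventually_gt_nhds h] with s hs
      rw [max_eq_left hs.le]
    rw [max_eq_left h.le]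
    refine HasDerivAt.congr_of_eventuallyEq ?_ h1
    have h2 := hasDerivAt_pow (n + 2) t
    refine h2.congr_deriv ?_
    push_cast
    rfl

theorem contDiff_maxPow (n : ℕ) : ContDiff ℝ n (fun t : ℝ => (max t 0) ^ (n + 1)) := by
  induction n with
  | zero =>
    simp only [zero_add, pow_one, CharP.cast_eq_zero]
    rw [contDiff_zero]
    exact continuous_id.max continuous_const
  | succ n ih =>
    have h1 : ((n + 1 : ℕ) : WithTop ℕ∞) = (n : WithTop ℕ∞) + 1 := by push_cast; rfl
    rw [h1, contDiff_succ_iff_deriv]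
    refine ⟨fun t => (hasDerivAt_maxPow n t).differentiableAt, ?_, ?_⟩
    · intro h; simp at h
    · have h2 : deriv (fun t : ℝ => (max t 0) ^ (n + 1 + 1)) =
          fun t => ((n : ℝ) + 2) * (max t 0) ^ (n + 1) := by
        funext t; exact (hasDerivAt_maxPow n t).deriv
      rw [h2]
      exact contDiff_const.mul ih

end Pool.Agent.Lib.MP_3eb465_an
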