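import Pool.Agent.Lib.MP_3eb465_an.ExplicitLap
import Pool.Agent.Lib.MP_3eb465_an.MaxPow

/-!
Numerical estimates in the region `{E < 2}`.
-/

namespace Pool.Agent.Lib.MP_3eb465_an

open MeasureTheory InnerProductSpace Laplacian Set Filter Topology
open scoped ContDiff RealInnerProductSpace

section Explicit

theorem EE_pos (x : E5) : 0 < EE x :=
  mul_pos (Real.sqrt_pos.2 (qz_pos x)) (Real.exp_pos _)

theorem two_le_q (x : E5) : 2 ≤ √(4 + x 4 ^ 2) := by
  apply Real.le_sqrt_of_sq_le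
  nlinarith [sq_nonneg (x 4)]

theorem abs_z_le_q (x : E5) : |x 4| ≤ √(4 + x 4 ^ 2) := by
  apply Real.le_sqrt_of_sq_le
  rw [sq_abs]
  linarith

theorem q_sq (x : E5) : √(4 + x 4 ^ 2) ^ 2 = 4 + x 4 ^ 2 := Real.sq_sqrt (qz_pos x).le

/-- `E < 2` forces `R > 4` -/
theorem four_lt_RR {x : E5} (h : EE x < 2) : 4 < RR x := by
  by_contra hc
  have hc : RR x ≤ 4 := not_lt.1 hc
  have h1 : (1 : ℝ) ≤ Real.exp (6 - 3 / 2 * RR x) := Real.one_le_exp (by linarith)
  have h2 := two_le_q x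
  have h3 : 2 * 1 ≤ √(4 + x 4 ^ 2) * Real.exp (6 - 3 / 2 * RR x) :=
    mul_le_mul h2 h1 zero_le_one (by linarith)
  unfold EE at h
  linarith

theorem exp_neg_eight : Real.exp (-8) < 1 / 2900 := by
  rw [Real.exp_neg, inv_eq_one_div]
  apply one_div_lt_one_div_of_lt (by norm_num)
  have h1 := Real.exp_one_gt_d9
  have h2 : Real.exp 8 = Real.exp 1 ^ 8 := by
    rw [← Real.exp_nat_mul]; norm_num
  rw [h2]
  calc (2900 : ℝ) < 2.718 ^ 8 := by norm_num
    _ ≤ _ := pow_le_pow_left₀ (by norm_num) (by linarith) 8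

theorem exp_twelve : (160000 : ℝ) < Real.exp 12 := by
  have h1 := Real.exp_one_gt_d9
  have h2 : Real.exp 12 = Real.exp 1 ^ 12 := by
    rw [← Real.exp_nat_mul]; norm_num
  rw [h2]
  calc (160000 : ℝ) < 2.718 ^ 12 := by norm_num
    _ ≤ _ := pow_le_pow_left₀ (by norm_num) (by linarith) 12

theorem abs_NN_le {x : E5} (h : EE x < 2) : |NN x| ≤ EE x / 2900 := by
  have hR := four_lt_RR h
  have h1 : |NN x| = |x 4| * Real.exp (-2 * RR x) := by
    unfold NN; rw [abs_mul, abs_of_pos (Real.exp_pos _)]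
  have h2 : Real.exp (-2 * RR x) ≤ Real.exp (6 - 3 / 2 * RR x) * Real.exp (-8) := by
    rw [← Real.exp_add]; apply Real.exp_le_exp.2; linarith
  have h3 : |NN x| ≤ EE x * Real.exp (-8) := by
    rw [h1]
    calc |x 4| * Real.exp (-2 * RR x) ≤ √(4 + x 4 ^ 2) *
        (Real.exp (6 - 3 / 2 * RR x) * Real.exp (-8)) :=
          mul_le_mul (abs_z_le_q x) h2 (Real.exp_pos _).le (Real.sqrt_nonneg _)
      _ = EE x * Real.exp (-8) := by unfold EE; ring
  have h4 := exp_neg_eight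
  have h5 := EE_pos x
  have h6 : EE x * Real.exp (-8) ≤ EE x * (1 / 2900) := mul_le_mul_of_nonneg_left h4.le h5.le
  linarith

theorem log_SS_nonneg (x : E5) : 0 ≤ Real.log (SS x) := Real.log_nonneg (one_le_SS x)

theorem log_SS_le {x : E5} (h : EE x < 2) : Real.log (SS x) ≤ 3 * RR x := by
  have hR := four_lt_RR h
  rw [Real.log_le_iff_le_exp (SS_pos x)]
  have h1 : √(4 + x 4 ^ 2) ≤ 2 * Real.exp (3 / 2 * RR x - 6) := by
    have h2 : Real.exp (6 - 3 / 2 * RR x) * Real.exp (3 / 2 * RR x - 6) = 1 := by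
      rw [← Real.exp_add]; simp
    have h3 : EE x * Real.exp (3 / 2 * RR x - 6) = √(4 + x 4 ^ 2) := by
      unfold EE; rw [mul_assoc, h2, mul_one]
    rw [← h3]
    exact mul_le_mul_of_nonneg_right h.le (Real.exp_pos _).le
  have h2 : x 4 ^ 2 ≤ 4 * Real.exp (3 * RR x - 12) := by
    have h3 : √(4 + x 4 ^ 2) ^ 2 ≤ (2 * Real.exp (3 / 2 * RR x - 6)) ^ 2 :=
      pow_le_pow_left₀ (Real.sqrt_nonneg _) h1 2
    rw [q_sq, mul_pow, ← Real.exp_nat_mul] at h3
    have h4 : ((2 : ℕ) : ℝ) * (3 / 2 * RR x - 6) = 3 * RR x - 12 := by push_cast; ring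
    rw [h4] at h3
    linarith
  have h3 : 4 * Real.exp (3 * RR x - 12) ≤ Real.exp (3 * RR x) / 2 := by
    have h4 : Real.exp (3 * RR x - 12) * Real.exp 12 = Real.exp (3 * RR x) := by
      rw [← Real.exp_add]; ring_nf
    have h5 := exp_twelve
    have h6 := Real.exp_pos (3 * RR x - 12)
    nlinarith
  have h4 : RR x ^ 2 ≤ Real.exp (3 * RR x) / 2 := by
    have h5 : RR x ≤ Real.exp (RR x) := by linarith [Real.add_one_le_exp (RR x)]
    have h6 : 2 ≤ Real.exp (RR x) := by linarith [Real.add_one_le_exp (RR x)]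
    have h7 : Real.exp (3 * RR x) = Real.exp (RR x) ^ 3 := by
      rw [← Real.exp_nat_mul]; norm_num
    rw [h7]
    have h8 : RR x ^ 2 ≤ Real.exp (RR x) ^ 2 := pow_le_pow_left₀ (RR_pos x).le h5 2
    nlinarith [sq_nonneg (Real.exp (RR x))]
  unfold SS
  rw [← RR_sq]
  linarith

theorem BB_mul_RR (x : E5) : BB x * RR x = 12 + Real.log (SS x) := by
  have := RR_pos x
  have h : BB x = (12 + Real.log (SS x)) / RR x := rfl
  rw [h]; field_simp

theorem BB_le_six {x : E5} (h : EE x < 2) : BB x ≤ 6 := by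
  have h1 := BB_mul_RR x
  have h2 := log_SS_le h
  have h3 := four_lt_RR h
  nlinarith

theorem BB_pos (x : E5) : 0 < BB x := by
  have h1 := BB_mul_RR x
  have h2 := log_SS_nonneg x
  have h3 := RR_pos x
  by_contra hc
  nlinarith

theorem log_EE (x : E5) : 2 * Real.log (EE x) + 3 * RR x = 12 + Real.log (4 + x 4 ^ 2) := by
  have h1 : Real.log (EE x) = Real.log (√(4 + x 4 ^ 2)) + (6 - 3 / 2 * RR x) := by
    unfold EE
    rw [Real.log_mul (Real.sqrt_pos.2 (qz_pos x)).ne' (Real.exp_pos _).ne', Real.log_exp]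
  rw [h1, Real.log_sqrt (qz_pos x).le]
  ring

theorem BB_lower {x : E5} (h : EE x < 2) : 3 * RR x + 2 * Real.log (EE x) ≤ BB x * RR x := by
  rw [BB_mul_RR]
  have h1 := log_EE x
  have h2 : Real.log (4 + x 4 ^ 2) ≤ Real.log (SS x) := by
    apply Real.log_le_log (qz_pos x)
    unfold SS
    rw [← RR_sq]
    have := four_lt_RR h
    nlinarith
  linarith

theorem three_le_BB {x : E5} (h : EE x < 2) (h1 : 1 ≤ EE x) : 3 ≤ BB x := by
  have h2 := BB_lower h
  have h3 := Real.log_nonneg h1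
  have h4 := RR_pos x
  by_contra hc
  nlinarith

theorem EE_le_BB {x : E5} (h : EE x < 2) : EE x ≤ 2 * BB x := by
  have h4 := RR_pos x
  have h5 := EE_pos x
  rcases le_or_gt (- RR x) (Real.log (EE x)) with h1 | h1
  · have h2 := BB_lower h
    have h3 : 1 ≤ BB x := by
      by_contra hc
      nlinarith
    linarith
  · have h2 : EE x < Real.exp (- RR x) := by
      rwa [← Real.log_lt_iff_lt_exp h5]
    have h3 : Real.exp (- RR x) * RR x ≤ 1 := by
      have h6 : Real.exp (- RR x) * Real.exp (RR x) = 1 := by rw [← Real.exp_add]; simp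
      have h7 : RR x ≤ Real.exp (RR x) := by linarith [Real.add_one_le_exp (RR x)]
      have h8 := Real.exp_pos (- RR x)
      nlinarith
    have h6 := BB_mul_RR x
    have h7 := log_SS_nonneg x
    have h8 : EE x * RR x ≤ BB x * RR x := by nlinarith
    have h9 : EE x ≤ BB x := le_of_mul_le_mul_right h8 h4
    have := BB_pos x
    linarith

theorem th_bounds {x : E5} (h : EE x < 2) : 4 / 3 ≤ th x ∧ th x ≤ 5 / 2 := by
  have hR := four_lt_RR h
  have h0 := RR_pos x
  have h1 : 0 < 1 / RR x := by positivity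
  have h2 : 1 / RR x < 1 / 4 := one_div_lt_one_div_of_lt (by norm_num) hR
  have h3 : 4 / (4 + x 4 ^ 2) ^ 2 ≤ 1 / 4 := by
    rw [div_le_div_iff₀ (by have := qz_pos x; positivity) (by norm_num)]
    nlinarith [sq_nonneg (x 4)]
  have h4 : 0 ≤ 4 / (4 + x 4 ^ 2) ^ 2 := by positivity
  have h5 : th x = 9 / 4 * (1 - (1 / RR x) ^ 2) - 3 * (1 / RR x) - 3 / 2 * (1 / RR x) ^ 3 +
      4 / (4 + x 4 ^ 2) ^ 2 := by
    unfold th
    field_simp
  rw [h5]
  set r := 1 / RR x with hr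
  constructor
  · nlinarith [mul_pos h1 h1, mul_pos (mul_pos h1 h1) h1, mul_pos h1 (sub_pos.2 h2),
      mul_pos (mul_pos h1 h1) (sub_pos.2 h2)]
  · nlinarith [mul_pos h1 h1, mul_pos (mul_pos h1 h1) h1]

theorem lapB_nonpos (x : E5) : lapB x ≤ 0 := by
  have h0 := one_le_RR x
  have hR := RR_pos x
  have hS := SS_pos x
  have h1 : RR x ^ 2 ≤ SS x := by rw [RR_sq]; exact sy_le_SS x
  have h2 : 4 / (RR x * SS x ^ 2) ≤ 4 / RR x ^ 5 := by
    apply div_le_div_of_nonneg_left (by norm_num) (by positivity)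
    calc RR x ^ 5 = RR x * (RR x ^ 2) ^ 2 := by ring
      _ ≤ RR x * SS x ^ 2 := by
        apply mul_le_mul_of_nonneg_left _ hR.le
        exact pow_le_pow_left₀ (by positivity) h1 2
  have h3 : 4 / (SS x * RR x ^ 3) ≤ 4 / RR x ^ 5 := by
    apply div_le_div_of_nonneg_left (by norm_num) (by positivity)
    calc RR x ^ 5 = RR x ^ 2 * RR x ^ 3 := by ring
      _ ≤ SS x * RR x ^ 3 := mul_le_mul_of_nonneg_right h1 (by positivity)
  have h4 : 36 / RR x ^ 5 ≤ 3 * (12 + Real.log (SS x)) / RR x ^ 5 := by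
    apply div_le_div_of_nonneg_right _ (by positivity)
    have := log_SS_nonneg x
    linarith
  unfold lapB
  have h5 : 0 < 1 / RR x ^ 5 := by positivity
  have h6 : 4 / RR x ^ 5 = 4 * (1 / RR x ^ 5) := by ring
  have h7 : 36 / RR x ^ 5 = 36 * (1 / RR x ^ 5) := by ring
  linarith

theorem lapB_lower {x : E5} (h : EE x < 2) : -1 ≤ lapB x := by
  have hR4 := four_lt_RR h
  have hR := RR_pos x
  have hS := SS_pos x
  have h1 : 0 ≤ 4 / (RR x * SS x ^ 2) := by positivity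
  have h2 : 0 ≤ 4 / (SS x * RR x ^ 3) := by positivity
  have h3 : 3 * (12 + Real.log (SS x)) / RR x ^ 5 ≤ 1 := by
    rw [div_le_one (by positivity)]
    have h4 := log_SS_le h
    have h5 : (4 : ℝ) ^ 4 ≤ RR x ^ 4 := pow_le_pow_left₀ (by norm_num) hR4.le 4
    have h6 : RR x ^ 5 = RR x ^ 4 * RR x := by ring
    nlinarith
  unfold lapB
  linarith

end Explicit

end Pool.Agent.Lib.MP_3eb465_an
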