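import Pool.Agent.Lib.MP_3eb465_an.Calc

/-!
Smoothness and explicit gradients / Laplacians of the explicit functions on `R^5`.
-/

namespace Pool.Agent.Lib.MP_3eb465_an

open MeasureTheory InnerProductSpace Laplacian Set Filter Topology
open scoped ContDiff RealInnerProductSpace

section Helper

variable {E : Type*} [NormedAddCommGroup E] [InnerProductSpace ℝ E] [FiniteDimensional ℝ E]

/-- chain rule in the form that is convenient for explicit functions -/
theorem HasLap.comp' {f : E → ℝ} {x g : E} {l : ℝ} (h : HasLap f x g l) {φ ψ : ℝ → ℝ}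
    (hφ : ContDiffAt ℝ 2 φ (f x)) {b : ℝ}
    (h1 : ∀ᶠ t in 𝓝 (f x), HasDerivAt φ (ψ t) t) (h2 : HasDerivAt ψ b (f x)) :
    HasLap (fun y => φ (f y)) x (ψ (f x) • g) (b * ‖g‖ ^ 2 + ψ (f x) * l) := by
  have h3 : deriv φ =ᶠ[𝓝 (f x)] ψ := h1.mono fun t ht => ht.deriv
  refine h.comp hφ h1.self_of_nhds.deriv ?_
  rw [h3.deriv_eq, h2.deriv]

theorem HasLap.of_eq {f : E → ℝ} {x g g' : E} {l l' : ℝ} (h : HasLap f x g l) (hg : g = g')
    (hl : l = l') : HasLap f x g' l' := by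
  rw [← hg, ← hl]; exact h

end Helper

section Explicit

/-- unit vectors -/
noncomputable def ee (i : Fin 5) : E5 := EuclideanSpace.single i 1

theorem inner_ee (i j : Fin 5) : ⟪ee i, ee j⟫ = if i = j then (1 : ℝ) else 0 := by
  simp [ee, EuclideanSpace.inner_single_left]

theorem norm_ee (i : Fin 5) : ‖ee i‖ = 1 := by
  simp [ee]

theorem hasLap_x (i : Fin 5) (x : E5) : HasLap (fun y : E5 => y i) x (ee i) 0 :=
  hasLap_coord i x

/-- the gradient of `sy` -/
noncomputable def YY (x : E5) : E5 := (2 * x 1) • ee 1 + (2 * x 2) • ee 2 + (2 * x 3) • ee 3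

theorem inner_YY_ee0 (x : E5) : ⟪YY x, ee 0⟫ = 0 := by
  simp [YY, inner_add_left, inner_smul_left, inner_ee]

theorem inner_YY_ee4 (x : E5) : ⟪YY x, ee 4⟫ = 0 := by
  simp [YY, inner_add_left, inner_smul_left, inner_ee]

theorem norm_sq_YY (x : E5) : ‖YY x‖ ^ 2 = 4 * (sy x - 1) := by
  rw [← real_inner_self_eq_norm_sq]
  unfold YY sy
  simp only [inner_add_left, inner_add_right, inner_smul_left, inner_smul_right, inner_ee,
    conj_trivial]
  simp
  ring

theorem one_le_sy (x : E5) : 1 ≤ sy x := by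
  unfold sy; nlinarith [sq_nonneg (x 1), sq_nonneg (x 2), sq_nonneg (x 3)]

theorem sy_pos (x : E5) : 0 < sy x := lt_of_lt_of_le one_pos (one_le_sy x)

theorem RR_sq (x : E5) : RR x ^ 2 = sy x := Real.sq_sqrt (sy_pos x).le

theorem RR_pos (x : E5) : 0 < RR x := Real.sqrt_pos.2 (sy_pos x)

theorem one_le_RR (x : E5) : 1 ≤ RR x := by
  rw [RR, Real.one_le_sqrt]; exact one_le_sy x

theorem contDiff_x (i : Fin 5) : ContDiff ℝ ∞ (fun x : E5 => x i) :=
  (EuclideanSpace.proj (𝕜 := ℝ) i : E5 →L[ℝ] ℝ).contDiff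

theorem contDiff_sy : ContDiff ℝ ∞ sy := by
  unfold sy
  exact ((contDiff_const.add ((contDiff_x 1).pow 2)).add ((contDiff_x 2).pow 2)).add
    ((contDiff_x 3).pow 2)

theorem contDiff_RR : ContDiff ℝ ∞ RR := by
  unfold RR
  exact contDiff_sy.sqrt fun x => (sy_pos x).ne'

theorem contDiff_NN : ContDiff ℝ ∞ NN := by
  unfold NN
  exact (contDiff_x 4).mul ((contDiff_const.mul contDiff_RR).exp)

theorem contDiff_c0 : ContDiff ℝ ∞ (fun x : E5 => Real.cos (x 0)) := (contDiff_x 0).cos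

theorem contDiff_DD : ContDiff ℝ ∞ DD := by
  unfold DD
  exact contDiff_NN.add contDiff_c0

theorem qz_pos (x : E5) : 0 < 4 + x 4 ^ 2 := by nlinarith [sq_nonneg (x 4)]

theorem contDiff_EE : ContDiff ℝ ∞ EE := by
  unfold EE
  refine ContDiff.mul ?_ ?_
  · exact (contDiff_const.add ((contDiff_x 4).pow 2)).sqrt fun x => (qz_pos x).ne'
  · exact (contDiff_const.sub (contDiff_const.mul contDiff_RR)).exp

/-- `S = 1 + |y|^2 + z^2` -/
noncomputable def SS (x : E5) : ℝ := sy x + x 4 ^ 2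

theorem sy_le_SS (x : E5) : sy x ≤ SS x := by unfold SS; nlinarith [sq_nonneg (x 4)]

theorem one_le_SS (x : E5) : 1 ≤ SS x := (one_le_sy x).trans (sy_le_SS x)

theorem SS_pos (x : E5) : 0 < SS x := lt_of_lt_of_le one_pos (one_le_SS x)

theorem contDiff_SS : ContDiff ℝ ∞ SS := by
  unfold SS
  exact contDiff_sy.add ((contDiff_x 4).pow 2)

theorem contDiff_BB : ContDiff ℝ ∞ BB := by
  unfold BB
  refine ContDiff.div ?_ contDiff_RR fun x => (RR_pos x).ne'
  exact contDiff_const.add (contDiff_SS.log fun x => (SS_pos x).ne')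

theorem contDiff_PP : ContDiff ℝ ∞ PP := by
  unfold PP
  refine ContDiff.sub ((contDiff_const.mul contDiff_BB).mul contDiff_c0) ?_
  refine contDiff_EE.mul ?_
  exact ((contDiff_const.mul contDiff_c0).add (contDiff_const.mul (contDiff_c0.pow 2))).sub
    contDiff_const

theorem contDiff_QQ : ContDiff ℝ ∞ QQ := by
  unfold QQ
  refine ContDiff.add ((contDiff_const.sub (contDiff_const.mul contDiff_BB)).mul contDiff_c0) ?_
  refine contDiff_EE.mul ?_
  exact ((contDiff_const.mul contDiff_c0).add (contDiff_const.mul (contDiff_c0.pow 2))).sub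
    contDiff_const

/-! ### Laplacians -/

theorem hasLap_xsq (i : Fin 5) (x : E5) :
    HasLap (fun y : E5 => y i ^ 2) x ((2 * x i) • ee i) 2 := by
  have h := (hasLap_x i x).mul (hasLap_x i x)
  have h2 : (fun y : E5 => y i * y i) = fun y => y i ^ 2 := by funext y; ring
  rw [h2] at h
  refine h.of_eq ?_ ?_
  · rw [← add_smul]; ring_nf
  · rw [inner_ee]; simp

theorem hasLap_sy (x : E5) : HasLap sy x (YY x) 6 := by
  have h := (((hasLap_const (1 : ℝ) x).add (hasLap_xsq 1 x)).add (hasLap_xsq 2 x)).add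
    (hasLap_xsq 3 x)
  refine h.of_eq ?_ ?_
  · unfold YY; rw [zero_add]
  · norm_num

/-- a function of `sy` -/
theorem hasLap_of_sy (x : E5) {φ ψ : ℝ → ℝ} (hφ : ContDiffAt ℝ 2 φ (sy x)) {b : ℝ}
    (h1 : ∀ t, 0 < t → HasDerivAt φ (ψ t) t) (h2 : HasDerivAt ψ b (sy x)) :
    HasLap (fun y => φ (sy y)) x (ψ (sy x) • YY x) (4 * b * (sy x - 1) + 6 * ψ (sy x)) := by
  have h := (hasLap_sy x).comp' hφ ((eventually_gt_nhds (sy_pos x)).mono fun t ht => h1 t ht) h2
  refine h.of_eq rfl ?_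
  rw [norm_sq_YY]; ring

theorem hasLap_invR (x : E5) :
    HasLap (fun y => (RR y)⁻¹) x ((-(1 / 2) / RR x ^ 3) • YY x) (-3 / RR x ^ 5) := by
  have h := hasLap_of_sy x (φ := fun t => (√t)⁻¹) (ψ := fun t => -(1 / 2) / √t ^ 3)
    (b := 3 / 4 / √(sy x) ^ 5) ?_ ?_ ?_
  · refine h.of_eq rfl ?_
    have h1 : √(sy x) = RR x := rfl
    simp only [h1]
    rw [← RR_sq x]
    have := RR_pos x
    field_simp
    ring
  · exact (Real.contDiffAt_sqrt (sy_pos x).ne').inv (Real.sqrt_pos.2 (sy_pos x)).ne'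
  · intro t ht
    have hs : 0 < √t := Real.sqrt_pos.2 ht
    refine HasDerivAt.congr_deriv ((Real.hasDerivAt_sqrt ht.ne').inv hs.ne') ?_
    field_simp
  · have ht := sy_pos x
    have hs : 0 < √(sy x) := Real.sqrt_pos.2 ht
    refine HasDerivAt.congr_deriv ((hasDerivAt_const (sy x) (-(1 / 2) : ℝ)).div
      ((Real.hasDerivAt_sqrt ht.ne').pow 3) (pow_pos hs 3).ne') ?_
    field_simp
    norm_num
    try ring

theorem hasLap_expR (x : E5) :
    HasLap (fun y => Real.exp (6 - 3 / 2 * RR y)) x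
      ((-(3 / 4) / RR x * Real.exp (6 - 3 / 2 * RR x)) • YY x)
      ((9 / 4 * (1 - 1 / RR x ^ 2) - 3 / RR x - 3 / 2 / RR x ^ 3) *
        Real.exp (6 - 3 / 2 * RR x)) := by
  have h := hasLap_of_sy x (φ := fun t => Real.exp (6 - 3 / 2 * √t))
    (ψ := fun t => -(3 / 4) / √t * Real.exp (6 - 3 / 2 * √t))
    (b := (3 / 8 / √(sy x) ^ 3 + 9 / 16 / √(sy x) ^ 2) * Real.exp (6 - 3 / 2 * √(sy x))) ?_ ?_ ?_
  · refine h.of_eq rfl ?_
    have h1 : √(sy x) = RR x := rfl
    simp only [h1]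
    rw [← RR_sq x]
    have := RR_pos x
    field_simp
    ring
  · exact (contDiffAt_const.sub (contDiffAt_const.mul
      (Real.contDiffAt_sqrt (sy_pos x).ne'))).exp
  · intro t ht
    have hs : 0 < √t := Real.sqrt_pos.2 ht
    refine HasDerivAt.congr_deriv ((hasDerivAt_const t (6 : ℝ)).sub
      ((Real.hasDerivAt_sqrt ht.ne').const_mul (3 / 2 : ℝ))).exp ?_
    simp only [Pi.sub_apply]
    field_simp
    try ring
  · have ht := sy_pos x
    have hs : 0 < √(sy x) := Real.sqrt_pos.2 ht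
    refine HasDerivAt.congr_deriv (((hasDerivAt_const (sy x) (-(3 / 4) : ℝ)).div
      (Real.hasDerivAt_sqrt ht.ne') hs.ne').mul
      (((hasDerivAt_const (sy x) (6 : ℝ)).sub
      ((Real.hasDerivAt_sqrt ht.ne').const_mul (3 / 2 : ℝ))).exp)) ?_
    simp only [Pi.sub_apply, Pi.div_apply]
    field_simp
    try ring

theorem hasLap_SS (x : E5) : HasLap SS x (YY x + (2 * x 4) • ee 4) 8 := by
  have h := (hasLap_sy x).add (hasLap_xsq 4 x)
  exact h.of_eq rfl (by norm_num)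

theorem hasLap_logSS (x : E5) :
    HasLap (fun y => 12 + Real.log (SS y)) x ((SS x)⁻¹ • (YY x + (2 * x 4) • ee 4))
      (4 / SS x + 4 / SS x ^ 2) := by
  have hS := SS_pos x
  have h := (hasLap_const (12 : ℝ) x).add ((hasLap_SS x).comp' (φ := Real.log) (ψ := fun t => t⁻¹)
    (b := -(SS x ^ 2)⁻¹) (Real.contDiffAt_log.2 hS.ne')
    ((eventually_gt_nhds hS).mono fun t ht => Real.hasDerivAt_log ht.ne') (hasDerivAt_inv hS.ne'))
  refine h.of_eq (zero_add _) ?_
  have h2 : ‖YY x + (2 * x 4) • ee 4‖ ^ 2 = 4 * (SS x - 1) := by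
    rw [norm_add_sq_real, inner_smul_right, inner_YY_ee4, norm_sq_YY, norm_smul, norm_ee]
    simp only [Real.norm_eq_abs, mul_one, sq_abs, SS]
    ring
  rw [h2]
  field_simp
  ring

/-- the Laplacian of `B` -/
noncomputable def lapB (x : E5) : ℝ :=
  4 / (RR x * SS x ^ 2) + 4 / (SS x * RR x ^ 3) - 3 * (12 + Real.log (SS x)) / RR x ^ 5

theorem hasLap_BB (x : E5) : ∃ g : E5, HasLap BB x g (lapB x) ∧ ⟪g, ee 0⟫ = 0 := by
  have h := (hasLap_logSS x).mul (hasLap_invR x)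
  have h2 : (fun y => (12 + Real.log (SS y)) * (RR y)⁻¹) = BB := by
    funext y; rfl
  rw [h2] at h
  refine ⟨_, h.of_eq rfl ?_, ?_⟩
  · unfold lapB
    have h3 : ⟪(SS x)⁻¹ • (YY x + (2 * x 4) • ee 4), (-(1 / 2) / RR x ^ 3) • YY x⟫
        = (SS x)⁻¹ * (-(1 / 2) / RR x ^ 3) * (4 * (RR x ^ 2 - 1)) := by
      rw [RR_sq, ← norm_sq_YY, ← real_inner_self_eq_norm_sq]
      simp only [inner_smul_left, inner_smul_right, inner_add_left]
      rw [real_inner_comm (YY x) (ee 4), inner_YY_ee4]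
      simp
      ring
    rw [h3]
    have hS := SS_pos x
    have hR := RR_pos x
    field_simp
    ring
  · simp only [inner_smul_left, inner_add_left, inner_YY_ee0, inner_ee]
    simp

theorem hasLap_qz (x : E5) :
    HasLap (fun y : E5 => √(4 + y 4 ^ 2)) x ((x 4 / √(4 + x 4 ^ 2)) • ee 4)
      (4 / √(4 + x 4 ^ 2) ^ 3) := by
  have hq : ∀ t : ℝ, 0 < 4 + t ^ 2 := fun t => by nlinarith [sq_nonneg t]
  have hd : ∀ t : ℝ, HasDerivAt (fun t => √(4 + t ^ 2)) (t / √(4 + t ^ 2)) t := by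
    intro t
    refine HasDerivAt.congr_deriv ((((hasDerivAt_id t).pow 2).const_add (4 : ℝ)).sqrt
      (hq t).ne') ?_
    have := Real.sqrt_pos.2 (hq t)
    simp only [Pi.pow_apply, id_eq]
    field_simp
    try norm_num
  have h := (hasLap_x 4 x).comp' (φ := fun t => √(4 + t ^ 2)) (ψ := fun t => t / √(4 + t ^ 2))
    (b := 4 / √(4 + x 4 ^ 2) ^ 3) ?_ (Eventually.of_forall hd) ?_
  · refine h.of_eq rfl ?_
    rw [norm_ee]; ring
  · exact (contDiffAt_const.add (contDiffAt_id.pow 2)).sqrt (hq _).ne'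
  · refine HasDerivAt.congr_deriv ((hasDerivAt_id (x 4)).div (hd (x 4))
      (Real.sqrt_pos.2 (hq (x 4))).ne') ?_
    have h1 := Real.sqrt_pos.2 (hq (x 4))
    have h2 := Real.sq_sqrt (hq (x 4)).le
    simp only [id_eq]
    field_simp
    rw [h2]
    ring

/-- `ΔE = th E` -/
noncomputable def th (x : E5) : ℝ :=
  9 / 4 * (1 - 1 / RR x ^ 2) - 3 / RR x - 3 / 2 / RR x ^ 3 + 4 / (4 + x 4 ^ 2) ^ 2

theorem hasLap_EE (x : E5) : ∃ g : E5, HasLap EE x g (th x * EE x) ∧ ⟪g, ee 0⟫ = 0 := by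
  have h := (hasLap_qz x).mul (hasLap_expR x)
  have h2 : (fun y : E5 => √(4 + y 4 ^ 2) * Real.exp (6 - 3 / 2 * RR y)) = EE := by
    funext y; rfl
  rw [h2] at h
  refine ⟨_, h.of_eq rfl ?_, ?_⟩
  · have h3 : ⟪(x 4 / √(4 + x 4 ^ 2)) • ee 4,
        (-(3 / 4) / RR x * Real.exp (6 - 3 / 2 * RR x)) • YY x⟫ = 0 := by
      simp only [inner_smul_left, inner_smul_right]
      rw [real_inner_comm (YY x) (ee 4), inner_YY_ee4]
      simp
    rw [h3]
    unfold th EE
    have h1 := Real.sqrt_pos.2 (qz_pos x)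
    have h4 : (4 + x 4 ^ 2) ^ 2 = √(4 + x 4 ^ 2) ^ 4 := by
      have := Real.sq_sqrt (qz_pos x).le
      calc (4 + x 4 ^ 2) ^ 2 = (√(4 + x 4 ^ 2) ^ 2) ^ 2 := by rw [this]
        _ = _ := by ring
    rw [h4]
    have hR := RR_pos x
    field_simp
    ring
  · simp only [inner_smul_left, inner_add_left, inner_YY_ee0, inner_ee]
    simp

theorem hasLap_c0 (x : E5) :
    HasLap (fun y : E5 => Real.cos (y 0)) x ((-Real.sin (x 0)) • ee 0) (-Real.cos (x 0)) := by
  have h := (hasLap_x 0 x).comp' (φ := Real.cos) (ψ := fun t => -Real.sin t)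
    (b := -Real.cos (x 0)) Real.contDiff_cos.contDiffAt
    (Eventually.of_forall Real.hasDerivAt_cos) (Real.hasDerivAt_sin (x 0)).neg
  refine h.of_eq rfl ?_
  rw [norm_ee]; ring

/-- for a polynomial `a + b c + d (2 c^2 - 1)` in `c = cos x₀` times a function independent of
`x₀` -/
theorem hasLap_mul_c {F : E5 → ℝ} {x g : E5} {l : ℝ} (h : HasLap F x g l) (h0 : ⟪g, ee 0⟫ = 0)
    (a b : ℝ) :
    ∃ g' : E5, HasLap (fun y => F y * (a * Real.cos (y 0) + b * (2 * Real.cos (y 0) ^ 2 - 1))) x g'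
      (l * (a * Real.cos (x 0) + b * (2 * Real.cos (x 0) ^ 2 - 1)) -
        F x * (a * Real.cos (x 0) + 4 * b * (2 * Real.cos (x 0) ^ 2 - 1))) := by
  have hc := hasLap_c0 x
  have h1 := (hc.const_mul a).add ((((hc.mul hc).const_mul 2).sub (hasLap_const 1 x)).const_mul b)
  have h2 := h.mul h1
  refine ⟨_, (h2.of_eq rfl ?_).congr (Eventually.of_forall fun y => ?_)⟩
  · have h4 : ∀ r : ℝ, ⟪g, r • ee 0⟫ = 0 := by intro r; rw [inner_smul_right, h0, mul_zero]
    have h3 : ⟪g, a • (-Real.sin (x 0)) • ee 0 + b • ((2 : ℝ) •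
        (Real.cos (x 0) • (-Real.sin (x 0)) • ee 0 + Real.cos (x 0) • (-Real.sin (x 0)) • ee 0)
        - 0)⟫ = 0 := by
      simp only [inner_add_right, inner_smul_right, h0, inner_sub_right, inner_zero_right]
      ring
    rw [h3, inner_smul_left, inner_smul_right, inner_ee]
    simp only [if_true, map_neg, conj_trivial]
    have h5 := Real.sin_sq_add_cos_sq (x 0)
    have h6 : Real.sin (x 0) ^ 2 = 1 - Real.cos (x 0) ^ 2 := by linarith
    linear_combination (4 * b * F x) * h6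
  · simp only
    ring

end Explicit

end Pool.Agent.Lib.MP_3eb465_an
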