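import Pool.Agent.Lib.MP_3eb465_an.Calc

/-!
J3: compactly supported parametrix of the Laplacian in dimension 5.
-/

set_option linter.unusedSectionVars false
set_option linter.unusedVariables false
set_option linter.unusedSimpArgs false

namespace Pool.Agent.Lib.MP_3eb465_an

open MeasureTheory InnerProductSpace Laplacian Set Filter Topology
open scoped ContDiff RealInnerProductSpace

namespace Kernel


noncomputable def pw (s : ℝ) : ℝ := s ^ (-(3 / 2) : ℝ)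

theorem pw_contDiffAt {s : ℝ} (hs : 0 < s) {n : ℕ∞ω} : ContDiffAt ℝ n pw s :=
  Real.contDiffAt_rpow_const_of_ne hs.ne'

theorem pw_deriv {s : ℝ} (hs : 0 < s) : deriv pw s = -(3 / 2) * s ^ (-(5 / 2) : ℝ) := by
  have h := (Real.hasDerivAt_rpow_const (x := s) (p := (-(3 / 2) : ℝ)) (Or.inl hs.ne')).deriv
  have e : (-(3 / 2) - 1 : ℝ) = -(5 / 2) := by norm_num
  rw [e] at h
  exact h

theorem pw_deriv2 {s : ℝ} (hs : 0 < s) : deriv (deriv pw) s = 15 / 4 * s ^ (-(7 / 2) : ℝ) := by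
  have h1 : deriv pw =ᶠ[𝓝 s] fun s => -(3 / 2) * s ^ (-(5 / 2) : ℝ) := by
    filter_upwards [Ioi_mem_nhds hs] with t ht using pw_deriv ht
  rw [h1.deriv_eq]
  have h := ((Real.hasDerivAt_rpow_const (x := s) (p := (-(5 / 2) : ℝ))
    (Or.inl hs.ne')).const_mul (-(3 / 2) : ℝ)).deriv
  have e : (-(5 / 2) - 1 : ℝ) = -(7 / 2) := by norm_num
  rw [e] at h
  rw [h]; ring

theorem pw_pos {s : ℝ} (hs : 0 < s) : 0 < pw s := Real.rpow_pos_of_pos hs _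

/-- smooth cut off function on `[0,∞)`. -/
structure IsCut (s₁ s₂ : ℝ) (χ : ℝ → ℝ) : Prop where
  pos : 0 < s₁
  lt : s₁ < s₂
  smooth : ContDiff ℝ ∞ χ
  nonneg : ∀ s, 0 ≤ χ s
  le_one : ∀ s, χ s ≤ 1
  one : ∀ s, s ≤ s₁ → χ s = 1
  zero : ∀ s, s₂ ≤ s → χ s = 0

theorem exists_cut {s₁ s₂ : ℝ} (h1 : 0 < s₁) (h2 : s₁ < s₂) : ∃ χ, IsCut s₁ s₂ χ := by
  refine ⟨fun s => Real.smoothTransition ((s₂ - s) / (s₂ - s₁)), h1, h2, ?_, ?_, ?_, ?_, ?_⟩
  · exact Real.smoothTransition.contDiff.comp ((contDiff_const.sub contDiff_id).div_const _)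
  · intro s; exact Real.smoothTransition.nonneg _
  · intro s; exact Real.smoothTransition.le_one _
  · intro s hs
    apply Real.smoothTransition.one_of_one_le
    rw [le_div_iff₀ (by linarith)]; linarith
  · intro s hs
    apply Real.smoothTransition.zero_of_nonpos
    exact div_nonpos_of_nonpos_of_nonneg (by linarith) (by linarith)

namespace IsCut

variable {s₁ s₂ : ℝ} {χ : ℝ → ℝ} (hχ : IsCut s₁ s₂ χ)
include hχ

theorem deriv_lt {s : ℝ} (hs : s < s₁) : deriv χ s = 0 := by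
  have : χ =ᶠ[𝓝 s] fun _ => 1 := by
    filter_upwards [Iio_mem_nhds hs] with t ht using hχ.one t ht.le
  rw [this.deriv_eq]; simp

theorem deriv_gt {s : ℝ} (hs : s₂ < s) : deriv χ s = 0 := by
  have : χ =ᶠ[𝓝 s] fun _ => 0 := by
    filter_upwards [Ioi_mem_nhds hs] with t ht using hχ.zero t ht.le
  rw [this.deriv_eq]; simp

theorem deriv2_lt {s : ℝ} (hs : s < s₁) : deriv (deriv χ) s = 0 := by
  have : deriv χ =ᶠ[𝓝 s] fun _ => 0 := by
    filter_upwards [Iio_mem_nhds hs] with t ht using hχ.deriv_lt ht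
  rw [this.deriv_eq]; simp

theorem deriv2_gt {s : ℝ} (hs : s₂ < s) : deriv (deriv χ) s = 0 := by
  have : deriv χ =ᶠ[𝓝 s] fun _ => 0 := by
    filter_upwards [Ioi_mem_nhds hs] with t ht using hχ.deriv_gt ht
  rw [this.deriv_eq]; simp

theorem smooth_deriv : ContDiff ℝ ∞ (deriv χ) :=
  (contDiff_infty_iff_deriv.1 hχ.smooth).2

theorem smooth_deriv2 : ContDiff ℝ ∞ (deriv (deriv χ)) :=
  (contDiff_infty_iff_deriv.1 hχ.smooth_deriv).2

end IsCut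

theorem contDiff_mul_of_zero {g p : ℝ → ℝ} {s₁ : ℝ} (h1 : 0 < s₁) (hg : ContDiff ℝ ∞ g)
    (hg0 : ∀ s, s < s₁ → g s = 0) (hp : ∀ s, 0 < s → ContDiffAt ℝ ∞ p s) :
    ContDiff ℝ ∞ (fun s => g s * p s) := by
  rw [contDiff_iff_contDiffAt]
  intro s
  rcases le_or_gt s 0 with h | h
  · have : (fun s => g s * p s) =ᶠ[𝓝 s] fun _ => 0 := by
      filter_upwards [Iio_mem_nhds (lt_of_le_of_lt h h1)] with t ht
      rw [hg0 t ht, zero_mul]
    exact contDiffAt_const.congr_of_eventuallyEq this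
  · exact hg.contDiffAt.mul (hp s h)

theorem deriv_pw_contDiffAt {s : ℝ} (hs : 0 < s) : ContDiffAt ℝ ∞ (deriv pw) s := by
  have h1 : deriv pw =ᶠ[𝓝 s] fun s => -(3 / 2) * s ^ (-(5 / 2) : ℝ) := by
    filter_upwards [Ioi_mem_nhds hs] with t ht using pw_deriv ht
  exact (contDiffAt_const.mul (Real.contDiffAt_rpow_const_of_ne hs.ne')).congr_of_eventuallyEq h1

/-- coefficient of `‖x‖²` in `ψ` -/
noncomputable def aa (χ : ℝ → ℝ) (s : ℝ) : ℝ :=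
  8 * deriv χ s * deriv pw s + 4 * deriv (deriv χ) s * pw s

noncomputable def bb (χ : ℝ → ℝ) (s : ℝ) : ℝ := 10 * deriv χ s * pw s

theorem aa_smooth {s₁ s₂ : ℝ} {χ : ℝ → ℝ} (hχ : IsCut s₁ s₂ χ) : ContDiff ℝ ∞ (aa χ) := by
  have h1 := contDiff_mul_of_zero (g := fun s => 8 * deriv χ s) (p := deriv pw) hχ.pos
    (contDiff_const.mul hχ.smooth_deriv) (fun s hs => by rw [hχ.deriv_lt hs, mul_zero])
    (fun s hs => deriv_pw_contDiffAt hs)
  have h2 := contDiff_mul_of_zero (g := fun s => 4 * deriv (deriv χ) s) (p := pw) hχ.pos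
    (contDiff_const.mul hχ.smooth_deriv2) (fun s hs => by rw [hχ.deriv2_lt hs, mul_zero])
    (fun s hs => pw_contDiffAt hs)
  exact h1.add h2

theorem bb_smooth {s₁ s₂ : ℝ} {χ : ℝ → ℝ} (hχ : IsCut s₁ s₂ χ) : ContDiff ℝ ∞ (bb χ) :=
  contDiff_mul_of_zero (g := fun s => 10 * deriv χ s) (p := pw) hχ.pos
    (contDiff_const.mul hχ.smooth_deriv) (fun s hs => by rw [hχ.deriv_lt hs, mul_zero])
    (fun s hs => pw_contDiffAt hs)

theorem aa_zero {s₁ s₂ : ℝ} {χ : ℝ → ℝ} (hχ : IsCut s₁ s₂ χ) {s : ℝ} (hs : s₂ < s) :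
    aa χ s = 0 := by
  simp [aa, hχ.deriv_gt hs, hχ.deriv2_gt hs]

theorem bb_zero {s₁ s₂ : ℝ} {χ : ℝ → ℝ} (hχ : IsCut s₁ s₂ χ) {s : ℝ} (hs : s₂ < s) :
    bb χ s = 0 := by
  simp [bb, hχ.deriv_gt hs]

variable {E : Type*} [NormedAddCommGroup E] [InnerProductSpace ℝ E]

/-- the unnormalised `ψ` with regularisation parameter `ε` -/
noncomputable def psie (χ : ℝ → ℝ) (ε : ℝ) (x : E) : ℝ :=
  aa χ (‖x‖ ^ 2 + ε) * ‖x‖ ^ 2 + bb χ (‖x‖ ^ 2 + ε)

/-- the unnormalised regularised kernel -/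
noncomputable def ke (χ : ℝ → ℝ) (ε : ℝ) (x : E) : ℝ := χ (‖x‖ ^ 2 + ε) * pw (‖x‖ ^ 2 + ε)

theorem psie_smooth {s₁ s₂ : ℝ} {χ : ℝ → ℝ} (hχ : IsCut s₁ s₂ χ) (ε : ℝ) :
    ContDiff ℝ ∞ (psie (E := E) χ ε) := by
  have h : ContDiff ℝ ∞ (fun x : E => ‖x‖ ^ 2 + ε) := (contDiff_norm_sq ℝ).add contDiff_const
  exact (((aa_smooth hχ).comp h).mul (contDiff_norm_sq ℝ)).add ((bb_smooth hχ).comp h)

theorem ke_smooth {s₁ s₂ : ℝ} {χ : ℝ → ℝ} (hχ : IsCut s₁ s₂ χ) {ε : ℝ} (hε : 0 < ε) :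
    ContDiff ℝ ∞ (ke (E := E) χ ε) := by
  have h : ContDiff ℝ ∞ (fun x : E => ‖x‖ ^ 2 + ε) := (contDiff_norm_sq ℝ).add contDiff_const
  refine (hχ.smooth.comp h).mul ?_
  rw [contDiff_iff_contDiffAt]
  intro x
  exact (pw_contDiffAt (by positivity)).comp x h.contDiffAt

theorem psie_zero {s₁ s₂ : ℝ} {χ : ℝ → ℝ} (hχ : IsCut s₁ s₂ χ) {ρ ε : ℝ} (hρ : s₂ < ρ ^ 2)
    (hε : 0 ≤ ε) (hρ0 : 0 < ρ) {x : E} (hx : ρ ≤ ‖x‖) : psie χ ε x = 0 := by
  have h : s₂ < ‖x‖ ^ 2 + ε := by nlinarith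
  simp [psie, aa_zero hχ h, bb_zero hχ h]

theorem ke_zero {s₁ s₂ : ℝ} {χ : ℝ → ℝ} (hχ : IsCut s₁ s₂ χ) {ρ ε : ℝ} (hρ : s₂ < ρ ^ 2)
    (hε : 0 ≤ ε) (hρ0 : 0 < ρ) {x : E} (hx : ρ ≤ ‖x‖) : ke χ ε x = 0 := by
  have h : s₂ < ‖x‖ ^ 2 + ε := by nlinarith
  simp [ke, hχ.zero _ h.le]

theorem psie_bound {s₁ s₂ : ℝ} {χ : ℝ → ℝ} (hχ : IsCut s₁ s₂ χ) {ρ : ℝ} (hρ : s₂ < ρ ^ 2)
    (hρ0 : 0 < ρ) : ∃ C : ℝ, ∀ ε : ℝ, 0 ≤ ε → ∀ x : E, |psie χ ε x| ≤ C := by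
  obtain ⟨A, hA⟩ := (isCompact_Icc (a := (0 : ℝ)) (b := s₂)).exists_bound_of_continuousOn
    (aa_smooth hχ).continuous.continuousOn
  obtain ⟨B, hB⟩ := (isCompact_Icc (a := (0 : ℝ)) (b := s₂)).exists_bound_of_continuousOn
    (bb_smooth hχ).continuous.continuousOn
  have hA0 : 0 ≤ A := (norm_nonneg _).trans (hA 0 ⟨le_rfl, (hχ.pos.trans hχ.lt).le⟩)
  have hB0 : 0 ≤ B := (norm_nonneg _).trans (hB 0 ⟨le_rfl, (hχ.pos.trans hχ.lt).le⟩)
  have hs2 : 0 < s₂ := hχ.pos.trans hχ.lt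
  refine ⟨A * s₂ + B, fun ε hε x => ?_⟩
  rcases le_or_gt (‖x‖ ^ 2 + ε) s₂ with h | h
  · have h1 := hA (‖x‖ ^ 2 + ε) ⟨by positivity, h⟩
    have h2 := hB (‖x‖ ^ 2 + ε) ⟨by positivity, h⟩
    rw [Real.norm_eq_abs] at h1 h2
    have h3 : ‖x‖ ^ 2 ≤ s₂ := by linarith
    calc |psie χ ε x| ≤ |aa χ (‖x‖ ^ 2 + ε) * ‖x‖ ^ 2| + |bb χ (‖x‖ ^ 2 + ε)| := abs_add_le _ _
      _ = |aa χ (‖x‖ ^ 2 + ε)| * ‖x‖ ^ 2 + |bb χ (‖x‖ ^ 2 + ε)| := by
        rw [abs_mul, abs_of_nonneg (by positivity : (0 : ℝ) ≤ ‖x‖ ^ 2)]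
      _ ≤ A * s₂ + B := by gcongr
  · rw [psie, aa_zero hχ h, bb_zero hχ h]
    simp; positivity

theorem ke_bound {s₁ s₂ : ℝ} {χ : ℝ → ℝ} (hχ : IsCut s₁ s₂ χ) {ρ : ℝ} (hρ : s₂ < ρ ^ 2)
    (hρ0 : 0 < ρ) {ε : ℝ} (hε : 0 ≤ ε) {x : E} (hx : x ≠ 0) :
    |ke χ ε x| ≤ (Metric.ball (0 : E) ρ).indicator (fun x => ‖x‖ ^ (-(3 : ℝ))) x := by
  rcases lt_or_ge ‖x‖ ρ with h | h
  · rw [indicator_of_mem (by simpa using h)]
    have h0 : 0 < ‖x‖ := norm_pos_iff.2 hx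
    have hs : 0 < ‖x‖ ^ 2 + ε := by positivity
    have h1 : 0 < pw (‖x‖ ^ 2 + ε) := Real.rpow_pos_of_pos hs _
    have h2 : pw (‖x‖ ^ 2 + ε) ≤ ‖x‖ ^ (-(3 : ℝ)) := by
      have h1 : (‖x‖ ^ 2 + ε) ^ (-(3 / 2) : ℝ) ≤ (‖x‖ ^ 2) ^ (-(3 / 2) : ℝ) :=
        Real.rpow_le_rpow_of_nonpos (by positivity) (by linarith) (by norm_num)
      refine h1.trans (le_of_eq ?_)
      rw [← Real.rpow_natCast ‖x‖ 2, ← Real.rpow_mul h0.le]
      congr 1; push_cast; ring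
    rw [ke, abs_of_nonneg (mul_nonneg (hχ.nonneg _) h1.le)]
    calc χ (‖x‖ ^ 2 + ε) * pw (‖x‖ ^ 2 + ε) ≤ 1 * pw (‖x‖ ^ 2 + ε) := by
          gcongr; exact hχ.le_one _
      _ ≤ _ := by rw [one_mul]; exact h2
  · rw [indicator_of_notMem (by simpa using h), ke_zero hχ hρ hε hρ0 h, abs_zero]


section FD
variable [FiniteDimensional ℝ E]

theorem hasLap_sq (ε : ℝ) (x : E) :
    HasLap (fun y => ‖y‖ ^ 2 + ε) x ((2 : ℝ) • x) (2 * Module.finrank ℝ E) := by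
  have h := (hasLap_normSq (0 : E) x).add (hasLap_const ε x)
  simpa using h

/-- Laplacian of a cut off regularised kernel. -/
theorem hasLap_keps (hd : Module.finrank ℝ E = 5) {χ : ℝ → ℝ} (hχ : ContDiff ℝ ∞ χ) {ε : ℝ}
    (hε : 0 < ε) (x : E) :
    Δ (fun y : E => χ (‖y‖ ^ 2 + ε) * pw (‖y‖ ^ 2 + ε)) x =
      -(15 * ε * χ (‖x‖ ^ 2 + ε) * (‖x‖ ^ 2 + ε) ^ (-(7 / 2) : ℝ)) +
      ((8 * deriv χ (‖x‖ ^ 2 + ε) * deriv pw (‖x‖ ^ 2 + ε) +
        4 * deriv (deriv χ) (‖x‖ ^ 2 + ε) * pw (‖x‖ ^ 2 + ε)) * ‖x‖ ^ 2 +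
        10 * deriv χ (‖x‖ ^ 2 + ε) * pw (‖x‖ ^ 2 + ε)) := by
  have hs : 0 < ‖x‖ ^ 2 + ε := by positivity
  have h0 := hasLap_sq ε x
  have h1 := h0.comp (φ := χ) ((contDiff_infty.1 hχ 2).contDiffAt) rfl rfl
  have h2 := h0.comp (φ := pw) (pw_contDiffAt hs) rfl rfl
  have h3 := (h1.mul h2).lap
  rw [h3, hd, pw_deriv hs, pw_deriv2 hs]
  simp only [norm_smul, Real.norm_ofNat, inner_smul_left, inner_smul_right, real_inner_self_eq_norm_sq,
    conj_trivial]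
  have e1 : (‖x‖ ^ 2 + ε) ^ (-(5 / 2) : ℝ) = (‖x‖ ^ 2 + ε) * (‖x‖ ^ 2 + ε) ^ (-(7 / 2) : ℝ) := by
    nth_rewrite 2 [← Real.rpow_one (‖x‖ ^ 2 + ε)]
    rw [← Real.rpow_add hs]; norm_num
  rw [e1]
  push_cast
  ring


theorem laplacian_comp_sub_left {φ : E → ℝ} (hφ : ContDiff ℝ 2 φ) (x y : E) :
    Δ (fun z => φ (x - z)) y = Δ φ (x - y) := by
  rw [laplacian_eq_iteratedFDeriv_stdOrthonormalBasis, laplacian_eq_iteratedFDeriv_stdOrthonormalBasis]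
  refine Finset.sum_congr rfl fun i _ => ?_
  have h1 : (fun z => φ (x - z)) = fun z => (fun w => φ (x + w)) ((-1 : ℝ) • z) := by
    ext z; simp [sub_eq_add_neg]
  have hg : ContDiff ℝ 2 (fun w => φ (x + w)) := hφ.comp (contDiff_const.add contDiff_id)
  rw [h1, iteratedFDeriv_comp_const_smul (-1 : ℝ) hg]
  simp only [Nat.cast_ofNat, even_two, Even.neg_pow, one_pow, one_smul, neg_smul]
  rw [iteratedFDeriv_comp_add_left, ← sub_eq_add_neg]


end FD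

variable [FiniteDimensional ℝ E] [MeasurableSpace E] [BorelSpace E]

theorem integrable_ball_rpow (hd : Module.finrank ℝ E = 5) {p ρ : ℝ} (hp : p < 5) :
    Integrable (fun x : E => (Metric.ball (0 : E) ρ).indicator (fun x => ‖x‖ ^ (-p)) x) := by
  have : Nontrivial E := Module.nontrivial_of_finrank_pos (R := ℝ) (by rw [hd]; norm_num)
  rw [integrable_indicator_iff measurableSet_ball]
  rw [integrableOn_fun_norm_addHaar (μ := (volume : Measure E)) (f := fun t : ℝ => t ^ (-p))]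
  rw [hd]
  rcases le_or_gt ρ 0 with h | h
  · rw [Ioo_eq_empty (by simpa using h)]; exact integrableOn_empty
  have h1 : IntegrableOn (fun y : ℝ => y ^ (4 - p)) (Ioo 0 ρ) := by
    have := (intervalIntegral.intervalIntegrable_rpow' (a := 0) (b := ρ) (r := 4 - p) (by linarith))
    rw [intervalIntegrable_iff_integrableOn_Ioo_of_le h.le] at this
    exact this
  refine h1.congr_fun (fun y hy => ?_) measurableSet_Ioo
  have hy0 : 0 < y := hy.1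
  simp only [smul_eq_mul]
  rw [show (4 - p : ℝ) = (4 : ℕ) + (-p) by push_cast; ring, Real.rpow_add hy0, Real.rpow_natCast]

theorem norm_rpow_lt {x : E} {ε : ℝ} (hε : 0 ≤ ε) (hx : x ≠ 0) {q : ℝ} (hq : 0 ≤ q) :
    (‖x‖ ^ 2 + ε) ^ (-q) ≤ ‖x‖ ^ (-(2 * q)) := by
  have h0 : 0 < ‖x‖ := norm_pos_iff.2 hx
  have h1 : (‖x‖ ^ 2 + ε) ^ (-q) ≤ (‖x‖ ^ 2) ^ (-q) :=
    Real.rpow_le_rpow_of_nonpos (by positivity) (by linarith) (by linarith)
  refine h1.trans (le_of_eq ?_)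
  rw [← Real.rpow_natCast ‖x‖ 2, ← Real.rpow_mul h0.le]
  congr 1; push_cast; ring


/-- approximate identity part -/
noncomputable def de (χ : ℝ → ℝ) (ε : ℝ) (x : E) : ℝ :=
  15 * ε * χ (‖x‖ ^ 2 + ε) * (‖x‖ ^ 2 + ε) ^ (-(7 / 2) : ℝ)

theorem laplacian_ke (hd : Module.finrank ℝ E = 5) {s₁ s₂ : ℝ} {χ : ℝ → ℝ} (hχ : IsCut s₁ s₂ χ)
    {ε : ℝ} (hε : 0 < ε) (x : E) : Δ (ke (E := E) χ ε) x = - de χ ε x + psie χ ε x := by
  have h := hasLap_keps (E := E) hd hχ.smooth hε x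
  have e : (fun y : E => χ (‖y‖ ^ 2 + ε) * pw (‖y‖ ^ 2 + ε)) = ke χ ε := rfl
  rw [e] at h
  rw [h, de, psie, aa, bb]

theorem hasCompactSupport_of_zero {f : E → ℝ} {ρ : ℝ} (h : ∀ x, ρ ≤ ‖x‖ → f x = 0) :
    HasCompactSupport f := by
  refine HasCompactSupport.intro (isCompact_closedBall (0 : E) ρ) fun x hx => h x ?_
  simp only [Metric.mem_closedBall, dist_zero_right, not_le] at hx
  exact hx.le

theorem integral_ke_laplacian (hd : Module.finrank ℝ E = 5) {s₁ s₂ : ℝ} {χ : ℝ → ℝ}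
    (hχ : IsCut s₁ s₂ χ) {ρ : ℝ} (hρ : s₂ < ρ ^ 2) (hρ0 : 0 < ρ) {ε : ℝ} (hε : 0 < ε)
    {φ : E → ℝ} (hφ : ContDiff ℝ ∞ φ) (hc : HasCompactSupport φ) :
    ∫ y, ke χ ε y * (-(Δ φ y)) = (∫ y, de χ ε y * φ y) - ∫ y, psie χ ε y * φ y := by
  have hkc : HasCompactSupport (ke (E := E) χ ε) :=
    hasCompactSupport_of_zero (fun x hx => ke_zero hχ hρ hε.le hρ0 hx)
  have h := SchwartzMap.integral_mul_laplacian_right_eq_left (μ := (volume : Measure E))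
    (hkc.toSchwartzMap (ke_smooth hχ hε)) (hc.toSchwartzMap hφ)
  simp only [SchwartzMap.laplacian_apply] at h
  have e1 : ((hkc.toSchwartzMap (ke_smooth hχ hε) : SchwartzMap E ℝ) : E → ℝ) = ke χ ε := rfl
  have e2 : ((hc.toSchwartzMap hφ : SchwartzMap E ℝ) : E → ℝ) = φ := rfl
  rw [e1, e2] at h
  have h1 : ∫ y, ke χ ε y * (-(Δ φ y)) = - ∫ y, ke χ ε y * Δ φ y := by
    rw [← integral_neg]; congr 1; ext y; ring
  rw [h1, h, ← integral_neg]
  have hdc : Continuous (fun y : E => de χ ε y) := by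
    unfold de
    have : Continuous (fun x : E => ‖x‖ ^ 2 + ε) := by fun_prop
    refine ((continuous_const.mul (hχ.smooth.continuous.comp this))).mul ?_
    exact this.rpow_const (fun x => Or.inl (by positivity))
  have hpc : Continuous (fun y : E => psie χ ε y) := (psie_smooth hχ ε).continuous
  have i1 : Integrable (fun y : E => de χ ε y * φ y) :=
    (hdc.mul hφ.continuous).integrable_of_hasCompactSupport hc.mul_left
  have i2 : Integrable (fun y : E => psie χ ε y * φ y) :=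
    (hpc.mul hφ.continuous).integrable_of_hasCompactSupport hc.mul_left
  rw [← integral_sub i1 i2]
  congr 1; ext y
  rw [laplacian_ke hd hχ hε]; ring

theorem integral_de (hd : Module.finrank ℝ E = 5) (χ : ℝ → ℝ) {ε : ℝ} (hε : 0 < ε) (φ : E → ℝ) :
    ∫ y, de χ ε y * φ y = ∫ y, 15 * χ (ε * (1 + ‖y‖ ^ 2)) * (1 + ‖y‖ ^ 2) ^ (-(7 / 2) : ℝ) *
      φ (√ε • y) := by
  have hs : 0 < √ε := Real.sqrt_pos.2 hε
  have h := Measure.integral_comp_smul (μ := (volume : Measure E)) (fun y => de χ ε y * φ y) (√ε)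
  rw [hd] at h
  have hpos : 0 < (√ε ^ 5)⁻¹ := by positivity
  rw [abs_of_pos hpos] at h
  have h2 : ∫ y, de χ ε y * φ y = √ε ^ 5 * ∫ y, de χ ε (√ε • y) * φ (√ε • y) := by
    rw [h, smul_eq_mul]; field_simp
  rw [h2, ← integral_const_mul]
  congr 1; ext y
  have e1 : ‖√ε • y‖ ^ 2 + ε = ε * (1 + ‖y‖ ^ 2) := by
    rw [norm_smul, Real.norm_of_nonneg hs.le, mul_pow, Real.sq_sqrt hε.le]; ring
  have e2 : (ε * (1 + ‖y‖ ^ 2)) ^ (-(7 / 2) : ℝ) = ε ^ (-(7 / 2) : ℝ) * (1 + ‖y‖ ^ 2) ^ (-(7 / 2) : ℝ) :=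
    Real.mul_rpow hε.le (by positivity)
  have e3 : √ε ^ 5 * (ε * ε ^ (-(7 / 2) : ℝ)) = 1 := by
    rw [Real.sqrt_eq_rpow, ← Real.rpow_natCast, ← Real.rpow_mul hε.le]
    nth_rewrite 2 [← Real.rpow_one ε]
    rw [← Real.rpow_add hε, ← Real.rpow_add hε]
    norm_num
  rw [de, e1, e2]
  calc √ε ^ 5 * (15 * ε * χ (ε * (1 + ‖y‖ ^ 2)) * (ε ^ (-(7 / 2) : ℝ) * (1 + ‖y‖ ^ 2) ^ (-(7 / 2) : ℝ)) * φ (√ε • y))
      = (√ε ^ 5 * (ε * ε ^ (-(7 / 2) : ℝ))) * (15 * χ (ε * (1 + ‖y‖ ^ 2)) * (1 + ‖y‖ ^ 2) ^ (-(7 / 2) : ℝ) * φ (√ε • y)) := by ring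
    _ = _ := by rw [e3, one_mul]

/-- total mass of the delta part -/
noncomputable def mass (E : Type*) [NormedAddCommGroup E] [InnerProductSpace ℝ E]
    [FiniteDimensional ℝ E] [MeasurableSpace E] [BorelSpace E] : ℝ :=
  ∫ y : E, 15 * (1 + ‖y‖ ^ 2) ^ (-(7 / 2) : ℝ)

theorem integrable_mass (hd : Module.finrank ℝ E = 5) :
    Integrable (fun y : E => 15 * (1 + ‖y‖ ^ 2) ^ (-(7 / 2) : ℝ)) := by
  have h := integrable_rpow_neg_one_add_norm_sq (μ := (volume : Measure E)) (r := 7)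
    (by rw [hd]; norm_num)
  have e : (-7 / 2 : ℝ) = -(7 / 2) := by ring
  rw [e] at h
  exact h.const_mul 15

theorem mass_pos (hd : Module.finrank ℝ E = 5) : 0 < mass E := by
  have hpos : ∀ y : E, 0 < 15 * (1 + ‖y‖ ^ 2) ^ (-(7 / 2) : ℝ) := fun y => by positivity
  rw [mass, integral_pos_iff_support_of_nonneg (fun y => (hpos y).le) (integrable_mass hd)]
  have : Function.support (fun y : E => 15 * (1 + ‖y‖ ^ 2) ^ (-(7 / 2) : ℝ)) = univ := by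
    ext y; simp only [Function.mem_support, mem_univ, iff_true]; exact (hpos y).ne'
  rw [this]
  exact isOpen_univ.measure_pos _ univ_nonempty

theorem tendsto_de (hd : Module.finrank ℝ E = 5) {s₁ s₂ : ℝ} {χ : ℝ → ℝ}
    (hχ : IsCut s₁ s₂ χ) {φ : E → ℝ} (hφ : Continuous φ) (hc : HasCompactSupport φ) :
    Tendsto (fun ε : ℝ => ∫ y, de χ ε y * φ y) (𝓝[>] 0) (𝓝 (mass E * φ 0)) := by
  obtain ⟨C, hC⟩ := hφ.bounded_above_of_compact_support hc
  have e1 : mass E * φ 0 = ∫ y : E, 15 * (1 + ‖y‖ ^ 2) ^ (-(7 / 2) : ℝ) * φ 0 := by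
    rw [mass, integral_mul_const]
  rw [e1]
  have hev : (fun ε : ℝ => ∫ y, de χ ε y * φ y) =ᶠ[𝓝[>] 0] fun ε => ∫ y,
      15 * χ (ε * (1 + ‖y‖ ^ 2)) * (1 + ‖y‖ ^ 2) ^ (-(7 / 2) : ℝ) * φ (√ε • y) := by
    filter_upwards [self_mem_nhdsWithin] with ε hε using integral_de hd χ hε φ
  refine Tendsto.congr' hev.symm ?_
  have hcont7 : Continuous (fun y : E => (1 + ‖y‖ ^ 2) ^ (-(7 / 2) : ℝ)) :=
    (by fun_prop : Continuous (fun y : E => 1 + ‖y‖ ^ 2)).rpow_const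
      (fun x => Or.inl (by positivity))
  refine tendsto_integral_filter_of_dominated_convergence
    (fun y => 15 * (1 + ‖y‖ ^ 2) ^ (-(7 / 2) : ℝ) * C) ?_ ?_ ?_ ?_
  · filter_upwards with ε
    refine Continuous.aestronglyMeasurable ?_
    exact ((continuous_const.mul (hχ.smooth.continuous.comp (by fun_prop))).mul hcont7).mul
      (hφ.comp (continuous_const.smul continuous_id))
  · filter_upwards with ε
    filter_upwards with y
    rw [norm_mul, norm_mul, norm_mul, Real.norm_of_nonneg (hχ.nonneg _), Real.norm_ofNat,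
      Real.norm_of_nonneg (by positivity : (0 : ℝ) ≤ (1 + ‖y‖ ^ 2) ^ (-(7 / 2) : ℝ))]
    have h1 := hχ.le_one (ε * (1 + ‖y‖ ^ 2))
    have h2 := hC (√ε • y)
    have h3 := hχ.nonneg (ε * (1 + ‖y‖ ^ 2))
    have h4 : (0 : ℝ) ≤ (1 + ‖y‖ ^ 2) ^ (-(7 / 2) : ℝ) := by positivity
    calc 15 * χ (ε * (1 + ‖y‖ ^ 2)) * (1 + ‖y‖ ^ 2) ^ (-(7 / 2) : ℝ) * ‖φ (√ε • y)‖
        ≤ 15 * 1 * (1 + ‖y‖ ^ 2) ^ (-(7 / 2) : ℝ) * C := by gcongr
      _ = _ := by ring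
  · exact (integrable_mass hd).mul_const C
  · filter_upwards with y
    have t1 : Tendsto (fun ε : ℝ => χ (ε * (1 + ‖y‖ ^ 2))) (𝓝[>] 0) (𝓝 1) := by
      have : Tendsto (fun ε : ℝ => χ (ε * (1 + ‖y‖ ^ 2))) (𝓝[>] 0) (𝓝 (χ (0 * (1 + ‖y‖ ^ 2)))) :=
        ((hχ.smooth.continuous.comp (by fun_prop : Continuous fun ε : ℝ => ε * (1 + ‖y‖ ^ 2))).tendsto
          0).mono_left nhdsWithin_le_nhds
      rwa [zero_mul, hχ.one 0 hχ.pos.le] at this
    have t2 : Tendsto (fun ε : ℝ => φ (√ε • y)) (𝓝[>] 0) (𝓝 (φ 0)) := by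
      have : Tendsto (fun ε : ℝ => φ (√ε • y)) (𝓝[>] 0) (𝓝 (φ (√0 • y))) :=
        ((hφ.comp (by fun_prop : Continuous fun ε : ℝ => √ε • y)).tendsto 0).mono_left
          nhdsWithin_le_nhds
      simpa using this
    have t3 := ((t1.const_mul 15).mul_const ((1 + ‖y‖ ^ 2) ^ (-(7 / 2) : ℝ))).mul t2
    simpa using t3


theorem integrable_bound {p ρ : ℝ} (hd : Module.finrank ℝ E = 5) (hp : p < 5) :
    Integrable ((Metric.ball (0 : E) ρ).indicator (fun x => ‖x‖ ^ (-p))) :=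
  integrable_ball_rpow hd hp

theorem ae_ne_zero (hd : Module.finrank ℝ E = 5) : ∀ᵐ x : E, x ≠ 0 := by
  have : Nontrivial E := Module.nontrivial_of_finrank_pos (R := ℝ) (by rw [hd]; norm_num)
  rw [ae_iff]; simp

theorem measurable_ke {χ : ℝ → ℝ} (hχ : Continuous χ) (ε : ℝ) : Measurable (ke (E := E) χ ε) := by
  unfold ke pw
  have h : Measurable (fun x : E => ‖x‖ ^ 2 + ε) := by fun_prop
  exact (hχ.measurable.comp h).mul (h.pow_const _)

theorem integrable_ke (hd : Module.finrank ℝ E = 5) {s₁ s₂ : ℝ} {χ : ℝ → ℝ}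
    (hχ : IsCut s₁ s₂ χ) {ρ : ℝ} (hρ : s₂ < ρ ^ 2) (hρ0 : 0 < ρ) {ε : ℝ} (hε : 0 ≤ ε) :
    Integrable (ke (E := E) χ ε) := by
  refine (integrable_bound (p := 3) (ρ := ρ) hd (by norm_num)).mono'
    (measurable_ke hχ.smooth.continuous ε).aestronglyMeasurable ?_
  filter_upwards [ae_ne_zero hd] with x hx
  exact ke_bound hχ hρ hρ0 hε hx

theorem tendsto_ke (hd : Module.finrank ℝ E = 5) {s₁ s₂ : ℝ} {χ : ℝ → ℝ}
    (hχ : IsCut s₁ s₂ χ) {ρ : ℝ} (hρ : s₂ < ρ ^ 2) (hρ0 : 0 < ρ) {f : E → ℝ} (hf : Continuous f)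
    (hc : HasCompactSupport f) :
    Tendsto (fun ε : ℝ => ∫ y, ke χ ε y * f y) (𝓝[>] 0) (𝓝 (∫ y, ke χ 0 y * f y)) := by
  obtain ⟨C, hC⟩ := hf.bounded_above_of_compact_support hc
  refine tendsto_integral_filter_of_dominated_convergence
    (fun y => (Metric.ball (0 : E) ρ).indicator (fun x => ‖x‖ ^ (-(3 : ℝ))) y * C) ?_ ?_ ?_ ?_
  · filter_upwards with ε
    exact ((measurable_ke hχ.smooth.continuous ε).mul hf.measurable).aestronglyMeasurable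
  · filter_upwards [self_mem_nhdsWithin] with ε hε
    filter_upwards [ae_ne_zero hd] with x hx
    rw [norm_mul, Real.norm_eq_abs]
    have hnn : 0 ≤ (Metric.ball (0 : E) ρ).indicator (fun x => ‖x‖ ^ (-(3 : ℝ))) x :=
      indicator_nonneg (fun _ _ => by positivity) x
    have := ke_bound hχ hρ hρ0 (le_of_lt hε) hx
    have h2 := hC x
    gcongr
  · exact (integrable_bound (p := 3) (ρ := ρ) hd (by norm_num)).mul_const C
  · filter_upwards [ae_ne_zero hd] with x hx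
    have hx0 : 0 < ‖x‖ := norm_pos_iff.2 hx
    have hc1 : ContinuousAt (fun ε : ℝ => ke χ ε x) 0 := by
      unfold ke pw
      have h1 : ContinuousAt (fun ε : ℝ => ‖x‖ ^ 2 + ε) 0 := by fun_prop
      refine (hχ.smooth.continuous.continuousAt.comp h1).mul ?_
      exact h1.rpow_const (Or.inl (by simp only [add_zero]; positivity))
    exact (hc1.tendsto.mono_left nhdsWithin_le_nhds).mul_const _

theorem tendsto_psie {s₁ s₂ : ℝ} {χ : ℝ → ℝ}
    (hχ : IsCut s₁ s₂ χ) {ρ : ℝ} (hρ : s₂ < ρ ^ 2) (hρ0 : 0 < ρ) {f : E → ℝ} (hf : Continuous f)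
    (hc : HasCompactSupport f) :
    Tendsto (fun ε : ℝ => ∫ y, psie χ ε y * f y) (𝓝[>] 0) (𝓝 (∫ y, psie χ 0 y * f y)) := by
  obtain ⟨C, hC⟩ := psie_bound (E := E) hχ hρ hρ0
  refine tendsto_integral_filter_of_dominated_convergence (fun y => C * ‖f y‖) ?_ ?_ ?_ ?_
  · filter_upwards with ε
    exact ((psie_smooth hχ ε).continuous.mul hf).aestronglyMeasurable
  · filter_upwards [self_mem_nhdsWithin] with ε hε
    filter_upwards with x
    rw [norm_mul, Real.norm_eq_abs]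
    have := hC ε (le_of_lt hε) x
    gcongr
  · exact ((hf.integrable_of_hasCompactSupport hc).norm).const_mul C
  · filter_upwards with x
    have hc1 : Continuous (fun ε : ℝ => psie χ ε x) := by
      unfold psie
      exact (((aa_smooth hχ).continuous.comp (by fun_prop)).mul continuous_const).add
        ((bb_smooth hχ).continuous.comp (by fun_prop))
    exact ((hc1.tendsto 0).mono_left nhdsWithin_le_nhds).mul_const _

theorem hasCompactSupport_laplacian {φ : E → ℝ} (hc : HasCompactSupport φ) :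
    HasCompactSupport (Δ φ) := by
  refine hc.mono' ?_
  intro x hx
  by_contra h
  apply hx
  have : φ =ᶠ[𝓝 x] fun _ => 0 := by
    have := notMem_tsupport_iff_eventuallyEq.1 h
    exact this
  rw [(laplacian_congr_nhds this).self_of_nhds]
  simp

theorem repr_zero (hd : Module.finrank ℝ E = 5) {s₁ s₂ : ℝ} {χ : ℝ → ℝ}
    (hχ : IsCut s₁ s₂ χ) {ρ : ℝ} (hρ : s₂ < ρ ^ 2) (hρ0 : 0 < ρ)
    {φ : E → ℝ} (hφ : ContDiff ℝ ∞ φ) (hc : HasCompactSupport φ) :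
    ∫ y, ke χ 0 y * (-(Δ φ y)) = mass E * φ 0 - ∫ y, psie χ 0 y * φ y := by
  have hlc : Continuous (fun y => -(Δ φ y)) := by
    have := continuousOn_laplacian isOpen_univ (contDiff_infty.1 hφ 2).contDiffOn
    exact (continuousOn_univ.1 this).neg
  have hlcs : HasCompactSupport (fun y => -(Δ φ y)) := (hasCompactSupport_laplacian hc).neg
  have t1 := tendsto_ke hd hχ hρ hρ0 hlc hlcs
  have t2 := (tendsto_de hd hχ hφ.continuous hc).sub (tendsto_psie hχ hρ hρ0 hφ.continuous hc)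
  refine tendsto_nhds_unique t1 (t2.congr' ?_)
  filter_upwards [self_mem_nhdsWithin] with ε hε
  exact (integral_ke_laplacian hd hχ hρ hρ0 hε hφ hc).symm

end Kernel

namespace Kernel

/-- derivative of `χ * pw` -/
noncomputable def hp (χ : ℝ → ℝ) (s : ℝ) : ℝ := deriv χ s * pw s + χ s * deriv pw s

theorem hp_bound {s₁ s₂ : ℝ} {χ : ℝ → ℝ} (hχ : IsCut s₁ s₂ χ) :
    ∃ C : ℝ, 0 ≤ C ∧ ∀ s, 0 < s → |hp χ s| ≤ C * s ^ (-(5 / 2) : ℝ) := by
  obtain ⟨A, hA⟩ := (isCompact_Icc (a := (0 : ℝ)) (b := s₂)).exists_bound_of_continuousOn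
    hχ.smooth_deriv.continuous.continuousOn
  have hs2 : 0 < s₂ := hχ.pos.trans hχ.lt
  have hA0 : 0 ≤ A := (norm_nonneg _).trans (hA 0 ⟨le_rfl, hs2.le⟩)
  refine ⟨A * s₂ + 3 / 2, by positivity, fun s hs => ?_⟩
  have hp5 : 0 < s ^ (-(5 / 2) : ℝ) := Real.rpow_pos_of_pos hs _
  rcases le_or_gt s s₂ with h | h
  · have h1 := hA s ⟨hs.le, h⟩
    rw [Real.norm_eq_abs] at h1
    have e1 : pw s = s * s ^ (-(5 / 2) : ℝ) := by
      unfold pw
      nth_rewrite 2 [← Real.rpow_one s]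
      rw [← Real.rpow_add hs]; norm_num
    rw [hp, pw_deriv hs, e1]
    calc |deriv χ s * (s * s ^ (-(5 / 2) : ℝ)) + χ s * (-(3 / 2) * s ^ (-(5 / 2) : ℝ))|
        ≤ |deriv χ s * (s * s ^ (-(5 / 2) : ℝ))| + |χ s * (-(3 / 2) * s ^ (-(5 / 2) : ℝ))| :=
          abs_add_le _ _
      _ = |deriv χ s| * s * s ^ (-(5 / 2) : ℝ) + χ s * (3 / 2) * s ^ (-(5 / 2) : ℝ) := by
          rw [abs_mul, abs_mul, abs_mul, abs_mul, abs_of_pos hs, abs_of_pos hp5,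
            abs_of_nonneg (hχ.nonneg s), abs_neg, abs_of_pos (by norm_num : (0 : ℝ) < 3 / 2)]
          ring
      _ ≤ A * s₂ * s ^ (-(5 / 2) : ℝ) + 1 * (3 / 2) * s ^ (-(5 / 2) : ℝ) := by
          have := hχ.le_one s
          gcongr
      _ = _ := by ring
  · rw [hp, hχ.deriv_gt h, hχ.zero s h.le]
    simp only [zero_mul, add_zero, abs_zero]
    positivity

theorem hp_zero {s₁ s₂ : ℝ} {χ : ℝ → ℝ} (hχ : IsCut s₁ s₂ χ) {s : ℝ} (h : s₂ < s) :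
    hp χ s = 0 := by
  rw [hp, hχ.deriv_gt h, hχ.zero s h.le]; simp

theorem hp_continuousAt {s₁ s₂ : ℝ} {χ : ℝ → ℝ} (hχ : IsCut s₁ s₂ χ) {s : ℝ} (h : 0 < s) :
    ContinuousAt (hp χ) s :=
  (hχ.smooth_deriv.continuous.continuousAt.mul (pw_contDiffAt (n := 0) h).continuousAt).add
    (hχ.smooth.continuous.continuousAt.mul (deriv_pw_contDiffAt h).continuousAt)

theorem hp_measurable {s₁ s₂ : ℝ} {χ : ℝ → ℝ} (hχ : IsCut s₁ s₂ χ) : Measurable (hp χ) := by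
  unfold hp
  have h1 : Measurable pw := by unfold pw; fun_prop
  exact (hχ.smooth_deriv.continuous.measurable.mul h1).add
    (hχ.smooth.continuous.measurable.mul (measurable_deriv _))

variable {E : Type*} [NormedAddCommGroup E] [InnerProductSpace ℝ E]

theorem norm_rpow_lt' {x : E} {ε : ℝ} (hε : 0 ≤ ε) (hx : x ≠ 0) {q : ℝ} (hq : 0 ≤ q) :
    (‖x‖ ^ 2 + ε) ^ (-q) ≤ ‖x‖ ^ (-(2 * q)) := by
  have h0 : 0 < ‖x‖ := norm_pos_iff.2 hx
  have h1 : (‖x‖ ^ 2 + ε) ^ (-q) ≤ (‖x‖ ^ 2) ^ (-q) :=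
    Real.rpow_le_rpow_of_nonpos (by positivity) (by linarith) (by linarith)
  refine h1.trans (le_of_eq ?_)
  rw [← Real.rpow_natCast ‖x‖ 2, ← Real.rpow_mul h0.le]
  congr 1; push_cast; ring

/-- derivative of `ke χ ε` -/
noncomputable def dke (χ : ℝ → ℝ) (ε : ℝ) (x : E) : E →L[ℝ] ℝ :=
  (2 * hp χ (‖x‖ ^ 2 + ε)) • innerSL ℝ x

theorem hasFDerivAt_ke {s₁ s₂ : ℝ} {χ : ℝ → ℝ} (hχ : IsCut s₁ s₂ χ) {ε : ℝ} (hε : 0 < ε) (x : E) :
    HasFDerivAt (ke χ ε) (dke χ ε x) x := by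
  have hs : 0 < ‖x‖ ^ 2 + ε := by positivity
  have h1 : HasFDerivAt (fun x : E => ‖x‖ ^ 2 + ε) (2 • innerSL ℝ x) x :=
    (hasStrictFDerivAt_norm_sq x).hasFDerivAt.add_const ε
  have h2 : HasDerivAt (fun s => χ s * pw s) (hp χ (‖x‖ ^ 2 + ε)) (‖x‖ ^ 2 + ε) := by
    have a1 := ((contDiff_infty.1 hχ.smooth 1).differentiable (by norm_num) (‖x‖ ^ 2 + ε)).hasDerivAt
    have a2 := ((pw_contDiffAt (n := 1) hs).differentiableAt (by norm_num)).hasDerivAt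
    exact a1.mul a2
  have h3 := h2.comp_hasFDerivAt x h1
  refine h3.congr_fderiv ?_
  ext v
  simp [dke]; ring

theorem dke_bound {s₁ s₂ : ℝ} {χ : ℝ → ℝ} (hχ : IsCut s₁ s₂ χ) {ρ : ℝ} (hρ : s₂ < ρ ^ 2)
    (hρ0 : 0 < ρ) : ∃ C : ℝ, 0 ≤ C ∧ ∀ ε : ℝ, 0 ≤ ε → ∀ x : E, x ≠ 0 → ‖dke χ ε x‖ ≤
      C * (Metric.ball (0 : E) ρ).indicator (fun x => ‖x‖ ^ (-(4 : ℝ))) x := by
  obtain ⟨C, hC0, hC⟩ := hp_bound hχ
  refine ⟨2 * C, by positivity, fun ε hε x hx => ?_⟩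
  rcases lt_or_ge ‖x‖ ρ with h | h
  · rw [indicator_of_mem (by simpa using h)]
    have h0 : 0 < ‖x‖ := norm_pos_iff.2 hx
    have hs : 0 < ‖x‖ ^ 2 + ε := by positivity
    rw [dke, norm_smul, innerSL_apply_norm, norm_mul, Real.norm_ofNat, Real.norm_eq_abs]
    have h1 := hC _ hs
    have h2 := norm_rpow_lt' hε hx (q := 5 / 2) (by norm_num)
    have e : ‖x‖ ^ (-(4 : ℝ)) = ‖x‖ ^ (-(5 : ℝ)) * ‖x‖ := by
      nth_rewrite 3 [← Real.rpow_one ‖x‖]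
      rw [← Real.rpow_add h0]; norm_num
    rw [e]
    have e2 : -(2 * (5 / 2) : ℝ) = -5 := by norm_num
    rw [e2] at h2
    calc 2 * |hp χ (‖x‖ ^ 2 + ε)| * ‖x‖ ≤ 2 * (C * (‖x‖ ^ 2 + ε) ^ (-(5 / 2) : ℝ)) * ‖x‖ := by gcongr
      _ ≤ 2 * (C * ‖x‖ ^ (-(5 : ℝ))) * ‖x‖ := by gcongr
      _ = _ := by ring
  · rw [indicator_of_notMem (by simpa using h), dke, hp_zero hχ (by nlinarith)]
    simp

variable [FiniteDimensional ℝ E] [MeasurableSpace E] [BorelSpace E]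

theorem dke_measurable {s₁ s₂ : ℝ} {χ : ℝ → ℝ} (hχ : IsCut s₁ s₂ χ) (ε : ℝ) :
    AEStronglyMeasurable (dke (E := E) χ ε) volume := by
  unfold dke
  have h1 : Measurable (fun x : E => 2 * hp χ (‖x‖ ^ 2 + ε)) :=
    ((hp_measurable hχ).comp (by fun_prop)).const_mul 2
  exact h1.aestronglyMeasurable.smul (innerSL ℝ (E := E)).continuous.aestronglyMeasurable

theorem integrable_dke (hd : Module.finrank ℝ E = 5) {s₁ s₂ : ℝ} {χ : ℝ → ℝ}
    (hχ : IsCut s₁ s₂ χ) {ρ : ℝ} (hρ : s₂ < ρ ^ 2) (hρ0 : 0 < ρ) {ε : ℝ} (hε : 0 ≤ ε) :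
    Integrable (dke (E := E) χ ε) := by
  obtain ⟨C, hC0, hC⟩ := dke_bound (E := E) hχ hρ hρ0
  refine ((integrable_bound (p := 4) (ρ := ρ) hd (by norm_num)).const_mul C).mono'
    (dke_measurable hχ ε) ?_
  filter_upwards [ae_ne_zero hd] with x hx
  exact hC ε hε x hx

theorem tendsto_dke (hd : Module.finrank ℝ E = 5) {s₁ s₂ : ℝ} {χ : ℝ → ℝ}
    (hχ : IsCut s₁ s₂ χ) {ρ : ℝ} (hρ : s₂ < ρ ^ 2) (hρ0 : 0 < ρ) :
    Tendsto (fun ε : ℝ => ∫ y : E, ‖dke χ ε y - dke χ 0 y‖) (𝓝[>] 0) (𝓝 0) := by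
  obtain ⟨C, hC0, hC⟩ := dke_bound (E := E) hχ hρ hρ0
  suffices key : Tendsto (fun ε : ℝ => ∫ y : E, ‖dke χ ε y - dke χ 0 y‖) (𝓝[>] 0)
      (𝓝 (∫ y : E, (0 : ℝ))) by
    simpa using key
  refine tendsto_integral_filter_of_dominated_convergence
    (fun y => 2 * (C * (Metric.ball (0 : E) ρ).indicator (fun x => ‖x‖ ^ (-(4 : ℝ))) y)) ?_ ?_ ?_ ?_
  · filter_upwards with ε
    exact ((dke_measurable hχ ε).sub (dke_measurable hχ 0)).norm
  · filter_upwards [self_mem_nhdsWithin] with ε hε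
    filter_upwards [ae_ne_zero hd] with x hx
    rw [norm_norm]
    refine (norm_sub_le _ _).trans ?_
    have h1 := hC ε (le_of_lt hε) x hx
    have h2 := hC 0 le_rfl x hx
    linarith
  · exact ((integrable_bound (p := 4) (ρ := ρ) hd (by norm_num)).const_mul C).const_mul 2
  · filter_upwards [ae_ne_zero hd] with x hx
    have hx0 : 0 < ‖x‖ := norm_pos_iff.2 hx
    have hc1 : ContinuousAt (fun ε : ℝ => ‖dke χ ε x - dke χ 0 x‖) 0 := by
      unfold dke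
      have h1 : ContinuousAt (fun ε : ℝ => hp χ (‖x‖ ^ 2 + ε)) 0 := by
        refine ContinuousAt.comp (g := hp χ) (f := fun ε : ℝ => ‖x‖ ^ 2 + ε) ?_ (by fun_prop)
        exact hp_continuousAt hχ (by simp only [add_zero]; positivity)
      fun_prop
    have := hc1.tendsto.mono_left (nhdsWithin_le_nhds (s := Ioi 0))
    simpa using this

theorem tendsto_ke_L1 (hd : Module.finrank ℝ E = 5) {s₁ s₂ : ℝ} {χ : ℝ → ℝ}
    (hχ : IsCut s₁ s₂ χ) {ρ : ℝ} (hρ : s₂ < ρ ^ 2) (hρ0 : 0 < ρ) :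
    Tendsto (fun ε : ℝ => ∫ y : E, |ke χ ε y - ke χ 0 y|) (𝓝[>] 0) (𝓝 0) := by
  suffices key : Tendsto (fun ε : ℝ => ∫ y : E, |ke χ ε y - ke χ 0 y|) (𝓝[>] 0)
      (𝓝 (∫ y : E, (0 : ℝ))) by
    simpa using key
  refine tendsto_integral_filter_of_dominated_convergence
    (fun y => 2 * ((Metric.ball (0 : E) ρ).indicator (fun x => ‖x‖ ^ (-(3 : ℝ))) y)) ?_ ?_ ?_ ?_
  · filter_upwards with ε
    exact ((measurable_ke hχ.smooth.continuous ε).sub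
      (measurable_ke hχ.smooth.continuous 0)).aestronglyMeasurable.norm
  · filter_upwards [self_mem_nhdsWithin] with ε hε
    filter_upwards [ae_ne_zero hd] with x hx
    rw [Real.norm_eq_abs, abs_abs]
    refine (abs_sub _ _).trans ?_
    have h1 := ke_bound hχ hρ hρ0 (le_of_lt hε) hx
    have h2 := ke_bound hχ hρ hρ0 le_rfl hx
    linarith
  · exact ((integrable_bound (p := 3) (ρ := ρ) hd (by norm_num))).const_mul 2
  · filter_upwards [ae_ne_zero hd] with x hx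
    have hx0 : 0 < ‖x‖ := norm_pos_iff.2 hx
    have hc1 : ContinuousAt (fun ε : ℝ => ke χ ε x) 0 := by
      unfold ke pw
      have h1 : ContinuousAt (fun ε : ℝ => ‖x‖ ^ 2 + ε) 0 := by fun_prop
      refine (hχ.smooth.continuous.continuousAt.comp h1).mul ?_
      exact h1.rpow_const (Or.inl (by simp only [add_zero]; positivity))
    have hc2 : ContinuousAt (fun ε : ℝ => |ke χ ε x - ke χ 0 x|) 0 := by fun_prop
    have := hc2.tendsto.mono_left (nhdsWithin_le_nhds (s := Ioi 0))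
    simpa using this

end Kernel

open scoped Convolution

namespace Kernel

variable {E : Type*} [NormedAddCommGroup E] [InnerProductSpace ℝ E]
variable [FiniteDimensional ℝ E] [MeasurableSpace E] [BorelSpace E]

theorem aesm_comp_sub {h : E → ℝ} (hh : AEStronglyMeasurable h volume) (x : E) :
    AEStronglyMeasurable (fun y => h (x - y)) volume :=
  hh.comp_measurePreserving (Measure.measurePreserving_sub_left volume x)

/-- the derivative of the convolution with the regularised kernel -/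
noncomputable def gd (χ : ℝ → ℝ) (h : E → ℝ) (ε : ℝ) (x : E) : E →L[ℝ] ℝ :=
  ∫ y, h (x - y) • dke χ ε y

theorem hasFDerivAt_conv {s₁ s₂ : ℝ} {χ : ℝ → ℝ}
    (hχ : IsCut s₁ s₂ χ) {ρ : ℝ} (hρ : s₂ < ρ ^ 2) (hρ0 : 0 < ρ) {ε : ℝ} (hε : 0 < ε)
    {h : E → ℝ} (hh : AEStronglyMeasurable h volume) {M : ℝ} (hM : ∀ x, |h x| ≤ M) :
    (∀ x, HasFDerivAt (fun x => ∫ y, ke χ ε y * h (x - y)) (gd χ h ε x) x) ∧
      Continuous (gd χ h ε) := by
  have hcs : HasCompactSupport (ke (E := E) χ ε) :=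
    hasCompactSupport_of_zero (fun x hx => ke_zero hχ hρ hε.le hρ0 hx)
  have hsm : ContDiff ℝ 1 (ke (E := E) χ ε) := contDiff_infty.1 (ke_smooth hχ hε) 1
  have hli : LocallyIntegrable h volume := by
    refine (locallyIntegrable_const (M : ℝ)).mono hh ?_
    filter_upwards with x
    rw [Real.norm_eq_abs, Real.norm_eq_abs]
    exact (hM x).trans (le_abs_self M)
  have e1 : (fun x => ∫ y, ke χ ε y * h (x - y)) =
      (ke χ ε ⋆[ContinuousLinearMap.mul ℝ ℝ, volume] h) := by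
    ext x; rfl
  have e2 : ∀ x, gd χ h ε x =
      (fderiv ℝ (ke χ ε) ⋆[(ContinuousLinearMap.mul ℝ ℝ).precompL E, volume] h) x := by
    intro x
    rw [gd, convolution]
    congr 1; ext1 y
    rw [(hasFDerivAt_ke hχ hε y).fderiv]
    ext v
    rw [ContinuousLinearMap.precompL_apply]
    simp [mul_comm]
  have hD : ∀ x, HasFDerivAt (fun x => ∫ y, ke χ ε y * h (x - y)) (gd χ h ε x) x := by
    intro x
    rw [e1, e2]
    exact hcs.hasFDerivAt_convolution_left _ hsm hli x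
  refine ⟨hD, ?_⟩
  have hc1 : ContDiff ℝ ((1 : ℕ∞) : ℕ∞ω) (ke χ ε ⋆[ContinuousLinearMap.mul ℝ ℝ, volume] h) :=
    hcs.contDiff_convolution_left _ hsm hli
  have hcf := hc1.continuous_fderiv (by norm_num)
  rw [← e1] at hcf
  convert hcf using 1
  ext1 x
  exact (hD x).fderiv.symm

theorem gd_diff (hd : Module.finrank ℝ E = 5) {s₁ s₂ : ℝ} {χ : ℝ → ℝ}
    (hχ : IsCut s₁ s₂ χ) {ρ : ℝ} (hρ : s₂ < ρ ^ 2) (hρ0 : 0 < ρ) {ε : ℝ} (hε : 0 ≤ ε)
    {h : E → ℝ} (hh : AEStronglyMeasurable h volume) {M : ℝ} (hM : ∀ x, |h x| ≤ M) (x : E) :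
    ‖gd χ h ε x - gd χ h 0 x‖ ≤ M * ∫ y : E, ‖dke χ ε y - dke χ 0 y‖ := by
  have i0 : ∀ ε : ℝ, 0 ≤ ε → Integrable (fun y => h (x - y) • dke χ ε y) := by
    intro ε hε
    refine (integrable_dke hd hχ hρ hρ0 hε).bdd_smul M (aesm_comp_sub hh x) ?_
    filter_upwards with y using hM _
  rw [gd, gd, ← integral_sub (i0 ε hε) (i0 0 le_rfl), ← integral_const_mul]
  refine norm_integral_le_of_norm_le ?_ ?_
  · exact (((integrable_dke hd hχ hρ hρ0 hε).sub (integrable_dke hd hχ hρ hρ0 le_rfl)).norm).const_mul M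
  · filter_upwards with y
    have e : h (x - y) • dke χ ε y - h (x - y) • dke χ 0 y =
        h (x - y) • (dke χ ε y - dke χ 0 y) := (smul_sub _ _ _).symm
    rw [e, norm_smul, Real.norm_eq_abs]
    gcongr
    exact hM _

theorem smoothing_ke (hd : Module.finrank ℝ E = 5) {s₁ s₂ : ℝ} {χ : ℝ → ℝ}
    (hχ : IsCut s₁ s₂ χ) {ρ : ℝ} (hρ : s₂ < ρ ^ 2) (hρ0 : 0 < ρ)
    {h : E → ℝ} (hh : AEStronglyMeasurable h volume) {M : ℝ} (hM : ∀ x, |h x| ≤ M) :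
    ContDiff ℝ 1 (fun x => ∫ y, ke χ 0 y * h (x - y)) := by
  have hM0 : 0 ≤ M := (abs_nonneg _).trans (hM 0)
  let e : ℕ → ℝ := fun n => 1 / ((n : ℝ) + 1)
  have he : ∀ n, 0 < e n := fun n => by positivity
  have het : Tendsto e atTop (𝓝[>] 0) :=
    tendsto_nhdsWithin_iff.2 ⟨tendsto_one_div_add_atTop_nhds_zero_nat, Eventually.of_forall he⟩
  have hU : TendstoUniformly (fun n => gd χ h (e n)) (gd χ h 0) atTop := by
    rw [Metric.tendstoUniformly_iff]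
    intro δ hδ
    have t1 : Tendsto (fun n => M * ∫ y : E, ‖dke χ (e n) y - dke χ 0 y‖) atTop (𝓝 (M * 0)) :=
      ((tendsto_dke hd hχ hρ hρ0).comp het).const_mul M
    rw [mul_zero] at t1
    filter_upwards [t1.eventually_lt_const hδ] with n hn x
    rw [dist_comm, dist_eq_norm]
    exact (gd_diff hd hχ hρ hρ0 (he n).le hh hM x).trans_lt hn
  have hpt : ∀ x, Tendsto (fun n => ∫ y, ke χ (e n) y * h (x - y)) atTop
      (𝓝 (∫ y, ke χ 0 y * h (x - y))) := by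
    intro x
    have i0 : ∀ ε : ℝ, 0 ≤ ε → Integrable (fun y => ke χ ε y * h (x - y)) := by
      intro ε hε
      refine (integrable_ke hd hχ hρ hρ0 hε).mul_bdd (c := M) (aesm_comp_sub hh x) ?_
      filter_upwards with y using hM _
    have t1 : Tendsto (fun n => M * ∫ y : E, |ke χ (e n) y - ke χ 0 y|) atTop (𝓝 (M * 0)) :=
      ((tendsto_ke_L1 hd hχ hρ hρ0).comp het).const_mul M
    rw [mul_zero] at t1
    rw [tendsto_iff_norm_sub_tendsto_zero]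
    refine squeeze_zero (fun _ => norm_nonneg _) (fun n => ?_) t1
    rw [← integral_sub (i0 _ (he n).le) (i0 0 le_rfl), ← integral_const_mul]
    refine norm_integral_le_of_norm_le ?_ ?_
    · exact (((integrable_ke hd hχ hρ hρ0 (he n).le).sub (integrable_ke hd hχ hρ hρ0 le_rfl)).norm).const_mul M
    · filter_upwards with y
      rw [← sub_mul, norm_mul, mul_comm, Real.norm_eq_abs, Real.norm_eq_abs]
      gcongr
      exact hM _
  have hcont : Continuous (gd χ h 0) :=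
    hU.continuous (Frequently.of_forall fun n => (hasFDerivAt_conv hχ hρ hρ0 (he n) hh hM).2)
  have hder : ∀ x, HasFDerivAt (fun x => ∫ y, ke χ 0 y * h (x - y)) (gd χ h 0 x) x :=
    hasFDerivAt_of_tendstoUniformly hU
      (fun n x => (hasFDerivAt_conv hχ hρ hρ0 (he n) hh hM).1 x) hpt
  rw [contDiff_one_iff_fderiv]
  refine ⟨fun x => (hder x).differentiableAt, ?_⟩
  have : fderiv ℝ (fun x => ∫ y, ke χ 0 y * h (x - y)) = gd χ h 0 := by
    ext1 x; exact (hder x).fderiv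
  rw [this]; exact hcont

end Kernel

theorem exists_parametrix {E : Type*} [NormedAddCommGroup E] [InnerProductSpace ℝ E]
    [FiniteDimensional ℝ E] [MeasurableSpace E] [BorelSpace E]
    (hd : Module.finrank ℝ E = 5) {ρ : ℝ} (hρ : 0 < ρ) :
    ∃ k ψ : E → ℝ, IsParametrix ρ k ψ := by
  obtain ⟨χ, hχ⟩ := Kernel.exists_cut (s₁ := ρ ^ 2 / 4) (s₂ := ρ ^ 2 / 2) (by positivity)
    (by nlinarith [pow_pos hρ 2])
  have hρ2 : ρ ^ 2 / 2 < ρ ^ 2 := by nlinarith [pow_pos hρ 2]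
  have hm := Kernel.mass_pos (E := E) hd
  refine ⟨fun x => (Kernel.mass E)⁻¹ * Kernel.ke χ 0 x,
    fun x => (Kernel.mass E)⁻¹ * Kernel.psie χ 0 x, ?_⟩
  refine ⟨(Kernel.integrable_ke hd hχ hρ2 hρ le_rfl).const_mul _, ?_, ?_, ?_, ?_, ?_, ?_, ?_⟩
  · intro x hx; rw [Kernel.ke_zero hχ hρ2 le_rfl hρ hx, mul_zero]
  · intro x; simp [Kernel.ke]
  · exact contDiff_const.mul (Kernel.psie_smooth hχ 0)
  · intro x hx; rw [Kernel.psie_zero hχ hρ2 le_rfl hρ hx, mul_zero]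
  · intro x; simp [Kernel.psie]
  · intro φ hφ hc x
    have hφ' : ContDiff ℝ ∞ (fun y => φ (x - y)) := hφ.comp (contDiff_const.sub contDiff_id)
    have hc' : HasCompactSupport (fun y => φ (x - y)) :=
      hc.comp_homeomorph (Homeomorph.subLeft x)
    have h := Kernel.repr_zero hd hχ hρ2 hρ hφ' hc'
    simp only [sub_zero] at h
    have e1 : ∀ y, Δ (fun y => φ (x - y)) y = Δ φ (x - y) := fun y =>
      Kernel.laplacian_comp_sub_left (contDiff_infty.1 hφ 2) x y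
    simp only [e1] at h
    simp only [mul_assoc]
    rw [integral_const_mul, integral_const_mul, h]
    field_simp
    ring
  · rintro h hh ⟨M, hM⟩
    have := Kernel.smoothing_ke hd hχ hρ2 hρ hh hM
    simp only [mul_assoc]
    have e : (fun x => ∫ y, (Kernel.mass E)⁻¹ * (Kernel.ke χ 0 y * h (x - y))) =
        fun x => (Kernel.mass E)⁻¹ * ∫ y, Kernel.ke χ 0 y * h (x - y) := by
      ext x; rw [integral_const_mul]
    rw [e]
    exact contDiff_const.mul this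

end Pool.Agent.Lib.MP_3eb465_an
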