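import Pool.Agent.Lib.MP_3eb465_an.Defs

/-!
Lifting functions from `R^5` to `R^(k+5)` through a coordinate projection.
-/

namespace Pool.Agent.Lib.MP_3eb465_an

open MeasureTheory InnerProductSpace Laplacian Set Filter Topology
open scoped ContDiff RealInnerProductSpace

namespace Lift

variable {a n : ℕ}

/-- the coordinate projection along `ι : Fin a → Fin n`. -/
noncomputable def pr (ι : Fin a → Fin n) :
    EuclideanSpace ℝ (Fin n) →L[ℝ] EuclideanSpace ℝ (Fin a) :=
  LinearMap.toContinuousLinearMap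
    { toFun := fun x => WithLp.toLp 2 (fun i => x (ι i))
      map_add' := fun x y => by ext i; simp
      map_smul' := fun c x => by ext i; simp }

theorem pr_apply (ι : Fin a → Fin n) (x : EuclideanSpace ℝ (Fin n)) (i : Fin a) :
    pr ι x i = x (ι i) := rfl

/-- the adjoint of `pr` -/
noncomputable def em (ι : Fin a → Fin n) (v : EuclideanSpace ℝ (Fin a)) :
    EuclideanSpace ℝ (Fin n) := ∑ i, v i • EuclideanSpace.single (ι i) (1 : ℝ)

theorem em_apply {ι : Fin a → Fin n} (hι : Function.Injective ι) (v : EuclideanSpace ℝ (Fin a))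
    (i : Fin a) : em ι v (ι i) = v i := by
  simp [em, hι.eq_iff, Pi.single_apply]

theorem pr_em {ι : Fin a → Fin n} (hι : Function.Injective ι) (v : EuclideanSpace ℝ (Fin a)) :
    pr ι (em ι v) = v := by
  ext i; rw [pr_apply, em_apply hι]

theorem norm_em {ι : Fin a → Fin n} (hι : Function.Injective ι) (v : EuclideanSpace ℝ (Fin a)) :
    ‖em ι v‖ = ‖v‖ := by
  have h : ⟪em ι v, em ι v⟫ = ⟪v, v⟫ := by
    nth_rewrite 1 [em]
    rw [sum_inner]
    simp only [inner_smul_left, EuclideanSpace.inner_single_left, em_apply hι]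
    rw [PiLp.inner_apply]
    simp [sq]
  rw [real_inner_self_eq_norm_sq, real_inner_self_eq_norm_sq] at h
  exact (sq_eq_sq₀ (norm_nonneg _) (norm_nonneg _)).1 h

theorem norm_pr_le {ι : Fin a → Fin n} (hι : Function.Injective ι) : ‖pr ι‖ ≤ 1 := by
  refine ContinuousLinearMap.opNorm_le_bound _ zero_le_one fun x => ?_
  rw [one_mul]
  -- ‖π x‖² = ⟪x, em (π x)⟫ ≤ ‖x‖ ‖π x‖
  have h : ⟪em ι (pr ι x), x⟫ = ‖pr ι x‖ ^ 2 := by
    rw [em, sum_inner, ← real_inner_self_eq_norm_sq]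
    simp only [inner_smul_left, EuclideanSpace.inner_single_left]
    rw [PiLp.inner_apply]
    simp [pr_apply, sq]
  have h2 := real_inner_le_norm (em ι (pr ι x)) x
  rw [h, norm_em hι] at h2
  rcases eq_or_lt_of_le (norm_nonneg (pr ι x)) with h3 | h3
  · rw [← h3]; exact norm_nonneg x
  · nlinarith

theorem pr_single (ι : Fin a → Fin n) (hι : Function.Injective ι) (i : Fin a) :
    pr ι (EuclideanSpace.single (ι i) (1 : ℝ)) = EuclideanSpace.single i 1 := by
  ext j
  rw [pr_apply]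
  simp [Pi.single_apply, hι.eq_iff]

theorem pr_single_of_notMem (ι : Fin a → Fin n) {j : Fin n} (hj : j ∉ Set.range ι) :
    pr ι (EuclideanSpace.single j (1 : ℝ)) = 0 := by
  ext i
  rw [pr_apply]
  have : ι i ≠ j := fun h => hj ⟨i, h⟩
  simp [Pi.single_apply, this]

theorem laplacian_lift {ι : Fin a → Fin n} (hι : Function.Injective ι)
    {u : EuclideanSpace ℝ (Fin a) → ℝ} {Ω : Set (EuclideanSpace ℝ (Fin a))} (hΩ : IsOpen Ω)
    (hu : ContDiffOn ℝ 2 u Ω) {x : EuclideanSpace ℝ (Fin n)} (hx : pr ι x ∈ Ω) :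
    Δ (fun y => u (pr ι y)) x = Δ u (pr ι x) := by
  rw [laplacian_eq_iteratedFDeriv_orthonormalBasis _ (EuclideanSpace.basisFun (Fin n) ℝ),
    laplacian_eq_iteratedFDeriv_orthonormalBasis _ (EuclideanSpace.basisFun (Fin a) ℝ)]
  have hΩ' : IsOpen (pr ι ⁻¹' Ω) := hΩ.preimage (pr ι).continuous
  have key : ∀ v : EuclideanSpace ℝ (Fin n),
      iteratedFDeriv ℝ 2 (fun y => u (pr ι y)) x ![v, v] =
        iteratedFDeriv ℝ 2 u (pr ι x) ![pr ι v, pr ι v] := by
    intro v
    have h := (pr ι).iteratedFDerivWithin_comp_right (f := u) hu hΩ.uniqueDiffOn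
      hΩ'.uniqueDiffOn (x := x) hx (i := 2) le_rfl
    rw [iteratedFDerivWithin_of_isOpen 2 hΩ' hx, iteratedFDerivWithin_of_isOpen 2 hΩ hx] at h
    have e : (fun y => u (pr ι y)) = u ∘ pr ι := rfl
    rw [e, h, ContinuousMultilinearMap.compContinuousLinearMap_apply]
    congr 1
    ext i : 1
    fin_cases i <;> rfl
  simp only [key, EuclideanSpace.basisFun_apply]
  symm
  refine Fintype.sum_of_injective ι hι _ _ (fun j hj => ?_) (fun i => ?_)
  · rw [pr_single_of_notMem ι hj]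
    exact (iteratedFDeriv ℝ 2 u (pr ι x)).map_coord_zero 0 rfl
  · rw [pr_single ι hι]

theorem norm_iteratedFDeriv_lift {ι : Fin a → Fin n} (hι : Function.Injective ι)
    {F : EuclideanSpace ℝ (Fin a) → ℝ} {N : ℕ∞ω} (hF : ContDiff ℝ N F) {i : ℕ} (hi : (i : ℕ∞ω) ≤ N)
    (x : EuclideanSpace ℝ (Fin n)) :
    ‖iteratedFDeriv ℝ i (fun y => F (pr ι y)) x‖ ≤ ‖iteratedFDeriv ℝ i F (pr ι x)‖ := by
  have e : (fun y => F (pr ι y)) = F ∘ pr ι := rfl
  rw [e, (pr ι).iteratedFDeriv_comp_right hF x hi]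
  refine (ContinuousMultilinearMap.norm_compContinuousLinearMap_le _ _).trans ?_
  have h1 : (∏ _j : Fin i, ‖pr ι‖) ≤ 1 := by
    rw [Finset.prod_const]
    exact pow_le_one₀ (norm_nonneg _) (norm_pr_le hι)
  have h2 := norm_nonneg (iteratedFDeriv ℝ i F (pr ι x))
  nlinarith

theorem norm_fderiv_lift_ge {ι : Fin a → Fin n} (hι : Function.Injective ι)
    {F : EuclideanSpace ℝ (Fin a) → ℝ} (hF : Differentiable ℝ F)
    (x : EuclideanSpace ℝ (Fin n)) :
    ‖fderiv ℝ F (pr ι x)‖ ≤ ‖fderiv ℝ (fun y => F (pr ι y)) x‖ := by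
  have h1 : fderiv ℝ (fun y => F (pr ι y)) x = (fderiv ℝ F (pr ι x)).comp (pr ι) := by
    have := (hF (pr ι x)).hasFDerivAt.comp x (pr ι).hasFDerivAt
    exact this.fderiv
  rw [h1]
  refine ContinuousLinearMap.opNorm_le_bound _ (norm_nonneg _) fun v => ?_
  have h2 := ((fderiv ℝ F (pr ι x)).comp (pr ι)).le_opNorm (em ι v)
  rw [ContinuousLinearMap.comp_apply, pr_em hι, norm_em hι] at h2
  exact h2

theorem dist_pr_le {ι : Fin a → Fin n} (hι : Function.Injective ι)
    (x y : EuclideanSpace ℝ (Fin n)) : dist (pr ι x) (pr ι y) ≤ dist x y := by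
  rw [dist_eq_norm, dist_eq_norm, ← map_sub]
  refine ((pr ι).le_opNorm _).trans ?_
  have := norm_pr_le hι
  have := norm_nonneg (x - y)
  nlinarith

end Lift

end Pool.Agent.Lib.MP_3eb465_an
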