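import Pool.Agent.Lib.MP_3eb465_an.Calc

/-!
Comparison principle for `-Δ + K` on unbounded open sets, strong maximum principle.
-/

namespace Pool.Agent.Lib.MP_3eb465_an

open MeasureTheory InnerProductSpace Laplacian Set Filter Topology
open scoped ContDiff RealInnerProductSpace

section General

variable {E : Type*} [NormedAddCommGroup E] [InnerProductSpace ℝ E] [FiniteDimensional ℝ E]

theorem hasLap_log (x : E) :
    HasLap (fun y : E => Real.log (1 + ‖y - 0‖ ^ 2)) x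
      ((1 + ‖x - 0‖ ^ 2)⁻¹ • ((2 : ℝ) • (x - 0)))
      (-((1 + ‖x - 0‖ ^ 2) ^ 2)⁻¹ * ‖(2 : ℝ) • (x - 0)‖ ^ 2
        + (1 + ‖x - 0‖ ^ 2)⁻¹ * (2 * Module.finrank ℝ E)) := by
  have h1 := hasLap_normSq (0 : E) x
  have hpos : 0 < 1 + ‖x - 0‖ ^ 2 := by positivity
  have hd : ∀ t : ℝ, 0 < 1 + t → HasDerivAt (fun t : ℝ => Real.log (1 + t)) ((1 + t)⁻¹) t := by
    intro t ht
    have := ((hasDerivAt_id t).const_add 1).log ht.ne'
    simpa using this
  have hev : deriv (fun t : ℝ => Real.log (1 + t)) =ᶠ[𝓝 (‖x - 0‖ ^ 2)] fun t => (1 + t)⁻¹ := by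
    have : ∀ᶠ t : ℝ in 𝓝 (‖x - 0‖ ^ 2), 0 < 1 + t := by
      have hc : ContinuousAt (fun t : ℝ => 1 + t) (‖x - 0‖ ^ 2) := by fun_prop
      exact hc.eventually (lt_mem_nhds hpos)
    filter_upwards [this] with t ht
    exact (hd t ht).deriv
  refine h1.comp (φ := fun t : ℝ => Real.log (1 + t)) ?_ ?_ ?_
  · exact (contDiffAt_const.add contDiffAt_id).log hpos.ne'
  · exact (hd _ hpos).deriv
  · rw [hev.deriv_eq]
    have h2 : HasDerivAt (fun t : ℝ => (1 + t)⁻¹) (-1 / (1 + ‖x - 0‖ ^ 2) ^ 2) (‖x - 0‖ ^ 2) :=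
      ((hasDerivAt_id (‖x - 0‖ ^ 2)).const_add 1).inv hpos.ne'
    rw [h2.deriv, neg_div, one_div]

theorem comparison {K : ℝ} (hK : 0 < K) {Ω : Set E} (hΩ : IsOpen Ω) {u : E → ℝ}
    (hu : ContinuousOn u (closure Ω)) (hb : ∃ M : ℝ, ∀ x ∈ Ω, u x ≤ M)
    (hbd : ∀ x ∈ frontier Ω, u x ≤ 0)
    (hsub : ∀ x ∈ Ω, 0 < u x → ContDiffAt ℝ 2 u x ∧ K * u x ≤ Δ u x) :
    ∀ x ∈ Ω, u x ≤ 0 := by
  intro x1 hx1
  by_contra hcon
  rw [not_le] at hcon
  obtain ⟨M, hM⟩ := hb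
  set d : ℝ := (Module.finrank ℝ E : ℝ) with hd
  have hd0 : 0 ≤ d := by positivity
  set h : E → ℝ := fun y => Real.log (1 + ‖y - 0‖ ^ 2) with hh
  have hh0 : ∀ x, 0 ≤ h x := fun x => Real.log_nonneg (by
    have : 0 ≤ ‖x - 0‖ ^ 2 := by positivity
    linarith)
  have hcont : Continuous h := by
    refine Continuous.log (by fun_prop) fun x => ?_
    have : 0 ≤ ‖x - 0‖ ^ 2 := by positivity
    exact (by linarith : (0 : ℝ) < 1 + ‖x - 0‖ ^ 2).ne'
  -- choice of ε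
  obtain ⟨ε, hε, hεlt⟩ : ∃ ε : ℝ, 0 < ε ∧ ε * (h x1 + 2 * d / K) < u x1 := by
    have hnn : 0 ≤ h x1 + 2 * d / K := add_nonneg (hh0 x1) (by positivity)
    refine ⟨u x1 / (h x1 + 2 * d / K + 1), by positivity, ?_⟩
    rw [div_mul_eq_mul_div, div_lt_iff₀ (by positivity)]
    nlinarith
  have hMcl : ∀ x ∈ closure Ω, u x ≤ max M 0 := by
    intro x hx
    rw [closure_eq_self_union_frontier] at hx
    rcases hx with hx | hx
    · exact (hM x hx).trans (le_max_left _ _)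
    · exact (hbd x hx).trans (le_max_right _ _)
  have hvc : ContinuousOn (fun x => u x - ε * h x) (closure Ω) :=
    hu.sub (continuousOn_const.mul hcont.continuousOn)
  have htend : Tendsto (fun x : E => ε * h x) (cocompact E) atTop := by
    refine Tendsto.const_mul_atTop hε ?_
    refine Real.tendsto_log_atTop.comp ?_
    refine tendsto_atTop_add_const_left _ _ ?_
    refine (tendsto_pow_atTop (by norm_num)).comp ?_
    simpa using tendsto_norm_cocompact_atTop (E := E)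
  have hev : ∀ᶠ x in cocompact E ⊓ 𝓟 (closure Ω), u x - ε * h x ≤ u x1 - ε * h x1 := by
    rw [eventually_inf_principal]
    filter_upwards [htend.eventually_ge_atTop (max M 0 - (u x1 - ε * h x1))] with x hx hxc
    have := hMcl x hxc
    linarith
  obtain ⟨x0, hx0, hmax⟩ := hvc.exists_isMaxOn' isClosed_closure (subset_closure hx1) hev
  have hge : u x1 - ε * h x1 ≤ u x0 - ε * h x0 := hmax (subset_closure hx1)
  have hux0 : ε * (2 * d / K) < u x0 := by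
    have := mul_nonneg hε.le (hh0 x0)
    nlinarith
  have hux0' : 0 < u x0 := lt_of_le_of_lt (by positivity) hux0
  have hx0Ω : x0 ∈ Ω := by
    rw [closure_eq_self_union_frontier] at hx0
    rcases hx0 with hx0 | hx0
    · exact hx0
    · exact absurd (hbd x0 hx0) (not_le.2 hux0')
  obtain ⟨hC2, hK0⟩ := hsub x0 hx0Ω hux0'
  obtain ⟨g, hg⟩ : ∃ g, HasGradientAt u g x0 :=
    ⟨_, (hC2.differentiableAt (by norm_num)).hasGradientAt⟩
  have hLu : HasLap u x0 g (Δ u x0) := ⟨hC2, hg, rfl⟩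
  have hL := hLu.sub ((hasLap_log x0).const_mul ε)
  have hloc : IsLocalMax (fun x => u x - ε * h x) x0 := by
    filter_upwards [hΩ.mem_nhds hx0Ω] with x hx
    exact hmax (subset_closure hx)
  have h1 := laplacian_nonpos_of_isLocalMax hL.cd hloc
  rw [hL.lap] at h1
  have h2 : -((1 + ‖x0 - 0‖ ^ 2) ^ 2)⁻¹ * ‖(2 : ℝ) • (x0 - 0)‖ ^ 2
        + (1 + ‖x0 - 0‖ ^ 2)⁻¹ * (2 * d) ≤ 2 * d := by
    have e1 : 0 ≤ ((1 + ‖x0 - 0‖ ^ 2) ^ 2)⁻¹ * ‖(2 : ℝ) • (x0 - 0)‖ ^ 2 := by positivity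
    have e2 : (1 + ‖x0 - 0‖ ^ 2)⁻¹ ≤ 1 := inv_le_one_of_one_le₀ (by
      have : 0 ≤ ‖x0 - 0‖ ^ 2 := by positivity
      linarith)
    nlinarith
  have h3 : K * u x0 ≤ ε * (2 * d) := by
    have := mul_le_mul_of_nonneg_left h2 hε.le
    linarith
  have h4 : ε * (2 * d) < K * u x0 := by
    have := mul_lt_mul_of_pos_left hux0 hK
    have e : K * (ε * (2 * d / K)) = ε * (2 * d) := by field_simp
    rw [e] at this
    exact this
  linarith

theorem hasLap_gauss (a : ℝ) (p x : E) :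
    HasLap (fun y : E => Real.exp (-a * ‖y - p‖ ^ 2)) x
      ((-a * Real.exp (-a * ‖x - p‖ ^ 2)) • ((2 : ℝ) • (x - p)))
      ((a ^ 2 * Real.exp (-a * ‖x - p‖ ^ 2)) * ‖(2 : ℝ) • (x - p)‖ ^ 2
        + (-a * Real.exp (-a * ‖x - p‖ ^ 2)) * (2 * Module.finrank ℝ E)) := by
  have hd : ∀ t : ℝ, HasDerivAt (fun t : ℝ => Real.exp (-a * t)) (-a * Real.exp (-a * t)) t := by
    intro t
    have := ((hasDerivAt_id t).const_mul (-a)).exp
    simp only [id, mul_one] at this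
    rw [mul_comm]
    exact this
  have hde : deriv (fun t : ℝ => Real.exp (-a * t)) = fun t => -a * Real.exp (-a * t) :=
    funext fun t => (hd t).deriv
  refine (hasLap_normSq p x).comp (φ := fun t : ℝ => Real.exp (-a * t)) ?_ ?_ ?_
  · exact (contDiffAt_const.mul contDiffAt_id).exp
  · exact (hd _).deriv
  · rw [hde]
    have := ((hd (‖x - p‖ ^ 2)).const_mul (-a)).deriv
    rw [this]
    ring

theorem pos_on_ball {Ω : Set E} (hΩ : IsOpen Ω) {u : E → ℝ}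
    (hu : ContDiffOn ℝ 2 u Ω) (h0 : ∀ x ∈ Ω, 0 ≤ u x) (hs : ∀ x ∈ Ω, Δ u x ≤ 0)
    {x0 : E} {R : ℝ} (hR : Metric.ball x0 R ⊆ Ω) (hx0 : 0 < u x0) :
    ∀ x ∈ Metric.ball x0 R, 0 < u x := by
  intro x1 hx1
  have hR0 : 0 < R := dist_nonneg.trans_lt hx1
  set d : ℝ := (Module.finrank ℝ E : ℝ) with hd
  have hd0 : 0 ≤ d := by positivity
  obtain ⟨R', hR'1, hR'2⟩ := exists_between (Metric.mem_ball.1 hx1)
  have hR'0 : 0 < R' := dist_nonneg.trans_lt hR'1
  have hcb : Metric.closedBall x0 R' ⊆ Ω :=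
    (Metric.closedBall_subset_ball hR'2).trans hR
  have hx0Ω : x0 ∈ Ω := hcb (Metric.mem_closedBall_self hR'0.le)
  have huc : ContinuousOn u Ω := hu.continuousOn
  -- a small ball on which `u ≥ m`
  have hcat : ContinuousAt u x0 := huc.continuousAt (hΩ.mem_nhds hx0Ω)
  obtain ⟨r, hr, hru⟩ : ∃ r > 0, ∀ x, dist x x0 ≤ r → u x0 / 2 < u x := by
    have := hcat.eventually (lt_mem_nhds (half_lt_self hx0))
    obtain ⟨r, hr, h⟩ := Metric.eventually_nhds_iff.1 this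
    exact ⟨r / 2, by positivity, fun x hx => h (lt_of_le_of_lt hx (by linarith))⟩
  set m := u x0 / 2 with hm
  have hm0 : 0 < m := by positivity
  -- the barrier
  obtain ⟨a, ha0, ha⟩ : ∃ a : ℝ, 0 < a ∧ d < 2 * a * r ^ 2 := by
    refine ⟨(d + 1) / (2 * r ^ 2), by positivity, ?_⟩
    have : 2 * ((d + 1) / (2 * r ^ 2)) * r ^ 2 = d + 1 := by field_simp
    linarith
  set w : E → ℝ := fun x => u x - m * (Real.exp (-a * ‖x - x0‖ ^ 2) - Real.exp (-a * R' ^ 2))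
    with hw
  have hwc : ContinuousOn w (Metric.closedBall x0 R') := by
    refine (huc.mono hcb).sub ?_
    fun_prop
  obtain ⟨x2, hx2, hmin⟩ := (isCompact_closedBall x0 R').exists_isMinOn
    ⟨x0, Metric.mem_closedBall_self hR'0.le⟩ hwc
  have hw2 : 0 ≤ w x2 := by
    by_contra hneg
    rw [not_le] at hneg
    have hexp : ∀ x : E, Real.exp (-a * ‖x - x0‖ ^ 2) ≤ 1 := by
      intro x
      rw [Real.exp_le_one_iff]
      have : 0 ≤ a * ‖x - x0‖ ^ 2 := by positivity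
      linarith
    have hr2 : r < dist x2 x0 := by
      by_contra hle
      rw [not_lt] at hle
      have e1 := hru x2 hle
      have e2 := hexp x2
      have e3 := Real.exp_pos (-a * R' ^ 2)
      have e4 : m * (Real.exp (-a * ‖x2 - x0‖ ^ 2) - Real.exp (-a * R' ^ 2)) ≤ m * 1 :=
        mul_le_mul_of_nonneg_left (by linarith) hm0.le
      simp only [hw] at hneg
      linarith
    have hR2 : dist x2 x0 < R' := by
      refine lt_of_le_of_ne hx2 fun heq => ?_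
      have e1 := h0 x2 (hcb hx2)
      rw [dist_eq_norm] at heq
      simp only [hw, heq, sub_self, mul_zero, sub_zero] at hneg
      linarith
    have hx2Ω : x2 ∈ Ω := hcb hx2
    have hC2 : ContDiffAt ℝ 2 u x2 := hu.contDiffAt (hΩ.mem_nhds hx2Ω)
    have hLu : HasLap u x2 _ (Δ u x2) :=
      ⟨hC2, (hC2.differentiableAt (by norm_num)).hasGradientAt, rfl⟩
    have hL := (hLu.sub (((hasLap_gauss a x0 x2).sub
      (hasLap_const (Real.exp (-a * R' ^ 2)) x2)).const_mul m)).neg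
    have hloc : IsLocalMax (fun x => -(u x - m * (Real.exp (-a * ‖x - x0‖ ^ 2)
        - Real.exp (-a * R' ^ 2)))) x2 := by
      filter_upwards [Metric.isOpen_ball.mem_nhds (Metric.mem_ball.2 hR2)] with x hx
      have : w x2 ≤ w x := hmin (Metric.ball_subset_closedBall hx)
      simp only [hw] at this
      linarith
    have h1 := laplacian_nonpos_of_isLocalMax hL.cd hloc
    rw [hL.lap] at h1
    have h2 := hs x2 hx2Ω
    have h3 : 0 < m * ((a ^ 2 * Real.exp (-a * ‖x2 - x0‖ ^ 2)) * ‖(2 : ℝ) • (x2 - x0)‖ ^ 2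
        + (-a * Real.exp (-a * ‖x2 - x0‖ ^ 2)) * (2 * d) - 0) := by
      refine mul_pos hm0 ?_
      rw [norm_smul, mul_pow, Real.norm_eq_abs]
      have e1 : r ^ 2 < ‖x2 - x0‖ ^ 2 := by
        rw [← dist_eq_norm]
        exact pow_lt_pow_left₀ hr2 hr.le (by norm_num)
      have e2 := Real.exp_pos (-a * ‖x2 - x0‖ ^ 2)
      have e3 : |(2 : ℝ)| ^ 2 = 4 := by norm_num
      rw [e3]
      have e4 : (a ^ 2 * Real.exp (-a * ‖x2 - x0‖ ^ 2)) * (4 * ‖x2 - x0‖ ^ 2)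
        + (-a * Real.exp (-a * ‖x2 - x0‖ ^ 2)) * (2 * d) - 0
        = 2 * a * Real.exp (-a * ‖x2 - x0‖ ^ 2) * (2 * a * ‖x2 - x0‖ ^ 2 - d) := by ring
      rw [e4]
      refine mul_pos (by positivity) ?_
      have : 2 * a * r ^ 2 < 2 * a * ‖x2 - x0‖ ^ 2 := by
        exact mul_lt_mul_of_pos_left e1 (by positivity)
      linarith
    linarith
  have h5 : w x2 ≤ w x1 := hmin (le_of_lt hR'1)
  have h6 : 0 ≤ w x1 := hw2.trans h5
  have h7 : 0 < m * (Real.exp (-a * ‖x1 - x0‖ ^ 2) - Real.exp (-a * R' ^ 2)) := by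
    refine mul_pos hm0 (sub_pos.2 (Real.exp_lt_exp.2 ?_))
    have : ‖x1 - x0‖ ^ 2 < R' ^ 2 := by
      rw [← dist_eq_norm]
      exact pow_lt_pow_left₀ hR'1 dist_nonneg (by norm_num)
    nlinarith
  simp only [hw] at h6
  linarith

theorem strong_max {Ω : Set E} (hΩ : IsOpen Ω) (hc : IsPreconnected Ω) {u : E → ℝ}
    (hu : ContDiffOn ℝ 2 u Ω) (h0 : ∀ x ∈ Ω, 0 ≤ u x) (hs : ∀ x ∈ Ω, Δ u x ≤ 0)
    (hp : ∃ x ∈ Ω, 0 < u x) : ∀ x ∈ Ω, 0 < u x := by
  intro y hy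
  by_contra hcon
  have hA : IsOpen {x | x ∈ Ω ∧ 0 < u x} := by
    rw [isOpen_iff_mem_nhds]
    rintro x ⟨hx, hux⟩
    obtain ⟨R, hR, hball⟩ := Metric.isOpen_iff.1 hΩ x hx
    filter_upwards [Metric.ball_mem_nhds x hR] with z hz
    exact ⟨hball hz, pos_on_ball hΩ hu h0 hs hball hux z hz⟩
  have hB : IsOpen {x | x ∈ Ω ∧ ¬ 0 < u x} := by
    rw [isOpen_iff_mem_nhds]
    rintro x ⟨hx, hux⟩
    obtain ⟨R, hR, hball⟩ := Metric.isOpen_iff.1 hΩ x hx
    filter_upwards [Metric.ball_mem_nhds x (half_pos hR)] with z hz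
    have hzΩ : z ∈ Ω := hball (Metric.ball_subset_ball (by linarith) hz)
    refine ⟨hzΩ, fun hz0 => hux ?_⟩
    refine pos_on_ball hΩ hu h0 hs (x0 := z) (R := R / 2) ?_ hz0 x ?_
    · refine (Metric.ball_subset_ball' ?_).trans hball
      have := Metric.mem_ball.1 hz
      linarith
    · rw [Metric.mem_ball, dist_comm]; exact hz
  obtain ⟨p, hpΩ, hpu⟩ := hp
  obtain ⟨z, -, hz1, hz2⟩ := hc _ _ hA hB (fun x hx => by
    by_cases h : 0 < u x
    · exact Or.inl ⟨hx, h⟩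
    · exact Or.inr ⟨hx, h⟩) ⟨p, hpΩ, hpΩ, hpu⟩ ⟨y, hy, hy, hcon⟩
  exact hz2.2 hz1.2

end General

end Pool.Agent.Lib.MP_3eb465_an
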