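import Pool.Agent.Lib.MP_3eb465_an.RegCore
import Pool.Agent.Lib.MP_3eb465_an.Kernel

/-!
Job J4 (second part): interior regularity of weak solutions of `-Δ u = h` in dimension five.
-/

namespace Pool.Agent.Lib.MP_3eb465_an

open MeasureTheory InnerProductSpace Laplacian Set Filter Topology
open scoped ContDiff RealInnerProductSpace

open RegPriv

variable {E : Type*} [NormedAddCommGroup E] [InnerProductSpace ℝ E] [FiniteDimensional ℝ E]
variable [MeasurableSpace E] [BorelSpace E]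

/-- stability of weak solutions under bounded pointwise convergence -/
theorem WeakEq.limit (hd : Module.finrank ℝ E = 5) {Ω : Set E} (hΩ : IsOpen Ω)
    {u h : ℕ → E → ℝ} {u' h' : E → ℝ} {M : ℝ}
    (hum : ∀ n, AEStronglyMeasurable (u n) volume) (hub : ∀ n x, |u n x| ≤ M)
    (huc : ∀ n, ContinuousOn (u n) Ω)
    (hhm : ∀ n, AEStronglyMeasurable (h n) volume) (hhb : ∀ n x, |h n x| ≤ M)
    (hw : ∀ n, WeakEq Ω (u n) (h n))
    (hu : ∀ x, Tendsto (fun n => u n x) atTop (𝓝 (u' x)))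
    (hh : ∀ x ∈ Ω, Tendsto (fun n => h n x) atTop (𝓝 (h' x))) :
    ContinuousOn u' Ω ∧ WeakEq Ω u' h' :=
  limit_aux (fun _ hρ => exists_parametrix hd hρ) hΩ hum hub huc hhm hhb hw hu hh

theorem WeakEq.contDiffOn_one (hd : Module.finrank ℝ E = 5) {Ω : Set E} (hΩ : IsOpen Ω)
    {u h : E → ℝ}
    (hum : AEStronglyMeasurable u volume) (hub : ∃ M : ℝ, ∀ x, |u x| ≤ M)
    (huc : ContinuousOn u Ω)
    (hhm : AEStronglyMeasurable h volume) (hhb : ∃ M : ℝ, ∀ x, |h x| ≤ M)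
    (hw : WeakEq Ω u h) : ContDiffOn ℝ 1 u Ω :=
  contDiffOn_one_aux (fun _ hρ => exists_parametrix hd hρ) hΩ hum hub huc hhm hhb hw

theorem WeakEq.classical (hd : Module.finrank ℝ E = 5) {Ω : Set E} (hΩ : IsOpen Ω)
    {u h : E → ℝ}
    (hum : AEStronglyMeasurable u volume) (hub : ∃ M : ℝ, ∀ x, |u x| ≤ M)
    (huc : ContinuousOn u Ω)
    (hhm : AEStronglyMeasurable h volume) (hhb : ∃ M : ℝ, ∀ x, |h x| ≤ M)
    (hh1 : ContDiffOn ℝ 1 h Ω)
    (hw : WeakEq Ω u h) : ContDiffOn ℝ 2 u Ω ∧ ∀ x ∈ Ω, -(Δ u x) = h x := by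
  have h2 := classical_aux (fun _ hρ => exists_parametrix hd hρ) hΩ hum hub huc hhm hhb hh1 hw
  exact ⟨h2, classical_eq_aux hΩ h2 hh1.continuousOn hw⟩

end Pool.Agent.Lib.MP_3eb465_an
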