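import Pool.Agent.Lib.MP_3eb465_an.Defs

namespace Pool.Agent.Lib.MP_3eb465_an

open MeasureTheory InnerProductSpace Laplacian Set Filter Topology ProbabilityTheory
open scoped ContDiff RealInnerProductSpace ENNReal BoundedContinuousFunction SchwartzMap

namespace Resolvent

/-- exponential weight in time -/
noncomputable def timeMeasure (lam : ℝ) : Measure ℝ :=
  (volume.restrict (Ioi 0)).withDensity (fun t => ENNReal.ofReal (Real.exp (-(lam * t))))

lemma integrableOn_exp {a : ℝ} (ha : 0 < a) :
    IntegrableOn (fun t => Real.exp (-(a * t))) (Ioi 0) := by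
  have := integrableOn_exp_mul_Ioi (a := -a) (by linarith) 0
  simpa [neg_mul] using this

lemma integral_exp {a : ℝ} (ha : 0 < a) :
    ∫ t in Ioi (0 : ℝ), Real.exp (-(a * t)) = 1 / a := by
  have := integral_exp_mul_Ioi (a := -a) (by linarith) 0
  simp only [neg_mul] at this
  rw [this]
  simp [neg_div_neg_eq]

lemma timeMeasure_univ {lam : ℝ} (hl : 0 < lam) :
    timeMeasure lam univ = ENNReal.ofReal (1 / lam) := by
  unfold timeMeasure
  rw [withDensity_apply _ MeasurableSet.univ, Measure.restrict_univ,
    ← ofReal_integral_eq_lintegral_ofReal (integrableOn_exp hl)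
      (Eventually.of_forall fun t => (Real.exp_pos _).le), integral_exp hl]

lemma isFiniteMeasure_timeMeasure {lam : ℝ} (hl : 0 < lam) :
    IsFiniteMeasure (timeMeasure lam) :=
  ⟨by rw [timeMeasure_univ hl]; exact ENNReal.ofReal_lt_top⟩

lemma integral_timeMeasure {lam : ℝ} (h : ℝ → ℂ) :
    ∫ t, h t ∂(timeMeasure lam) = ∫ t in Ioi (0 : ℝ), ((Real.exp (-(lam * t)) : ℝ) : ℂ) * h t := by
  unfold timeMeasure
  rw [integral_withDensity_eq_integral_toReal_smul (by fun_prop)
    (Eventually.of_forall fun t => ENNReal.ofReal_lt_top)]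
  refine integral_congr_ae (Eventually.of_forall fun t => ?_)
  simp [ENNReal.toReal_ofReal (Real.exp_pos _).le]

variable (E : Type*) [NormedAddCommGroup E] [InnerProductSpace ℝ E] [FiniteDimensional ℝ E]
  [MeasurableSpace E] [BorelSpace E]

/-- the resolvent kernel as a measure -/
noncomputable def resMeasure (lam : ℝ) : Measure E :=
  ((timeMeasure lam).prod (stdGaussian E)).map (fun p => √(2 * p.1) • p.2)

variable {E}

lemma measurable_mix : Measurable (fun p : ℝ × E => √(2 * p.1) • p.2) := by
  fun_prop

lemma resMeasure_univ {lam : ℝ} (hl : 0 < lam) :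
    resMeasure E lam univ = ENNReal.ofReal (1 / lam) := by
  have := isFiniteMeasure_timeMeasure hl
  unfold resMeasure
  rw [Measure.map_apply measurable_mix MeasurableSet.univ, preimage_univ, ← univ_prod_univ,
    Measure.prod_prod, timeMeasure_univ hl]
  simp

lemma isFiniteMeasure_resMeasure {lam : ℝ} (hl : 0 < lam) :
    IsFiniteMeasure (resMeasure E lam) :=
  ⟨by rw [resMeasure_univ hl]; exact ENNReal.ofReal_lt_top⟩

lemma charFun_resMeasure {lam : ℝ} (hl : 0 < lam) (ξ : E) :
    charFun (resMeasure E lam) ξ = ((1 / (lam + ‖ξ‖ ^ 2) : ℝ) : ℂ) := by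
  have := isFiniteMeasure_timeMeasure hl
  have hpos : 0 < lam + ‖ξ‖ ^ 2 := by positivity
  rw [charFun_apply, resMeasure, integral_map measurable_mix.aemeasurable
    (by fun_prop), integral_prod]
  · have h1 : ∀ t : ℝ, ∫ y, Complex.exp ((⟪√(2 * t) • y, ξ⟫ : ℝ) * Complex.I) ∂(stdGaussian E)
        = Complex.exp (-‖√(2 * t) • ξ‖ ^ 2 / 2) := by
      intro t
      rw [← charFun_stdGaussian, charFun_apply]
      refine integral_congr_ae (Eventually.of_forall fun y => ?_)
      simp [real_inner_smul_left, real_inner_smul_right]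
    simp only [h1]
    rw [integral_timeMeasure]
    rw [← integral_exp hpos, ← integral_complex_ofReal]
    refine setIntegral_congr_fun measurableSet_Ioi (fun t ht => ?_)
    have ht' : 0 < t := ht
    rw [norm_smul, Real.norm_eq_abs, abs_of_nonneg (Real.sqrt_nonneg _)]
    have h2 : ((-(((√(2 * t) * ‖ξ‖ : ℝ)) : ℂ) ^ 2 / 2) : ℂ) = ((-(t * ‖ξ‖ ^ 2) : ℝ) : ℂ) := by
      rw [← Complex.ofReal_pow, mul_pow, Real.sq_sqrt (by positivity)]
      push_cast
      ring
    rw [h2, ← Complex.ofReal_exp, ← Complex.ofReal_mul, ← Real.exp_add]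
    congr 2
    ring
  · refine Integrable.of_bound (by fun_prop) 1 (Eventually.of_forall fun p => ?_)
    rw [Complex.norm_exp_ofReal_mul_I]

open SchwartzMap FourierTransform in
lemma fourier_lap (lam : ℝ) (f : 𝓢(E, ℂ)) (ξ : E) :
    𝓕 ((lam : ℂ) • f - Δ f) ξ = ((lam + (2 * Real.pi) ^ 2 * ‖ξ‖ ^ 2 : ℝ) : ℂ) * 𝓕 f ξ := by
  have h1 : 𝓕 (Δ f) ξ = -(((2 * Real.pi) ^ 2 * ‖ξ‖ ^ 2 : ℝ) : ℂ) * 𝓕 f ξ := by
    have h2 : 𝓕 (Δ f) = -(2 * Real.pi) ^ 2 •
        (smulLeftCLM ℂ (‖·‖ ^ 2 : E → ℝ) (𝓕 f)) := by
      rw [laplacian_eq_fourierMultiplierCLM, fourierMultiplierCLM_apply,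
        FourierTransform.fourier_smul, FourierTransform.fourier_fourierInv_eq]
    rw [h2, _root_.smul_apply, smulLeftCLM_apply_apply (by fun_prop)]
    simp only [Complex.real_smul]
    push_cast
    ring
  rw [sub_eq_add_neg, FourierTransform.fourier_add, FourierTransform.fourier_smul,
    FourierTransform.fourier_neg, _root_.add_apply, _root_.smul_apply,
    _root_.neg_apply, h1]
  simp only [smul_eq_mul]
  push_cast
  ring

open SchwartzMap FourierTransform in
lemma key_complex {lam : ℝ} (hl : 0 < lam) (f : 𝓢(E, ℂ)) (z : E) :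
    ∫ y, ((lam : ℂ) • f - Δ f) (z - y) ∂(resMeasure E lam) = f z := by
  have := isFiniteMeasure_resMeasure (E := E) hl
  set g : 𝓢(E, ℂ) := (lam : ℂ) • f - Δ f with hg
  have hinv : ∀ (u : 𝓢(E, ℂ)) (w : E), u w =
      ∫ ξ : E, Complex.exp (((2 * Real.pi * ⟪ξ, w⟫ : ℝ) : ℂ) * Complex.I) * 𝓕 u ξ := by
    intro u w
    have h0 : 𝓕⁻ (𝓕 u) = u := FourierTransform.fourierInv_fourier_eq u
    conv_lhs => rw [← h0]
    rw [fourierInv_coe, Real.fourierInv_eq']
    simp [smul_eq_mul]
  have hchar : ∀ ξ : E, ∫ y, Complex.exp (((-(2 * Real.pi * ⟪ξ, y⟫) : ℝ) : ℂ) * Complex.I)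
      ∂(resMeasure E lam) = ((1 / (lam + (2 * Real.pi) ^ 2 * ‖ξ‖ ^ 2) : ℝ) : ℂ) := by
    intro ξ
    have h := charFun_resMeasure hl ((-(2 * Real.pi)) • ξ)
    rw [charFun_apply] at h
    rw [norm_smul, mul_pow, norm_neg, Real.norm_eq_abs, sq_abs] at h
    rw [← h]
    refine integral_congr_ae (Eventually.of_forall fun y => ?_)
    simp only [real_inner_smul_right, real_inner_comm]
    congr 2
    push_cast
    ring
  calc ∫ y, g (z - y) ∂(resMeasure E lam)
      = ∫ y, (∫ ξ : E, Complex.exp (((2 * Real.pi * ⟪ξ, z - y⟫ : ℝ) : ℂ) * Complex.I) * 𝓕 g ξ)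
          ∂(resMeasure E lam) := by
        refine integral_congr_ae (Eventually.of_forall fun y => ?_)
        exact hinv g (z - y)
    _ = ∫ ξ : E, ∫ y, Complex.exp (((2 * Real.pi * ⟪ξ, z - y⟫ : ℝ) : ℂ) * Complex.I) * 𝓕 g ξ
          ∂(resMeasure E lam) := by
        refine integral_integral_swap ?_
        have hbase : Integrable (fun p : E × E => (1 : ℝ) * ‖𝓕 g p.2‖)
            ((resMeasure E lam).prod volume) :=
          Integrable.mul_prod (integrable_const (1 : ℝ)) ((𝓕 g).integrable.norm)
        refine hbase.mono' ?_ (Eventually.of_forall fun p => ?_)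
        · refine Continuous.aestronglyMeasurable ?_
          simp only [Function.uncurry_def]
          have : Continuous (fun p : E × E => 𝓕 g p.2) := (𝓕 g).continuous.comp continuous_snd
          fun_prop
        · simp only [Function.uncurry_def, norm_mul, one_mul]
          rw [Complex.norm_exp_ofReal_mul_I, one_mul]
    _ = ∫ ξ : E, Complex.exp (((2 * Real.pi * ⟪ξ, z⟫ : ℝ) : ℂ) * Complex.I) * 𝓕 f ξ := by
        refine integral_congr_ae (Eventually.of_forall fun ξ => ?_)
        simp only
        rw [integral_mul_const]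
        have h3 : ∫ y, Complex.exp (((2 * Real.pi * ⟪ξ, z - y⟫ : ℝ) : ℂ) * Complex.I)
            ∂(resMeasure E lam) = Complex.exp (((2 * Real.pi * ⟪ξ, z⟫ : ℝ) : ℂ) * Complex.I) *
              ((1 / (lam + (2 * Real.pi) ^ 2 * ‖ξ‖ ^ 2) : ℝ) : ℂ) := by
          rw [← hchar ξ, ← integral_const_mul]
          refine integral_congr_ae (Eventually.of_forall fun y => ?_)
          simp only
          rw [← Complex.exp_add, inner_sub_right]
          congr 1
          push_cast
          ring
        rw [h3, hg, fourier_lap]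
        have hpos : (0 : ℝ) < lam + (2 * Real.pi) ^ 2 * ‖ξ‖ ^ 2 := by positivity
        have hne : ((lam + (2 * Real.pi) ^ 2 * ‖ξ‖ ^ 2 : ℝ) : ℂ) ≠ 0 := by
          exact_mod_cast hpos.ne'
        rw [mul_assoc, ← mul_assoc (((1 / (lam + (2 * Real.pi) ^ 2 * ‖ξ‖ ^ 2) : ℝ)) : ℂ)]
        rw [← Complex.ofReal_mul, one_div_mul_cancel hpos.ne']
        simp
    _ = f z := (hinv f z).symm


lemma key_real {lam : ℝ} (hl : 0 < lam) {φ : E → ℝ} (hφ : ContDiff ℝ ∞ φ)
    (hc : HasCompactSupport φ) (z : E) :
    ∫ y, (lam * φ (z - y) - Δ φ (z - y)) ∂(resMeasure E lam) = φ z := by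
  have h1 : HasCompactSupport (fun x => (φ x : ℂ)) := hc.comp_left Complex.ofReal_zero
  have h2 : ContDiff ℝ ∞ (fun x => (φ x : ℂ)) := Complex.ofRealCLM.contDiff.comp hφ
  set F : 𝓢(E, ℂ) := h1.toSchwartzMap h2 with hF
  have hFx : ∀ x, F x = (φ x : ℂ) := fun x => rfl
  have hLx : ∀ x, (Δ F) x = ((Δ φ x : ℝ) : ℂ) := by
    intro x
    rw [SchwartzMap.laplacian_apply]
    have h3 : (F : E → ℂ) = Complex.ofRealCLM ∘ φ := by
      ext x; rw [hFx]; rfl
    rw [h3]
    have h4 : ContDiffAt ℝ 2 φ x := (hφ.of_le (by norm_cast)).contDiffAt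
    rw [h4.laplacian_CLM_comp_left]
    rfl
  have h := key_complex hl F z
  have h5 : ∀ y, ((lam : ℂ) • F - Δ F) (z - y) = ((lam * φ (z - y) - Δ φ (z - y) : ℝ) : ℂ) := by
    intro y
    rw [_root_.sub_apply, _root_.smul_apply, hFx, hLx]
    simp
  simp only [h5] at h
  rw [integral_complex_ofReal, hFx] at h
  exact_mod_cast h

end Resolvent

open Resolvent in
/-- resolvent `(-Δ + lam)⁻¹` on bounded continuous functions -/
theorem exists_resolvent (E : Type*) [NormedAddCommGroup E] [InnerProductSpace ℝ E]
    [FiniteDimensional ℝ E] [MeasurableSpace E] [BorelSpace E] {lam : ℝ} (hl : 0 < lam) :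
    ∃ G : (E →ᵇ ℝ) →ₗ[ℝ] (E →ᵇ ℝ), (∀ q, 0 ≤ q → 0 ≤ G q) ∧ (∀ q, ‖G q‖ ≤ ‖q‖ / lam) ∧
      ∀ q, WeakEq univ (G q) (fun x => q x - lam * G q x) := by
  have hfin := isFiniteMeasure_resMeasure (E := E) hl
  have hmass : (resMeasure E lam).real univ = 1 / lam := by
    rw [Measure.real, resMeasure_univ hl, ENNReal.toReal_ofReal (by positivity)]
  have hint : ∀ (q : E →ᵇ ℝ) (x : E), Integrable (fun y => q (x + y)) (resMeasure E lam) := by
    intro q x
    refine Integrable.of_bound (by fun_prop) ‖q‖ (Eventually.of_forall fun y => ?_)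
    exact q.norm_coe_le_norm _
  have hbound : ∀ (q : E →ᵇ ℝ) (x : E), ‖∫ y, q (x + y) ∂(resMeasure E lam)‖ ≤ ‖q‖ / lam := by
    intro q x
    have := norm_integral_le_of_norm_le_const (μ := resMeasure E lam)
      (Eventually.of_forall fun y => q.norm_coe_le_norm (x + y))
    rw [hmass] at this
    rwa [mul_one_div] at this
  have hcont : ∀ q : E →ᵇ ℝ, Continuous (fun x => ∫ y, q (x + y) ∂(resMeasure E lam)) := by
    intro q
    refine continuous_of_dominated (bound := fun _ => ‖q‖) (fun x => (hint q x).1)
      (fun x => Eventually.of_forall fun y => q.norm_coe_le_norm _) (integrable_const _)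
      (Eventually.of_forall fun y => by fun_prop)
  let G : (E →ᵇ ℝ) →ₗ[ℝ] (E →ᵇ ℝ) :=
    { toFun := fun q => BoundedContinuousFunction.ofNormedAddCommGroup
        (fun x => ∫ y, q (x + y) ∂(resMeasure E lam)) (hcont q) (‖q‖ / lam) (hbound q)
      map_add' := by
        intro q r
        ext x
        simp only [BoundedContinuousFunction.coe_ofNormedAddCommGroup,
          BoundedContinuousFunction.coe_add, Pi.add_apply]
        exact integral_add (hint q x) (hint r x)
      map_smul' := by
        intro c q
        ext x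
        simp only [BoundedContinuousFunction.coe_ofNormedAddCommGroup,
          BoundedContinuousFunction.coe_smul, smul_eq_mul, RingHom.id_apply]
        exact integral_const_mul c _ }
  have hG : ∀ q x, G q x = ∫ y, q (x + y) ∂(resMeasure E lam) := fun q x => rfl
  refine ⟨G, ?_, ?_, ?_⟩
  · intro q hq x
    change (0 : ℝ) ≤ G q x
    rw [hG]
    exact integral_nonneg fun y => hq (x + y)
  · intro q
    refine (BoundedContinuousFunction.norm_le (by positivity)).2 fun x => ?_
    rw [hG]
    exact hbound q x
  · intro q φ hφ hc _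
    set F : 𝓢(E, ℝ) := hc.toSchwartzMap hφ with hF
    have hFx : ∀ x, F x = φ x := fun x => rfl
    have hLx : ∀ x, (Δ F) x = Δ φ x := fun x => by
      rw [SchwartzMap.laplacian_apply]; rfl
    set ψ : 𝓢(E, ℝ) := lam • F - Δ F with hψ
    have hψx : ∀ x, ψ x = lam * φ x - Δ φ x := fun x => by
      rw [hψ, _root_.sub_apply, _root_.smul_apply, hFx, hLx, smul_eq_mul]
    have hkey : ∀ z, ∫ y, ψ (z - y) ∂(resMeasure E lam) = φ z := by
      intro z
      simp only [hψx]
      exact key_real hl hφ hc z
    have hψc : Continuous ψ := ψ.continuous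
    have hψi : Integrable ψ := ψ.integrable
    -- main identity
    have hmain : ∫ x, G q x * ψ x = ∫ x, q x * φ x := by
      calc ∫ x, G q x * ψ x
          = ∫ x, (∫ y, q (x + y) * ψ x ∂(resMeasure E lam)) := by
            refine integral_congr_ae (Eventually.of_forall fun x => ?_)
            simp only
            rw [hG, integral_mul_const]
        _ = ∫ y, (∫ x, q (x + y) * ψ x) ∂(resMeasure E lam) := by
            refine integral_integral_swap ?_
            have hbase : Integrable (fun p : E × E => ‖ψ p.1‖ * ‖q‖)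
                (volume.prod (resMeasure E lam)) :=
              Integrable.mul_prod hψi.norm (integrable_const ‖q‖)
            refine hbase.mono' ?_ (Eventually.of_forall fun p => ?_)
            · refine Continuous.aestronglyMeasurable ?_
              simp only [Function.uncurry_def]
              fun_prop
            · simp only [Function.uncurry_def, norm_mul]
              rw [mul_comm]
              exact mul_le_mul_of_nonneg_left (q.norm_coe_le_norm _) (norm_nonneg _)
        _ = ∫ y, (∫ z, q z * ψ (z - y)) ∂(resMeasure E lam) := by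
            refine integral_congr_ae (Eventually.of_forall fun y => ?_)
            simp only
            rw [← integral_add_right_eq_self (fun z => q z * ψ (z - y)) y]
            simp
        _ = ∫ z, (∫ y, q z * ψ (z - y) ∂(resMeasure E lam)) := by
            refine integral_integral_swap ?_
            have hmeas : AEStronglyMeasurable (Function.uncurry fun y z => q z * ψ (z - y))
                ((resMeasure E lam).prod volume) := by
              refine Continuous.aestronglyMeasurable ?_
              simp only [Function.uncurry_def]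
              fun_prop
            refine (integrable_prod_iff hmeas).2 ⟨Eventually.of_forall fun y => ?_, ?_⟩
            · simp only [Function.uncurry_def]
              refine Integrable.bdd_mul (c := ‖q‖) (hψi.comp_sub_right y)
                q.continuous.aestronglyMeasurable (Eventually.of_forall q.norm_coe_le_norm)
            · refine Integrable.of_bound hmeas.norm.integral_prod_right'
                (‖q‖ * ∫ z, ‖ψ z‖) (Eventually.of_forall fun y => ?_)
              rw [Real.norm_of_nonneg (integral_nonneg fun z => norm_nonneg _)]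
              have h6 : ∫ z, ‖ψ z‖ = ∫ z, ‖ψ (z - y)‖ :=
                (integral_sub_right_eq_self (fun z => ‖ψ z‖) y).symm
              rw [h6, ← integral_const_mul]
              refine integral_mono_of_nonneg (Eventually.of_forall fun z => norm_nonneg _)
                ((hψi.comp_sub_right y).norm.const_mul _) (Eventually.of_forall fun z => ?_)
              simp only [Function.uncurry_def, norm_mul]
              exact mul_le_mul_of_nonneg_right (q.norm_coe_le_norm _) (norm_nonneg _)
        _ = ∫ z, q z * φ z := by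
            refine integral_congr_ae (Eventually.of_forall fun z => ?_)
            simp only
            rw [integral_const_mul, hkey]
    have hi1 : Integrable (fun x => G q x * φ x) :=
      Integrable.bdd_mul (c := ‖G q‖) F.integrable (G q).continuous.aestronglyMeasurable
        (Eventually.of_forall (G q).norm_coe_le_norm)
    have hi2 : Integrable (fun x => G q x * Δ φ x) := by
      have hLi : Integrable (fun x => (Δ F) x) volume := (Δ F : 𝓢(E, ℝ)).integrable
      have := Integrable.bdd_mul (c := ‖G q‖) hLi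
        (G q).continuous.aestronglyMeasurable (Eventually.of_forall (G q).norm_coe_le_norm)
      simpa only [hLx] using this
    have hi3 : Integrable (fun x => q x * φ x) :=
      Integrable.bdd_mul (c := ‖q‖) F.integrable q.continuous.aestronglyMeasurable
        (Eventually.of_forall q.norm_coe_le_norm)
    have e1 : ∫ x, G q x * ψ x = lam * (∫ x, G q x * φ x) - ∫ x, G q x * Δ φ x := by
      rw [← integral_const_mul, ← integral_sub (hi1.const_mul lam) hi2]
      refine integral_congr_ae (Eventually.of_forall fun x => ?_)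
      simp only
      rw [hψx]
      ring
    have e2 : ∫ x, G q x * (-(Δ φ x)) = -∫ x, G q x * Δ φ x := by
      rw [← integral_neg]
      refine integral_congr_ae (Eventually.of_forall fun x => ?_)
      simp only
      ring
    have e3 : ∫ x, (q x - lam * G q x) * φ x = (∫ x, q x * φ x) - lam * ∫ x, G q x * φ x := by
      rw [← integral_const_mul, ← integral_sub hi3 (hi1.const_mul lam)]
      refine integral_congr_ae (Eventually.of_forall fun x => ?_)
      simp only
      ring
    rw [e2, e3, ← hmain, e1]
    ring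

end Pool.Agent.Lib.MP_3eb465_an
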