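import Pool.Agent.Lib.MP_3eb465_an.Calc
import Pool.Agent.Lib.MP_3eb465_an.MaxPrin
import Pool.Agent.Lib.MP_3eb465_an.Reg
import Pool.Agent.Lib.MP_3eb465_an.Resolvent

/-!
The linear Dirichlet problem on `{0 < b}` by penalisation on the whole space.
-/

namespace Pool.Agent.Lib.MP_3eb465_an

open MeasureTheory InnerProductSpace Laplacian Set Filter Topology
open scoped ContDiff RealInnerProductSpace BoundedContinuousFunction

section Linear

variable {E : Type*} [NormedAddCommGroup E] [InnerProductSpace ℝ E] [FiniteDimensional ℝ E]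

theorem laplacian_eq_zero_of_notMem_tsupport {φ : E → ℝ} {x : E} (hx : x ∉ tsupport φ) :
    Δ φ x = 0 := by
  have h : φ =ᶠ[𝓝 x] fun _ => (0 : ℝ) := notMem_tsupport_iff_eventuallyEq.mp hx
  rw [(laplacian_congr_nhds h).eq_of_nhds]
  simp

theorem hasCompactSupport_laplacian {φ : E → ℝ} (h : HasCompactSupport φ) :
    HasCompactSupport (fun x => -(Δ φ x)) := by
  refine HasCompactSupport.of_support_subset_isCompact h ?_
  intro x hx
  by_contra hx'
  exact hx (by simp [laplacian_eq_zero_of_notMem_tsupport hx'])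

theorem continuous_laplacian {φ : E → ℝ} (h : ContDiff ℝ 2 φ) : Continuous (Δ φ) := by
  have := continuousOn_laplacian (s := univ) isOpen_univ (f := φ) h.contDiffOn
  exact continuousOn_univ.mp this

variable [MeasurableSpace E] [BorelSpace E]

theorem weakEq_sub {Ω : Set E} {u h u' h' : E → ℝ} (hu : Continuous u) (hh : Continuous h)
    (hu' : Continuous u') (hh' : Continuous h') (hw : WeakEq Ω u h) (hw' : WeakEq Ω u' h') :
    WeakEq Ω (fun x => u x - u' x) (fun x => h x - h' x) := by
  intro φ hφ hc hs
  have hL : Continuous (fun x => -(Δ φ x)) :=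
    (continuous_laplacian (contDiff_infty.mp hφ 2)).neg
  have hLc := hasCompactSupport_laplacian hc
  have i1 : Integrable (fun x => u x * (-(Δ φ x))) :=
    (hu.mul hL).integrable_of_hasCompactSupport hLc.mul_left
  have i2 : Integrable (fun x => u' x * (-(Δ φ x))) :=
    (hu'.mul hL).integrable_of_hasCompactSupport hLc.mul_left
  have i3 : Integrable (fun x => h x * φ x) :=
    (hh.mul hφ.continuous).integrable_of_hasCompactSupport hc.mul_left
  have i4 : Integrable (fun x => h' x * φ x) :=
    (hh'.mul hφ.continuous).integrable_of_hasCompactSupport hc.mul_left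
  have e1 := hw φ hφ hc hs
  have e2 := hw' φ hφ hc hs
  calc ∫ x, (u x - u' x) * (-(Δ φ x))
      = ∫ x, (u x * (-(Δ φ x)) - u' x * (-(Δ φ x))) := by
        congr 1; ext x; ring
    _ = (∫ x, h x * φ x) - ∫ x, h' x * φ x := by rw [integral_sub i1 i2, e1, e2]
    _ = ∫ x, (h x - h' x) * φ x := by
        rw [← integral_sub i3 i4]; congr 1; ext x; ring

theorem weakEq_neg {Ω : Set E} {u h : E → ℝ} (hw : WeakEq Ω u h) :
    WeakEq Ω (fun x => - u x) (fun x => - h x) := by
  intro φ hφ hc hs
  have e1 := hw φ hφ hc hs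
  have : ∫ x, (- u x) * (-(Δ φ x)) = - ∫ x, u x * (-(Δ φ x)) := by
    rw [← integral_neg]; congr 1; ext x; ring
  rw [this, e1, ← integral_neg]; congr 1; ext x; ring

/-- replace the right-hand side by an equal one -/
theorem weakEq_rhs {Ω : Set E} {u h h' : E → ℝ} (hw : WeakEq Ω u h) (he : ∀ x, h x = h' x) :
    WeakEq Ω u h' := by
  have : h = h' := funext he
  rwa [this] at hw

theorem liouville_le (hd : Module.finrank ℝ E = 5) {lam : ℝ} (hl : 0 < lam) (e : E → ℝ)
    (hc : Continuous e) {M : ℝ} (hM : ∀ x, |e x| ≤ M)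
    (he : WeakEq univ e (fun x => -(lam * e x))) : ∀ x, e x ≤ 0 := by
  have hhm : AEStronglyMeasurable (fun x => -(lam * e x)) (volume : Measure E) :=
    (continuous_const.mul hc).neg.aestronglyMeasurable
  have hhb : ∃ M : ℝ, ∀ x, |-(lam * e x)| ≤ M := by
    refine ⟨lam * M, fun x => ?_⟩
    rw [abs_neg, abs_mul, abs_of_pos hl]
    exact mul_le_mul_of_nonneg_left (hM x) hl.le
  have h1 : ContDiffOn ℝ 1 e univ := WeakEq.contDiffOn_one hd isOpen_univ
    hc.aestronglyMeasurable ⟨M, hM⟩ hc.continuousOn hhm hhb he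
  obtain ⟨h2, h3⟩ := WeakEq.classical hd isOpen_univ
    hc.aestronglyMeasurable ⟨M, hM⟩ hc.continuousOn hhm hhb
    ((contDiffOn_const.mul h1).neg) he
  intro x
  refine comparison hl isOpen_univ (u := e) hc.continuousOn
    ⟨M, fun x _ => le_trans (le_abs_self _) (hM x)⟩ (by simp) ?_ x (mem_univ x)
  intro y hy _
  refine ⟨h2.contDiffAt univ_mem, ?_⟩
  have := h3 y hy
  linarith

theorem liouville (hd : Module.finrank ℝ E = 5) {lam : ℝ} (hl : 0 < lam) (e : E → ℝ)
    (hc : Continuous e) {M : ℝ} (hM : ∀ x, |e x| ≤ M)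
    (he : WeakEq univ e (fun x => -(lam * e x))) : ∀ x, e x = 0 := by
  intro x
  refine le_antisymm (liouville_le hd hl e hc hM he x) ?_
  have h := liouville_le hd hl (fun x => - e x) hc.neg (M := M) (by simpa using hM)
    (weakEq_rhs (weakEq_neg he) (fun x => by ring)) x
  linarith

/-- comparison on the whole space for bounded continuous weak solutions -/
theorem whole_le (hd : Module.finrank ℝ E = 5) {K : ℝ} (hK : 0 < K) (V q e : E →ᵇ ℝ)
    (hV : ∀ x, 0 ≤ V x) (hq : ∀ x, q x ≤ 0)
    (he : WeakEq univ e (fun x => q x - (K + V x) * e x)) : ∀ x, e x ≤ 0 := by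
  set L : ℝ := ‖V‖ with hL
  have hL0 : 0 ≤ L := norm_nonneg _
  have hVL : ∀ x, V x ≤ L := fun x => le_trans (le_abs_self _) (V.norm_coe_le_norm x)
  have hlam : 0 < K + L := by positivity
  obtain ⟨G, hG0, hGn, hGw⟩ := exists_resolvent E hlam
  have hGmono : ∀ q₁ q₂ : E →ᵇ ℝ, (∀ x, q₁ x ≤ q₂ x) → ∀ x, G q₁ x ≤ G q₂ x := by
    intro q₁ q₂ h x
    have h' : 0 ≤ G (q₂ - q₁) := hG0 _ (by
      intro y
      have := h y
      simpa using this)
    have h'' := h' x
    rw [map_sub] at h''
    simpa using h''
  -- the representation of `e`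
  set q' : E →ᵇ ℝ := q + (BoundedContinuousFunction.const E L - V) * e with hq'
  have hrep : ∀ x, e x = G q' x := by
    intro x
    have hw : WeakEq univ (fun x => e x - G q' x)
        (fun x => (q x - (K + V x) * e x) - (q' x - (K + L) * G q' x)) :=
      weakEq_sub e.continuous
        (q.continuous.sub ((continuous_const.add V.continuous).mul e.continuous))
        (G q').continuous
        (q'.continuous.sub (continuous_const.mul (G q').continuous)) he (hGw q')
    have hw' : WeakEq univ (fun x => e x - G q' x)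
        (fun x => -((K + L) * (e x - G q' x))) := by
      refine weakEq_rhs hw (fun x => ?_)
      simp only [hq', BoundedContinuousFunction.coe_add, BoundedContinuousFunction.coe_mul,
        BoundedContinuousFunction.coe_sub, Pi.add_apply, Pi.mul_apply, Pi.sub_apply,
        BoundedContinuousFunction.const_apply]
      ring
    have := liouville hd hlam (fun x => e x - G q' x)
      (e.continuous.sub (G q').continuous) (M := ‖e‖ + ‖G q'‖) (by
        intro y
        have h1 := e.norm_coe_le_norm y
        have h2 := (G q').norm_coe_le_norm y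
        rw [Real.norm_eq_abs] at h1 h2
        calc |e y - G q' y| ≤ |e y| + |G q' y| := abs_sub _ _
          _ ≤ _ := add_le_add h1 h2) hw' x
    linarith
  -- the supremum of the positive part
  by_contra hcon
  push Not at hcon
  obtain ⟨x₀, hx₀⟩ := hcon
  have hbdd : BddAbove (range fun x => e x) := by
    refine ⟨‖e‖, ?_⟩
    rintro _ ⟨x, rfl⟩
    exact le_trans (le_abs_self _) (e.norm_coe_le_norm x)
  set s : ℝ := ⨆ x, e x with hs
  have hs0 : 0 < s := lt_of_lt_of_le hx₀ (le_ciSup hbdd x₀)
  have hes : ∀ x, e x ≤ s := fun x => le_ciSup hbdd x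
  -- bound for `q'`
  have hq's : ∀ x, q' x ≤ L * s := by
    intro x
    have h1 := hq x
    have h2 := hVL x
    have h3 := hV x
    have h4 := hes x
    simp only [hq', BoundedContinuousFunction.coe_add, BoundedContinuousFunction.coe_mul,
        BoundedContinuousFunction.coe_sub, Pi.add_apply, Pi.mul_apply, Pi.sub_apply,
        BoundedContinuousFunction.const_apply]
    have : (L - V x) * e x ≤ L * s := by
      calc (L - V x) * e x ≤ (L - V x) * s := mul_le_mul_of_nonneg_left h4 (by linarith)
        _ ≤ L * s := mul_le_mul_of_nonneg_right (by linarith) hs0.le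
    linarith
  have hGs : ∀ x, e x ≤ L * s / (K + L) := by
    intro x
    rw [hrep x]
    have h1 := hGmono q' (BoundedContinuousFunction.const E (L * s)) (by simpa using hq's) x
    have h2 : G (BoundedContinuousFunction.const E (L * s)) x ≤
        ‖G (BoundedContinuousFunction.const E (L * s))‖ :=
      le_trans (Real.le_norm_self _) (BoundedContinuousFunction.norm_coe_le_norm _ x)
    have h3 := hGn (BoundedContinuousFunction.const E (L * s))
    have h4 : ‖BoundedContinuousFunction.const E (L * s)‖ ≤ L * s := by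
      refine (BoundedContinuousFunction.norm_const_le _).trans ?_
      rw [Real.norm_eq_abs, abs_of_nonneg (by positivity)]
    have h5 : ‖BoundedContinuousFunction.const E (L * s)‖ / (K + L) ≤ L * s / (K + L) :=
      div_le_div_of_nonneg_right h4 hlam.le
    linarith
  have hfin : s ≤ L * s / (K + L) := by
    have : Nonempty E := ⟨x₀⟩
    exact ciSup_le hGs
  rw [le_div_iff₀ hlam] at hfin
  nlinarith [mul_pos hs0 hK]

/-- existence on the whole space -/
theorem whole_exists {K : ℝ} (hK : 0 < K) (V q : E →ᵇ ℝ)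
    (hV : ∀ x, 0 ≤ V x) :
    ∃ w : E →ᵇ ℝ, WeakEq univ w (fun x => q x - (K + V x) * w x) := by
  set L : ℝ := ‖V‖ with hL
  have hL0 : 0 ≤ L := norm_nonneg _
  have hVL : ∀ x, V x ≤ L := fun x => le_trans (le_abs_self _) (V.norm_coe_le_norm x)
  have hlam : 0 < K + L := by positivity
  obtain ⟨G, hG0, hGn, hGw⟩ := exists_resolvent E hlam
  set T : (E →ᵇ ℝ) → (E →ᵇ ℝ) :=
    fun w => G (q + (BoundedContinuousFunction.const E L - V) * w) with hT
  have hcontr : ContractingWith (Real.toNNReal (L / (K + L))) T := by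
    constructor
    · rw [← NNReal.coe_lt_coe, Real.coe_toNNReal _ (by positivity), NNReal.coe_one,
        div_lt_one hlam]
      linarith
    · refine LipschitzWith.of_dist_le_mul (fun w₁ w₂ => ?_)
      rw [Real.coe_toNNReal _ (by positivity), dist_eq_norm, dist_eq_norm, hT]
      simp only
      rw [← map_sub]
      refine (hGn _).trans ?_
      have : q + (BoundedContinuousFunction.const E L - V) * w₁ -
          (q + (BoundedContinuousFunction.const E L - V) * w₂) =
          (BoundedContinuousFunction.const E L - V) * (w₁ - w₂) := by ring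
      rw [this]
      have h1 : ‖(BoundedContinuousFunction.const E L - V) * (w₁ - w₂)‖ ≤ L * ‖w₁ - w₂‖ := by
        refine (norm_mul_le _ _).trans ?_
        refine mul_le_mul_of_nonneg_right ?_ (norm_nonneg _)
        refine (BoundedContinuousFunction.norm_le hL0).mpr (fun x => ?_)
        rw [Real.norm_eq_abs, abs_le]
        simp only [BoundedContinuousFunction.coe_sub, Pi.sub_apply,
          BoundedContinuousFunction.const_apply]
        constructor
        · linarith [hVL x, hV x]
        · linarith [hVL x, hV x]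
      calc ‖(BoundedContinuousFunction.const E L - V) * (w₁ - w₂)‖ / (K + L)
          ≤ (L * ‖w₁ - w₂‖) / (K + L) := div_le_div_of_nonneg_right h1 hlam.le
        _ = L / (K + L) * ‖w₁ - w₂‖ := by ring
  refine ⟨hcontr.fixedPoint, ?_⟩
  set w := hcontr.fixedPoint with hw
  have hfix : T w = w := hcontr.fixedPoint_isFixedPt
  have h := hGw (q + (BoundedContinuousFunction.const E L - V) * w)
  have h2 : G (q + (BoundedContinuousFunction.const E L - V) * w) = w := hfix
  rw [h2] at h
  refine weakEq_rhs h (fun x => ?_)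
  simp only [BoundedContinuousFunction.coe_add, BoundedContinuousFunction.coe_mul,
        BoundedContinuousFunction.coe_sub, Pi.add_apply, Pi.mul_apply, Pi.sub_apply,
        BoundedContinuousFunction.const_apply]
  ring

/-! ### the penalised problems -/

/-- the penalisation potential -/
noncomputable def penV (b : E → ℝ) (x : E) : ℝ := min 1 (max 0 (-(b x)))

omit [NormedAddCommGroup E] [InnerProductSpace ℝ E] [FiniteDimensional ℝ E]
  [MeasurableSpace E] [BorelSpace E] in
theorem penV_nonneg (b : E → ℝ) (x : E) : 0 ≤ penV b x :=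
  le_min zero_le_one (le_max_left _ _)

omit [NormedAddCommGroup E] [InnerProductSpace ℝ E] [FiniteDimensional ℝ E]
  [MeasurableSpace E] [BorelSpace E] in
theorem penV_le_one (b : E → ℝ) (x : E) : penV b x ≤ 1 := min_le_left _ _

omit [NormedAddCommGroup E] [InnerProductSpace ℝ E] [FiniteDimensional ℝ E]
  [MeasurableSpace E] [BorelSpace E] in
theorem penV_eq_zero {b : E → ℝ} {x : E} (h : 0 ≤ b x) : penV b x = 0 := by
  have : max 0 (-(b x)) = 0 := max_eq_left (by linarith)
  rw [penV, this]; exact min_eq_right zero_le_one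

omit [NormedAddCommGroup E] [InnerProductSpace ℝ E] [FiniteDimensional ℝ E]
  [MeasurableSpace E] [BorelSpace E] in
theorem penV_ge {b : E → ℝ} {x : E} {t : ℝ} (h : b x ≤ -t) : min 1 t ≤ penV b x := by
  refine min_le_min le_rfl ?_
  exact le_trans (by linarith) (le_max_right _ _)

omit [InnerProductSpace ℝ E] [FiniteDimensional ℝ E] [MeasurableSpace E] [BorelSpace E] in
theorem continuous_penV {b : E → ℝ} (hb : Continuous b) : Continuous (penV b) :=
  continuous_const.min (continuous_const.max hb.neg)

/-- the penalisation potential as a bounded continuous function -/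
noncomputable def penVb (b : E → ℝ) (hb : Continuous b) (n : ℕ) : E →ᵇ ℝ :=
  BoundedContinuousFunction.ofNormedAddCommGroup (fun x => n * penV b x)
    (continuous_const.mul (continuous_penV hb)) n (by
      intro x
      rw [Real.norm_eq_abs, abs_of_nonneg (mul_nonneg n.cast_nonneg (penV_nonneg b x))]
      exact mul_le_of_le_one_right n.cast_nonneg (penV_le_one b x))

omit [InnerProductSpace ℝ E] [FiniteDimensional ℝ E] [MeasurableSpace E] [BorelSpace E] in
@[simp] theorem penVb_apply (b : E → ℝ) (hb : Continuous b) (n : ℕ) (x : E) :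
    penVb b hb n x = n * penV b x := rfl

/-- the barrier function used for the penalised problem -/
noncomputable def pbeta (b : E → ℝ) (C d t : ℝ) (x : E) : ℝ :=
  C * (d + b x * Real.smoothTransition (2 * (b x) / t + 2))


omit [MeasurableSpace E] [BorelSpace E] in
theorem hasLap_of_contDiff {f : E → ℝ} (hf : ContDiff ℝ 2 f) (x : E) :
    HasLap f x (gradient f x) (Δ f x) :=
  ⟨hf.contDiffAt, (hf.differentiable (by norm_num) x).hasGradientAt, rfl⟩

omit [MeasurableSpace E] [BorelSpace E] in
theorem norm_gradient_eq {f : E → ℝ} (x : E) : ‖gradient f x‖ = ‖fderiv ℝ f x‖ := by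
  unfold gradient
  exact LinearIsometryEquiv.norm_map _ _

theorem contDiff_cut (t : ℝ) :
    ContDiff ℝ ∞ (fun s : ℝ => s * Real.smoothTransition (2 * s / t + 2)) := by
  refine contDiff_id.mul (Real.smoothTransition.contDiff.comp ?_)
  exact ((contDiff_const.mul contDiff_id).div_const _).add contDiff_const

omit [FiniteDimensional ℝ E] [MeasurableSpace E] [BorelSpace E] in
theorem contDiff_pbeta {b : E → ℝ} (hb : ContDiff ℝ 2 b) (C d t : ℝ) :
    ContDiff ℝ 2 (pbeta b C d t) := by
  have h : ContDiff ℝ 2 (fun x => b x * Real.smoothTransition (2 * (b x) / t + 2)) :=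
    (contDiff_infty.mp (contDiff_cut t) 2).comp hb
  exact contDiff_const.mul (contDiff_const.add h)

omit [MeasurableSpace E] [BorelSpace E] in
theorem laplacian_pbeta_bdd {K : ℝ} {b : E → ℝ} (hb : IsBarrier K b) (C d t : ℝ) :
    ∃ A : ℝ, ∀ x, |Δ (pbeta b C d t) x| ≤ A := by
  obtain ⟨M₀, h0⟩ := hb.bdd
  obtain ⟨M₁, h1⟩ := hb.grad
  obtain ⟨M₂, h2⟩ := hb.lap
  set φ : ℝ → ℝ := fun s => s * Real.smoothTransition (2 * s / t + 2) with hφ
  have hφs : ContDiff ℝ ∞ φ := contDiff_cut t
  have hφ1 : ContDiff ℝ ∞ (deriv φ) := (contDiff_infty_iff_deriv.mp hφs).2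
  have hφ2 : ContDiff ℝ ∞ (deriv (deriv φ)) := (contDiff_infty_iff_deriv.mp hφ1).2
  obtain ⟨B₁, hB₁⟩ := (isCompact_Icc (a := -M₀) (b := M₀)).exists_bound_of_continuousOn
    hφ1.continuous.continuousOn
  obtain ⟨B₂, hB₂⟩ := (isCompact_Icc (a := -M₀) (b := M₀)).exists_bound_of_continuousOn
    hφ2.continuous.continuousOn
  refine ⟨|C| * (B₂ * M₁ ^ 2 + B₁ * M₂), fun x => ?_⟩
  have hL := (hasLap_of_contDiff hb.smooth x).comp (φ := φ)
    (contDiff_infty.mp hφs 2).contDiffAt rfl rfl
  have hL2 := ((hasLap_const d x).add hL).const_mul C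
  have e1 : Δ (pbeta b C d t) x = C * (0 + (deriv (deriv φ) (b x) * ‖gradient b x‖ ^ 2 +
      deriv φ (b x) * Δ b x)) := hL2.lap
  rw [e1, abs_mul, zero_add]
  have hbx : b x ∈ Icc (-M₀) M₀ := abs_le.mp (h0 x)
  have k1 := hB₁ _ hbx
  have k2 := hB₂ _ hbx
  rw [Real.norm_eq_abs] at k1 k2
  have hB1n : 0 ≤ B₁ := (abs_nonneg _).trans k1
  have hB2n : 0 ≤ B₂ := (abs_nonneg _).trans k2
  refine mul_le_mul_of_nonneg_left ?_ (abs_nonneg _)
  refine (abs_add_le _ _).trans (add_le_add ?_ ?_)
  · rw [abs_mul, norm_gradient_eq]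
    refine mul_le_mul k2 ?_ (abs_nonneg _) hB2n
    rw [abs_of_nonneg (by positivity)]
    exact pow_le_pow_left₀ (norm_nonneg _) (h1 x) 2
  · rw [abs_mul]
    exact mul_le_mul k1 (h2 x) (abs_nonneg _) hB1n

theorem cut_nonneg_of {t s : ℝ} (hs : 0 ≤ s) :
    0 ≤ s * Real.smoothTransition (2 * s / t + 2) :=
  mul_nonneg hs (Real.smoothTransition.nonneg _)

theorem cut_le {t s : ℝ} : s * Real.smoothTransition (2 * s / t + 2) ≤ max s 0 := by
  rcases le_total 0 s with h | h
  · rw [max_eq_left h]
    exact mul_le_of_le_one_right h (Real.smoothTransition.le_one _)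
  · rw [max_eq_right h]
    exact mul_nonpos_of_nonpos_of_nonneg h (Real.smoothTransition.nonneg _)

theorem cut_ge {t s : ℝ} (ht : 0 < t) : -t ≤ s * Real.smoothTransition (2 * s / t + 2) := by
  rcases le_total 0 s with h | h
  · linarith [cut_nonneg_of (t := t) h]
  · rcases le_total (-t) s with h' | h'
    · have h1 := Real.smoothTransition.le_one (2 * s / t + 2)
      have h0 := Real.smoothTransition.nonneg (2 * s / t + 2)
      nlinarith
    · have : Real.smoothTransition (2 * s / t + 2) = 0 := by
        refine Real.smoothTransition.zero_of_nonpos ?_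
        have : 2 * s / t ≤ -2 := by
          rw [div_le_iff₀ ht]; linarith
        linarith
      rw [this, mul_zero]; linarith

theorem cut_eq {t s : ℝ} (ht : 0 < t) (hs : -(t / 2) ≤ s) :
    s * Real.smoothTransition (2 * s / t + 2) = s := by
  have : Real.smoothTransition (2 * s / t + 2) = 1 := by
    refine Real.smoothTransition.one_of_one_le ?_
    have : -1 ≤ 2 * s / t := by
      rw [le_div_iff₀ ht]; linarith
    linarith
  rw [this, mul_one]

theorem penal_le_barrier (hd : Module.finrank ℝ E = 5) {K : ℝ} (hK : 0 < K) {b : E → ℝ}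
    (hb : IsBarrier K b) {g : E →ᵇ ℝ} {M C d : ℝ}
    (hgM : ∀ x, g x ≤ M) (hMC : M ≤ C) (hC : 0 < C) (hdp : 0 < d) :
    ∃ n₀ : ℕ, ∀ n : ℕ, n₀ ≤ n → ∀ w : E →ᵇ ℝ,
      WeakEq univ w (fun x => g x - (K + penVb b hb.smooth.continuous n x) * w x) →
      ∀ x, w x ≤ C * (d + max (b x) 0) := by
  obtain ⟨δ, hδ, hsup⟩ := hb.super
  obtain ⟨M₀, h0⟩ := hb.bdd
  set t : ℝ := min δ (d / 2) with ht
  have htp : 0 < t := lt_min hδ (by positivity)
  have htδ : t ≤ δ := min_le_left _ _
  have htd : t ≤ d / 2 := min_le_right _ _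
  obtain ⟨A, hA⟩ := laplacian_pbeta_bdd hb C d t
  have hm : 0 < min 1 (t / 2) := lt_min zero_lt_one (by positivity)
  set m : ℝ := min 1 (t / 2) with hmdef
  obtain ⟨n₀, hn₀⟩ := exists_nat_ge ((|M| + A) / (m * (C * (d / 2))))
  refine ⟨n₀, fun n hn w hw => ?_⟩
  have hbc := hb.smooth.continuous
  have hβs : ContDiff ℝ 2 (pbeta b C d t) := contDiff_pbeta hb.smooth C d t
  have hβlow : ∀ x, C * (d / 2) ≤ pbeta b C d t x := by
    intro x
    refine mul_le_mul_of_nonneg_left ?_ hC.le
    have := cut_ge (s := b x) htp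
    linarith
  have hβup : ∀ x, pbeta b C d t x ≤ C * (d + max (b x) 0) := by
    intro x
    refine mul_le_mul_of_nonneg_left ?_ hC.le
    have := cut_le (s := b x) (t := t)
    linarith
  have hβbd : ∀ x, ‖pbeta b C d t x‖ ≤ C * (d + |M₀|) := by
    intro x
    have h1 := hβlow x
    have h2 := hβup x
    rw [Real.norm_eq_abs, abs_of_nonneg (le_trans (by positivity) h1)]
    refine h2.trans (mul_le_mul_of_nonneg_left ?_ hC.le)
    have h3 : b x ≤ |M₀| := (le_abs_self _).trans ((h0 x).trans (le_abs_self _))
    have h4 : max (b x) 0 ≤ |M₀| := max_le h3 (abs_nonneg _)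
    linarith
  set β : E →ᵇ ℝ := BoundedContinuousFunction.ofNormedAddCommGroup (pbeta b C d t)
    hβs.continuous _ hβbd with hβ
  have hΔc : Continuous (Δ (pbeta b C d t)) := continuous_laplacian hβs
  set Λ : E →ᵇ ℝ := BoundedContinuousFunction.ofNormedAddCommGroup (Δ (pbeta b C d t))
    hΔc A (fun x => by rw [Real.norm_eq_abs]; exact hA x) with hΛ
  set V : E →ᵇ ℝ := penVb b hbc n with hV
  have hβx : ∀ x, β x = pbeta b C d t x := fun x => rfl
  have hΛx : ∀ x, Λ x = Δ (pbeta b C d t) x := fun x => rfl
  have hVx : ∀ x, V x = n * penV b x := fun x => rfl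
  -- the equation of the difference
  have hwβ : WeakEq univ (fun x => β x) (fun x => -(Λ x)) :=
    weakEq_of_classical isOpen_univ hβs.contDiffOn
  set q : E →ᵇ ℝ := g + Λ - (BoundedContinuousFunction.const E K + V) * β with hq
  have hqx : ∀ x, q x = g x + Λ x - (K + V x) * β x := fun x => rfl
  have hwe : WeakEq univ (fun x => (w - β) x)
      (fun x => q x - (K + V x) * (w - β) x) := by
    have h1 := weakEq_sub w.continuous
      (g.continuous.sub ((continuous_const.add V.continuous).mul w.continuous))
      β.continuous Λ.continuous.neg hw hwβ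
    refine weakEq_rhs h1 (fun x => ?_)
    rw [hqx]
    simp only [BoundedContinuousFunction.coe_sub, Pi.sub_apply, Pi.mul_apply, Pi.add_apply,
      Pi.neg_apply]
    ring
  have hle := whole_le hd hK V q (w - β)
    (fun x => by rw [hVx]; exact mul_nonneg n.cast_nonneg (penV_nonneg b x)) ?_ hwe
  · intro x
    have h1 := hle x
    simp only [BoundedContinuousFunction.coe_sub, Pi.sub_apply] at h1
    have h2 := hβup x
    rw [← hβx] at h2
    linarith
  · intro x
    rw [hqx, hVx, hβx, hΛx]
    have hβ0 : 0 ≤ pbeta b C d t x := le_trans (by positivity) (hβlow x)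
    have hVn : 0 ≤ (n : ℝ) * penV b x := mul_nonneg n.cast_nonneg (penV_nonneg b x)
    rcases lt_or_ge (-(t / 2)) (b x) with hx | hx
    · have hev : pbeta b C d t =ᶠ[𝓝 x] fun y => C * (d + b y) := by
        have : ∀ᶠ y in 𝓝 x, -(t / 2) < b y :=
          (hbc.continuousAt (x := x)).eventually_const_lt hx
        filter_upwards [this] with y hy
        rw [pbeta, cut_eq htp hy.le]
      have hΔ : Δ (pbeta b C d t) x = C * Δ b x := by
        rw [(laplacian_congr_nhds hev).eq_of_nhds]
        have := (((hasLap_const d x).add (hasLap_of_contDiff hb.smooth x)).const_mul C).lap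
        rw [this, zero_add]
      have hval : pbeta b C d t x = C * (d + b x) := hev.eq_of_nhds
      have h1 := hsup x (by linarith)
      have h2 := hgM x
      rw [hΔ]
      rw [hval] at hβ0 ⊢
      have h3 : 0 ≤ (n : ℝ) * penV b x * (C * (d + b x)) := mul_nonneg hVn hβ0
      have h4 : C * 1 ≤ C * (-(Δ b x) + K * b x) := mul_le_mul_of_nonneg_left h1 hC.le
      have h5 : 0 ≤ K * (C * d) := by positivity
      nlinarith
    · have hpen : m ≤ penV b x := penV_ge hx
      have h1 : (|M| + A) / (m * (C * (d / 2))) ≤ n := hn₀.trans (by exact_mod_cast hn)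
      rw [div_le_iff₀ (by positivity)] at h1
      have h2 := hgM x
      have h3 := (abs_le.mp (hA x)).2
      have h4 : (n : ℝ) * (m * (C * (d / 2))) ≤ (n : ℝ) * penV b x * pbeta b C d t x := by
        rw [mul_assoc]
        refine mul_le_mul_of_nonneg_left ?_ n.cast_nonneg
        exact mul_le_mul hpen (hβlow x) (by positivity) (penV_nonneg b x)
      have h5 : 0 ≤ K * pbeta b C d t x := mul_nonneg hK.le hβ0
      have h6 := le_abs_self M
      nlinarith

/-! ### the main theorem -/

theorem linear_exists (hd : Module.finrank ℝ E = 5) {K : ℝ} (hK : 0 < K) {b : E → ℝ}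
    (hb : IsBarrier K b) {g : E → ℝ} {M : ℝ} (hgc : Continuous g) (hg0 : ∀ x, 0 ≤ g x)
    (hgM : ∀ x, g x ≤ M) (hg1 : ContDiffOn ℝ 1 g {x | 0 < b x}) :
    ∃ w : E → ℝ, Continuous w ∧ (∀ x, 0 ≤ w x ∧ w x ≤ M / K) ∧ (∀ x, b x ≤ 0 → w x = 0) ∧
      ContDiffOn ℝ 2 w {x | 0 < b x} ∧ ∀ x, 0 < b x → -(Δ w x) + K * w x = g x := by
  have hbc := hb.smooth.continuous
  have hM0 : 0 ≤ M := (hg0 0).trans (hgM 0)
  set gb : E →ᵇ ℝ := BoundedContinuousFunction.ofNormedAddCommGroup g hgc M (fun x => by
    rw [Real.norm_eq_abs, abs_of_nonneg (hg0 x)]; exact hgM x) with hgb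
  have hgbx : ∀ x, gb x = g x := fun x => rfl
  have hVx : ∀ (n : ℕ) x, penVb b hbc n x = n * penV b x := fun n x => rfl
  have hV0 : ∀ (n : ℕ) x, 0 ≤ penVb b hbc n x := fun n x => by
    rw [hVx]; exact mul_nonneg n.cast_nonneg (penV_nonneg b x)
  have hex := fun n : ℕ => whole_exists hK (penVb b hbc n) gb (hV0 n)
  choose w hw using hex
  -- nonnegativity
  have hw0 : ∀ n x, 0 ≤ w n x := by
    intro n x
    have h := whole_le hd hK (penVb b hbc n) (-gb) (-(w n)) (hV0 n)
      (fun x => by simpa [hgbx] using hg0 x)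
      (weakEq_rhs (weakEq_neg (hw n)) (fun x => by
        simp only [BoundedContinuousFunction.coe_neg, Pi.neg_apply]; ring)) x
    simpa using h
  -- upper bound
  have hwM : ∀ n x, w n x ≤ M / K := by
    intro n x
    set c : E →ᵇ ℝ := BoundedContinuousFunction.const E (M / K) with hc
    have hcx : ∀ x, c x = M / K := fun x => rfl
    set q : E →ᵇ ℝ := gb - (BoundedContinuousFunction.const E K + penVb b hbc n) * c with hq
    have hqx : ∀ x, q x = g x - (K + penVb b hbc n x) * (M / K) := fun x => rfl
    have hwc : WeakEq univ (fun x => c x) (fun _ => (0 : ℝ)) := by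
      have h := weakEq_of_classical (E := E) (u := fun x => c x) isOpen_univ
        (by simpa [hcx] using contDiffOn_const)
      refine weakEq_rhs h (fun x => ?_)
      have : Δ (fun x => c x) x = 0 := (hasLap_const (M / K) x).lap
      rw [this, neg_zero]
    have hwe : WeakEq univ (fun x => (w n - c) x)
        (fun x => q x - (K + penVb b hbc n x) * (w n - c) x) := by
      have h1 := weakEq_sub (w n).continuous
        (gb.continuous.sub ((continuous_const.add (penVb b hbc n).continuous).mul
          (w n).continuous)) c.continuous continuous_const (hw n) hwc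
      refine weakEq_rhs h1 (fun x => ?_)
      rw [hqx]
      simp only [BoundedContinuousFunction.coe_sub, Pi.sub_apply, Pi.mul_apply, Pi.add_apply,
        hcx, hgbx]
      ring
    have h := whole_le hd hK (penVb b hbc n) q (w n - c) (hV0 n) (fun x => by
      rw [hqx]
      have h1 := hgM x
      have h2 : K * (M / K) = M := by field_simp
      have h3 : 0 ≤ penVb b hbc n x * (M / K) := mul_nonneg (hV0 n x) (by positivity)
      nlinarith) hwe x
    simp only [BoundedContinuousFunction.coe_sub, Pi.sub_apply, hcx] at h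
    linarith
  -- monotonicity in `n`
  have hanti : ∀ n x, w (n + 1) x ≤ w n x := by
    intro n x
    set q : E →ᵇ ℝ := -((penVb b hbc (n + 1) - penVb b hbc n) * w n) with hq
    have hqx : ∀ x, q x = -((penVb b hbc (n + 1) x - penVb b hbc n x) * w n x) := fun x => rfl
    have hwe : WeakEq univ (fun x => (w (n + 1) - w n) x)
        (fun x => q x - (K + penVb b hbc (n + 1) x) * (w (n + 1) - w n) x) := by
      have h1 := weakEq_sub (w (n + 1)).continuous
        (gb.continuous.sub ((continuous_const.add (penVb b hbc (n + 1)).continuous).mul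
          (w (n + 1)).continuous)) (w n).continuous
        (gb.continuous.sub ((continuous_const.add (penVb b hbc n).continuous).mul
          (w n).continuous)) (hw (n + 1)) (hw n)
      refine weakEq_rhs h1 (fun x => ?_)
      rw [hqx]
      simp only [BoundedContinuousFunction.coe_sub, Pi.sub_apply, Pi.mul_apply, Pi.add_apply]
      ring
    have h := whole_le hd hK (penVb b hbc (n + 1)) q (w (n + 1) - w n) (hV0 (n + 1)) (fun x => by
      rw [hqx, hVx, hVx]
      have h1 := hw0 n x
      have h2 := penV_nonneg b x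
      have h3 : 0 ≤ penV b x * w n x := mul_nonneg h2 h1
      push_cast
      nlinarith) hwe x
    simp only [BoundedContinuousFunction.coe_sub, Pi.sub_apply] at h
    linarith
  have hantitone : ∀ x, Antitone fun n => w n x := fun x => antitone_nat_of_succ_le (hanti · x)
  -- the limit
  have hlim : ∀ x, ∃ l, Tendsto (fun n => w n x) atTop (𝓝 l) := fun x =>
    ⟨_, tendsto_atTop_ciInf (hantitone x) ⟨0, by rintro _ ⟨n, rfl⟩; exact hw0 n x⟩⟩
  choose u hu using hlim
  have hu0 : ∀ x, 0 ≤ u x := fun x => ge_of_tendsto' (hu x) (fun n => hw0 n x)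
  have huM : ∀ x, u x ≤ M / K := fun x => le_of_tendsto' (hu x) (fun n => hwM n x)
  set C : ℝ := M + 1 with hC
  have hCp : 0 < C := by positivity
  have hub : ∀ x, u x ≤ C * max (b x) 0 := by
    intro x
    refine le_of_forall_pos_le_add (fun ε hε => ?_)
    obtain ⟨n₀, hn₀⟩ := penal_le_barrier hd hK hb (g := gb) (M := M) (C := C) (d := ε / C)
      hgM (by linarith) hCp (by positivity)
    have h1 : ∀ᶠ n in atTop, w n x ≤ C * (ε / C + max (b x) 0) := by
      filter_upwards [eventually_ge_atTop n₀] with n hn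
      exact hn₀ n hn (w n) (hw n) x
    have h2 := le_of_tendsto (hu x) h1
    have h3 : C * (ε / C + max (b x) 0) = C * max (b x) 0 + ε := by field_simp; ring
    linarith
  have hΩ : IsOpen {x | 0 < b x} := isOpen_lt continuous_const hbc
  have hum : Measurable u := measurable_of_tendsto_metrizable
    (fun n => (w n).continuous.measurable) (tendsto_pi_nhds.mpr hu)
  -- weak equation
  set B : ℝ := M / K + 2 * M with hB
  have hMK : 0 ≤ M / K := by positivity
  have hKM : K * (M / K) = M := by field_simp
  obtain ⟨hucont, huw⟩ := WeakEq.limit hd hΩ (u := fun n x => w n x)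
    (h := fun n x => g x - K * w n x) (u' := u) (h' := fun x => g x - K * u x) (M := B)
    (fun n => (w n).continuous.aestronglyMeasurable)
    (fun n x => by
      have h1 := hw0 n x
      have h2 := hwM n x
      rw [abs_of_nonneg h1]; linarith)
    (fun n => (w n).continuous.continuousOn)
    (fun n => (hgc.sub (continuous_const.mul (w n).continuous)).aestronglyMeasurable)
    (fun n x => by
      have h1 := hw0 n x
      have h2 := hwM n x
      have h3 := hg0 x
      have h4 := hgM x
      have h5 : K * w n x ≤ M := by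
        calc K * w n x ≤ K * (M / K) := mul_le_mul_of_nonneg_left h2 hK.le
          _ = M := hKM
      have h6 : 0 ≤ K * w n x := mul_nonneg hK.le h1
      rw [abs_le]; constructor <;> linarith)
    (fun n => by
      intro φ hφ hc hs
      have h1 : WeakEq {x | 0 < b x} (w n) (fun x => gb x - (K + penVb b hbc n x) * w n x) :=
        fun φ hφ hc _ => hw n φ hφ hc (subset_univ _)
      refine WeakEq.congr h1 (fun x _ => rfl) (fun x hx => ?_) φ hφ hc hs
      have hx' : 0 < b x := hx
      have : penVb b hbc n x = 0 := by rw [hVx, penV_eq_zero hx'.le, mul_zero]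
      simp only [this, hgbx, add_zero])
    hu (fun x _ => (hu x).const_mul K |>.const_sub (g x))
  have huabs : ∀ x, |u x| ≤ B := fun x => by
    rw [abs_of_nonneg (hu0 x)]; linarith [huM x]
  have hh1 : AEStronglyMeasurable (fun x => g x - K * u x) (volume : Measure E) :=
    (hgc.measurable.sub (hum.const_mul K)).aestronglyMeasurable
  have hh2 : ∃ M' : ℝ, ∀ x, |g x - K * u x| ≤ M' := by
    refine ⟨B, fun x => ?_⟩
    have h1 := hu0 x
    have h2 := huM x
    have h3 := hg0 x
    have h4 := hgM x
    have h5 : K * u x ≤ M := by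
      calc K * u x ≤ K * (M / K) := mul_le_mul_of_nonneg_left h2 hK.le
        _ = M := hKM
    have h6 : 0 ≤ K * u x := mul_nonneg hK.le h1
    rw [abs_le]; constructor <;> linarith
  have hC1 : ContDiffOn ℝ 1 u {x | 0 < b x} := WeakEq.contDiffOn_one hd hΩ
    hum.aestronglyMeasurable ⟨B, huabs⟩ hucont hh1 hh2 huw
  obtain ⟨hC2, heq⟩ := WeakEq.classical hd hΩ hum.aestronglyMeasurable ⟨B, huabs⟩ hucont hh1 hh2
    (hg1.sub (contDiffOn_const.mul hC1)) huw
  have hzero : ∀ x, b x ≤ 0 → u x = 0 := by
    intro x hx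
    have h1 := hub x
    rw [max_eq_right hx, mul_zero] at h1
    exact le_antisymm h1 (hu0 x)
  refine ⟨u, ?_, fun x => ⟨hu0 x, huM x⟩, hzero, hC2, fun x hx => ?_⟩
  · rw [continuous_iff_continuousAt]
    intro x
    rcases lt_or_ge 0 (b x) with hx | hx
    · exact hucont.continuousAt (hΩ.mem_nhds hx)
    · rw [ContinuousAt, hzero x hx]
      have hc : Continuous fun y => C * max (b y) 0 :=
        continuous_const.mul (hbc.max continuous_const)
      have ht : Tendsto (fun y => C * max (b y) 0) (𝓝 x) (𝓝 0) := by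
        have := hc.tendsto x
        rwa [max_eq_right hx, mul_zero] at this
      exact squeeze_zero hu0 hub ht
  · have := heq x hx
    linarith

end Linear

end Pool.Agent.Lib.MP_3eb465_an
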