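import Pool.Agent.Lib.MP_3eb465_an.Super

/-!
The subsolutions `vlow`, `vseed` and the reaction `ff`.
-/

namespace Pool.Agent.Lib.MP_3eb465_an

open MeasureTheory InnerProductSpace Laplacian Set Filter Topology
open scoped ContDiff RealInnerProductSpace

section Explicit

/-- the Laplacian of `Q` -/
noncomputable def lapQ (x : E5) : ℝ :=
  -Real.cos (x 0) + (lapB x * (-8 * Real.cos (x 0)) - BB x * (-8 * Real.cos (x 0))) +
    (th x * EE x * (3 * Real.cos (x 0) + (2 * Real.cos (x 0) ^ 2 - 1)) -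
      EE x * (3 * Real.cos (x 0) + 4 * (2 * Real.cos (x 0) ^ 2 - 1)))

theorem hasLap_QQ (x : E5) : ∃ g : E5, HasLap QQ x g (lapQ x) := by
  obtain ⟨g₁, h₁, o₁⟩ := hasLap_BB x
  obtain ⟨g₂, h₂, o₂⟩ := hasLap_EE x
  obtain ⟨g₃, h₃⟩ := hasLap_mul_c h₁ o₁ (-8) 0
  obtain ⟨g₄, h₄⟩ := hasLap_mul_c h₂ o₂ 3 1
  refine ⟨_, ((((hasLap_c0 x).add h₃).add h₄).congr
    (Eventually.of_forall fun y => ?_)).of_eq rfl ?_⟩
  · simp only [QQ]; ring
  · simp only [lapQ]; ring

theorem neg_lapQ_le {x : E5} (h : EE x < 2) (hc : 0 ≤ Real.cos (x 0)) : -lapQ x ≤ QQ x := by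
  have hE := EE_pos x
  obtain ⟨ht1, ht2⟩ := th_bounds h
  have hb0 := lapB_nonpos x
  have hc1 := Real.cos_le_one (x 0)
  have hid : -lapQ x - QQ x = 8 * (lapB x * Real.cos (x 0)) +
      EE x * ((6 - 2 * th x) * Real.cos (x 0) ^ 2 - 3 * th x * Real.cos (x 0) + th x - 3) := by
    simp only [lapQ, QQ]; ring
  suffices h0 : -lapQ x - QQ x ≤ 0 by linarith
  rw [hid]
  set c := Real.cos (x 0) with hcdef
  have h1 : lapB x * c ≤ 0 := mul_nonpos_of_nonpos_of_nonneg hb0 hc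
  have h2 : (6 - 2 * th x) * c ^ 2 - 3 * th x * c + th x - 3 ≤ 0 := by
    have e1 : (6 - 2 * th x) * c ^ 2 - 3 * th x * c + th x - 3 =
      -((1 - c) * (3 - th x) + c * (4 * th x - 3) + (6 - 2 * th x) * (c * (1 - c))) := by ring
    rw [e1]
    have e2 : 0 ≤ (1 - c) * (3 - th x) := mul_nonneg (by linarith) (by linarith)
    have e3 : 0 ≤ c * (4 * th x - 3) := mul_nonneg hc (by linarith)
    have e4 : 0 ≤ (6 - 2 * th x) * (c * (1 - c)) :=
      mul_nonneg (by linarith) (mul_nonneg hc (by linarith))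
    linarith
  have h3 : EE x * ((6 - 2 * th x) * c ^ 2 - 3 * th x * c + th x - 3) ≤ 0 :=
    mul_nonpos_of_nonneg_of_nonpos hE.le h2
  linarith

theorem QQ_le_cos {x : E5} (h : EE x < 2) (hc : 0 ≤ Real.cos (x 0)) : QQ x ≤ Real.cos (x 0) := by
  have hE := EE_pos x
  have hB := EE_le_BB h
  have hc1 := Real.cos_le_one (x 0)
  have hQ : QQ x = (1 - 8 * BB x) * Real.cos (x 0) +
    EE x * (3 * Real.cos (x 0) + 2 * Real.cos (x 0) ^ 2 - 1) := rfl
  rw [hQ]
  set c := Real.cos (x 0) with hcdef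
  have h1 : 4 * EE x * c ≤ 8 * BB x * c := mul_le_mul_of_nonneg_right (by linarith) hc
  have h2 : 0 ≤ EE x * ((2 * c + 1) * (1 - c)) :=
    mul_nonneg hE.le (mul_nonneg (by linarith) (by linarith))
  nlinarith

theorem QQ_neg {x : E5} (h : EE x < 2) (h1 : 1 ≤ EE x) (hc : 0 ≤ Real.cos (x 0)) : QQ x < 0 := by
  have hE := EE_pos x
  have hB := three_le_BB h h1
  have hc1 := Real.cos_le_one (x 0)
  have hQ : QQ x = (1 - 8 * BB x) * Real.cos (x 0) +
    EE x * (3 * Real.cos (x 0) + 2 * Real.cos (x 0) ^ 2 - 1) := rfl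
  rw [hQ]
  set c := Real.cos (x 0) with hcdef
  have h2 : (1 - 8 * BB x) * c ≤ -23 * c := mul_le_mul_of_nonneg_right (by linarith) hc
  rcases le_or_gt 0 (3 * c + 2 * c ^ 2 - 1) with h3 | h3
  · have h4 : EE x * (3 * c + 2 * c ^ 2 - 1) ≤ 2 * (3 * c + 2 * c ^ 2 - 1) :=
      mul_le_mul_of_nonneg_right h.le h3
    nlinarith
  · have h4 : EE x * (3 * c + 2 * c ^ 2 - 1) < 0 := mul_neg_of_pos_of_neg hE h3
    linarith

theorem DD_pos_of_QQ {x : E5} (h : EE x < 2) (hc : 0 ≤ Real.cos (x 0)) (hQ0 : 0 < QQ x) :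
    0 < DD x := by
  by_contra hD
  have hE := EE_pos x
  have hN := abs_NN_le h
  have hc1 := Real.cos_le_one (x 0)
  have hB := BB_pos x
  have hQ : QQ x = (1 - 8 * BB x) * Real.cos (x 0) +
    EE x * (3 * Real.cos (x 0) + 2 * Real.cos (x 0) ^ 2 - 1) := rfl
  have hc2 : Real.cos (x 0) ≤ EE x / 2900 := by
    have h1 : DD x = NN x + Real.cos (x 0) := rfl
    have h2 := neg_abs_le (NN x)
    linarith
  rw [hQ] at hQ0
  set c := Real.cos (x 0) with hcdef
  have h2 : (1 - 8 * BB x) * c ≤ 1 * c := mul_le_mul_of_nonneg_right (by linarith) hc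
  have h3 : 3 * c + 2 * c ^ 2 - 1 ≤ -(98 / 100) := by nlinarith
  have h4 : EE x * (3 * c + 2 * c ^ 2 - 1) ≤ EE x * (-(98 / 100)) :=
    mul_le_mul_of_nonneg_left h3 hE.le
  linarith

/-! ### the reaction -/

theorem hasDerivAt_ff (u : ℝ) :
    HasDerivAt ff (1 - 8 * max (u - 1 / 2) 0 + 8 * max (u - 1) 0) u := by
  have h1 := (hasDerivAt_maxPow 0 (u - 1 / 2)).comp u ((hasDerivAt_id u).sub_const (1 / 2 : ℝ))
  have h2 := (hasDerivAt_maxPow 0 (u - 1)).comp u ((hasDerivAt_id u).sub_const (1 : ℝ))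
  refine HasDerivAt.congr_deriv (((hasDerivAt_id u).sub (h1.const_mul (4 : ℝ))).add
    (h2.const_mul (4 : ℝ))) ?_
  push_cast
  ring

theorem deriv_ff (u : ℝ) : deriv ff u = 1 - 8 * max (u - 1 / 2) 0 + 8 * max (u - 1) 0 :=
  (hasDerivAt_ff u).deriv

theorem ff_eq_self {u : ℝ} (h : u ≤ 1 / 2) : ff u = u := by
  unfold ff
  rw [max_eq_right (by linarith : u - 1 / 2 ≤ 0), max_eq_right (by linarith : u - 1 ≤ 0)]
  ring

theorem ff_ok : ContDiff ℝ 1 ff ∧ (Monotone fun u => ff u + 4 * u) ∧ ff 0 = 0 ∧ ff 1 = 0 ∧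
    (∀ u, 0 < u → u < 1 → 0 < ff u) ∧ (∀ u, 1 < u → ff u < 0) ∧ deriv ff 0 = 1 ∧
    deriv ff 1 = -3 ∧ (∀ u v, |deriv ff u - deriv ff v| ≤ 8 * |u - v|) ∧
    (∀ u, -3 ≤ deriv ff u ∧ deriv ff u ≤ 1) ∧ (∀ u, u ≤ 1 / 2 → ff u = u) := by
  have hrange : ∀ u, -3 ≤ deriv ff u ∧ deriv ff u ≤ 1 := by
    intro u
    rw [deriv_ff]
    rcases le_total (u - 1 / 2) 0 with h1 | h1 <;> rcases le_total (u - 1) 0 with h2 | h2 <;>
      simp only [max_eq_left, max_eq_right, h1, h2] <;> constructor <;> linarith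
  refine ⟨?_, ?_, ?_, ?_, ?_, ?_, ?_, ?_, ?_, hrange, fun u h => ff_eq_self h⟩
  · have h2 : ContDiff ℝ 1 (fun t : ℝ => (max t 0) ^ 2) := by
      have := contDiff_maxPow 1
      exact_mod_cast this
    exact (contDiff_id.sub (contDiff_const.mul (h2.comp (contDiff_id.sub contDiff_const)))).add
      (contDiff_const.mul (h2.comp (contDiff_id.sub contDiff_const)))
  · have hd : ∀ u, HasDerivAt (fun u => ff u + 4 * u) (deriv ff u + 4) u := by
      intro u
      have h1 := (hasDerivAt_ff u)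
      rw [← deriv_ff] at h1
      refine HasDerivAt.congr_deriv (h1.add ((hasDerivAt_id u).const_mul (4 : ℝ))) ?_
      ring
    refine monotone_of_deriv_nonneg (fun u => (hd u).differentiableAt) fun u => ?_
    rw [(hd u).deriv]
    linarith [(hrange u).1]
  · rw [ff_eq_self (by norm_num)]
  · unfold ff
    rw [max_eq_left (by norm_num : (0 : ℝ) ≤ 1 - 1 / 2), sub_self, max_self]
    norm_num
  · intro u h0 h1
    rcases le_or_gt u (1 / 2) with h2 | h2
    · rw [ff_eq_self h2]; exact h0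
    · unfold ff
      rw [max_eq_left (by linarith : (0 : ℝ) ≤ u - 1 / 2), max_eq_right (by linarith : u - 1 ≤ 0)]
      nlinarith
  · intro u h1
    unfold ff
    rw [max_eq_left (by linarith : (0 : ℝ) ≤ u - 1 / 2), max_eq_left (by linarith : 0 ≤ u - 1)]
    nlinarith
  · rw [deriv_ff]; norm_num
  · rw [deriv_ff]; norm_num
  · intro u v
    rw [deriv_ff, deriv_ff]
    wlog h : v ≤ u generalizing u v
    · rw [abs_sub_comm, abs_sub_comm u v]
      exact this v u (le_of_not_ge h)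
    rw [abs_of_nonneg (by linarith : 0 ≤ u - v), abs_le]
    rcases le_total (u - 1 / 2) 0 with h1 | h1 <;> rcases le_total (u - 1) 0 with h2 | h2 <;>
    rcases le_total (v - 1 / 2) 0 with h3 | h3 <;> rcases le_total (v - 1) 0 with h4 | h4 <;>
      simp only [max_eq_left, max_eq_right, h1, h2, h3, h4] <;> constructor <;> linarith

/-! ### the subsolution in the slot -/

theorem cos_pos_of_abs {t : ℝ} (h : |t| < Real.pi / 2) : 0 < Real.cos t :=
  Real.cos_pos_of_mem_Ioo ⟨by linarith [(abs_lt.1 h).1], (abs_lt.1 h).2⟩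

theorem vlow_of_mem {x : E5} (h : EE x < 2 ∧ |x 0| < Real.pi / 2) :
    vlow =ᶠ[𝓝 x] fun y => 1 / 2 * max 0 (QQ y) := by
  have h1 := contDiff_EE.continuous.continuousAt.eventually_lt continuousAt_const h.1
  have h2 := (contDiff_x 0).continuous.abs.continuousAt.eventually_lt
    (continuousAt_const (y := Real.pi / 2)) h.2
  filter_upwards [h1, h2] with y hy1 hy2
  unfold vlow
  rw [if_pos ⟨hy1, hy2⟩]

theorem vlow_eq_zero_of_QQ {y : E5} (h : QQ y ≤ 0) : vlow y = 0 := by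
  unfold vlow
  split_ifs
  · rw [max_eq_left h, mul_zero]
  · rfl

theorem vlow_of_not_mem {x : E5} (h : ¬ (EE x < 2 ∧ |x 0| < Real.pi / 2)) :
    vlow =ᶠ[𝓝 x] fun _ => 0 := by
  rcases lt_or_ge (EE x) 2 with hE | hE
  · have hx : Real.pi / 2 ≤ |x 0| := by
      by_contra hc
      exact h ⟨hE, not_le.1 hc⟩
    rcases eq_or_lt_of_le hx with hx | hx
    · have hc : Real.cos (x 0) = 0 := by
        rw [← Real.cos_abs, ← hx, Real.cos_pi_div_two]
      have hQ : QQ x < 0 := by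
        have hQ : QQ x = (1 - 8 * BB x) * Real.cos (x 0) +
          EE x * (3 * Real.cos (x 0) + 2 * Real.cos (x 0) ^ 2 - 1) := rfl
        rw [hQ, hc]
        have := EE_pos x
        linarith
      filter_upwards [contDiff_QQ.continuous.continuousAt.eventually_lt continuousAt_const hQ]
        with y hy
      exact vlow_eq_zero_of_QQ hy.le
    · filter_upwards [(continuousAt_const (y := Real.pi / 2)).eventually_lt
        (contDiff_x 0).continuous.abs.continuousAt hx] with y hy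
      unfold vlow
      rw [if_neg fun hc => absurd hy (not_lt.2 hc.2.le)]
  · filter_upwards [(continuousAt_const (y := (1 : ℝ))).eventually_lt
      contDiff_EE.continuous.continuousAt (by linarith)] with y hy
    by_cases hm : EE y < 2 ∧ |y 0| < Real.pi / 2
    · exact vlow_eq_zero_of_QQ (QQ_neg hm.1 hy.le (cos_pos_of_abs hm.2).le).le
    · unfold vlow; rw [if_neg hm]

theorem mem_of_vlow_pos {x : E5} (h : 0 < vlow x) :
    EE x < 2 ∧ |x 0| < Real.pi / 2 ∧ 0 < QQ x := by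
  unfold vlow at h
  split_ifs at h with hm
  · refine ⟨hm.1, hm.2, ?_⟩
    by_contra hc
    rw [max_eq_left (not_lt.1 hc)] at h
    linarith
  · exact absurd h (lt_irrefl _)

theorem vlow_nonneg (x : E5) : 0 ≤ vlow x := by
  unfold vlow
  split_ifs
  · have := le_max_left 0 (QQ x)
    linarith
  · exact le_rfl

theorem sub_ok : Continuous vlow ∧ (∀ x, 0 ≤ vlow x ∧ vlow x ≤ 1 / 2) ∧
    (∀ x, DD x ≤ 0 → vlow x = 0) ∧
    ∀ x, 0 < vlow x → ContDiffAt ℝ 2 vlow x ∧ -(Δ vlow x) ≤ ff (vlow x) := by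
  refine ⟨?_, fun x => ⟨vlow_nonneg x, ?_⟩, fun x hx => ?_, fun x hx => ?_⟩
  · rw [continuous_iff_continuousAt]
    intro x
    by_cases hm : EE x < 2 ∧ |x 0| < Real.pi / 2
    · have h1 : ContinuousAt (fun y => 1 / 2 * max 0 (QQ y)) x :=
        (continuous_const.mul (continuous_const.max contDiff_QQ.continuous)).continuousAt
      exact h1.congr (vlow_of_mem hm).symm
    · exact continuousAt_const.congr (vlow_of_not_mem hm).symm
  · unfold vlow
    split_ifs with hm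
    · have hc := (cos_pos_of_abs hm.2).le
      have h1 := QQ_le_cos hm.1 hc
      have h2 := Real.cos_le_one (x 0)
      have h3 : max 0 (QQ x) ≤ 1 := max_le zero_le_one (h1.trans h2)
      linarith
    · norm_num
  · by_contra hc
    have h1 : 0 < vlow x := lt_of_le_of_ne (vlow_nonneg x) (Ne.symm hc)
    obtain ⟨h2, h3, h4⟩ := mem_of_vlow_pos h1
    exact absurd (DD_pos_of_QQ h2 (cos_pos_of_abs h3).le h4) (not_lt.2 hx)
  · obtain ⟨h2, h3, h4⟩ := mem_of_vlow_pos hx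
    have h5 : vlow =ᶠ[𝓝 x] fun y => 1 / 2 * QQ y := by
      filter_upwards [vlow_of_mem ⟨h2, h3⟩,
        (continuousAt_const (y := (0 : ℝ))).eventually_lt
          contDiff_QQ.continuous.continuousAt h4] with y hy1 hy2
      rw [hy1, max_eq_right hy2.le]
    obtain ⟨g, hg⟩ := hasLap_QQ x
    have h6 := (hg.const_mul (1 / 2)).congr h5
    refine ⟨h6.cd, ?_⟩
    have hc := (cos_pos_of_abs h3).le
    have h7 := QQ_le_cos h2 hc
    have h8 := Real.cos_le_one (x 0)
    have h9 := neg_lapQ_le h2 hc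
    rw [h6.lap, h5.self_of_nhds, ff_eq_self (by linarith)]
    linarith

/-! ### the seed -/

theorem dist_pseed (x : E5) : ‖x - pseed‖ ^ 2 =
    x 0 ^ 2 + x 1 ^ 2 + x 2 ^ 2 + x 3 ^ 2 + (x 4 - Real.exp 12) ^ 2 := by
  rw [EuclideanSpace.norm_sq_eq, Fin.sum_univ_five]
  simp [pseed]

theorem ball_facts {x : E5} (h : ‖x - pseed‖ ^ 2 < 25) : 0 < DD x ∧ 3 / 2 < EE x := by
  rw [dist_pseed] at h
  have hs : sy x < 26 := by
    unfold sy
    nlinarith [sq_nonneg (x 0), sq_nonneg (x 4 - Real.exp 12)]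
  have hR : RR x < 51 / 10 := by
    rw [RR, Real.sqrt_lt' (by norm_num)]
    linarith
  have hz : Real.exp 12 - 5 < x 4 := by
    have h1 : (x 4 - Real.exp 12) ^ 2 < 5 ^ 2 := by
      nlinarith [sq_nonneg (x 0), sq_nonneg (x 1), sq_nonneg (x 2), sq_nonneg (x 3)]
    have h2 := abs_lt_of_sq_lt_sq h1 (by norm_num)
    have h3 := (abs_lt.1 h2).1
    linarith
  have h11 : Real.exp 11 ≤ x 4 := by
    have h1 : Real.exp 12 = Real.exp 11 * Real.exp 1 := by rw [← Real.exp_add]; norm_num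
    have h2 := Real.exp_one_gt_d9
    have h3 : (12 : ℝ) ≤ Real.exp 11 := by linarith [Real.add_one_le_exp (11 : ℝ)]
    nlinarith
  constructor
  · have h1 : 1 < NN x := by
      unfold NN
      have h2 : Real.exp 11 * Real.exp (-2 * RR x) ≤ x 4 * Real.exp (-2 * RR x) :=
        mul_le_mul_of_nonneg_right h11 (Real.exp_pos _).le
      have h3 : 1 < Real.exp 11 * Real.exp (-2 * RR x) := by
        rw [← Real.exp_add]
        apply Real.one_lt_exp_iff.2
        linarith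
      linarith
    have h2 := Real.neg_one_le_cos (x 0)
    have h3 : DD x = NN x + Real.cos (x 0) := rfl
    linarith
  · have h1 : x 4 ≤ √(4 + x 4 ^ 2) := (le_abs_self _).trans (abs_z_le_q x)
    have h2 : Real.exp 11 * Real.exp (6 - 3 / 2 * RR x) ≤ EE x :=
      mul_le_mul_of_nonneg_right (h11.trans h1) (Real.exp_pos _).le
    have h3 : 2 ≤ Real.exp 11 * Real.exp (6 - 3 / 2 * RR x) := by
      rw [← Real.exp_add]
      have := Real.add_one_le_exp (11 + (6 - 3 / 2 * RR x))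
      linarith
    linarith

theorem vseed_eq_zero {x : E5} (h : 25 ≤ ‖x - pseed‖ ^ 2) : vseed x = 0 := by
  unfold vseed
  rw [max_eq_left (by linarith)]
  norm_num

theorem vseed_le (x : E5) : vseed x ≤ 1 / 2 := by
  unfold vseed
  have h1 : max 0 (1 - ‖x - pseed‖ ^ 2 / 25) ≤ 1 :=
    max_le zero_le_one (by linarith [sq_nonneg ‖x - pseed‖])
  have h2 : (max 0 (1 - ‖x - pseed‖ ^ 2 / 25)) ^ 2 ≤ 1 := pow_le_one₀ (le_max_left _ _) h1
  linarith

theorem seed_ok : Continuous vseed ∧ (∀ x, 0 ≤ vseed x ∧ vseed x ≤ 1 / 2) ∧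
    (∀ x, DD x ≤ 0 → vseed x = 0) ∧ (∀ x, 0 ≤ DD x → vseed x ≤ wbar x) ∧
    (0 < DD pseed ∧ 0 < vseed pseed) ∧
    ∀ x, 0 < vseed x → ContDiffAt ℝ 2 vseed x ∧ -(Δ vseed x) ≤ ff (vseed x) := by
  have hp : ‖pseed - pseed‖ ^ 2 < 25 := by simp
  refine ⟨?_, fun x => ⟨?_, vseed_le x⟩, fun x hx => ?_, fun x hx => ?_,
    ⟨(ball_facts hp).1, ?_⟩, fun x hx => ?_⟩
  · unfold vseed
    fun_prop
  · unfold vseed; positivity
  · apply vseed_eq_zero
    by_contra hc
    exact absurd (ball_facts (not_le.1 hc)).1 (not_lt.2 hx)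
  · rcases lt_or_ge (‖x - pseed‖ ^ 2) 25 with h | h
    · rw [wbar_eq_one (ball_facts h).2 hx]
      linarith [vseed_le x]
    · rw [vseed_eq_zero h]
      exact (super_ok.2.1 x hx).1
  · unfold vseed
    simp
  · have h : ‖x - pseed‖ ^ 2 < 25 := by
      by_contra hc
      rw [vseed_eq_zero (not_lt.1 hc)] at hx
      exact lt_irrefl _ hx
    have h5 : vseed =ᶠ[𝓝 x] fun y => 1 / 2 * ((1 - 1 / 25 * ‖y - pseed‖ ^ 2) *
        (1 - 1 / 25 * ‖y - pseed‖ ^ 2)) := by
      have hc : Continuous fun y : E5 => ‖y - pseed‖ ^ 2 := by fun_prop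
      filter_upwards [hc.continuousAt.eventually_lt continuousAt_const h] with y hy
      unfold vseed
      rw [max_eq_right (by linarith)]
      ring
    have h1 := (hasLap_const (1 : ℝ) x).sub ((hasLap_normSq pseed x).const_mul (1 / 25))
    have h6 := ((h1.mul h1).const_mul (1 / 2)).congr h5
    refine ⟨h6.cd, ?_⟩
    have hfin : Module.finrank ℝ E5 = 5 := by simp
    have h7 : ⟪(0 : E5) - (1 / 25 : ℝ) • (2 : ℝ) • (x - pseed),
        (0 : E5) - (1 / 25 : ℝ) • (2 : ℝ) • (x - pseed)⟫ = 4 / 625 * ‖x - pseed‖ ^ 2 := by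
      rw [zero_sub, inner_neg_neg, real_inner_self_eq_norm_sq, norm_smul, norm_smul, mul_pow,
        mul_pow]
      norm_num
      ring
    rw [ff_eq_self (vseed_le x), h6.lap, h5.self_of_nhds, h7, hfin]
    push_cast
    nlinarith [sq_nonneg (‖x - pseed‖ ^ 2 - 11)]

theorem point_ok : ∃ x, 0 < DD x ∧ wbar x < vlow x := by
  have h14 : (1 : ℝ) ≤ Real.exp 14 := Real.one_le_exp (by norm_num)
  obtain ⟨x, hx0, hx1, hx2, hx3, hx4⟩ : ∃ x : E5, x 0 = 0 ∧ x 1 = √(Real.exp 14 - 1) ∧ x 2 = 0 ∧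
      x 3 = 0 ∧ x 4 = 0 := by
    refine ⟨EuclideanSpace.single 1 (√(Real.exp 14 - 1)), ?_, ?_, ?_, ?_, ?_⟩ <;> simp
  have hs : sy x = Real.exp 14 := by
    unfold sy
    rw [hx1, hx2, hx3, Real.sq_sqrt (by linarith)]
    ring
  have h7 : (1000 : ℝ) < Real.exp 7 := by
    have h1 := Real.exp_one_gt_d9
    have h2 : Real.exp 7 = Real.exp 1 ^ 7 := by
      rw [← Real.exp_nat_mul]; norm_num
    rw [h2]
    calc (1000 : ℝ) < 2.718 ^ 7 := by norm_num
      _ ≤ _ := pow_le_pow_left₀ (by norm_num) (by linarith) 7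
  have hR : RR x = Real.exp 7 := by
    unfold RR
    rw [hs]
    have h1 : Real.exp 14 = Real.exp 7 ^ 2 := by
      rw [← Real.exp_nat_mul]; norm_num
    rw [h1, Real.sqrt_sq (Real.exp_pos 7).le]
  have hN : NN x = 0 := by unfold NN; rw [hx4, zero_mul]
  have hc : Real.cos (x 0) = 1 := by rw [hx0, Real.cos_zero]
  have hD : DD x = 1 := by
    have h1 : DD x = NN x + Real.cos (x 0) := rfl
    rw [h1, hN, hc]; norm_num
  have hS : SS x = Real.exp 14 := by unfold SS; rw [hs, hx4]; ring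
  have hE : EE x < 2 := by
    unfold EE
    rw [hx4, hR]
    have h1 : √(4 + 0 ^ 2) = 2 := by
      rw [show (4 + 0 ^ 2 : ℝ) = 2 ^ 2 by norm_num]
      exact Real.sqrt_sq (by norm_num)
    rw [h1]
    have h2 : Real.exp (6 - 3 / 2 * Real.exp 7) < 1 := by
      rw [Real.exp_lt_one_iff]; linarith
    linarith
  have hE0 := EE_pos x
  have hB : BB x < 1 / 32 := by
    have h1 := BB_mul_RR x
    rw [hR, hS, Real.log_exp] at h1
    by_contra hc
    nlinarith [not_lt.1 hc]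
  have hP : PP x < 1 / 4 := by
    have h1 : PP x = 8 * BB x * Real.cos (x 0) -
      EE x * (2 * Real.cos (x 0) + 2 * Real.cos (x 0) ^ 2 - 1) := rfl
    rw [h1, hc]
    linarith
  have hQ : 3 / 4 < QQ x := by
    have h1 : QQ x = (1 - 8 * BB x) * Real.cos (x 0) +
      EE x * (3 * Real.cos (x 0) + 2 * Real.cos (x 0) ^ 2 - 1) := rfl
    rw [h1, hc]
    linarith
  refine ⟨x, by rw [hD]; norm_num, ?_⟩
  rw [wbar_eq_mm hE, mm_eq_self (by linarith)]
  unfold vlow
  rw [if_pos ⟨hE, by rw [hx0, abs_zero]; linarith [Real.pi_pos]⟩, max_eq_right (by linarith)]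
  linarith

end Explicit

end Pool.Agent.Lib.MP_3eb465_an
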