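import Pool.Agent.Lib.MP_3eb465_an.Nonlinear
import Pool.Agent.Lib.MP_3eb465_an.Sub
import Pool.Agent.Lib.MP_3eb465_an.Charts
import Pool.Agent.Lib.MP_3eb465_an.Lift
import Pool.Agent.Lib.MP_3eb465_an.BarrierD
import Pool.Agent.Lib.MP_3eb465_an.DerivBounds

/-!
Assembly of the counterexample.
-/

namespace Pool.Agent.Lib.MP_3eb465_an.Main

open MeasureTheory InnerProductSpace Laplacian Set Filter Topology
open scoped ContDiff RealInnerProductSpace
open Pool.Agent.Lib.MP_3eb465_an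

/-! ### the domain -/

/-- coordinate embedding: `0,1,2,3 ↦ 0,1,2,3`, `4 ↦ last` -/
def io (k : ℕ) (i : Fin 5) : Fin (k + 4 + 1) :=
  if h : (i : ℕ) < 4 then ⟨i, by omega⟩ else Fin.last (k + 4)

theorem io_injective (k : ℕ) : Function.Injective (io k) := by
  intro i j h
  unfold io at h
  have hi := i.2
  have hj := j.2
  split_ifs at h with h1 h2 h2
  · simp only [Fin.mk.injEq] at h
    exact Fin.ext h
  · exfalso
    have := congrArg Fin.val h
    simp only [Fin.val_last] at this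
    omega
  · exfalso
    have := congrArg Fin.val h
    simp only [Fin.val_last] at this
    omega
  · exact Fin.ext (by omega)

/-- the graph function -/
noncomputable def phi (k : ℕ) (x : EuclideanSpace ℝ (Fin (k + 4))) : ℝ :=
  - Real.exp (2 * √(1 + x ⟨1, by omega⟩ ^ 2 + x ⟨2, by omega⟩ ^ 2 + x ⟨3, by omega⟩ ^ 2)) *
    Real.cos (x ⟨0, by omega⟩)

theorem phi_smooth (k : ℕ) : ContDiff ℝ ∞ (phi k) := by
  have hc : ∀ i : Fin (k + 4), ContDiff ℝ ∞ (fun x : EuclideanSpace ℝ (Fin (k + 4)) => x i) :=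
    fun i => (EuclideanSpace.proj (𝕜 := ℝ) i).contDiff
  have h1 : ContDiff ℝ ∞ (fun x : EuclideanSpace ℝ (Fin (k + 4)) =>
      1 + x ⟨1, by omega⟩ ^ 2 + x ⟨2, by omega⟩ ^ 2 + x ⟨3, by omega⟩ ^ 2) :=
    ((contDiff_const.add ((hc _).pow 2)).add ((hc _).pow 2)).add ((hc _).pow 2)
  have h2 := h1.sqrt (fun x => by positivity)
  exact ((contDiff_const.mul h2).exp.neg).mul (hc _).cos

theorem epi_eq (k : ℕ) : epigraph (phi k) = {x | 0 < DD (Lift.pr (io k) x)} := by
  ext x
  have h1 : front x (⟨0, by omega⟩ : Fin (k + 4)) = Lift.pr (io k) x 0 := rfl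
  have h2 : front x (⟨1, by omega⟩ : Fin (k + 4)) = Lift.pr (io k) x 1 := rfl
  have h3 : front x (⟨2, by omega⟩ : Fin (k + 4)) = Lift.pr (io k) x 2 := rfl
  have h4 : front x (⟨3, by omega⟩ : Fin (k + 4)) = Lift.pr (io k) x 3 := rfl
  have h5 : x (Fin.last (k + 4)) = Lift.pr (io k) x 4 := rfl
  simp only [epigraph, phi, mem_ofPred_eq, DD, NN, RR, sy, h1, h2, h3, h4, h5]
  generalize Lift.pr (io k) x = y
  set s := √(1 + y 1 ^ 2 + y 2 ^ 2 + y 3 ^ 2) with hs
  have e1 : Real.exp (-2 * s) = (Real.exp (2 * s))⁻¹ := by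
    rw [← Real.exp_neg]; ring_nf
  rw [e1]
  have hpos := Real.exp_pos (2 * s)
  constructor
  · intro h
    have h6 := mul_lt_mul_of_pos_right h (inv_pos.mpr hpos)
    have h7 : - Real.exp (2 * s) * Real.cos (y 0) * (Real.exp (2 * s))⁻¹ = - Real.cos (y 0) := by
      field_simp
    rw [h7] at h6
    linarith
  · intro h
    have h6 := mul_lt_mul_of_pos_right h hpos
    have h7 : (y 4 * (Real.exp (2 * s))⁻¹ + Real.cos (y 0)) * Real.exp (2 * s)
      = y 4 + Real.exp (2 * s) * Real.cos (y 0) := by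
      field_simp
    rw [h7] at h6
    linarith

theorem epigraph_preconnected {m : ℕ} {φ : EuclideanSpace ℝ (Fin m) → ℝ} (hφ : Continuous φ) :
    IsPreconnected (epigraph φ) := by
  have hfront : Continuous (front (m := m)) := by
    unfold front
    fun_prop
  let e : EuclideanSpace ℝ (Fin (m + 1)) := EuclideanSpace.single (Fin.last m) 1
  let g : EuclideanSpace ℝ (Fin (m + 1)) → EuclideanSpace ℝ (Fin (m + 1)) :=
    fun x => x + φ (front x) • e
  have hg : Continuous g := by fun_prop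
  have hfe : front e = 0 := by
    ext i
    simp [front, e]
  have hfadd : ∀ (x : EuclideanSpace ℝ (Fin (m + 1))) (t : ℝ), front (x + t • e) = front x := by
    intro x t
    ext i
    simp [front, e]
  have hlast : ∀ (x : EuclideanSpace ℝ (Fin (m + 1))) (t : ℝ),
      (x + t • e) (Fin.last m) = x (Fin.last m) + t := by
    intro x t; simp [e]
  have himg : epigraph φ = g '' {x | 0 < x (Fin.last m)} := by
    ext x
    constructor
    · intro hx
      refine ⟨x + (-φ (front x)) • e, ?_, ?_⟩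
      · show 0 < (x + (-φ (front x)) • e) (Fin.last m)
        rw [hlast]
        have : φ (front x) < x (Fin.last m) := hx
        linarith
      · show x + (-φ (front x)) • e + φ (front (x + (-φ (front x)) • e)) • e = x
        rw [hfadd, neg_smul, neg_add_cancel_right]
    · rintro ⟨y, hy, rfl⟩
      show φ (front (y + φ (front y) • e)) < (y + φ (front y) • e) (Fin.last m)
      rw [hfadd, hlast]
      have : 0 < y (Fin.last m) := hy
      linarith
  rw [himg]
  refine IsPreconnected.image ?_ _ hg.continuousOn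
  refine Convex.isPreconnected ?_
  have : {x : EuclideanSpace ℝ (Fin (m + 1)) | 0 < x (Fin.last m)} =
      (EuclideanSpace.proj (𝕜 := ℝ) (Fin.last m)) ⁻¹' (Ioi 0) := rfl
  rw [this]
  exact (convex_Ioi 0).linear_preimage (EuclideanSpace.proj (𝕜 := ℝ) (Fin.last m)).toLinearMap

theorem smooth_ok (k : ℕ) {γ : ℝ} (h0 : 0 < γ) (h1 : γ ≤ 1) :
    UniformlySmooth γ (epigraph (phi k)) := by
  rw [epi_eq]
  obtain ⟨M, hM⟩ := DD_deriv_bounds
  obtain ⟨r, hr, hr2⟩ := NN_tube
  obtain ⟨c, hc, hc2⟩ := DD_grad_lower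
  have hι := io_injective k
  have hD3 : ContDiff ℝ 3 DD := contDiff_infty.1 contDiff_DD 3
  refine uniformlySmooth_of_bounds (F := fun x => DD (Lift.pr (io k) x)) (c := c) (M := M) (r := r)
    (hD3.comp (Lift.pr (io k)).contDiff) hc hr ?_ ?_ h0 h1
  · intro x hx
    exact (hc2 _ hx).trans (Lift.norm_fderiv_lift_ge hι (hD3.differentiable (by norm_num)) x)
  · intro i hi hi3 x y hx hxy
    refine (Lift.norm_iteratedFDeriv_lift hι hD3 (by exact_mod_cast hi3) y).trans ?_
    refine hM i hi hi3 _ (hr2 (Lift.pr (io k) x) _ ?_ ((Lift.dist_pr_le hι x y).trans hxy))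
    have : NN (Lift.pr (io k) x) = - Real.cos (Lift.pr (io k) x 0) := by
      have h2 : DD (Lift.pr (io k) x) = NN (Lift.pr (io k) x) + Real.cos (Lift.pr (io k) x 0) := rfl
      linarith
    rw [this, abs_neg]
    exact Real.abs_cos_le_one _

theorem reaction_ok {γ : ℝ} (h0 : 0 < γ) (h1 : γ ≤ 1) : IsPositiveReaction γ ff := by
  obtain ⟨hf, -, f0, f1, fp, fn, d0, d1, dl, db, -⟩ := ff_ok
  refine ⟨⟨deriv ff, ?_, ⟨3, ?_⟩, ⟨8, ?_⟩, by rw [d0]; norm_num, by rw [d1]; norm_num⟩,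
    f0, f1, fp, fn⟩
  · intro u _
    exact ((hf.differentiable (by norm_num)) u).hasDerivAt.hasDerivWithinAt
  · intro u _
    rw [abs_le]; constructor <;> linarith [(db u).1, (db u).2]
  · intro u v _ _
    rcases le_or_gt (|u - v|) 1 with h | h
    · refine (dl u v).trans ?_
      refine mul_le_mul_of_nonneg_left ?_ (by norm_num)
      calc |u - v| = |u - v| ^ (1 : ℝ) := (Real.rpow_one _).symm
        _ ≤ |u - v| ^ γ := by
          rcases eq_or_lt_of_le (abs_nonneg (u - v)) with h2 | h2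
          · rw [← h2, Real.zero_rpow h0.ne', Real.zero_rpow one_ne_zero]
          · exact Real.rpow_le_rpow_of_exponent_ge h2 h h1
    · have h3 : |deriv ff u - deriv ff v| ≤ 4 := by
        rw [abs_le]; constructor <;> linarith [(db u).1, (db u).2, (db v).1, (db v).2]
      have h4 : (1 : ℝ) ≤ |u - v| ^ γ := Real.one_le_rpow h.le h0.le
      linarith

theorem sol_of (k : ℕ) {b : E5 → ℝ} (hb : IsBarrier 4 b) (hpos : ∀ x, 0 < b x ↔ 0 < DD x)
    {u : E5 → ℝ} (huc : Continuous u)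
    (hu01 : ∀ x, 0 ≤ u x ∧ u x ≤ 1) (hu0 : ∀ x, b x ≤ 0 → u x = 0)
    (hu2 : ContDiffOn ℝ 2 u {x | 0 < b x}) (hue : ∀ x, 0 < b x → -(Δ u x) = ff (u x))
    (hne : ∃ x, 0 < b x ∧ 0 < u x) :
    IsPositiveBoundedSolution ff (epigraph (phi k)) (fun x => u (Lift.pr (io k) x)) := by
  have hι := io_injective k
  have hset : epigraph (phi k) = {x | 0 < b (Lift.pr (io k) x)} := by
    rw [epi_eq]; ext x; exact (hpos _).symm
  have hopen : IsOpen {x : E5 | 0 < b x} := isOpen_lt continuous_const hb.smooth.continuous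
  have hbc : Continuous (fun x => b (Lift.pr (io k) x)) :=
    hb.smooth.continuous.comp (Lift.pr (io k)).continuous
  have hopen' : IsOpen {x | 0 < b (Lift.pr (io k) x)} := isOpen_lt continuous_const hbc
  obtain ⟨hf, -, f0, f1, fp, fn, d0, d1, dl, db, -⟩ := ff_ok
  have hfn : ∀ t, 0 ≤ t → t ≤ 1 → 0 ≤ ff t := by
    intro t h0 h1
    rcases eq_or_lt_of_le h0 with h | h
    · rw [← h, f0]
    · rcases eq_or_lt_of_le h1 with h' | h'
      · rw [h', f1]
      · exact (fp t h h').le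
  have hu2' : ContDiffOn ℝ 2 (fun x => u (Lift.pr (io k) x)) {x | 0 < b (Lift.pr (io k) x)} :=
    hu2.comp (Lift.pr (io k)).contDiff.contDiffOn (fun x hx => hx)
  have heq : ∀ x ∈ {x | 0 < b (Lift.pr (io k) x)},
      -(Δ (fun x => u (Lift.pr (io k) x)) x) = ff (u (Lift.pr (io k) x)) := by
    intro x hx
    rw [Lift.laplacian_lift hι hopen hu2 hx]
    exact hue _ hx
  rw [hset]
  refine ⟨hu2', (huc.comp (Lift.pr (io k)).continuous).continuousOn, ⟨1, fun x _ => ?_⟩,
    ?_, ?_, heq⟩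
  · rw [abs_of_nonneg (hu01 _).1]; exact (hu01 _).2
  · refine strong_max hopen' ?_ hu2' (fun x _ => (hu01 _).1) (fun x hx => ?_) ?_
    · rw [← hset]; exact epigraph_preconnected (phi_smooth k).continuous
    · have h1 := heq x hx
      have h2 := hfn (u (Lift.pr (io k) x)) (hu01 _).1 (hu01 _).2
      linarith
    · obtain ⟨y, hy1, hy2⟩ := hne
      exact ⟨Lift.em (io k) y, by simpa only [mem_ofPred_eq, Lift.pr_em hι] using hy1,
        by simpa only [Lift.pr_em hι] using hy2⟩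
  · intro x hx
    apply hu0
    have h1 : frontier {x | 0 < b (Lift.pr (io k) x)} ⊆ {x | 0 = b (Lift.pr (io k) x)} :=
      frontier_lt_subset_eq continuous_const hbc
    exact (h1 hx).symm.le

/-- In every dimension `d = m + 1 ≥ 5` there are a reaction `f` and a smooth function `φ` such
that for every `γ ∈ (0,1]` the function `f` is a positive reaction of class `C^{1,γ}` and the
epigraph of `φ` is uniformly `C^{2,γ}` smooth, but the Dirichlet problem has two distinct positive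
bounded solutions. -/
theorem main (m : ℕ) (hm : 4 ≤ m) : ∃ (f : ℝ → ℝ) (φ : EuclideanSpace ℝ (Fin m) → ℝ),
    ContDiff ℝ ∞ φ ∧
    (∀ γ : ℝ, 0 < γ → γ ≤ 1 → IsPositiveReaction γ f ∧ UniformlySmooth γ (epigraph φ)) ∧
    ∃ u v : EuclideanSpace ℝ (Fin (m + 1)) → ℝ, IsPositiveBoundedSolution f (epigraph φ) u ∧
      IsPositiveBoundedSolution f (epigraph φ) v ∧ ∃ x ∈ epigraph φ, u x ≠ v x := by
  obtain ⟨k, rfl⟩ := Nat.exists_eq_add_of_le' hm
  refine ⟨ff, phi k, phi_smooth k, fun γ h0 h1 => ⟨reaction_ok h0 h1, smooth_ok k h0 h1⟩, ?_⟩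
  obtain ⟨b, hb, hpos, hzero⟩ := barrier_ok
  have hnn : ∀ x, 0 ≤ b x ↔ 0 ≤ DD x := by
    intro x
    rw [le_iff_lt_or_eq, le_iff_lt_or_eq, hpos, eq_comm, hzero, eq_comm]
  have hs1 : {x | 0 ≤ b x} = {x | 0 ≤ DD x} := by ext x; exact hnn x
  have hs2 : {x | 0 < b x} = {x | 0 < DD x} := by ext x; exact hpos x
  obtain ⟨hf, hmono, f0, f1, fp, fn, d0, d1, dl, db, -⟩ := ff_ok
  have hd : Module.finrank ℝ E5 = 5 := by simp
  obtain ⟨sw1, sw2, sw3, sw4⟩ := super_ok
  obtain ⟨vc, v01, vD, vs⟩ := sub_ok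
  obtain ⟨sc, s01, sD, sU, ⟨sp1, sp2⟩, ss⟩ := seed_ok
  obtain ⟨xs, hxs, hlt⟩ := point_ok
  obtain ⟨u, uc, u01, u0, ub, u2, ue⟩ := nonlinear_exists hd (by norm_num) hb hf hmono f0 f1
    (U := wbar) (v := vseed) (by rw [hs1]; exact sw1) (fun x hx => sw2 x ((hnn x).1 hx))
    (by rw [hs2]; exact sw3) (fun x hx h => sw4 x ((hpos x).1 hx) h)
    sc.continuousOn (fun x hx => (sD x (((hzero x).1 hx).le)).le)
    (fun x hx => sU x (((hpos x).1 hx).le)) (fun x _ h => ss x h)
  obtain ⟨v, wc, w01, w0, wb, w2, we⟩ := nonlinear_exists hd (by norm_num) hb hf hmono f0 f1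
    (U := fun _ => 1) (v := vlow) continuousOn_const (fun x _ => ⟨zero_le_one, le_rfl⟩)
    contDiffOn_const (fun x _ h => absurd h (lt_irrefl _))
    vc.continuousOn (fun x hx => (vD x (((hzero x).1 hx).le)).le)
    (fun x _ => (v01 x).2.trans (by norm_num)) (fun x _ h => vs x h)
  have hxb : 0 < b xs := (hpos xs).2 hxs
  have hvpos : 0 < vlow xs := lt_of_le_of_lt (sw2 xs hxs.le).1 hlt
  refine ⟨_, _, sol_of k hb hpos uc u01 u0 u2 ue ⟨pseed, (hpos _).2 sp1, ?_⟩,
    sol_of k hb hpos wc w01 w0 w2 we ⟨xs, hxb, ?_⟩, Lift.em (io k) xs, ?_, ?_⟩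
  · exact lt_of_lt_of_le sp2 (ub pseed ((hpos _).2 sp1)).1
  · exact lt_of_lt_of_le hvpos (wb xs hxb).1
  · rw [epi_eq]
    simpa only [mem_ofPred_eq, Lift.pr_em (io_injective k)] using hxs
  · simp only [Lift.pr_em (io_injective k)]
    have h1 := (ub xs hxb).2
    have h2 := (wb xs hxb).1
    exact ne_of_lt (lt_of_le_of_lt h1 (lt_of_lt_of_le hlt h2))

end Pool.Agent.Lib.MP_3eb465_an.Main
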