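import Pool.Agent.Lib.MP_3eb465_an.Linear

/-!
Monotone iteration between a subsolution and a supersolution.
-/

namespace Pool.Agent.Lib.MP_3eb465_an

open MeasureTheory InnerProductSpace Laplacian Set Filter Topology
open scoped ContDiff RealInnerProductSpace

section Nonlinear

variable {E : Type*} [NormedAddCommGroup E] [InnerProductSpace ℝ E] [FiniteDimensional ℝ E]

/-- admissible inputs of the iteration -/
structure Adm (b w : E → ℝ) : Prop where
  cont : ContinuousOn w {x | 0 ≤ b x}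
  rng : ∀ x, 0 ≤ b x → 0 ≤ w x ∧ w x ≤ 1
  c1 : ContDiffOn ℝ 1 w {x | 0 < b x}

/-- `w'` is the outcome of one step of the iteration from `w` -/
structure IterStep (K : ℝ) (f : ℝ → ℝ) (b w w' : E → ℝ) : Prop where
  cont : Continuous w'
  rng : ∀ x, 0 ≤ w' x ∧ w' x ≤ 1
  zero : ∀ x, b x ≤ 0 → w' x = 0
  c2 : ContDiffOn ℝ 2 w' {x | 0 < b x}
  eqn : ∀ x, 0 < b x → -(Δ w' x) + K * w' x = f (w x) + K * w x

theorem IterStep.adm {K : ℝ} {f : ℝ → ℝ} {b w w' : E → ℝ} (h : IterStep K f b w w') :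
    Adm b w' :=
  ⟨h.cont.continuousOn, fun x _ => h.rng x, h.c2.of_le (by norm_num)⟩

theorem IterStep.lap {K : ℝ} {f : ℝ → ℝ} {b w w' : E → ℝ} (h : IterStep K f b w w') {x : E}
    (hx : 0 < b x) : Δ w' x = K * w' x - (f (w x) + K * w x) := by
  have := h.eqn x hx
  linarith

theorem IterStep.cd {K : ℝ} {f : ℝ → ℝ} {b w w' : E → ℝ} (h : IterStep K f b w w')
    (hb : Continuous b) {x : E} (hx : 0 < b x) : ContDiffAt ℝ 2 w' x :=
  h.c2.contDiffAt ((isOpen_lt continuous_const hb).mem_nhds hx)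

/-- comparison principle on `{0 < b}` -/
theorem comparison_b {K : ℝ} (hK : 0 < K) {b : E → ℝ} (hb : Continuous b) {D : E → ℝ}
    (hD : ContinuousOn D {x | 0 ≤ b x}) (hM : ∃ M : ℝ, ∀ x, 0 < b x → D x ≤ M)
    (hbd : ∀ x, b x = 0 → D x ≤ 0)
    (hsub : ∀ x, 0 < b x → 0 < D x → ContDiffAt ℝ 2 D x ∧ K * D x ≤ Δ D x) :
    ∀ x, 0 < b x → D x ≤ 0 := by
  have hcl : closure {x | 0 < b x} ⊆ {x | 0 ≤ b x} :=
    closure_minimal (fun x (hx : 0 < b x) => hx.le) (isClosed_le continuous_const hb)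
  have hfr : frontier {x | 0 < b x} ⊆ {x | b x = 0} := by
    intro x hx
    exact (frontier_lt_subset_eq continuous_const hb hx).symm
  exact comparison hK (isOpen_lt continuous_const hb) (hD.mono hcl) hM
    (fun x hx => hbd x (hfr hx)) hsub

theorem lap_sub {f₁ f₂ : E → ℝ} {x : E} (h₁ : ContDiffAt ℝ 2 f₁ x) (h₂ : ContDiffAt ℝ 2 f₂ x) :
    Δ (fun y => f₁ y - f₂ y) x = Δ f₁ x - Δ f₂ x :=
  h₁.laplacian_sub h₂

section Step

variable {K : ℝ} {b : E → ℝ} {f : ℝ → ℝ}

theorem step_le_super (hK : 0 < K) (hb : Continuous b) {U w' : E → ℝ}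
    (hUc : ContinuousOn U {x | 0 ≤ b x}) (hU0 : ∀ x, 0 ≤ b x → 0 ≤ U x)
    (hUs : ∀ x, 0 < b x → U x < 1 → ContDiffAt ℝ 2 U x ∧ f (U x) ≤ -(Δ U x))
    (hs : IterStep K f b U w') : ∀ x, 0 < b x → w' x ≤ U x := by
  have key := comparison_b hK hb (D := fun x => w' x - U x) (hs.cont.continuousOn.sub hUc)
    ⟨1, fun x hx => by have := (hs.rng x).2; have := hU0 x hx.le; linarith⟩
    (fun x hx => by
      have h1 := hs.zero x hx.le
      have h2 := hU0 x hx.ge
      linarith)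
    (fun x hx hpos => by
      have hU1 : U x < 1 := by have := (hs.rng x).2; linarith
      obtain ⟨hc, hl⟩ := hUs x hx hU1
      refine ⟨(hs.cd hb hx).sub hc, ?_⟩
      rw [lap_sub (hs.cd hb hx) hc, hs.lap hx]
      nlinarith)
  intro x hx
  have := key x hx
  linarith

theorem step_mono (hK : 0 < K) (hb : Continuous b) (hmono : Monotone fun u => f u + K * u)
    {w₁ w₁' w₂ w₂' : E → ℝ} (h₁ : IterStep K f b w₁ w₁') (h₂ : IterStep K f b w₂ w₂')
    (hle : ∀ x, 0 < b x → w₁ x ≤ w₂ x) : ∀ x, 0 < b x → w₁' x ≤ w₂' x := by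
  have key := comparison_b hK hb (D := fun x => w₁' x - w₂' x)
    (h₁.cont.sub h₂.cont).continuousOn
    ⟨1, fun x hx => by have := (h₁.rng x).2; have := (h₂.rng x).1; linarith⟩
    (fun x hx => by
      have e1 := h₁.zero x hx.le
      have e2 := h₂.zero x hx.le
      linarith)
    (fun x hx hpos => by
      refine ⟨(h₁.cd hb hx).sub (h₂.cd hb hx), ?_⟩
      rw [lap_sub (h₁.cd hb hx) (h₂.cd hb hx), h₁.lap hx, h₂.lap hx]
      have := hmono (hle x hx)
      simp only at this ⊢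
      nlinarith)
  intro x hx
  have := key x hx
  linarith

theorem sub_le_step (hK : 0 < K) (hb : Continuous b) (hmono : Monotone fun u => f u + K * u)
    {v w w' : E → ℝ} (hvc : ContinuousOn v {x | 0 ≤ b x}) (hv0 : ∀ x, b x = 0 → v x ≤ 0)
    (hv1 : ∀ x, 0 < b x → v x ≤ 1)
    (hvs : ∀ x, 0 < b x → 0 < v x → ContDiffAt ℝ 2 v x ∧ -(Δ v x) ≤ f (v x))
    (hs : IterStep K f b w w') (hle : ∀ x, 0 < b x → v x ≤ w x) :
    ∀ x, 0 < b x → v x ≤ w' x := by
  have key := comparison_b hK hb (D := fun x => v x - w' x)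
    (hvc.sub hs.cont.continuousOn)
    ⟨1, fun x hx => by have := (hs.rng x).1; have := hv1 x hx; linarith⟩
    (fun x hx => by
      have e1 := hs.zero x hx.le
      have e2 := hv0 x hx
      linarith)
    (fun x hx hpos => by
      have hvp : 0 < v x := by have := (hs.rng x).1; linarith
      obtain ⟨hc, hl⟩ := hvs x hx hvp
      refine ⟨hc.sub (hs.cd hb hx), ?_⟩
      rw [lap_sub hc (hs.cd hb hx), hs.lap hx]
      have := hmono (hle x hx)
      simp only at this ⊢
      nlinarith)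
  intro x hx
  have := key x hx
  linarith

end Step

variable [MeasurableSpace E] [BorelSpace E]

theorem exists_step (hd : Module.finrank ℝ E = 5) {K : ℝ} (hK : 0 < K) {b : E → ℝ}
    (hb : IsBarrier K b) {f : ℝ → ℝ} (hf : ContDiff ℝ 1 f) (hmono : Monotone fun u => f u + K * u)
    (hf0 : f 0 = 0) (hf1 : f 1 = 0) {w : E → ℝ} (hw : Adm b w) :
    ∃ w', IterStep K f b w w' := by
  have hbc : Continuous b := hb.smooth.continuous
  have hcl : IsClosed {x | 0 ≤ b x} := isClosed_le continuous_const hbc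
  have hFc : Continuous fun u => f u + K * u := hf.continuous.add (continuous_const.mul continuous_id)
  let F : C({x | 0 ≤ b x}, ℝ) := ⟨fun x => f (w x) + K * w x, by
    exact hFc.comp (continuousOn_iff_continuous_domRestrict.1 hw.cont)⟩
  have hF : ∀ x, F x ∈ Icc (0 : ℝ) K := by
    rintro ⟨x, hx⟩
    have h1 := hw.rng x hx
    have h2 := hmono h1.1
    have h3 := hmono h1.2
    simp only [hf0, hf1, mul_zero, mul_one, zero_add] at h2 h3
    exact ⟨h2, h3⟩
  obtain ⟨g, hg, hgF⟩ := F.exists_restrict_eq_forall_mem_of_closed hF ⟨0, le_rfl, hK.le⟩ hcl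
  have hgeq : ∀ x, 0 ≤ b x → g x = f (w x) + K * w x := by
    intro x hx
    have := DFunLike.congr_fun hgF (⟨x, hx⟩ : {x | 0 ≤ b x})
    exact this
  have hg1 : ContDiffOn ℝ 1 g {x | 0 < b x} := by
    have h1 : ContDiffOn ℝ 1 (fun x => f (w x) + K * w x) {x | 0 < b x} :=
      (hf.comp_contDiffOn hw.c1).add (contDiffOn_const.mul hw.c1)
    exact h1.congr fun x hx => hgeq x (le_of_lt hx)
  obtain ⟨w', h1, h2, h3, h4, h5⟩ := linear_exists hd hK hb (g := g) (M := K) g.continuous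
    (fun x => (hg x).1) (fun x => (hg x).2) hg1
  refine ⟨w', h1, fun x => ⟨(h2 x).1, ?_⟩, h3, h4, fun x hx => ?_⟩
  · have := (h2 x).2
    rwa [div_self hK.ne'] at this
  · rw [h5 x hx, hgeq x hx.le]

theorem nonlinear_exists (hd : Module.finrank ℝ E = 5) {K : ℝ} (hK : 0 < K) {b : E → ℝ}
    (hb : IsBarrier K b) {f : ℝ → ℝ} (hf : ContDiff ℝ 1 f) (hmono : Monotone fun u => f u + K * u)
    (hf0 : f 0 = 0) (hf1 : f 1 = 0) {U v : E → ℝ}
    (hUc : ContinuousOn U {x | 0 ≤ b x}) (hU01 : ∀ x, 0 ≤ b x → 0 ≤ U x ∧ U x ≤ 1)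
    (hU1 : ContDiffOn ℝ 1 U {x | 0 < b x})
    (hUs : ∀ x, 0 < b x → U x < 1 → ContDiffAt ℝ 2 U x ∧ f (U x) ≤ -(Δ U x))
    (hvc : ContinuousOn v {x | 0 ≤ b x}) (hv0 : ∀ x, b x = 0 → v x ≤ 0)
    (hvU : ∀ x, 0 < b x → v x ≤ U x)
    (hvs : ∀ x, 0 < b x → 0 < v x → ContDiffAt ℝ 2 v x ∧ -(Δ v x) ≤ f (v x)) :
    ∃ u : E → ℝ, Continuous u ∧ (∀ x, 0 ≤ u x ∧ u x ≤ 1) ∧ (∀ x, b x ≤ 0 → u x = 0) ∧
      (∀ x, 0 < b x → v x ≤ u x ∧ u x ≤ U x) ∧ ContDiffOn ℝ 2 u {x | 0 < b x} ∧
      ∀ x, 0 < b x → -(Δ u x) = f (u x) := by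
  have hbc : Continuous b := hb.smooth.continuous
  have hΩ : IsOpen {x | 0 < b x} := isOpen_lt continuous_const hbc
  -- the iteration
  choose! st hst using fun (w : E → ℝ) (hw : Adm b w) =>
    exists_step hd hK hb hf hmono hf0 hf1 hw
  set w : ℕ → E → ℝ := fun n => st^[n] U with hw
  have hw0 : w 0 = U := rfl
  have hws : ∀ n, w (n + 1) = st (w n) := fun n => Function.iterate_succ_apply' st n U
  have hadm : ∀ n, Adm b (w n) := by
    intro n
    induction n with
    | zero => exact ⟨hUc, hU01, hU1⟩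
    | succ n ih => rw [hws]; exact (hst _ ih).adm
  have hstep : ∀ n, IterStep K f b (w n) (w (n + 1)) := fun n => by
    rw [hws]; exact hst _ (hadm n)
  have hdec : ∀ n, ∀ x, 0 < b x → w (n + 1) x ≤ w n x := by
    intro n
    induction n with
    | zero => exact step_le_super hK hbc hUc (fun x hx => (hU01 x hx).1) hUs (hstep 0)
    | succ n ih => exact step_mono hK hbc hmono (hstep (n + 1)) (hstep n) ih
  have hvw : ∀ n, ∀ x, 0 < b x → v x ≤ w n x := by
    intro n
    induction n with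
    | zero => exact hvU
    | succ n ih =>
      exact sub_le_step hK hbc hmono hvc hv0
        (fun x hx => (hvU x hx).trans (hU01 x hx.le).2) hvs (hstep n) ih
  -- the limit
  have hanti : ∀ x, Antitone fun n => w (n + 1) x := by
    intro x
    refine antitone_nat_of_succ_le fun n => ?_
    rcases lt_or_ge 0 (b x) with hx | hx
    · exact hdec (n + 1) x hx
    · rw [(hstep n).zero x hx, (hstep (n + 1)).zero x hx]
  have hbdd : ∀ x, BddBelow (range fun n => w (n + 1) x) := fun x =>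
    ⟨0, by rintro _ ⟨n, rfl⟩; exact ((hstep n).rng x).1⟩
  set u : E → ℝ := fun x => ⨅ n, w (n + 1) x with hu
  have htend : ∀ x, Tendsto (fun n => w (n + 1) x) atTop (𝓝 (u x)) := fun x =>
    tendsto_atTop_ciInf (hanti x) (hbdd x)
  have hurng : ∀ x, 0 ≤ u x ∧ u x ≤ 1 := fun x =>
    ⟨le_ciInf fun n => ((hstep n).rng x).1, (ciInf_le (hbdd x) 0).trans ((hstep 0).rng x).2⟩
  have huw : ∀ x, u x ≤ w 1 x := fun x => ciInf_le (hbdd x) 0
  have huz : ∀ x, b x ≤ 0 → u x = 0 := by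
    intro x hx
    refine le_antisymm ?_ (hurng x).1
    rw [← (hstep 0).zero x hx]
    exact huw x
  -- weak equations
  have hcw : ∀ n, Continuous (w (n + 1)) := fun n => (hstep n).cont
  obtain ⟨Mf, hMf⟩ : ∃ M : ℝ, ∀ t ∈ Icc (0 : ℝ) 1, |f t| ≤ M := by
    obtain ⟨M, hM⟩ := isCompact_Icc.exists_bound_of_continuousOn (hf.continuous.continuousOn
      (s := Icc (0 : ℝ) 1))
    exact ⟨M, fun t ht => by simpa using hM t ht⟩
  have hMf0 : 0 ≤ Mf := (abs_nonneg _).trans (hMf 0 ⟨le_rfl, zero_le_one⟩)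
  have hweak : ∀ n, WeakEq {x | 0 < b x} (w (n + 2))
      (fun x => f (w (n + 1) x) + K * w (n + 1) x - K * w (n + 2) x) := by
    intro n
    refine (weakEq_of_classical hΩ (hstep (n + 1)).c2).congr (fun x _ => rfl) ?_
    intro x hx
    have := (hstep (n + 1)).eqn x hx
    simp only
    linarith
  have hlim := WeakEq.limit hd hΩ (u := fun n => w (n + 2))
    (h := fun n x => f (w (n + 1) x) + K * w (n + 1) x - K * w (n + 2) x)
    (u' := u) (h' := fun x => f (u x)) (M := Mf + 1 + K + K)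
    (fun n => (hcw (n + 1)).aestronglyMeasurable)
    (fun n x => by
      have h1 := (hstep (n + 1)).rng x
      rw [abs_of_nonneg h1.1]
      linarith [h1.2])
    (fun n => (hcw (n + 1)).continuousOn)
    (fun n => by
      refine Continuous.aestronglyMeasurable ?_
      exact ((hf.continuous.comp (hcw n)).add (continuous_const.mul (hcw n))).sub
        (continuous_const.mul (hcw (n + 1))))
    (fun n x => by
      have h1 := (hstep (n + 1)).rng x
      have h2 := (hstep n).rng x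
      have h3 := hMf _ h2
      rw [abs_le] at h3 ⊢
      constructor
      · nlinarith [h3.1, h1.1, h1.2, h2.1, h2.2]
      · nlinarith [h3.2, h1.1, h1.2, h2.1, h2.2])
    hweak
    (fun x => (htend x).comp (tendsto_add_atTop_nat 1))
    (fun x _ => by
      have h1 := htend x
      have h2 := h1.comp (tendsto_add_atTop_nat 1)
      have h3 := ((hf.continuous.tendsto _).comp h1)
      have h4 := (h3.add (h1.const_mul K)).sub (h2.const_mul K)
      have e : f (u x) + K * u x - K * u x = f (u x) := by ring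
      rw [e] at h4
      exact h4)
  obtain ⟨huc, huweak⟩ := hlim
  have hucont : Continuous u := by
    rw [continuous_iff_continuousAt]
    intro x
    rcases lt_or_ge 0 (b x) with hx | hx
    · exact huc.continuousAt (hΩ.mem_nhds hx)
    · have h1 : Tendsto (w 1) (𝓝 x) (𝓝 (w 1 x)) := ((hcw 0).continuousAt)
      rw [(hstep 0).zero x hx] at h1
      have h2 : Tendsto u (𝓝 x) (𝓝 0) :=
        squeeze_zero (fun y => (hurng y).1) (fun y => huw y) h1
      rw [ContinuousAt, huz x hx]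
      exact h2
  have hub : ∃ M : ℝ, ∀ x, |u x| ≤ M := ⟨1, fun x => by
    rw [abs_of_nonneg (hurng x).1]; exact (hurng x).2⟩
  have hfub : ∃ M : ℝ, ∀ x, |f (u x)| ≤ M := ⟨Mf, fun x => hMf _ (hurng x)⟩
  have hfum : AEStronglyMeasurable (fun x => f (u x)) (volume : Measure E) :=
    (hf.continuous.comp hucont).aestronglyMeasurable
  have hu1 : ContDiffOn ℝ 1 u {x | 0 < b x} :=
    WeakEq.contDiffOn_one hd hΩ hucont.aestronglyMeasurable hub hucont.continuousOn hfum hfub
      huweak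
  obtain ⟨hu2, heq⟩ := WeakEq.classical hd hΩ hucont.aestronglyMeasurable hub
    hucont.continuousOn hfum hfub (hf.comp_contDiffOn hu1) huweak
  refine ⟨u, hucont, hurng, huz, fun x hx => ⟨?_, ?_⟩, hu2, heq⟩
  · exact le_ciInf fun n => hvw (n + 1) x hx
  · exact (huw x).trans (hdec 0 x hx)

end Nonlinear

end Pool.Agent.Lib.MP_3eb465_an
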