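import Mathlib

/-!
The notions of problem MP_3eb465_an: positive reactions, epigraphs, uniform `C^{2,γ}` smoothness
and positive bounded classical solutions of the Dirichlet problem.
-/

namespace Pool.Agent.Lib.MP_3eb465_an

open MeasureTheory InnerProductSpace Laplacian Set Filter Topology
open scoped ContDiff RealInnerProductSpace

/-- `f` is a positive reaction of class `C^{1,γ}` on `[0,∞)` (only the values of `f` on `[0,∞)`
matter): it has a bounded derivative `f'` on `[0,∞)` (one sided at `0`) which is `γ`-Hölder,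
`f(0) = f(1) = 0`, `f > 0` on `(0,1)`, `f'(0) > 0`, `f < 0` on `(1,∞)` and `f'(1) < 0`. -/
structure IsPositiveReaction (γ : ℝ) (f : ℝ → ℝ) : Prop where
  smooth : ∃ f' : ℝ → ℝ, (∀ u, 0 ≤ u → HasDerivWithinAt f (f' u) (Ici 0) u) ∧
    (∃ C : ℝ, ∀ u, 0 ≤ u → |f' u| ≤ C) ∧
    (∃ C : ℝ, ∀ u v, 0 ≤ u → 0 ≤ v → |f' u - f' v| ≤ C * |u - v| ^ γ) ∧ 0 < f' 0 ∧ f' 1 < 0
  zero : f 0 = 0
  one : f 1 = 0
  pos : ∀ u, 0 < u → u < 1 → 0 < f u
  neg : ∀ u, 1 < u → f u < 0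

/-- `u` is a positive bounded classical solution of `-Δu = f(u)` in `Ω`, `u = 0` on `∂Ω`. -/
structure IsPositiveBoundedSolution {V : Type*} [NormedAddCommGroup V] [InnerProductSpace ℝ V]
    [FiniteDimensional ℝ V] (f : ℝ → ℝ) (Ω : Set V) (u : V → ℝ) : Prop where
  smooth : ContDiffOn ℝ 2 u Ω
  cont : ContinuousOn u (closure Ω)
  bounded : ∃ M : ℝ, ∀ x ∈ Ω, |u x| ≤ M
  pos : ∀ x ∈ Ω, 0 < u x
  boundary : ∀ x ∈ frontier Ω, u x = 0
  eqn : ∀ x ∈ Ω, -(Δ u x) = f (u x)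

/-- `ψ` is of class `C^{2,γ}` on the whole space with `C^{2,γ}` norm bounded in terms of `M`:
`ψ`, its first and its second derivative are bounded by `M` and the second derivative is
`γ`-Hölder with constant `M`. -/
structure C2HolderBound {V : Type*} [NormedAddCommGroup V] [NormedSpace ℝ V] (γ M : ℝ)
    (ψ : V → ℝ) : Prop where
  smooth : ContDiff ℝ 2 ψ
  bound0 : ∀ x, |ψ x| ≤ M
  bound1 : ∀ x, ‖iteratedFDeriv ℝ 1 ψ x‖ ≤ M
  bound2 : ∀ x, ‖iteratedFDeriv ℝ 2 ψ x‖ ≤ M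
  holder : ∀ x y, ‖iteratedFDeriv ℝ 2 ψ x - iteratedFDeriv ℝ 2 ψ y‖ ≤ M * ‖x - y‖ ^ γ

/-- the first `m` coordinates -/
noncomputable def front {m : ℕ} (x : EuclideanSpace ℝ (Fin (m + 1))) : EuclideanSpace ℝ (Fin m) :=
  WithLp.toLp 2 (fun i : Fin m => x i.castSucc)

/-- the open epigraph of `φ` -/
def epigraph {m : ℕ} (φ : EuclideanSpace ℝ (Fin m) → ℝ) : Set (EuclideanSpace ℝ (Fin (m + 1))) :=
  {x | φ (front x) < x (Fin.last m)}

/-- `Ω` is uniformly `C^{2,γ}` smooth: there are `r > 0` and `M` such that around every boundary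
point `x₀`, after a rigid motion `T`, the part of `Ω` in the ball `B_r(x₀)` is the part of the ball
lying above the graph of a `C^{2,γ}` function with `C^{2,γ}` norm bounded in terms of `M`. -/
def UniformlySmooth {m : ℕ} (γ : ℝ) (Ω : Set (EuclideanSpace ℝ (Fin (m + 1)))) : Prop :=
  ∃ r M : ℝ, 0 < r ∧ ∀ x₀ ∈ frontier Ω,
    ∃ (T : EuclideanSpace ℝ (Fin (m + 1)) ≃ᵃⁱ[ℝ] EuclideanSpace ℝ (Fin (m + 1)))
      (ψ : EuclideanSpace ℝ (Fin m) → ℝ), C2HolderBound γ M ψ ∧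
        ∀ x ∈ Metric.ball x₀ r, (x ∈ Ω ↔ ψ (front (T x)) < (T x) (Fin.last m))

end Pool.Agent.Lib.MP_3eb465_an
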