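import Pool.Agent.Lib.MP_3eb465_an.Defs

/-!
Job J4 (first part): interior regularity of weak solutions of `-Δ u = h`, given a parametrix.
-/

namespace Pool.Agent.Lib.MP_3eb465_an.RegPriv

open MeasureTheory InnerProductSpace Laplacian Set Filter Topology
open scoped ContDiff RealInnerProductSpace Convolution

variable {E : Type*} [NormedAddCommGroup E] [InnerProductSpace ℝ E] [FiniteDimensional ℝ E]

/-- Laplacian as a sum of iterated directional derivatives. -/
theorem lap_eq_sum {f : E → ℝ} {x : E} (hf : ContDiffAt ℝ 2 f x) :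
    Δ f x = ∑ i, fderiv ℝ (fun y => fderiv ℝ f y (stdOrthonormalBasis ℝ E i)) x
      (stdOrthonormalBasis ℝ E i) := by
  rw [laplacian_eq_iteratedFDeriv_stdOrthonormalBasis]
  refine Finset.sum_congr rfl fun i _ => ?_
  rw [iteratedFDeriv_two_apply]
  have h1 : DifferentiableAt ℝ (fderiv ℝ f) x :=
    (hf.fderiv_right (m := 1) (by norm_num)).differentiableAt (by norm_num)
  have h2 := fderiv_clm_apply h1 (differentiableAt_const (stdOrthonormalBasis ℝ E i))
  simp only [fderiv_fun_const] at h2
  simp only [Matrix.cons_val_zero, Matrix.cons_val_one]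
  rw [h2]
  simp

theorem lap_eq_zero_of_notMem {f : E → ℝ} {x : E} (hx : x ∉ tsupport f) : Δ f x = 0 := by
  rw [notMem_tsupport_iff_eventuallyEq] at hx
  have h := (laplacian_congr_nhds hx).eq_of_nhds
  rw [h]
  have : (0 : E → ℝ) = fun _ => 0 := rfl
  rw [this, laplacian_const]
  rfl

theorem contDiffOn_dir {f : E → ℝ} {s : Set E} (hs : IsOpen s) (hf : ContDiffOn ℝ 2 f s) (v : E) :
    ContDiffOn ℝ 1 (fun y => fderiv ℝ f y v) s := by
  have h1 : ContDiffOn ℝ 1 (fderiv ℝ f) s := hf.fderiv_of_isOpen hs (by norm_num)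
  exact h1.clm_apply contDiffOn_const

theorem continuousOn_dir {f : E → ℝ} {s : Set E} (hs : IsOpen s) (hf : ContDiffOn ℝ 1 f s) (v : E) :
    ContinuousOn (fun y => fderiv ℝ f y v) s := by
  have h1 : ContinuousOn (fderiv ℝ f) s := hf.continuousOn_fderiv_of_isOpen hs (by norm_num)
  exact h1.clm_apply continuousOn_const

theorem continuousOn_lap {f : E → ℝ} {s : Set E} (hs : IsOpen s)
    (hf : ContDiffOn ℝ 2 f s) : ContinuousOn (Δ f) s := by
  have : EqOn (Δ f) (fun x => ∑ i, fderiv ℝ (fun y => fderiv ℝ f y (stdOrthonormalBasis ℝ E i)) x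
      (stdOrthonormalBasis ℝ E i)) s := fun x hx => lap_eq_sum (hf.contDiffAt (hs.mem_nhds hx))
  refine ContinuousOn.congr ?_ this
  exact continuousOn_finsetSum _ fun i _ => continuousOn_dir hs (contDiffOn_dir hs hf _) _

theorem continuous_lap {f : E → ℝ} (hf : ContDiff ℝ 2 f) : Continuous (Δ f) := by
  rw [← continuousOn_univ]
  exact continuousOn_lap isOpen_univ hf.contDiffOn

theorem tsupport_dir_subset (f : E → ℝ) (v : E) :
    tsupport (fun y => fderiv ℝ f y v) ⊆ tsupport f := by
  refine closure_minimal (fun x hx => ?_) (isClosed_tsupport f)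
  by_contra h
  rw [notMem_tsupport_iff_eventuallyEq] at h
  have h2 := h.fderiv_eq (𝕜 := ℝ)
  rw [Function.mem_support] at hx
  apply hx
  rw [h2]
  simp

theorem hasCompactSupport_dir {f : E → ℝ} (hf : HasCompactSupport f) (v : E) :
    HasCompactSupport (fun y => fderiv ℝ f y v) :=
  hf.mono' (subset_closure.trans (tsupport_dir_subset f v))

theorem contDiff_dir {f : E → ℝ} (hf : ContDiff ℝ ∞ f) (v : E) :
    ContDiff ℝ ∞ (fun y => fderiv ℝ f y v) :=
  (hf.fderiv_right (m := ∞) (by simp)).clm_apply contDiff_const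

theorem hasCompactSupport_lap {f : E → ℝ} (hf : HasCompactSupport f) :
    HasCompactSupport (Δ f) := by
  refine hf.mono' fun x hx => ?_
  by_contra h
  exact hx (lap_eq_zero_of_notMem h)

variable [MeasurableSpace E] [BorelSpace E]

theorem integrable_mul_of_tsupport {Ω : Set E} (hΩ : IsOpen Ω) {f g : E → ℝ}
    (hf : ContinuousOn f Ω) (hg : Continuous g) (hgc : HasCompactSupport g)
    (hs : tsupport g ⊆ Ω) : Integrable (fun x => f x * g x) := by
  have hc : Continuous (fun x => f x * g x) := by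
    refine ContinuousOn.continuous_of_tsupport_subset (hf.mul hg.continuousOn) hΩ ?_
    exact (tsupport_mul_subset_right (f := f) (g := g)).trans hs
  refine hc.integrable_of_hasCompactSupport ?_
  exact hgc.mul_left

/-- integration by parts -/
theorem ibp {Ω : Set E} (hΩ : IsOpen Ω) {u φ : E → ℝ} (hu : ContDiffOn ℝ 1 u Ω)
    (hφ : ContDiff ℝ 1 φ) (hφc : HasCompactSupport φ) (hφs : tsupport φ ⊆ Ω) (v : E) :
    ∫ x, u x * fderiv ℝ φ x v = - ∫ x, fderiv ℝ u x v * φ x := by
  have := integral_smul_fderiv_eq_neg_fderiv_smul_of_integrable (μ := (volume : Measure E))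
    (f := u) (g := φ) (v := v) ?_ ?_ ?_ ?_ ?_
  · simpa [smul_eq_mul] using this
  · exact integrable_mul_of_tsupport hΩ (continuousOn_dir hΩ hu v) hφ.continuous hφc hφs
  · refine integrable_mul_of_tsupport hΩ hu.continuousOn ?_ (hasCompactSupport_dir hφc v)
      ((tsupport_dir_subset φ v).trans hφs)
    exact (hφ.continuous_fderiv (by norm_num)).clm_apply continuous_const
  · exact integrable_mul_of_tsupport hΩ hu.continuousOn hφ.continuous hφc hφs
  · intro x hx
    exact (hu.contDiffAt (hΩ.mem_nhds (hφs hx))).differentiableAt (by norm_num)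
  · intro x _
    exact (hφ.differentiable (by norm_num)) x


theorem contDiffAt_two_of {u : E → ℝ} {Ω : Set E} (hΩ : IsOpen Ω) (hu : ContDiffOn ℝ 2 u Ω)
    {x : E} (hx : x ∈ Ω) : ContDiffAt ℝ 2 u x := hu.contDiffAt (hΩ.mem_nhds hx)

end Pool.Agent.Lib.MP_3eb465_an.RegPriv

namespace Pool.Agent.Lib.MP_3eb465_an

open MeasureTheory InnerProductSpace Laplacian Set Filter Topology
open scoped ContDiff RealInnerProductSpace Convolution

open RegPriv

section A

variable {E : Type*} [NormedAddCommGroup E] [InnerProductSpace ℝ E] [FiniteDimensional ℝ E]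
variable [MeasurableSpace E] [BorelSpace E]

theorem WeakEq.congr {Ω : Set E} {u h u' h' : E → ℝ} (hw : WeakEq Ω u h) (hu : EqOn u u' Ω)
    (hh : EqOn h h' Ω) : WeakEq Ω u' h' := by
  intro φ hφ hφc hφs
  have := hw φ hφ hφc hφs
  have h1 : ∀ x, u' x * (-(Δ φ x)) = u x * (-(Δ φ x)) := by
    intro x
    by_cases hx : x ∈ Ω
    · rw [hu hx]
    · rw [lap_eq_zero_of_notMem (fun h => hx (hφs h))]; simp
  have h2 : ∀ x, h' x * φ x = h x * φ x := by
    intro x
    by_cases hx : x ∈ Ω
    · rw [hh hx]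
    · rw [image_eq_zero_of_notMem_tsupport (fun h => hx (hφs h))]; simp
  simp only [h1, h2]
  exact this

theorem weakEq_of_classical {Ω : Set E} (hΩ : IsOpen Ω) {u : E → ℝ} (hu : ContDiffOn ℝ 2 u Ω) :
    WeakEq Ω u (fun x => -(Δ u x)) := by
  intro φ hφ hφc hφs
  have hu1 : ContDiffOn ℝ 1 u Ω := hu.of_le (by norm_num)
  have hφ2 : ContDiff ℝ 2 φ := contDiff_infty.1 hφ 2
  set b := stdOrthonormalBasis ℝ E with hb
  -- the left hand side
  have hL : ∀ x, u x * (-(Δ φ x)) =
      -∑ i, u x * fderiv ℝ (fun y => fderiv ℝ φ y (b i)) x (b i) := by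
    intro x
    rw [lap_eq_sum hφ2.contDiffAt, mul_neg, Finset.mul_sum]
  have hR : ∀ x, -(Δ u x) * φ x =
      -∑ i, fderiv ℝ (fun y => fderiv ℝ u y (b i)) x (b i) * φ x := by
    intro x
    by_cases hx : x ∈ Ω
    · rw [lap_eq_sum (contDiffAt_two_of hΩ hu hx), neg_mul, Finset.sum_mul]
    · have : φ x = 0 := image_eq_zero_of_notMem_tsupport (fun h => hx (hφs h))
      simp [this]
  simp only [hL, hR]
  rw [integral_neg, integral_neg, integral_finsetSum, integral_finsetSum]
  · congr 1
    refine Finset.sum_congr rfl fun i _ => ?_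
    have hd : ContDiff ℝ ∞ (fun y => fderiv ℝ φ y (b i)) := contDiff_dir hφ _
    rw [ibp hΩ hu1 (contDiff_infty.1 hd 1) (hasCompactSupport_dir hφc _)
      ((tsupport_dir_subset φ _).trans hφs) (b i)]
    rw [ibp hΩ (contDiffOn_dir hΩ hu (b i)) (contDiff_infty.1 hφ 1) hφc hφs (b i)]
    simp
  · intro i _
    refine integrable_mul_of_tsupport hΩ
      (continuousOn_dir hΩ (contDiffOn_dir hΩ hu (b i)) (b i)) hφ.continuous hφc hφs
  · intro i _
    have hd : ContDiff ℝ ∞ (fun y => fderiv ℝ φ y (b i)) := contDiff_dir hφ _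
    refine integrable_mul_of_tsupport hΩ hu.continuousOn (contDiff_dir hd (b i)).continuous
      (hasCompactSupport_dir (hasCompactSupport_dir hφc _) _) ?_
    exact ((tsupport_dir_subset _ _).trans (tsupport_dir_subset φ _)).trans hφs

end A


end Pool.Agent.Lib.MP_3eb465_an

namespace Pool.Agent.Lib.MP_3eb465_an.RegPriv

open MeasureTheory InnerProductSpace Laplacian Set Filter Topology
open scoped ContDiff RealInnerProductSpace Convolution

variable {E : Type*} [NormedAddCommGroup E] [InnerProductSpace ℝ E] [FiniteDimensional ℝ E]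
variable [MeasurableSpace E] [BorelSpace E]

theorem fubini_swap {k : E → ℝ} (hk : Integrable k) (hke : ∀ x, k (-x) = k x) {h : E → ℝ}
    (hhm : AEStronglyMeasurable h volume) (hhb : ∃ M : ℝ, ∀ x, |h x| ≤ M) {φ : E → ℝ}
    (hφ : Integrable φ) :
    ∫ z, h z * (∫ y, k y * φ (z - y)) = ∫ w, (∫ y, k y * h (w - y)) * φ w := by
  obtain ⟨M, hM⟩ := hhb
  have h1 : ∀ z, ∫ y, k y * φ (z - y) = ∫ w, k (z - w) * φ w := by
    intro z
    rw [← integral_sub_left_eq_self (fun w => k (z - w) * φ w) volume z]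
    simp
  have h2 : ∀ w, ∫ y, k y * h (w - y) = ∫ z, h z * k (z - w) := by
    intro w
    rw [← integral_sub_left_eq_self (fun z => h z * k (z - w)) volume w]
    refine integral_congr_ae (Eventually.of_forall fun y => ?_)
    have : w - y - w = -y := by abel
    simp only [this, hke]
    ring
  simp only [h1, h2]
  have h3 : Integrable (fun p : E × E => h p.1 * (φ p.2 * k (p.1 - p.2)))
      ((volume : Measure E).prod volume) := by
    refine Integrable.bdd_mul (c := M) ?_ ?_ ?_
    · exact hφ.convolution_integrand (ContinuousLinearMap.mul ℝ ℝ) hk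
    · exact hhm.comp_fst
    · exact Eventually.of_forall fun p => hM p.1
  have h4 := integral_integral_swap (f := fun z w => h z * (φ w * k (z - w))) (μ := (volume : Measure E))
    (ν := (volume : Measure E)) h3
  calc ∫ z, h z * ∫ w, k (z - w) * φ w = ∫ z, ∫ w, h z * (φ w * k (z - w)) := by
        refine integral_congr_ae (Eventually.of_forall fun z => ?_)
        simp only [← integral_const_mul]
        refine integral_congr_ae (Eventually.of_forall fun w => ?_)
        ring
    _ = ∫ w, ∫ z, h z * (φ w * k (z - w)) := h4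
    _ = ∫ w, (∫ z, h z * k (z - w)) * φ w := by
        refine integral_congr_ae (Eventually.of_forall fun w => ?_)
        simp only [← integral_mul_const]
        refine integral_congr_ae (Eventually.of_forall fun z => ?_)
        ring

/-- a convolution in the form used in the parametrix -/
theorem conv_eq (k φ : E → ℝ) :
    (fun z => ∫ y, k y * φ (z - y)) = (k ⋆[ContinuousLinearMap.mul ℝ ℝ, volume] φ) := by
  ext z
  simp [convolution_def]

theorem hasFDerivAt_conv {k φ : E → ℝ} (hk : LocallyIntegrable k) (hφ : ContDiff ℝ 1 φ)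
    (hφc : HasCompactSupport φ) (z v : E) :
    fderiv ℝ (fun z => ∫ y, k y * φ (z - y)) z v = ∫ y, k y * fderiv ℝ φ (z - y) v := by
  rw [conv_eq, (hφc.hasFDerivAt_convolution_right _ hk hφ z).fderiv,
    convolution_precompR_apply _ hk (hφc.fderiv ℝ) (hφ.continuous_fderiv (by norm_num))]
  simp [convolution_def]

theorem contDiff_conv {k φ : E → ℝ} (hk : LocallyIntegrable k) {n : ℕ∞} (hφ : ContDiff ℝ n φ)
    (hφc : HasCompactSupport φ) : ContDiff ℝ n (fun z => ∫ y, k y * φ (z - y)) := by
  rw [conv_eq]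
  exact hφc.contDiff_convolution_right _ hk hφ

theorem lap_conv {k φ : E → ℝ} (hk : LocallyIntegrable k) (hφ : ContDiff ℝ ∞ φ)
    (hφc : HasCompactSupport φ) (z : E) :
    Δ (fun z => ∫ y, k y * φ (z - y)) z = ∫ y, k y * Δ φ (z - y) := by
  have hc : ContDiff ℝ ∞ (fun z => ∫ y, k y * φ (z - y)) := contDiff_conv hk hφ hφc
  rw [lap_eq_sum (contDiff_infty.1 hc 2).contDiffAt]
  have h1 : ∀ v : E, (fun y => fderiv ℝ (fun z => ∫ y, k y * φ (z - y)) y v) =
      fun z => ∫ y, k y * (fun y => fderiv ℝ φ y v) (z - y) := by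
    intro v
    ext y
    exact hasFDerivAt_conv hk (contDiff_infty.1 hφ 1) hφc y v
  have h2 : ∀ y, k y * Δ φ (z - y) = ∑ i, k y *
      fderiv ℝ (fun y => fderiv ℝ φ y (stdOrthonormalBasis ℝ E i)) (z - y)
      (stdOrthonormalBasis ℝ E i) := by
    intro y
    rw [lap_eq_sum (contDiff_infty.1 hφ 2).contDiffAt, Finset.mul_sum]
  simp only [h2]
  rw [integral_finsetSum]
  · refine Finset.sum_congr rfl fun i _ => ?_
    rw [h1, hasFDerivAt_conv hk (contDiff_infty.1 (contDiff_dir hφ _) 1)
      (hasCompactSupport_dir hφc _) z]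
  · intro i _
    have h3 : HasCompactSupport (fun x => fderiv ℝ (fun y => fderiv ℝ φ y (stdOrthonormalBasis ℝ E i)) x
      (stdOrthonormalBasis ℝ E i)) := hasCompactSupport_dir (hasCompactSupport_dir hφc _) _
    have h4 : Continuous (fun x => fderiv ℝ (fun y => fderiv ℝ φ y (stdOrthonormalBasis ℝ E i)) x
      (stdOrthonormalBasis ℝ E i)) := (contDiff_dir (contDiff_dir hφ _) _).continuous
    exact h3.convolutionExists_right (ContinuousLinearMap.mul ℝ ℝ) hk h4 z

theorem tsupport_conv {k φ : E → ℝ} {ρ ε : ℝ} (hk : ∀ x, ρ ≤ ‖x‖ → k x = 0) {x : E}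
    (hφ : ∀ z, z ∉ Metric.ball x ε → φ z = 0) :
    tsupport (fun z => ∫ y, k y * φ (z - y)) ⊆ Metric.closedBall x (ε + ρ) := by
  refine closure_minimal (fun z hz => ?_) Metric.isClosed_closedBall
  by_contra h
  rw [Function.mem_support] at hz
  apply hz
  have : ∀ y, k y * φ (z - y) = 0 := by
    intro y
    by_cases hy : ρ ≤ ‖y‖
    · rw [hk y hy, zero_mul]
    · rw [hφ (z - y), mul_zero]
      intro h2
      apply h
      rw [Metric.mem_ball] at h2
      rw [Metric.mem_closedBall]
      have : dist z x ≤ dist z (z - y) + dist (z - y) x := dist_triangle _ _ _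
      have h3 : dist z (z - y) = ‖y‖ := by rw [dist_eq_norm]; congr 1; abel
      push Not at hy
      linarith
  simp [this]


theorem vanish_of_weak {U : Set E} (hU : IsOpen U) {f : E → ℝ} (hf : ContinuousOn f U)
    (h : ∀ g : E → ℝ, ContDiff ℝ ∞ g → HasCompactSupport g → tsupport g ⊆ U →
      ∫ x, f x * g x = 0) : ∀ x ∈ U, f x = 0 := by
  have h1 := hU.ae_eq_zero_of_integral_contDiff_smul_eq_zero (μ := (volume : Measure E)) (f := f)
    (hf.locallyIntegrableOn hU.measurableSet) (by
      intro g hg hgc hgs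
      have := h g hg hgc hgs
      rw [← this]
      refine integral_congr_ae (Eventually.of_forall fun x => ?_)
      simp only [smul_eq_mul]; ring)
  have h2 : f =ᵐ[volume.restrict U] (fun _ => (0 : ℝ)) := by
    rw [Filter.EventuallyEq, ae_restrict_iff' hU.measurableSet]
    exact h1
  exact Measure.eqOn_open_of_ae_eq h2 hU hf continuousOn_const

theorem locallyIntegrable_of_bdd {u : E → ℝ} (hum : AEStronglyMeasurable u volume)
    (hub : ∃ M : ℝ, ∀ x, |u x| ≤ M) : LocallyIntegrable u := by
  obtain ⟨M, hM⟩ := hub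
  have h1 : LocallyIntegrable (fun _ : E => M) := locallyIntegrable_const M
  exact h1.mono hum (Eventually.of_forall fun x => (hM x).trans (le_abs_self M))

theorem integrable_ψ {ρ : ℝ} {k ψ : E → ℝ} (hk : IsParametrix ρ k ψ) :
    HasCompactSupport ψ ∧ Integrable ψ := by
  have h1 : HasCompactSupport ψ := by
    refine HasCompactSupport.intro (isCompact_closedBall (0 : E) ρ) fun x hx => ?_
    apply hk.ψ_supp
    rw [mem_closedBall_zero_iff] at hx
    push Not at hx
    exact hx.le
  exact ⟨h1, hk.ψ_smooth.continuous.integrable_of_hasCompactSupport h1⟩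

theorem contDiff_ψ_conv {ρ : ℝ} {k ψ : E → ℝ} (hk : IsParametrix ρ k ψ) {u : E → ℝ}
    (hum : AEStronglyMeasurable u volume) (hub : ∃ M : ℝ, ∀ x, |u x| ≤ M) :
    ContDiff ℝ ∞ (fun z => ∫ y, ψ y * u (z - y)) := by
  rw [conv_eq]
  exact (integrable_ψ hk).1.contDiff_convolution_left _ hk.ψ_smooth (locallyIntegrable_of_bdd hum hub)

theorem repr_aux {Ω : Set E} (hΩ : IsOpen Ω) {u h : E → ℝ}
    (hum : AEStronglyMeasurable u volume) (hub : ∃ M : ℝ, ∀ x, |u x| ≤ M)
    (huc : ContinuousOn u Ω)
    (hhm : AEStronglyMeasurable h volume) (hhb : ∃ M : ℝ, ∀ x, |h x| ≤ M)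
    (hw : WeakEq Ω u h) {ρ : ℝ} (hρ : 0 < ρ) {k ψ : E → ℝ} (hk : IsParametrix ρ k ψ)
    {x : E} (hx : Metric.closedBall x ρ ⊆ Ω) :
    u x = (∫ y, ψ y * u (x - y)) + ∫ y, k y * h (x - y) := by
  obtain ⟨δ, hδ, hδs⟩ := (isCompact_closedBall x ρ).exists_cthickening_subset_open hΩ hx
  rw [cthickening_closedBall hδ.le hρ.le] at hδs
  have hU : IsOpen (Metric.ball x δ) := Metric.isOpen_ball
  have hUΩ : Metric.ball x δ ⊆ Ω :=
    (Metric.ball_subset_closedBall.trans (Metric.closedBall_subset_closedBall (by linarith))).trans hδs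
  obtain ⟨hψc, hψi⟩ := integrable_ψ hk
  have hkl : LocallyIntegrable k := hk.k_int.locallyIntegrable
  have c1 : Continuous (fun z => ∫ y, ψ y * u (z - y)) := (contDiff_ψ_conv hk hum hub).continuous
  have c2 : Continuous (fun z => ∫ y, k y * h (z - y)) := (hk.smoothing h hhm hhb).continuous
  have key := vanish_of_weak (f := fun z => u z - (∫ y, ψ y * u (z - y)) - ∫ y, k y * h (z - y)) hU
    ((huc.mono hUΩ).sub c1.continuousOn |>.sub c2.continuousOn) (by
      intro φ hφ hφc hφs
      have hφz : ∀ z, z ∉ Metric.ball x δ → φ z = 0 := fun z hz =>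
        image_eq_zero_of_notMem_tsupport fun h => hz (hφs h)
      have hφi : Integrable φ := hφ.continuous.integrable_of_hasCompactSupport hφc
      have hts := tsupport_conv hk.k_supp hφz
      have hΦc : HasCompactSupport (fun z => ∫ y, k y * φ (z - y)) :=
        (isCompact_closedBall x (δ + ρ)).of_isClosed_subset (isClosed_tsupport _) hts
      have hΦ : ContDiff ℝ ∞ (fun z => ∫ y, k y * φ (z - y)) := contDiff_conv hkl hφ hφc
      have e1 := hw _ hΦ hΦc (hts.trans hδs)
      have e2 : ∀ z, -(Δ (fun z => ∫ y, k y * φ (z - y)) z) = φ z - ∫ y, ψ y * φ (z - y) := by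
        intro z
        have e3 := hk.repr φ hφ hφc z
        rw [lap_conv hkl hφ hφc z, ← integral_neg]
        simp only [mul_neg] at e3 ⊢
        linarith
      simp only [e2] at e1
      -- expand
      have i1 : Integrable (fun z => u z * φ z) := by
        obtain ⟨M, hM⟩ := hub
        exact hφi.bdd_mul hum (Eventually.of_forall hM)
      have hψφ : Integrable (fun z => ∫ y, ψ y * φ (z - y)) := by
        rw [conv_eq]
        exact hψi.integrable_convolution _ hφi
      have i2 : Integrable (fun z => u z * ∫ y, ψ y * φ (z - y)) := by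
        obtain ⟨M, hM⟩ := hub
        exact hψφ.bdd_mul hum (Eventually.of_forall hM)
      have i3 : Integrable (fun z => (∫ y, ψ y * u (z - y)) * φ z) :=
        integrable_mul_of_tsupport isOpen_univ c1.continuousOn hφ.continuous hφc (subset_univ _)
      have i4 : Integrable (fun z => (∫ y, k y * h (z - y)) * φ z) :=
        integrable_mul_of_tsupport isOpen_univ c2.continuousOn hφ.continuous hφc (subset_univ _)
      have e4 : ∫ z, u z * (φ z - ∫ y, ψ y * φ (z - y)) =
          (∫ z, u z * φ z) - ∫ z, u z * ∫ y, ψ y * φ (z - y) := by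
        rw [← integral_sub i1 i2]
        refine integral_congr_ae (Eventually.of_forall fun z => ?_)
        simp only; ring
      rw [e4, fubini_swap hψi hk.ψ_even hum hub hφi, fubini_swap hk.k_int hk.k_even hhm hhb hφi] at e1
      have e5 : ∫ z, (u z - (∫ y, ψ y * u (z - y)) - ∫ y, k y * h (z - y)) * φ z =
          (∫ z, u z * φ z) - (∫ z, (∫ y, ψ y * u (z - y)) * φ z) -
            ∫ z, (∫ y, k y * h (z - y)) * φ z := by
        have i13 : Integrable (fun z => u z * φ z - (∫ y, ψ y * u (z - y)) * φ z) := i1.sub i3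
        rw [← integral_sub i1 i3, ← integral_sub i13 i4]
        refine integral_congr_ae (Eventually.of_forall fun z => ?_)
        simp only; ring
      rw [e5]
      linarith) x (Metric.mem_ball_self hδ)
  linarith


theorem exists_ball {Ω : Set E} (hΩ : IsOpen Ω) {x : E} (hx : x ∈ Ω) :
    ∃ ρ : ℝ, 0 < ρ ∧ Metric.closedBall x (3 * ρ) ⊆ Ω := by
  obtain ⟨r, hr, hs⟩ := Metric.isOpen_iff.1 hΩ x hx
  refine ⟨r / 4, by positivity, (Metric.closedBall_subset_ball (by linarith)).trans hs⟩

theorem closedBall_sub {x z : E} {ρ : ℝ} (hz : z ∈ Metric.ball x ρ) :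
    Metric.closedBall z ρ ⊆ Metric.closedBall x (2 * ρ) := by
  intro w hw
  rw [Metric.mem_closedBall] at *
  rw [Metric.mem_ball] at hz
  have := dist_triangle w z x
  linarith

theorem aesm_shift {u : E → ℝ} (hum : AEStronglyMeasurable u volume) (z : E) :
    AEStronglyMeasurable (fun y => u (z - y)) volume :=
  hum.comp_quasiMeasurePreserving (quasiMeasurePreserving_sub_left volume z)

theorem tendsto_conv {k : E → ℝ} (hk : Integrable k) {u : ℕ → E → ℝ} {u' : E → ℝ} {M : ℝ}
    (hum : ∀ n, AEStronglyMeasurable (u n) volume) (hub : ∀ n x, |u n x| ≤ M)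
    (hu : ∀ x, Tendsto (fun n => u n x) atTop (𝓝 (u' x))) (z : E) :
    Tendsto (fun n => ∫ y, k y * u n (z - y)) atTop (𝓝 (∫ y, k y * u' (z - y))) := by
  refine tendsto_integral_of_dominated_convergence (fun y => ‖k y‖ * M) ?_ ?_ ?_ ?_
  · intro n
    exact hk.aestronglyMeasurable.mul (aesm_shift (hum n) z)
  · exact hk.norm.mul_const M
  · intro n
    refine Eventually.of_forall fun y => ?_
    rw [norm_mul]
    exact mul_le_mul_of_nonneg_left (hub n _) (norm_nonneg _)
  · refine Eventually.of_forall fun y => ?_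
    exact (hu (z - y)).const_mul (k y)

theorem limit_aux (hP : ∀ ρ : ℝ, 0 < ρ → ∃ k ψ : E → ℝ, IsParametrix ρ k ψ) {Ω : Set E} (hΩ : IsOpen Ω)
    {u h : ℕ → E → ℝ} {u' h' : E → ℝ} {M : ℝ}
    (hum : ∀ n, AEStronglyMeasurable (u n) volume) (hub : ∀ n x, |u n x| ≤ M)
    (huc : ∀ n, ContinuousOn (u n) Ω)
    (hhm : ∀ n, AEStronglyMeasurable (h n) volume) (hhb : ∀ n x, |h n x| ≤ M)
    (hw : ∀ n, WeakEq Ω (u n) (h n))
    (hu : ∀ x, Tendsto (fun n => u n x) atTop (𝓝 (u' x)))
    (hh : ∀ x ∈ Ω, Tendsto (fun n => h n x) atTop (𝓝 (h' x))) :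
    ContinuousOn u' Ω ∧ WeakEq Ω u' h' := by
  have hM : 0 ≤ M := (abs_nonneg _).trans (hub 0 0)
  have hu'm : AEStronglyMeasurable u' volume :=
    aestronglyMeasurable_of_tendsto_ae atTop hum (Eventually.of_forall hu)
  have hu'b : ∀ x, |u' x| ≤ M := fun x =>
    le_of_tendsto ((hu x).abs) (Eventually.of_forall fun n => hub n x)
  -- the truncated right-hand sides
  have him : ∀ n, AEStronglyMeasurable (Ω.indicator (h n)) volume := fun n =>
    (hhm n).indicator hΩ.measurableSet
  have hib : ∀ n x, |Ω.indicator (h n) x| ≤ M := by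
    intro n x
    by_cases hx : x ∈ Ω
    · rw [indicator_of_mem hx]; exact hhb n x
    · rw [indicator_of_notMem hx, abs_zero]; exact hM
  have hil : ∀ x, Tendsto (fun n => Ω.indicator (h n) x) atTop (𝓝 (Ω.indicator h' x)) := by
    intro x
    by_cases hx : x ∈ Ω
    · simp only [indicator_of_mem hx]; exact hh x hx
    · simp only [indicator_of_notMem hx]; exact tendsto_const_nhds
  have hi'm : AEStronglyMeasurable (Ω.indicator h') volume :=
    aestronglyMeasurable_of_tendsto_ae atTop him (Eventually.of_forall hil)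
  have hi'b : ∀ x, |Ω.indicator h' x| ≤ M := fun x =>
    le_of_tendsto ((hil x).abs) (Eventually.of_forall fun n => hib n x)
  constructor
  · intro x hx
    obtain ⟨ρ, hρ, hρs⟩ := exists_ball hΩ hx
    obtain ⟨k, ψ, hk⟩ := hP ρ hρ
    have key : ∀ z ∈ Metric.ball x ρ,
        u' z = (∫ y, ψ y * u' (z - y)) + ∫ y, k y * Ω.indicator h' (z - y) := by
      intro z hz
      have hzs : Metric.closedBall z ρ ⊆ Ω := (closedBall_sub hz).trans
        ((Metric.closedBall_subset_closedBall (by linarith)).trans hρs)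
      have h1 : ∀ n, u n z = (∫ y, ψ y * u n (z - y)) + ∫ y, k y * Ω.indicator (h n) (z - y) := by
        intro n
        rw [repr_aux hΩ (hum n) ⟨M, hub n⟩ (huc n) (hhm n) ⟨M, hhb n⟩ (hw n) hρ hk hzs]
        congr 1
        refine integral_congr_ae (Eventually.of_forall fun y => ?_)
        by_cases hy : ρ ≤ ‖y‖
        · simp [hk.k_supp y hy]
        · have : z - y ∈ Ω := by
            apply hzs
            rw [Metric.mem_closedBall, dist_eq_norm]
            push Not at hy
            simpa using hy.le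
          simp only [indicator_of_mem this]
      refine tendsto_nhds_unique (hu z) ?_
      simp only [h1]
      exact (tendsto_conv (integrable_ψ hk).2 hum hub hu z).add
        (tendsto_conv hk.k_int him hib hil z)
    have hc : Continuous (fun z => (∫ y, ψ y * u' (z - y)) + ∫ y, k y * Ω.indicator h' (z - y)) :=
      (contDiff_ψ_conv hk hu'm ⟨M, hu'b⟩).continuous.add (hk.smoothing _ hi'm ⟨M, hi'b⟩).continuous
    have : ContinuousAt u' x := by
      refine hc.continuousAt.congr ?_
      filter_upwards [Metric.ball_mem_nhds x hρ] with z hz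
      exact (key z hz).symm
    exact this.continuousWithinAt
  · intro φ hφ hφc hφs
    have hφi : Integrable φ := hφ.continuous.integrable_of_hasCompactSupport hφc
    have hΔi : Integrable (Δ φ) :=
      (continuous_lap (contDiff_infty.1 hφ 2)).integrable_of_hasCompactSupport
        (hasCompactSupport_lap hφc)
    have t1 : Tendsto (fun n => ∫ x, u n x * (-(Δ φ x))) atTop (𝓝 (∫ x, u' x * (-(Δ φ x)))) := by
      refine tendsto_integral_of_dominated_convergence (fun y => M * ‖Δ φ y‖) ?_ ?_ ?_ ?_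
      · intro n
        exact (hum n).mul hΔi.aestronglyMeasurable.neg
      · exact hΔi.norm.const_mul M
      · intro n
        refine Eventually.of_forall fun y => ?_
        rw [norm_mul, norm_neg]
        exact mul_le_mul_of_nonneg_right (hub n _) (norm_nonneg _)
      · refine Eventually.of_forall fun y => ?_
        exact (hu y).mul_const _
    have t2 : Tendsto (fun n => ∫ x, h n x * φ x) atTop (𝓝 (∫ x, h' x * φ x)) := by
      refine tendsto_integral_of_dominated_convergence (fun y => M * ‖φ y‖) ?_ ?_ ?_ ?_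
      · intro n
        exact (hhm n).mul hφi.aestronglyMeasurable
      · exact hφi.norm.const_mul M
      · intro n
        refine Eventually.of_forall fun y => ?_
        rw [norm_mul]
        exact mul_le_mul_of_nonneg_right (hhb n _) (norm_nonneg _)
      · refine Eventually.of_forall fun y => ?_
        by_cases hy : y ∈ Ω
        · exact (hh y hy).mul_const _
        · have : φ y = 0 := image_eq_zero_of_notMem_tsupport fun h => hy (hφs h)
          simp [this]
    refine tendsto_nhds_unique t1 ?_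
    have : (fun n => ∫ x, u n x * (-(Δ φ x))) = fun n => ∫ x, h n x * φ x := by
      ext n
      exact hw n φ hφ hφc hφs
    rw [this]
    exact t2

theorem contDiffOn_one_aux (hP : ∀ ρ : ℝ, 0 < ρ → ∃ k ψ : E → ℝ, IsParametrix ρ k ψ) {Ω : Set E} (hΩ : IsOpen Ω)
    {u h : E → ℝ}
    (hum : AEStronglyMeasurable u volume) (hub : ∃ M : ℝ, ∀ x, |u x| ≤ M)
    (huc : ContinuousOn u Ω)
    (hhm : AEStronglyMeasurable h volume) (hhb : ∃ M : ℝ, ∀ x, |h x| ≤ M)
    (hw : WeakEq Ω u h) : ContDiffOn ℝ 1 u Ω := by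
  intro x hx
  obtain ⟨ρ, hρ, hρs⟩ := exists_ball hΩ hx
  obtain ⟨k, ψ, hk⟩ := hP ρ hρ
  have key : ∀ z ∈ Metric.ball x ρ, u z = (∫ y, ψ y * u (z - y)) + ∫ y, k y * h (z - y) := by
    intro z hz
    have hzs : Metric.closedBall z ρ ⊆ Ω := (closedBall_sub hz).trans
      ((Metric.closedBall_subset_closedBall (by linarith)).trans hρs)
    exact repr_aux hΩ hum hub huc hhm hhb hw hρ hk hzs
  have hc : ContDiff ℝ 1 (fun z => (∫ y, ψ y * u (z - y)) + ∫ y, k y * h (z - y)) :=
    (contDiff_infty.1 (contDiff_ψ_conv hk hum hub) 1).add (hk.smoothing _ hhm hhb)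
  have : ContDiffAt ℝ 1 u x := by
    refine hc.contDiffAt.congr_of_eventuallyEq ?_
    filter_upwards [Metric.ball_mem_nhds x hρ] with z hz
    exact key z hz
  exact this.contDiffWithinAt

/-- convolution of an integrable kernel that maps bounded functions to `C¹` functions with a
compactly supported `C¹` function is `C²` -/
theorem contDiff_two_conv {ρ : ℝ} {k ψ : E → ℝ} (hk : IsParametrix ρ k ψ) {h : E → ℝ}
    (hh : ContDiff ℝ 1 h) (hhc : HasCompactSupport h) :
    ContDiff ℝ 2 (fun z => ∫ y, k y * h (z - y)) := by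
  have h1 : ContDiff ℝ 1 (fun z => ∫ y, k y * h (z - y)) :=
    contDiff_conv hk.k_int.locallyIntegrable hh hhc
  have h2 : (2 : WithTop ℕ∞) = 1 + 1 := by norm_num
  rw [h2, contDiff_succ_iff_fderiv_apply]
  refine ⟨h1.differentiable (by norm_num), by simp, fun v => ?_⟩
  have h3 : (fun z => fderiv ℝ (fun z => ∫ y, k y * h (z - y)) z v) =
      fun z => ∫ y, k y * (fun w => fderiv ℝ h w v) (z - y) := by
    ext z
    exact hasFDerivAt_conv hk.k_int.locallyIntegrable hh hhc z v
  rw [h3]
  have hc : Continuous (fun w => fderiv ℝ h w v) :=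
    (hh.continuous_fderiv (by norm_num)).clm_apply continuous_const
  refine hk.smoothing _ hc.aestronglyMeasurable ?_
  obtain ⟨C, hC⟩ := hc.bounded_above_of_compact_support (hasCompactSupport_dir hhc v)
  exact ⟨C, hC⟩

theorem classical_aux (hP : ∀ ρ : ℝ, 0 < ρ → ∃ k ψ : E → ℝ, IsParametrix ρ k ψ) {Ω : Set E} (hΩ : IsOpen Ω)
    {u h : E → ℝ}
    (hum : AEStronglyMeasurable u volume) (hub : ∃ M : ℝ, ∀ x, |u x| ≤ M)
    (huc : ContinuousOn u Ω)
    (hhm : AEStronglyMeasurable h volume) (hhb : ∃ M : ℝ, ∀ x, |h x| ≤ M)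
    (hh1 : ContDiffOn ℝ 1 h Ω)
    (hw : WeakEq Ω u h) : ContDiffOn ℝ 2 u Ω := by
  intro x hx
  obtain ⟨ρ, hρ, hρs⟩ := exists_ball hΩ hx
  obtain ⟨k, ψ, hk⟩ := hP ρ hρ
  let η : ContDiffBump x := ⟨2 * ρ, 3 * ρ, by linarith, by linarith⟩
  have hηs : tsupport (η : E → ℝ) ⊆ Ω := by
    rw [η.tsupport_eq]
    exact hρs
  have hηc : HasCompactSupport (fun z => η z * h z) := by
    exact η.hasCompactSupport.mul_right
  have hη1 : ContDiff ℝ 1 (fun z => η z * h z) := by
    rw [contDiff_iff_contDiffAt]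
    intro z
    by_cases hz' : z ∈ Ω
    · exact η.contDiff.contDiffAt.mul (hh1.contDiffAt (hΩ.mem_nhds hz'))
    · have hz : z ∉ tsupport (η : E → ℝ) := fun h => hz' (hηs h)
      rw [notMem_tsupport_iff_eventuallyEq] at hz
      have h0 : (fun z => η z * h z) =ᶠ[𝓝 z] fun _ => 0 := by
        filter_upwards [hz] with w hw
        rw [hw]
        simp
      exact contDiffAt_const.congr_of_eventuallyEq h0
  have key : ∀ z ∈ Metric.ball x ρ,
      u z = (∫ y, ψ y * u (z - y)) + ∫ y, k y * (η (z - y) * h (z - y)) := by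
    intro z hz
    have hz2 := closedBall_sub hz
    have hzs : Metric.closedBall z ρ ⊆ Ω := hz2.trans
      ((Metric.closedBall_subset_closedBall (by linarith)).trans hρs)
    rw [repr_aux hΩ hum hub huc hhm hhb hw hρ hk hzs]
    congr 1
    refine integral_congr_ae (Eventually.of_forall fun y => ?_)
    by_cases hy : ρ ≤ ‖y‖
    · simp [hk.k_supp y hy]
    · have h3 : z - y ∈ Metric.closedBall x (2 * ρ) := by
        apply hz2
        rw [Metric.mem_closedBall, dist_eq_norm]
        push Not at hy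
        simpa using hy.le
      have : η (z - y) = 1 := η.one_of_mem_closedBall h3
      simp only [this, one_mul]
  have hc : ContDiff ℝ 2 (fun z => (∫ y, ψ y * u (z - y)) + ∫ y, k y * (η (z - y) * h (z - y))) :=
    (contDiff_infty.1 (contDiff_ψ_conv hk hum hub) 2).add (contDiff_two_conv hk hη1 hηc)
  have : ContDiffAt ℝ 2 u x := by
    refine hc.contDiffAt.congr_of_eventuallyEq ?_
    filter_upwards [Metric.ball_mem_nhds x hρ] with z hz
    exact key z hz
  exact this.contDiffWithinAt


theorem classical_eq_aux {Ω : Set E} (hΩ : IsOpen Ω) {u h : E → ℝ} (hu : ContDiffOn ℝ 2 u Ω)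
    (hh : ContinuousOn h Ω) (hw : WeakEq Ω u h) : ∀ x ∈ Ω, -(Δ u x) = h x := by
  have hw2 := weakEq_of_classical hΩ hu
  have hc : ContinuousOn (fun x => -(Δ u x)) Ω := (continuousOn_lap hΩ hu).neg
  have key := vanish_of_weak (f := fun x => -(Δ u x) - h x) hΩ (hc.sub hh) (by
    intro φ hφ hφc hφs
    have e1 := hw φ hφ hφc hφs
    have e2 := hw2 φ hφ hφc hφs
    have i1 : Integrable (fun x => -(Δ u x) * φ x) :=
      integrable_mul_of_tsupport hΩ hc hφ.continuous hφc hφs
    have i2 : Integrable (fun x => h x * φ x) :=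
      integrable_mul_of_tsupport hΩ hh hφ.continuous hφc hφs
    have e3 : ∫ x, (-(Δ u x) - h x) * φ x = (∫ x, -(Δ u x) * φ x) - ∫ x, h x * φ x := by
      rw [← integral_sub i1 i2]
      refine integral_congr_ae (Eventually.of_forall fun z => ?_)
      simp only; ring
    rw [e3, ← e1, ← e2, sub_self])
  intro x hx
  have := key x hx
  linarith

end Pool.Agent.Lib.MP_3eb465_an.RegPriv

namespace Pool.Agent.Lib.MP_3eb465_an

open MeasureTheory InnerProductSpace Laplacian Set Filter Topology
open scoped ContDiff RealInnerProductSpace Convolution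

open RegPriv

variable {E : Type*} [NormedAddCommGroup E] [InnerProductSpace ℝ E] [FiniteDimensional ℝ E]
variable [MeasurableSpace E] [BorelSpace E]

/-- pointwise representation -/
theorem WeakEq.repr {Ω : Set E} (hΩ : IsOpen Ω) {u h : E → ℝ}
    (hum : AEStronglyMeasurable u volume) (hub : ∃ M : ℝ, ∀ x, |u x| ≤ M)
    (huc : ContinuousOn u Ω)
    (hhm : AEStronglyMeasurable h volume) (hhb : ∃ M : ℝ, ∀ x, |h x| ≤ M)
    (hw : WeakEq Ω u h) {ρ : ℝ} (hρ : 0 < ρ) {k ψ : E → ℝ} (hk : IsParametrix ρ k ψ)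
    {x : E} (hx : Metric.closedBall x ρ ⊆ Ω) :
    u x = (∫ y, ψ y * u (x - y)) + ∫ y, k y * h (x - y) :=
  repr_aux hΩ hum hub huc hhm hhb hw hρ hk hx

end Pool.Agent.Lib.MP_3eb465_an
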