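import Pool.Agent.Lib.MP_3eb465_an.Estimates

/-!
The supersolution `wbar`.
-/

namespace Pool.Agent.Lib.MP_3eb465_an

open MeasureTheory InnerProductSpace Laplacian Set Filter Topology
open scoped ContDiff RealInnerProductSpace

section Explicit

/-- the Laplacian of `P` -/
noncomputable def lapP (x : E5) : ℝ :=
  (lapB x * (8 * Real.cos (x 0)) - BB x * (8 * Real.cos (x 0))) +
    (th x * EE x * (-2 * Real.cos (x 0) - (2 * Real.cos (x 0) ^ 2 - 1)) -
      EE x * (-2 * Real.cos (x 0) - 4 * (2 * Real.cos (x 0) ^ 2 - 1)))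

theorem hasLap_PP (x : E5) : ∃ g : E5, HasLap PP x g (lapP x) := by
  obtain ⟨g₁, h₁, o₁⟩ := hasLap_BB x
  obtain ⟨g₂, h₂, o₂⟩ := hasLap_EE x
  obtain ⟨g₃, h₃⟩ := hasLap_mul_c h₁ o₁ 8 0
  obtain ⟨g₄, h₄⟩ := hasLap_mul_c h₂ o₂ (-2) (-1)
  refine ⟨_, ((h₃.add h₄).congr (Eventually.of_forall fun y => ?_)).of_eq rfl ?_⟩
  · simp only [PP]; ring
  · simp only [lapP]; ring

/-- `P` is a supersolution of `-Δ - 1` where `E < 2`, `D ≥ 0` -/
theorem PP_le_neg_lapP {x : E5} (h : EE x < 2) (hD : 0 ≤ DD x) : PP x ≤ -lapP x := by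
  have hE := EE_pos x
  obtain ⟨ht1, ht2⟩ := th_bounds h
  have hb0 := lapB_nonpos x
  have hb1 := lapB_lower h
  have hN := abs_NN_le h
  have hc : -(EE x / 2900) ≤ Real.cos (x 0) := by
    have h1 : DD x = NN x + Real.cos (x 0) := rfl
    have h2 := le_abs_self (NN x)
    linarith
  have hc1 := Real.cos_le_one (x 0)
  have hid : -lapP x - PP x = -8 * (lapB x * Real.cos (x 0)) +
      EE x * ((2 * th x - 6) * Real.cos (x 0) ^ 2 + 2 * th x * Real.cos (x 0) + 3 - th x) := by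
    simp only [lapP, PP]; ring
  suffices h0 : 0 ≤ -lapP x - PP x by linarith
  rw [hid]
  set c := Real.cos (x 0) with hcdef
  rcases le_or_gt 0 c with h0 | h0
  · have h1 : 0 ≤ -8 * (lapB x * c) := by nlinarith
    have h2 : (2 * th x - 6) * c ^ 2 + 2 * th x * c + 3 - th x =
        (1 - c) * (3 - th x) + c * (3 * th x - 3) + (6 - 2 * th x) * (c * (1 - c)) := by ring
    have h3 : 0 ≤ (2 * th x - 6) * c ^ 2 + 2 * th x * c + 3 - th x := by
      rw [h2]
      have e1 : 0 ≤ (1 - c) * (3 - th x) := mul_nonneg (by linarith) (by linarith)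
      have e2 : 0 ≤ c * (3 * th x - 3) := mul_nonneg h0 (by linarith)
      have e3 : 0 ≤ (6 - 2 * th x) * (c * (1 - c)) :=
        mul_nonneg (by linarith) (mul_nonneg h0 (by linarith))
      linarith
    have h4 := mul_nonneg hE.le h3
    linarith
  · have h1 : lapB x * c ≤ EE x / 2900 := by nlinarith
    have h2 : -(1 / 1000) ≤ c := by linarith
    have h3 : 4 / 10 ≤ (2 * th x - 6) * c ^ 2 + 2 * th x * c + 3 - th x := by
      have e1 : -(1 / 100) ≤ (2 * th x - 6) * c ^ 2 := by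
        have e2 : c ^ 2 ≤ 1 / 1000 := by nlinarith
        nlinarith [sq_nonneg c]
      have e3 : -(1 / 100) ≤ 2 * th x * c := by nlinarith
      linarith
    have h4 : EE x * (4 / 10) ≤
        EE x * ((2 * th x - 6) * c ^ 2 + 2 * th x * c + 3 - th x) :=
      mul_le_mul_of_nonneg_left h3 hE.le
    linarith

theorem EE_le_PP {x : E5} (h : EE x < 2) (hD : 0 ≤ DD x) : 98 / 100 * EE x ≤ PP x := by
  have hE := EE_pos x
  have hN := abs_NN_le h
  have hc : -(EE x / 2900) ≤ Real.cos (x 0) := by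
    have h1 : DD x = NN x + Real.cos (x 0) := rfl
    have h2 := le_abs_self (NN x)
    linarith
  have hc1 := Real.cos_le_one (x 0)
  have hB := EE_le_BB h
  have hB6 := BB_le_six h
  have hB0 := BB_pos x
  have hP : PP x = 8 * BB x * Real.cos (x 0) -
      EE x * (2 * Real.cos (x 0) + 2 * Real.cos (x 0) ^ 2 - 1) := rfl
  rw [hP]
  set c := Real.cos (x 0) with hcdef
  rcases le_or_gt 0 c with h0 | h0
  · have h1 : 4 * EE x * c ≤ 8 * BB x * c := mul_le_mul_of_nonneg_right (by linarith) h0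
    have h2 : 0 ≤ EE x * (c * (1 - c)) := mul_nonneg hE.le (mul_nonneg h0 (by linarith))
    nlinarith
  · have h2 : -(1 / 1000) ≤ c := by linarith
    have h3 : -(48 * (EE x / 2900)) ≤ 8 * BB x * c := by nlinarith
    have h4 : EE x * (2 * c + 2 * c ^ 2 - 1) ≤ EE x * (-1 + 1 / 1000) := by
      apply mul_le_mul_of_nonneg_left _ hE.le
      nlinarith
    linarith

/-! ### the cut off -/

theorem mm_eq (s : ℝ) : mm s = s - 16 / 27 * (max (s - 1 / 2) 0) ^ 3 +
    16 / 27 * ((max (s - 5 / 4) 0) ^ 2 * (s + 1)) := by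
  unfold mm
  split_ifs with h
  · rw [max_eq_right (by linarith : s - 5 / 4 ≤ 0)]; ring
  · have h := not_lt.1 h
    rw [max_eq_left (by linarith : 0 ≤ s - 5 / 4), max_eq_left (by linarith : 0 ≤ s - 1 / 2)]
    ring

theorem contDiff_mm : ContDiff ℝ 1 mm := by
  have h0 : mm = fun s => s - 16 / 27 * (max (s - 1 / 2) 0) ^ 3 +
    16 / 27 * ((max (s - 5 / 4) 0) ^ 2 * (s + 1)) := funext mm_eq
  rw [h0]
  have h3 : ContDiff ℝ 1 (fun t : ℝ => (max t 0) ^ 3) := (contDiff_maxPow 2).of_le (by norm_num)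
  have h2 : ContDiff ℝ 1 (fun t : ℝ => (max t 0) ^ 2) := by
    have := contDiff_maxPow 1
    exact_mod_cast this
  refine (contDiff_id.sub (contDiff_const.mul (h3.comp (contDiff_id.sub contDiff_const)))).add
    (contDiff_const.mul ((h2.comp (contDiff_id.sub contDiff_const)).mul
      (contDiff_id.add contDiff_const)))

theorem mm_lt_one {s : ℝ} (h : s < 5 / 4) : mm s < 1 := by
  unfold mm
  rw [if_pos h]
  rcases le_or_gt s (1 / 2) with h1 | h1
  · rw [max_eq_right (by linarith : s - 1 / 2 ≤ 0)]; linarith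
  · rw [max_eq_left (by linarith : 0 ≤ s - 1 / 2)]
    have h2 : 1 - (s - 16 / 27 * (s - 1 / 2) ^ 3) = 16 / 27 * ((5 / 4 - s) ^ 2 * (s + 1)) := by
      ring
    have h3 : 0 < (5 / 4 - s) ^ 2 * (s + 1) :=
      mul_pos (pow_pos (by linarith) 2) (by linarith)
    linarith

theorem mm_eq_one {s : ℝ} (h : 5 / 4 ≤ s) : mm s = 1 := by
  unfold mm; rw [if_neg (not_lt.2 h)]

theorem mm_le_one (s : ℝ) : mm s ≤ 1 := by
  rcases lt_or_ge s (5 / 4) with h | h
  · exact (mm_lt_one h).le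
  · exact (mm_eq_one h).le

theorem mm_nonneg {s : ℝ} (h0 : 0 ≤ s) : 0 ≤ mm s := by
  rcases lt_or_ge s (5 / 4) with h | h
  · unfold mm
    rw [if_pos h]
    rcases le_or_gt s (1 / 2) with h1 | h1
    · rw [max_eq_right (by linarith : s - 1 / 2 ≤ 0)]; linarith
    · rw [max_eq_left (by linarith : 0 ≤ s - 1 / 2)]
      have h2 : (s - 1 / 2) ^ 2 ≤ 1 := by nlinarith
      have h3 : (s - 1 / 2) ^ 3 = (s - 1 / 2) ^ 2 * (s - 1 / 2) := by ring
      nlinarith
  · rw [mm_eq_one h]; norm_num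

theorem mm_eq_self {s : ℝ} (h : s ≤ 1 / 2) : mm s = s := by
  unfold mm
  rw [if_pos (by linarith), max_eq_right (by linarith : s - 1 / 2 ≤ 0)]; ring

/-- the key inequality for the cut off -/
theorem ff_mm_le {s : ℝ} (h0 : 0 ≤ s) (h : s < 5 / 4) :
    ff (mm s) ≤ (1 - 16 / 9 * (max (s - 1 / 2) 0) ^ 2) * s := by
  have h1 := mm_lt_one h
  unfold ff
  rw [max_eq_right (by linarith : mm s - 1 ≤ 0)]
  rcases le_or_gt s (1 / 2) with h2 | h2
  · rw [mm_eq_self h2, max_eq_right (by linarith : s - 1 / 2 ≤ 0)]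
    linarith
  · rw [max_eq_left (by linarith : 0 ≤ s - 1 / 2)]
    have h3 : mm s = s - 16 / 27 * (s - 1 / 2) ^ 3 := by
      unfold mm; rw [if_pos h, max_eq_left (by linarith : 0 ≤ s - 1 / 2)]
    obtain ⟨t, ht⟩ : ∃ t, s = t + 1 / 2 := ⟨s - 1 / 2, by ring⟩
    subst ht
    have ht0 : 0 < t := by linarith
    have ht1 : t < 3 / 4 := by linarith
    have e1 : t + 1 / 2 - 1 / 2 = t := by ring
    rw [e1] at h3
    rw [e1]
    have e2 : mm (t + 1 / 2) - 1 / 2 = t * (1 - 16 / 27 * t ^ 2) := by rw [h3]; ring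
    have ht2 : t ^ 2 ≤ 9 / 16 := by nlinarith
    have e3 : 0 ≤ mm (t + 1 / 2) - 1 / 2 := by
      rw [e2]; exact mul_nonneg ht0.le (by nlinarith)
    rw [max_eq_left e3, e2, h3]
    have e4 : 2 / 3 ≤ 1 - 16 / 27 * t ^ 2 := by linarith
    have e5 : 16 / 9 ≤ 4 * (1 - 16 / 27 * t ^ 2) ^ 2 := by nlinarith
    have e6 : 8 / 9 + 32 / 27 * t ≤ 4 * (1 - 16 / 27 * t ^ 2) ^ 2 := by linarith
    have e7 : t ^ 2 * (8 / 9 + 32 / 27 * t) ≤ t ^ 2 * (4 * (1 - 16 / 27 * t ^ 2) ^ 2) :=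
      mul_le_mul_of_nonneg_left e6 (sq_nonneg t)
    nlinarith

theorem mm_comp_lap {F : E5 → ℝ} {x g : E5} {l : ℝ} (h : HasLap F x g l) (h1 : F x < 5 / 4)
    (h0 : 0 ≤ F x) (hl : F x ≤ -l) :
    ContDiffAt ℝ 2 (fun y => mm (F y)) x ∧ ff (mm (F x)) ≤ -(Δ (fun y => mm (F y)) x) := by
  have e1 : mm =ᶠ[𝓝 (F x)] fun s => s - 16 / 27 * (max (s - 1 / 2) 0) ^ 3 := by
    filter_upwards [eventually_lt_nhds h1] with s hs
    unfold mm; rw [if_pos hs]
  have hd1 : ∀ s : ℝ, HasDerivAt (fun s => s - 16 / 27 * (max (s - 1 / 2) 0) ^ 3)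
      (1 - 16 / 9 * (max (s - 1 / 2) 0) ^ 2) s := by
    intro s
    have h2 := (hasDerivAt_maxPow 1 (s - 1 / 2)).comp s ((hasDerivAt_id s).sub_const (1 / 2 : ℝ))
    refine HasDerivAt.congr_deriv ((hasDerivAt_id s).sub (h2.const_mul (16 / 27 : ℝ))) ?_
    push_cast
    ring
  have hd2 : ∀ s : ℝ, HasDerivAt (fun s => 1 - 16 / 9 * (max (s - 1 / 2) 0) ^ 2)
      (-(32 / 9) * max (s - 1 / 2) 0) s := by
    intro s
    have h2 := (hasDerivAt_maxPow 0 (s - 1 / 2)).comp s ((hasDerivAt_id s).sub_const (1 / 2 : ℝ))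
    refine HasDerivAt.congr_deriv ((hasDerivAt_const s (1 : ℝ)).sub
      (h2.const_mul (16 / 9 : ℝ))) ?_
    push_cast
    ring
  have hcd : ContDiff ℝ 2 (fun s : ℝ => s - 16 / 27 * (max (s - 1 / 2) 0) ^ 3) := by
    have h3 : ContDiff ℝ 2 (fun t : ℝ => (max t 0) ^ 3) := by
      have := contDiff_maxPow 2
      exact_mod_cast this
    exact contDiff_id.sub (contDiff_const.mul (h3.comp (contDiff_id.sub contDiff_const)))
  have e2 : ∀ᶠ s in 𝓝 (F x), HasDerivAt mm (1 - 16 / 9 * (max (s - 1 / 2) 0) ^ 2) s := by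
    filter_upwards [e1.eventuallyEq_nhds] with s hs
    exact (hd1 s).congr_of_eventuallyEq hs
  have h3 := h.comp' (φ := mm) (hcd.contDiffAt.congr_of_eventuallyEq e1) e2 (hd2 (F x))
  refine ⟨h3.cd, ?_⟩
  rw [h3.lap]
  refine (ff_mm_le h0 h1).trans ?_
  have h4 : 0 ≤ 1 - 16 / 9 * (max (F x - 1 / 2) 0) ^ 2 := by
    have h5 : max (F x - 1 / 2) 0 ≤ 3 / 4 := max_le (by linarith) (by norm_num)
    have h6 : (max (F x - 1 / 2) 0) ^ 2 ≤ (3 / 4) ^ 2 :=
      pow_le_pow_left₀ (le_max_right _ _) h5 2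
    linarith
  have h5 := mul_le_mul_of_nonneg_left hl h4
  have h6 : 0 ≤ max (F x - 1 / 2) 0 * ‖g‖ ^ 2 := mul_nonneg (le_max_right _ _) (sq_nonneg _)
  nlinarith

/-! ### the supersolution -/

theorem wbar_eq_one {x : E5} (h : 3 / 2 < EE x) (hD : 0 ≤ DD x) : wbar x = 1 := by
  unfold wbar
  split_ifs with h1
  · apply mm_eq_one
    have := EE_le_PP h1 hD
    linarith
  · rfl

theorem wbar_eq_mm {x : E5} (h : EE x < 2) : wbar x = mm (PP x) := by
  unfold wbar; rw [if_pos h]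

theorem wbar_eventually_mm {x : E5} (h : EE x < 2) : wbar =ᶠ[𝓝 x] fun y => mm (PP y) := by
  filter_upwards [contDiff_EE.continuous.continuousAt.eventually_lt continuousAt_const h]
    with y hy
  exact wbar_eq_mm hy

theorem wbar_within {x : E5} (h : 2 ≤ EE x) : wbar =ᶠ[𝓝[{x | 0 ≤ DD x}] x] fun _ => 1 := by
  have h1 : ∀ᶠ y in 𝓝 x, 3 / 2 < EE y :=
    continuousAt_const.eventually_lt contDiff_EE.continuous.continuousAt (by linarith)
  filter_upwards [self_mem_nhdsWithin, nhdsWithin_le_nhds h1] with y hy hy1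
  exact wbar_eq_one hy1 hy

theorem wbar_contDiffWithinAt {x : E5} (hx : 0 ≤ DD x) :
    ContDiffWithinAt ℝ 1 wbar {x | 0 ≤ DD x} x := by
  rcases lt_or_ge (EE x) 2 with h | h
  · have h1 : ContDiffAt ℝ 1 (fun y => mm (PP y)) x :=
      (contDiff_mm.comp (contDiff_PP.of_le (by exact_mod_cast le_top))).contDiffAt
    exact (h1.congr_of_eventuallyEq (wbar_eventually_mm h)).contDiffWithinAt
  · exact contDiffWithinAt_const.congr_of_eventuallyEq (wbar_within h)
      (wbar_eq_one (by linarith) hx)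

theorem super_ok : ContinuousOn wbar {x | 0 ≤ DD x} ∧
    (∀ x, 0 ≤ DD x → 0 ≤ wbar x ∧ wbar x ≤ 1) ∧ ContDiffOn ℝ 1 wbar {x | 0 < DD x} ∧
    ∀ x, 0 < DD x → wbar x < 1 → ContDiffAt ℝ 2 wbar x ∧ ff (wbar x) ≤ -(Δ wbar x) := by
  refine ⟨fun x hx => (wbar_contDiffWithinAt hx).continuousWithinAt, fun x hx => ?_,
    fun x hx => (wbar_contDiffWithinAt (le_of_lt hx)).mono fun y (hy : 0 < DD y) => hy.le,
    fun x hx hw => ?_⟩
  · rcases lt_or_ge (EE x) 2 with h | h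
    · rw [wbar_eq_mm h]
      have h1 := EE_le_PP h hx
      have h2 := EE_pos x
      exact ⟨mm_nonneg (by linarith), mm_le_one _⟩
    · rw [wbar_eq_one (by linarith) hx]; norm_num
  · have h : EE x < 2 := by
      by_contra hc
      have := wbar_eq_one (x := x) (by linarith [not_lt.1 hc]) hx.le
      linarith
    have hP : PP x < 5 / 4 := by
      by_contra hc
      have h1 := wbar_eq_mm h
      rw [mm_eq_one (not_lt.1 hc)] at h1
      linarith
    obtain ⟨g, hg⟩ := hasLap_PP x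
    have h1 := EE_le_PP h hx.le
    have h2 := EE_pos x
    obtain ⟨h3, h4⟩ := mm_comp_lap hg hP (by linarith) (PP_le_neg_lapP h hx.le)
    have h5 := wbar_eventually_mm h
    refine ⟨h3.congr_of_eventuallyEq h5, ?_⟩
    rw [wbar_eq_mm h, (laplacian_congr_nhds h5).self_of_nhds]
    exact h4

end Explicit

end Pool.Agent.Lib.MP_3eb465_an
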